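import Pool.Agent.FCV.TargetsG

/-!
# Free curves on hypersurfaces: the annihilator of a functional (T_ANN)
-/

set_option autoImplicit false

open Polynomial

namespace Pool.Agent.FCV

namespace ANN_

variable {κ : Type} [Field κ]

/-- Bezout with degree bounds, first case. -/
theorem bez1 (G H f : Polynomial κ) (a b M : ℕ) (hc : IsCoprime G H) (hG0 : G ≠ 0)
    (hG : G.natDegree = a) (hH : H.natDegree ≤ b) (hM : a + b ≤ M)
    (hf : f.degree < (M : WithBot ℕ)) :
    ∃ A B : Polynomial κ, f = G * A + H * B ∧ A.degree < ((M - a : ℕ) : WithBot ℕ) ∧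
      B.degree < ((M - b : ℕ) : WithBot ℕ) := by
  obtain ⟨u, v, huv⟩ := hc
  have hd : G.degree = (a : WithBot ℕ) := by
    rw [Polynomial.degree_eq_natDegree hG0, hG]
  have hB : ((f * v) % G).degree < (a : WithBot ℕ) := by
    rw [← hd]
    exact Polynomial.degree_mod_lt _ hG0
  have hdiv : G * ((f * v) / G) + (f * v) % G = f * v := EuclideanDomain.div_add_mod _ _
  set B := (f * v) % G with hBdef
  set q := (f * v) / G with hq
  have e : f = G * (f * u + H * q) + H * B := by
    have : f = f * (u * G + v * H) := by rw [huv, mul_one]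
    calc f = f * (u * G + v * H) := this
      _ = G * (f * u) + H * (f * v) := by ring
      _ = G * (f * u) + H * (G * q + B) := by rw [hdiv]
      _ = G * (f * u + H * q) + H * B := by ring
  refine ⟨f * u + H * q, B, e, ?_, ?_⟩
  · by_contra hcon
    rw [not_lt] at hcon
    have h1 : (M : WithBot ℕ) ≤ (G * (f * u + H * q)).degree := by
      rw [Polynomial.degree_mul, hd]
      calc (M : WithBot ℕ) = ((a + (M - a) : ℕ) : WithBot ℕ) := by
            congr 1; omega
        _ = (a : WithBot ℕ) + ((M - a : ℕ) : WithBot ℕ) := by push_cast; rfl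
        _ ≤ _ := by gcongr
    have h2 : (H * B).degree < (M : WithBot ℕ) := by
      by_cases hB0 : B = 0
      · rw [hB0, mul_zero, Polynomial.degree_zero]
        exact WithBot.bot_lt_coe _
      by_cases hH0 : H = 0
      · rw [hH0, zero_mul, Polynomial.degree_zero]
        exact WithBot.bot_lt_coe _
      have h3 : B.natDegree < a := (Polynomial.natDegree_lt_iff_degree_lt hB0).2 hB
      rw [Polynomial.degree_eq_natDegree (mul_ne_zero hH0 hB0),
        Polynomial.natDegree_mul hH0 hB0]
      exact_mod_cast (by omega : H.natDegree + B.natDegree < M)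
    have h3 : (G * (f * u + H * q)).degree = (f - H * B).degree := by
      congr 1
      rw [eq_sub_iff_add_eq]
      exact e.symm
    have h4 : (f - H * B).degree < (M : WithBot ℕ) :=
      lt_of_le_of_lt (Polynomial.degree_sub_le _ _) (max_lt hf h2)
    rw [h3] at h1
    exact absurd h1 (not_le.2 h4)
  · refine lt_of_lt_of_le hB ?_
    exact_mod_cast (by omega : a ≤ M - b)

/-- Bezout with degree bounds. -/
theorem bez (G H f : Polynomial κ) (a b M : ℕ) (hc : IsCoprime G H) (hG0 : G ≠ 0) (hH0 : H ≠ 0)
    (hG : G.natDegree ≤ a) (hH : H.natDegree ≤ b) (hGH : G.natDegree = a ∨ H.natDegree = b)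
    (hM : a + b ≤ M) (hf : f.degree < (M : WithBot ℕ)) :
    ∃ A B : Polynomial κ, f = G * A + H * B ∧ A.degree < ((M - a : ℕ) : WithBot ℕ) ∧
      B.degree < ((M - b : ℕ) : WithBot ℕ) := by
  rcases hGH with h | h
  · exact bez1 G H f a b M hc hG0 h hH hM hf
  · obtain ⟨A, B, e, h1, h2⟩ := bez1 H G f b a M hc.symm hH0 h hG (by omega) hf
    exact ⟨B, A, by rw [e, add_comm], h2, h1⟩

end ANN_

open ANN_ in
/-- The annihilator of a functional. -/
theorem p_ANN : T_ANN := by
  intro κ _ _ lam N c h G H hG0 hGc hG hnd hHh hH hN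
  classical
  by_cases hH0 : H = 0
  · exact ⟨0, by rw [hH0, zero_mul], Or.inl rfl⟩
  set P : Polynomial κ := GCDMonoid.gcd G H with hP
  have hP0 : P ≠ 0 := by
    intro h0
    exact hG0 ((gcd_eq_zero_iff _ _).1 h0).1
  have hPG : P ∣ G := GCDMonoid.gcd_dvd_left _ _
  have hPH : P ∣ H := GCDMonoid.gcd_dvd_right _ _
  have eG : P * (G / P) = G := EuclideanDomain.mul_div_cancel' hP0 hPG
  have eH : P * (H / P) = H := EuclideanDomain.mul_div_cancel' hP0 hPH
  have hco : IsCoprime (G / P) (H / P) := isCoprime_div_gcd_div_gcd hH0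
  set G1 := G / P with hG1
  set H1 := H / P with hH1
  have hG10 : G1 ≠ 0 := by
    rintro h0
    rw [h0, mul_zero] at eG
    exact hG0 eG.symm
  have hH10 : H1 ≠ 0 := by
    rintro h0
    rw [h0, mul_zero] at eH
    exact hH0 eH.symm
  have dG : G.natDegree = P.natDegree + G1.natDegree := by
    rw [← eG, Polynomial.natDegree_mul hP0 hG10]
  have dH : H.natDegree = P.natDegree + H1.natDegree := by
    rw [← eH, Polynomial.natDegree_mul hP0 hH10]
  obtain ⟨s, hs1, hs2, hs3⟩ : ∃ s : ℕ, s ≤ c - G.natDegree ∧ s ≤ h - H.natDegree ∧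
      (s = c - G.natDegree ∨ s = h - H.natDegree) :=
    ⟨min (c - G.natDegree) (h - H.natDegree), min_le_left _ _, min_le_right _ _,
      min_choice _ _⟩
  have hkey : ∀ f : Polynomial κ, f.degree < ((N - (P.natDegree + s) : ℕ) : WithBot ℕ) →
      lam (P * f) = 0 := by
    intro f hf
    obtain ⟨A, B, e, hA, hB⟩ := bez G1 H1 f (c - (P.natDegree + s)) (h - (P.natDegree + s))
      (N - (P.natDegree + s)) hco hG10 hH10 (by omega) (by omega) (by omega) (by omega) hf
    have hA' : A.degree < ((N - c : ℕ) : WithBot ℕ) := by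
      have : N - (P.natDegree + s) - (c - (P.natDegree + s)) = N - c := by omega
      rw [this] at hA
      exact hA
    have hB' : B.degree < ((N - h : ℕ) : WithBot ℕ) := by
      have : N - (P.natDegree + s) - (h - (P.natDegree + s)) = N - h := by omega
      rw [this] at hB
      exact hB
    have : P * f = G * A + H * B := by
      rw [e, ← eG, ← eH]
      ring
    rw [this, map_add, hG A hA', hH B hB', add_zero]
  have hr : c ≤ P.natDegree + s := by
    by_contra hcon
    rw [not_le] at hcon
    refine hP0 (hnd (by omega) P (by omega) fun g hg => hkey g (lt_of_lt_of_le hg ?_))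
    exact_mod_cast (by omega : N - (c - 1) ≤ N - (P.natDegree + s))
  have hG1d : G1.natDegree = 0 := by omega
  obtain ⟨g, hg⟩ := Polynomial.natDegree_eq_zero.1 hG1d
  have hg0 : g ≠ 0 := by
    rintro rfl
    rw [map_zero] at hg
    exact hG10 hg.symm
  refine ⟨Polynomial.C g⁻¹ * H1, ?_, Or.inr ?_⟩
  · rw [← eG, ← eH, ← hg]
    have : (Polynomial.C g⁻¹ : Polynomial κ) * Polynomial.C g = 1 := by
      rw [← Polynomial.C_mul, inv_mul_cancel₀ hg0, Polynomial.C_1]
    calc P * H1 = P * H1 * ((Polynomial.C g⁻¹ : Polynomial κ) * Polynomial.C g) := by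
          rw [this, mul_one]
      _ = _ := by ring
  · rw [Polynomial.natDegree_C_mul (inv_ne_zero hg0)]
    omega

end Pool.Agent.FCV
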