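import Pool.Agent.FCV.TargetsM
import Pool.Agent.WL.CB

/-!
# Free curves on hypersurfaces: moving along a free curve
-/

set_option autoImplicit false

open MvPolynomial
open Pool.Agent.WL

namespace Pool.Agent.FCV

namespace BC_

open Pool.Agent.WL.CB_ (upF_self exists_factor not_dvd_of_coeff exists_functionals)

section Congr

variable {σ A : Type} [CommRing A]

theorem map_eq_of_sub_mem {E : ℕ} (I : Ideal A) {ψ ψ' : Fin E → σ → A} {η η' : σ → A}
    (h : ∀ j i, ψ j i - ψ' j i ∈ I) (h' : ∀ i, η i - η' i ∈ I) (i : σ) :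
    (crv ψ η i).map (Ideal.Quotient.mk I) = (crv ψ' η' i).map (Ideal.Quotient.mk I) := by
  rw [← crv_map, ← crv_map]
  have e1 : (fun j i => Ideal.Quotient.mk I (ψ j i)) = fun j i => Ideal.Quotient.mk I (ψ' j i) := by
    funext j i
    exact Ideal.Quotient.eq.2 (h j i)
  have e2 : (fun i => Ideal.Quotient.mk I (η i)) = fun i => Ideal.Quotient.mk I (η' i) := by
    funext i
    exact Ideal.Quotient.eq.2 (h' i)
  rw [e1, e2]

theorem coeff_congr {E : ℕ} (F : MvPolynomial σ A) (I : Ideal A) {ψ ψ' : Fin E → σ → A}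
    {η η' : σ → A} (h : ∀ j i, ψ j i - ψ' j i ∈ I) (h' : ∀ i, η i - η' i ∈ I) (l : ℕ) :
    (onC F (crv ψ η)).coeff l - (onC F (crv ψ' η')).coeff l ∈ I := by
  have h1 := onC_map (Ideal.Quotient.mk I) F (crv ψ η)
  have h2 := onC_map (Ideal.Quotient.mk I) F (crv ψ' η')
  have e1 : (fun i => (crv ψ η i).map (Ideal.Quotient.mk I)) =
      fun i => (crv ψ' η' i).map (Ideal.Quotient.mk I) := by
    funext i
    exact map_eq_of_sub_mem I h h' i
  rw [e1, h2] at h1
  have h3 := congrArg (fun p => Polynomial.coeff p l) h1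
  simp only [Polynomial.coeff_map] at h3
  exact Ideal.Quotient.eq.1 h3.symm

theorem cminor_congr {E : ℕ} (F : MvPolynomial σ A) (d : ℕ) (I : Ideal A) {ψ ψ' : Fin E → σ → A}
    {η η' : σ → A} (h : ∀ j i, ψ j i - ψ' j i ∈ I) (h' : ∀ i, η i - η' i ∈ I)
    (S : Fin (d * E) → Fin E × σ) :
    cminor F d E (crv ψ η) S - cminor F d E (crv ψ' η') S ∈ I := by
  have h1 := cminor_map (Ideal.Quotient.mk I) F d E (crv ψ η) S
  have h2 := cminor_map (Ideal.Quotient.mk I) F d E (crv ψ' η') S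
  have e1 : (fun i => (crv ψ η i).map (Ideal.Quotient.mk I)) =
      fun i => (crv ψ' η' i).map (Ideal.Quotient.mk I) := by
    funext i
    exact map_eq_of_sub_mem I h h' i
  rw [e1, h2] at h1
  exact Ideal.Quotient.eq.1 h1.symm

theorem coeff_congr' {E : ℕ} (F : MvPolynomial σ (PowerSeries A)) (N : ℕ)
    {ψ ψ' : Fin E → σ → PowerSeries A} {η : σ → PowerSeries A}
    (h : ∀ j i, (PowerSeries.X : PowerSeries A) ^ N ∣ ψ j i - ψ' j i) (l : ℕ) :
    (PowerSeries.X : PowerSeries A) ^ N ∣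
      (onC F (crv ψ η)).coeff l - (onC F (crv ψ' η)).coeff l := by
  rw [← Ideal.mem_span_singleton]
  refine coeff_congr F _ (fun j i => ?_) (fun i => ?_) l
  · exact Ideal.mem_span_singleton.2 (h j i)
  · simp

theorem cminor_congr' {E : ℕ} (F : MvPolynomial σ (PowerSeries A)) (d N : ℕ)
    {ψ ψ' : Fin E → σ → PowerSeries A} {η : σ → PowerSeries A}
    (h : ∀ j i, (PowerSeries.X : PowerSeries A) ^ N ∣ ψ j i - ψ' j i)
    (S : Fin (d * E) → Fin E × σ) :
    (PowerSeries.X : PowerSeries A) ^ N ∣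
      cminor F d E (crv ψ η) S - cminor F d E (crv ψ' η) S := by
  rw [← Ideal.mem_span_singleton]
  refine cminor_congr F d _ (fun j i => ?_) (fun i => ?_) S
  · exact Ideal.mem_span_singleton.2 (h j i)
  · simp

/-- A curve of degree at most `E` is given by its coefficients. -/
theorem crv_coeff (E : ℕ) (f : σ → Polynomial A) (hf : ∀ i, (f i).natDegree ≤ E) :
    crv (fun (j : Fin E) i => (f i).coeff (j : ℕ)) (fun i => (f i).coeff E) = f := by
  funext i
  have h1 := (f i).as_sum_range_C_mul_X_pow' (Nat.lt_succ_of_le (hf i))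
  rw [Finset.sum_range_succ, ← Fin.sum_univ_eq_sum_range
    (fun j => Polynomial.C ((f i).coeff j) * Polynomial.X ^ j)] at h1
  rw [crv]
  exact h1.symm

theorem crv_smul {E : ℕ} (ψ : Fin E → σ → A) (η : σ → A) (w : A) :
    crv (fun j i => w * ψ j i) (fun i => w * η i) = fun i => Polynomial.C w * crv ψ η i := by
  funext i
  simp only [crv, mul_add, Finset.mul_sum, Polynomial.C_mul]
  congr 1
  · exact Finset.sum_congr rfl fun j _ => by ring
  · ring

end Congr

section Basic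

variable {k : Type} [Field k]

/-- The scaled curve. -/
theorem crv_scaled (n E : ℕ) (f : Fin (n + 1) → Polynomial (PowerSeries k))
    (hf : ∀ i, (f i).natDegree ≤ E) (w : PowerSeries k) :
    crv (fun (j : Fin E) i => w * (f i).coeff (j : ℕ)) (fun i => w * (f i).coeff E) =
      fun i => Polynomial.C w * f i := by
  rw [crv_smul, crv_coeff E f hf]

/-- The minor at the base point. -/
theorem base_minor (n d E : ℕ) (h9 : T_HOMC)
    (F : MvPolynomial (Fin (n + 1)) (PowerSeries k)) (hF : F.IsHomogeneous d)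
    (f : Fin (n + 1) → Polynomial (PowerSeries k)) (hf : ∀ i, (f i).natDegree ≤ E)
    (S : Fin (d * E) → Fin E × Fin (n + 1))
    (N u v : ℕ) (p' m' : PowerSeries k)
    (hp' : PowerSeries.constantCoeff p' ≠ 0)
    (hm : cminor F d E f S = PowerSeries.X ^ v * m')
    (hm' : PowerSeries.constantCoeff m' ≠ 0)
    (ψ : Fin E → Fin (n + 1) → PowerSeries k)
    (hψ : ∀ j i, (PowerSeries.X : PowerSeries k) ^ N ∣
      ψ j i - PowerSeries.X ^ u * p' * (f i).coeff (j : ℕ))
    (hN : u * ((d - 1) * (d * E)) + v < N) :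
    PowerSeries.coeff (u * ((d - 1) * (d * E)) + v)
      (cminor F d E (crv ψ (fun i => PowerSeries.X ^ u * p' * (f i).coeff E)) S) ≠ 0 := by
  have h1 := cminor_congr' F d N (η := fun i => PowerSeries.X ^ u * p' * (f i).coeff E) hψ S
  have h2 := PowerSeries.X_pow_dvd_iff.1 h1 _ hN
  rw [map_sub, sub_eq_zero] at h2
  rw [h2, crv_scaled n E f hf]
  have h3 := (h9 _ _ F d E hF f (PowerSeries.X ^ u * p')).2 S
  rw [h3, hm, mul_pow, ← pow_mul]
  have e2 : (PowerSeries.X : PowerSeries k) ^ (u * ((d - 1) * (d * E))) *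
      p' ^ ((d - 1) * (d * E)) * (PowerSeries.X ^ v * m') =
      PowerSeries.X ^ (u * ((d - 1) * (d * E)) + v) * (p' ^ ((d - 1) * (d * E)) * m') := by
    rw [pow_add]
    ring
  rw [e2]
  have h4 := PowerSeries.coeff_X_pow_mul (p' ^ ((d - 1) * (d * E)) * m')
    (u * ((d - 1) * (d * E)) + v) 0
  rw [zero_add] at h4
  rw [h4]
  simpa using ⟨fun h => absurd h hp', hm'⟩

/-- The coefficients at the base point. -/
theorem base_coeff (n d E : ℕ) (h9 : T_HOMC)
    (F : MvPolynomial (Fin (n + 1)) (PowerSeries k)) (hF : F.IsHomogeneous d)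
    (f : Fin (n + 1) → Polynomial (PowerSeries k)) (hf : ∀ i, (f i).natDegree ≤ E)
    (hl : onC F f = 0) (w : PowerSeries k) (N : ℕ)
    (ψ : Fin E → Fin (n + 1) → PowerSeries k)
    (hψ : ∀ j i, (PowerSeries.X : PowerSeries k) ^ N ∣ ψ j i - w * (f i).coeff (j : ℕ)) (l : ℕ) :
    (PowerSeries.X : PowerSeries k) ^ N ∣
      (onC F (crv ψ (fun i => w * (f i).coeff E))).coeff l := by
  have h1 := coeff_congr' F N (η := fun i => w * (f i).coeff E) hψ l
  rw [crv_scaled n E f hf, (h9 _ _ F d E hF f w).1, hl] at h1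
  simpa using h1

/-- The value of the form at the base point. -/
theorem base_eval (n d E : ℕ) (hE : 1 ≤ E) (h9 : T_HOMC) (h10 : T_BINC)
    (F : MvPolynomial (Fin (n + 1)) (PowerSeries k)) (hF : F.IsHomogeneous d)
    (f : Fin (n + 1) → Polynomial (PowerSeries k)) (hf : ∀ i, (f i).natDegree ≤ E)
    (hl : onC F f = 0) (P : PowerSeries k) :
    eval (fun i => P * (f i).coeff E) F = 0 := by
  have h3 := (h10 _ _ F d E hE hF (fun (j : Fin E) i => P * (f i).coeff (j : ℕ))
    (fun i => P * (f i).coeff E)).2.2.1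
  rw [crv_scaled n E f hf, (h9 _ _ F d E hF f P).1, hl] at h3
  simpa using h3.symm

end Basic

section Point

variable {k : Type} [Field k] {n E N M : ℕ}

theorem phiC_self (e : Fin M → PowerSeries k) (z : IdxC n E N M → k)
    (i : Fin (n + 1)) : phiC e z i = ∑ b, z (Sum.inr (Sum.inr (i, b))) • e b := by
  unfold phiC
  refine Finset.sum_congr rfl fun b _ => ?_
  rw [PowerSeries.smul_eq_C_mul]
  congr 1

/-- The base point. -/
noncomputable def bpt (x : Fin E → Fin (n + 1) → PowerSeries k) (t : Fin (n + 1) → Fin M → k) :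
    IdxC n E N M → k
  | Sum.inl (j, i, b) => PowerSeries.coeff (b : ℕ) (x j i)
  | Sum.inr (Sum.inl _) => 0
  | Sum.inr (Sum.inr (i, b)) => t i b

theorem qC_eq_zero {A : Type} [CommRing A] (z : IdxC n E N M → A)
    (hz : ∀ b, z (Sum.inr (Sum.inl b)) = 0) : qC z = 0 := by
  ext a
  simp [qC, hz]

theorem bpt_q (x : Fin E → Fin (n + 1) → PowerSeries k) (t : Fin (n + 1) → Fin M → k) :
    qC (bpt x t : IdxC n E N M → k) = 0 :=
  qC_eq_zero _ fun _ => rfl

theorem psC_dvd {e₀ : ℕ} (he : e₀ ≤ N) (x : Fin E → Fin (n + 1) → PowerSeries k)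
    (z : IdxC n E N M → k) (j : Fin E)
    (hz : ∀ (i : Fin (n + 1)) (b : Fin N), (b : ℕ) < e₀ →
      z (Sum.inl (j, i, b)) = PowerSeries.coeff (b : ℕ) (x j i)) (i : Fin (n + 1)) :
    (PowerSeries.X : PowerSeries k) ^ e₀ ∣ psC z j i - x j i := by
  refine PowerSeries.X_pow_dvd_iff.2 fun m hm => ?_
  rw [map_sub, sub_eq_zero, psC, PowerSeries.coeff_mk, dif_pos (hm.trans_le he)]
  exact hz i ⟨m, hm.trans_le he⟩ hm

theorem bpt_x (x : Fin E → Fin (n + 1) → PowerSeries k) (t : Fin (n + 1) → Fin M → k)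
    (j : Fin E) (i : Fin (n + 1)) :
    (PowerSeries.X : PowerSeries k) ^ N ∣ psC (bpt x t : IdxC n E N M → k) j i - x j i :=
  psC_dvd le_rfl x _ j (fun _ _ _ => rfl) i

theorem bpt_phi (x : Fin E → Fin (n + 1) → PowerSeries k) (t : Fin (n + 1) → Fin M → k)
    (e : Fin M → PowerSeries k) (i : Fin (n + 1)) :
    phiC e (bpt x t : IdxC n E N M → k) i = ∑ b, t i b • e b := by
  rw [phiC_self]
  rfl

/-- The last coefficient when the factor vanishes. -/
theorem sum_zero {A : Type} [CommRing A] (z : IdxC n E N M → A) (hq : qC z = 0)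
    (i : Fin (n + 1)) (ψ : Fin E → Fin (n + 1) → PowerSeries A) :
    ∑ j : Fin E, qC z ^ (E - (j : ℕ)) * PowerSeries.X ^ ((j : ℕ) * N) * ψ j i = 0 := by
  refine Finset.sum_eq_zero fun j _ => ?_
  rw [hq, zero_pow (Nat.sub_ne_zero_of_lt j.2), zero_mul, zero_mul]

theorem eta_of_zero {L : Type} [Field L] [Algebra k L] (e : Fin M → PowerSeries k)
    (z : IdxC n E N M → L) (hq : qC z = 0) (i : Fin (n + 1)) (ψ : PowerSeries L)
    (h : phiC e z i = PowerSeries.X ^ (E * N) * ψ) :
    etaC e z i = ψ := by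
  ext a
  rw [etaC, PowerSeries.coeff_mk, sum_zero z hq i, h, sub_zero]
  exact PowerSeries.coeff_X_pow_mul ψ (E * N) a

/-- The base point is a solution of the refined system. -/
theorem bpt_sys (d : ℕ) (h9 : T_HOMC)
    (F : MvPolynomial (Fin (n + 1)) (PowerSeries k)) (hF : F.IsHomogeneous d)
    (f : Fin (n + 1) → Polynomial (PowerSeries k)) (hf : ∀ i, (f i).natDegree ≤ E)
    (hl : onC F f = 0) (w : PowerSeries k)
    (t : Fin (n + 1) → Fin M → k) (e : Fin M → PowerSeries k)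
    (h : ∀ i, ∑ b, t i b • e b = PowerSeries.X ^ (E * N) * (w * (f i).coeff E)) :
    SysC F d E N (psC (bpt (fun (j : Fin E) i => w * (f i).coeff (j : ℕ)) t : IdxC n E N M → k))
      (qC (bpt (fun (j : Fin E) i => w * (f i).coeff (j : ℕ)) t : IdxC n E N M → k))
      (phiC e (bpt (fun (j : Fin E) i => w * (f i).coeff (j : ℕ)) t : IdxC n E N M → k)) := by
  have h1 := base_coeff n d E h9 F hF f hf hl w N
    (psC (bpt (fun (j : Fin E) i => w * (f i).coeff (j : ℕ)) t : IdxC n E N M → k))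
    (bpt_x (fun (j : Fin E) i => w * (f i).coeff (j : ℕ)) t)
  choose B hB using h1
  refine ⟨fun i => w * (f i).coeff E, B, fun i => ?_, hB 0, fun j _ => ?_⟩
  · rw [sum_zero _ (bpt_q _ t) i, bpt_phi, h, zero_add]
  · rw [hB (j + 1), bpt_q, zero_mul, sub_zero]

/-- The equations that fix the first coefficients of the first arc. -/
theorem eqX (n E N M e₀ : ℕ) (j : Fin E) (x : Fin (n + 1) → PowerSeries k) :
    ∃ f : Finset (MvPolynomial (IdxC n E N M) k), f.card ≤ (n + 1) * e₀ ∧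
      ∀ (L : Type) [Field L] [Algebra k L] (z : IdxC n E N M → L), (∀ g ∈ f, aeval z g = 0) ↔
        ∀ (i : Fin (n + 1)) (b : Fin N), (b : ℕ) < e₀ →
          z (Sum.inl (j, i, b)) = algebraMap k L (PowerSeries.coeff (b : ℕ) (x i)) := by
  classical
  refine ⟨((Finset.univ : Finset (Fin (n + 1))) ×ˢ
    (Finset.univ.filter fun b : Fin N => (b : ℕ) < e₀)).image
      (fun ib => X (Sum.inl (j, ib.1, ib.2)) - C (PowerSeries.coeff (ib.2 : ℕ) (x ib.1))), ?_, ?_⟩
  · refine Finset.card_image_le.trans ?_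
    rw [Finset.card_product, Finset.card_univ, Fintype.card_fin]
    refine Nat.mul_le_mul_left _ ?_
    have h1 : (Finset.univ.filter fun b : Fin N => (b : ℕ) < e₀).card ≤ (Finset.range e₀).card := by
      refine Finset.card_le_card_of_injOn (fun b : Fin N => (b : ℕ)) ?_ ?_
      · intro b hb
        simpa using hb
      · intro b _ b' _ hbb
        exact Fin.ext hbb
    simpa using h1
  · intro L _ _ z
    constructor
    · intro h i b hb
      have hmem : (i, b) ∈ (Finset.univ : Finset (Fin (n + 1))) ×ˢ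
          (Finset.univ.filter fun b : Fin N => (b : ℕ) < e₀) := by
        simp [hb]
      have h1 := h _ (Finset.mem_image_of_mem _ hmem)
      simpa [sub_eq_zero] using h1
    · intro h g hg
      obtain ⟨⟨i, b⟩, hib, rfl⟩ := Finset.mem_image.1 hg
      have hb := (Finset.mem_filter.1 (Finset.mem_product.1 hib).2).2
      have h1 := h i b hb
      simp [h1]

/-- The equations that kill the last coefficients of the factor. -/
theorem eqQ (n E N M i₁ : ℕ) (hi : i₁ ≤ N) :
    ∃ f : Finset (MvPolynomial (IdxC n E N M) k), f.card + i₁ ≤ N ∧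
      ∀ (L : Type) [Field L] [Algebra k L] (z : IdxC n E N M → L), (∀ g ∈ f, aeval z g = 0) ↔
        ∀ b : Fin N, i₁ ≤ (b : ℕ) → z (Sum.inr (Sum.inl b)) = 0 := by
  classical
  refine ⟨(Finset.univ.filter fun b : Fin N => i₁ ≤ (b : ℕ)).image
      (fun b => X (Sum.inr (Sum.inl b))), ?_, ?_⟩
  · have h1 : (Finset.univ.filter fun b : Fin N => i₁ ≤ (b : ℕ)).card ≤
        (Finset.Ico i₁ N).card := by
      refine Finset.card_le_card_of_injOn (fun b : Fin N => (b : ℕ)) ?_ ?_
      · intro b hb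
        have hb' := (Finset.mem_filter.1 (Finset.mem_coe.1 hb)).2
        exact Finset.mem_coe.2 (Finset.mem_Ico.2 ⟨hb', b.2⟩)
      · intro b _ b' _ hbb
        exact Fin.ext hbb
    rw [Nat.card_Ico] at h1
    have h2 := (Finset.card_image_le (s := Finset.univ.filter fun b : Fin N => i₁ ≤ (b : ℕ))
      (f := fun b => (X (Sum.inr (Sum.inl b)) : MvPolynomial (IdxC n E N M) k)))
    omega
  · intro L _ _ z
    constructor
    · intro h b hb
      have h1 := h _ (Finset.mem_image_of_mem _ (Finset.mem_filter.2 ⟨Finset.mem_univ b, hb⟩))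
      simpa using h1
    · intro h g hg
      obtain ⟨b, hb, rfl⟩ := Finset.mem_image.1 hg
      have h1 := h b (Finset.mem_filter.1 hb).2
      simp [h1]

/-- Linear equations in the coordinates of the section. -/
theorem eqL (n E N M s : ℕ) (Λ : Fin s → Fin M → k) (t : Fin (n + 1) → Fin M → k) :
    ∃ f : Finset (MvPolynomial (IdxC n E N M) k), f.card ≤ (n + 1) * s ∧
      ∀ (L : Type) [Field L] [Algebra k L] (z : IdxC n E N M → L), (∀ g ∈ f, aeval z g = 0) ↔
        ∀ (i : Fin (n + 1)) (l : Fin s), ∑ b, algebraMap k L (Λ l b) *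
          (z (Sum.inr (Sum.inr (i, b))) - algebraMap k L (t i b)) = 0 := by
  classical
  refine ⟨(Finset.univ : Finset (Fin (n + 1) × Fin s)).image
      (fun il => ∑ b, C (Λ il.2 b) * (X (Sum.inr (Sum.inr (il.1, b))) - C (t il.1 b))), ?_, ?_⟩
  · refine Finset.card_image_le.trans ?_
    rw [Finset.card_univ, Fintype.card_prod, Fintype.card_fin, Fintype.card_fin]
  · intro L _ _ z
    constructor
    · intro h i l
      have h1 := h _ (Finset.mem_image_of_mem _ (Finset.mem_univ (i, l)))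
      simpa using h1
    · intro h g hg
      obtain ⟨⟨i, l⟩, hb, rfl⟩ := Finset.mem_image.1 hg
      have h1 := h i l
      simpa using h1

end Point

section Count

variable {k L : Type} [Field k] [Field L] [Algebra k L] {n E N M : ℕ}

/-- The coefficients of the last coefficient are generated by the coordinates of the section. -/
theorem eta_mem (e : Fin M → PowerSeries k) (z : IdxC n E N M → L) (hq : qC z = 0)
    (E₀ : IntermediateField k L) (i : Fin (n + 1))
    (hE : ∀ b, z (Sum.inr (Sum.inr (i, b))) ∈ E₀) (a : ℕ) :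
    PowerSeries.coeff a (etaC e z i) ∈ E₀ := by
  rw [etaC, PowerSeries.coeff_mk, sum_zero z hq i, sub_zero, phiC, map_sum]
  refine sum_mem fun b _ => ?_
  rw [PowerSeries.coeff_C_mul, PowerSeries.coeff_map]
  exact mul_mem (hE b) (E₀.algebraMap_mem _)

/-- The count when the factor vanishes. -/
theorem count (h4 : T_COMB) (h8 : T_CNTC) (d c₁ D : ℕ)
    (F : MvPolynomial (Fin (n + 1)) (PowerSeries k)) (V : Submodule k (PowerSeries k))
    (eb : Fin M → PowerSeries k) (o : Fin M → ℕ) (had : Adapted V M eb o)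
    (hD : ∀ b, o b < D) (S : Fin (d * E) → Fin E × Fin (n + 1)) (z : IdxC n E N M → L)
    (hz : ∀ b, z (Sum.inr (Sum.inl b)) = 0)
    (hS : SysC (upF L F) d E N (psC z) (qC z) (phiC eb z))
    (hm : PowerSeries.coeff c₁ (cminor (upF L F) d E (crv (psC z) (etaC eb z)) S) ≠ 0) :
    ∃ T : Finset L, (∀ i, z i ∈ IntermediateField.adjoin k (T : Set L)) ∧
      T.card + d * E * N ≤ (n + 1) * (D - E * N) + E * (n + 1) * N + d * E * (2 * c₁ + 1) := by
  classical
  have hq : qC z = 0 := qC_eq_zero z hz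
  obtain ⟨η, B, hφ, hB0, hB⟩ := hS
  have hφ' : ∀ i, phiC eb z i = PowerSeries.X ^ (E * N) * η i := by
    intro i
    rw [hφ i, sum_zero z hq i, zero_add]
  rw [hq] at hB
  have hη : etaC eb z = η := by
    funext i
    exact eta_of_zero eb z hq i (η i) (hφ' i)
  -- coordinates of small order vanish
  have hsmall : ∀ i b, o b < E * N → z (Sum.inr (Sum.inr (i, b))) = 0 := by
    intro i
    refine (h4 k V M eb o had L (fun b => z (Sum.inr (Sum.inr (i, b))))).1 (E * N) ?_
    intro a ha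
    have h1 : phiC eb z i = ∑ b, PowerSeries.C (z (Sum.inr (Sum.inr (i, b)))) *
      up k L (eb b) := rfl
    rw [← h1, hφ' i]
    exact PowerSeries.X_pow_dvd_iff.1 (Dvd.intro _ rfl) a ha
  -- the other coordinates
  let T₁ : Finset L := (((Finset.univ : Finset (Fin (n + 1))) ×ˢ
    (Finset.univ.filter fun b : Fin M => E * N ≤ o b)).image
      fun ib => z (Sum.inr (Sum.inr (ib.1, ib.2))))
  have hT₁ : T₁.card ≤ (n + 1) * (D - E * N) := by
    refine Finset.card_image_le.trans ?_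
    rw [Finset.card_product, Finset.card_univ, Fintype.card_fin]
    refine Nat.mul_le_mul_left _ ?_
    rw [← Nat.card_Ico]
    refine Finset.card_le_card_of_injOn o ?_ ?_
    · intro b hb
      have hb' := (Finset.mem_filter.1 (Finset.mem_coe.1 hb)).2
      exact Finset.mem_coe.2 (Finset.mem_Ico.2 ⟨hb', hD b⟩)
    · exact had.mono.injective.injOn
  let E₀ : IntermediateField k L := IntermediateField.adjoin k (T₁ : Set L)
  have hE : ∀ i b, z (Sum.inr (Sum.inr (i, b))) ∈ E₀ := by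
    intro i b
    by_cases hb : o b < E * N
    · rw [hsmall i b hb]
      exact zero_mem _
    · refine IntermediateField.subset_adjoin k (T₁ : Set L) (Finset.mem_coe.2 ?_)
      have hmem : (i, b) ∈ (Finset.univ : Finset (Fin (n + 1))) ×ˢ
          (Finset.univ.filter fun b : Fin M => E * N ≤ o b) := by
        simpa using Nat.not_lt.1 hb
      exact Finset.mem_image_of_mem (fun ib : Fin (n + 1) × Fin M =>
        z (Sum.inr (Sum.inr (ib.1, ib.2)))) hmem
  let y' : Fin (n + 1) → PowerSeries E₀ := fun i => PowerSeries.mk fun a =>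
    ⟨PowerSeries.coeff a (etaC eb z i), eta_mem eb z hq E₀ i (hE i) a⟩
  have hy' : (fun i => up E₀ L (y' i)) = η := by
    funext i
    rw [← hη]
    ext a
    simp only [up, PowerSeries.coeff_map, y', PowerSeries.coeff_mk]
    rfl
  have hdiv : ∀ l < d * E, (PowerSeries.X : PowerSeries L) ^ N ∣
      (onC (upF L F) (crv (psC z) (fun i => up E₀ L (y' i)))).coeff l := by
    intro l hl
    rw [hy']
    cases l with
    | zero => exact ⟨B 0, hB0⟩
    | succ l =>
      refine ⟨B (l + 1), ?_⟩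
      rw [hB l hl, zero_mul, sub_zero]
  have hmin : ¬ (PowerSeries.X : PowerSeries L) ^ (c₁ + 1) ∣
      cminor (upF L F) d E (crv (psC z) (fun i => up E₀ L (y' i))) S := by
    rw [hy', ← hη]
    exact not_dvd_of_coeff hm
  obtain ⟨T, hTc, hT⟩ := h8 k E₀ L n d E N c₁ F (psC z) y' S hdiv hmin
  have hEm : ∀ w : L, w ∈ IntermediateField.adjoin E₀ (T : Set L) →
      w ∈ IntermediateField.adjoin k ((T₁ ∪ T : Finset L) : Set L) := by
    intro w hw
    have h1 := IntermediateField.adjoin_adjoin_left k (T₁ : Set L) (T : Set L)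
    rw [Finset.coe_union, ← h1]
    exact hw
  refine ⟨T₁ ∪ T, ?_, ?_⟩
  · rintro (⟨j, i, b⟩ | b | ⟨i, b⟩)
    · have h1 := hEm _ (hT j i b b.2)
      rw [psC, PowerSeries.coeff_mk, dif_pos b.2] at h1
      exact h1
    · rw [hz b]
      exact zero_mem _
    · refine IntermediateField.adjoin.mono k _ _ ?_ (hE i b)
      rw [Finset.coe_union]
      exact Set.subset_union_left
  · have h1 := Finset.card_union_le T₁ T
    omega

end Count

/-- The final arithmetic. -/
theorem arith (n d E δ c m₀ mN m N M D u D' v c₁ c' s e₀ i₁ fc Oc fx fq fl tc : ℕ)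
    (hm : m = mN + m₀ + c) (hmN : δ * mN ≤ E * N + c) (hM : δ * m ≤ M + c)
    (hNm : E * N ≤ δ * mN + c)
    (hD : D = δ * m + c + 1) (hu : u ≤ 2 * c) (hc₁ : c₁ = u * D' + v) (hs : s ≤ c')
    (hO : Oc ≤ δ * (d * m + (d + 1) * c) + c + 1 - d * E * N)
    (hf : fc ≤ (n + 1) * (E * N) + d * E * N + Oc) (hfx : fx ≤ (n + 1) * e₀)
    (hfq : fq + i₁ ≤ N)
    (hfl : fl ≤ (n + 1) * s)
    (htc : tc + d * E * N ≤ (n + 1) * (D - E * N) + E * (n + 1) * N + d * E * (2 * c₁ + 1))
    (hht : E * (n + 1) * N + (N + (n + 1) * M) ≤ tc + (fc + fx + fq + fl)) :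
    i₁ ≤ (n + 1) * (2 * c + δ * m₀ + δ * c + 1) + (n + 1) * (2 * c) +
      d * E * (2 * (2 * c * D' + v) + 1) + (d * (c + δ * m₀ + δ * c) + δ * ((d + 1) * c) + c + 1) +
      (n + 1) * e₀ + (n + 1) * c' := by
  have e1 : δ * m = δ * mN + δ * m₀ + δ * c := by rw [hm]; ring
  have h1 : Oc ≤ d * (c + δ * m₀ + δ * c) + δ * ((d + 1) * c) + c + 1 := by
    have h2 : δ * (d * m + (d + 1) * c) = d * (δ * m) + δ * ((d + 1) * c) := by ring
    have h3 : d * (δ * m) ≤ d * (E * N + (c + δ * m₀ + δ * c)) := by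
      refine Nat.mul_le_mul_left d ?_
      omega
    have h4 : d * (E * N + (c + δ * m₀ + δ * c)) = d * E * N + d * (c + δ * m₀ + δ * c) := by
      ring
    omega
  have h2 : (n + 1) * (D - E * N) ≤ (n + 1) * (2 * c + δ * m₀ + δ * c + 1) := by
    refine Nat.mul_le_mul_left _ ?_
    omega
  have h3 : (n + 1) * (E * N) ≤ (n + 1) * M + (n + 1) * (2 * c) := by
    rw [← Nat.mul_add]
    refine Nat.mul_le_mul_left _ ?_
    omega
  have h4 : d * E * (2 * c₁ + 1) ≤ d * E * (2 * (2 * c * D' + v) + 1) := by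
    refine Nat.mul_le_mul_left _ ?_
    have h5 : u * D' ≤ 2 * c * D' := Nat.mul_le_mul_right _ hu
    omega
  have h5 : (n + 1) * s ≤ (n + 1) * c' := Nat.mul_le_mul_left _ hs
  generalize (n + 1) * (D - E * N) = A1 at *
  generalize (n + 1) * (2 * c + δ * m₀ + δ * c + 1) = A2 at *
  generalize (n + 1) * (E * N) = A3 at *
  generalize (n + 1) * M = A4 at *
  generalize (n + 1) * (2 * c) = A5 at *
  generalize d * E * (2 * c₁ + 1) = A6 at *
  generalize d * E * (2 * (2 * c * D' + v) + 1) = A7 at *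
  generalize d * (c + δ * m₀ + δ * c) + δ * ((d + 1) * c) + c + 1 = A8 at *
  generalize (n + 1) * s = A9 at *
  generalize (n + 1) * c' = A10 at *
  generalize (n + 1) * e₀ = A11 at *
  generalize d * E * N = A12 at *
  generalize E * (n + 1) * N = A13 at *
  omega

end BC_

open BC_ in
open Pool.Agent.WL.CB_ (upF_self exists_factor exists_functionals) in
/-- Moving along a free curve. -/
theorem p_BC (h1 : T_HT) (h2 : T_NS) (h3 : T_ORD) (h4 : T_COMB) (h5 : T_ZRC) (h6 : T_SYSFC)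
    (h7 : T_MINC) (h8 : T_CNTC) (h9 : T_HOMC) (h10 : T_BINC) : T_BC := by
  classical
  intro k _ _ n d E F δ c V f' m₀ S p mp U c' hd hE hF hV hdeg hy hl hmin hp hU e₀
  -- the order of the minor
  obtain ⟨v, m', hm, hm', -, -⟩ := exists_factor hmin
  -- constants
  obtain ⟨D', hD'⟩ : ∃ D', D' = (d - 1) * (d * E) := ⟨_, rfl⟩
  obtain ⟨e₁, he₁⟩ : ∃ e₁, e₁ = 2 * c + e₀ := ⟨_, rfl⟩
  obtain ⟨i₁, hi₁⟩ : ∃ i₁, i₁ = (n + 1) * (2 * c + δ * m₀ + δ * c + 1) + (n + 1) * (2 * c) +
      d * E * (2 * (2 * c * D' + v) + 1) + (d * (c + δ * m₀ + δ * c) + δ * ((d + 1) * c) + c + 1) +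
      (n + 1) * e₁ + (n + 1) * c' + 1 := ⟨_, rfl⟩
  obtain ⟨N, hN⟩ : ∃ N, N = i₁ + E * i₁ + e₁ + (2 * c * D' + v) + 1 := ⟨_, rfl⟩
  obtain ⟨hpV, hpX, hp0, hpm⟩ := hp (E * N)
  obtain ⟨m, hmdef⟩ : ∃ m, m = mp (E * N) + m₀ + c := ⟨_, rfl⟩
  have := hV.fin m
  obtain ⟨M, eb, o, had⟩ := h3 k (V m)
  -- the base section
  have hstar : ∀ i, p (E * N) * (f' i).coeff E ∈ V m := by
    intro i
    rw [hmdef]
    exact hV.mul _ _ _ hpV _ (hy i)
  choose t ht using fun i => had.span _ (hstar i)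
  obtain ⟨P, hP⟩ := hpX
  have hP0 : P ≠ 0 := by
    rintro rfl
    exact hp0 (by rw [hP, mul_zero])
  obtain ⟨u, p', hPu, hp', -, -⟩ := exists_factor hP0
  have hu : u ≤ 2 * c := by
    by_contra hcon
    refine hp0 (hV.ord (mp (E * N)) (p (E * N)) hpV ?_)
    rw [hP, hPu, ← mul_assoc, ← pow_add]
    refine (pow_dvd_pow _ ?_).mul_right _
    omega
  have hNm : E * N ≤ δ * mp (E * N) + c := by
    by_contra hcon
    refine hp0 (hV.ord (mp (E * N)) (p (E * N)) hpV ?_)
    rw [hP]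
    refine (pow_dvd_pow _ ?_).mul_right _
    omega
  have hbase : ∀ i, ∑ b, t i b • eb b = PowerSeries.X ^ (E * N) * (P * (f' i).coeff E) := by
    intro i
    rw [← ht i, hP, mul_assoc]
  obtain ⟨pt, hpt⟩ : ∃ pt : IdxC n E N M → k,
    pt = bpt (fun (j : Fin E) i => P * (f' i).coeff (j : ℕ)) t := ⟨_, rfl⟩
  have hsys := bpt_sys (N := N) d h9 F hF f' hdeg hl P t eb hbase
  rw [← hpt] at hsys
  have hev : eval (phiC eb pt) F = 0 := by
    have e1 : phiC eb pt = fun i => (PowerSeries.X ^ (E * N) * P) * (f' i).coeff E := by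
      funext i
      rw [hpt, bpt_phi, hbase, mul_assoc]
    rw [e1]
    exact base_eval n d E hE h9 h10 F hF f' hdeg hl _
  have heta : etaC eb pt = fun i => PowerSeries.X ^ u * p' * (f' i).coeff E := by
    funext i
    rw [← hPu]
    refine eta_of_zero eb pt ?_ i _ ?_
    · rw [hpt]
      exact bpt_q _ t
    · rw [hpt, bpt_phi, hbase]
  obtain ⟨c₁, hc₁⟩ : ∃ c₁, c₁ = u * D' + v := ⟨_, rfl⟩
  have huD : u * D' ≤ 2 * c * D' := Nat.mul_le_mul_right _ hu
  have hminb : PowerSeries.coeff c₁ (cminor F d E (crv (psC pt) (etaC eb pt)) S) ≠ 0 := by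
    rw [heta, hc₁, hD']
    refine base_minor n d E h9 F hF f' hdeg S N u v p' m' hp' hm hm' _ ?_ ?_
    · intro j i
      rw [← hPu, hpt]
      exact bpt_x (fun (j : Fin E) i => P * (f' i).coeff (j : ℕ)) t j i
    · rw [← hD']
      omega
  -- the equations
  obtain ⟨O, hO, hZ⟩ := h5 k n d E F δ c V hd hE hF hV N m M eb had.mem
  obtain ⟨f, hf, hfz⟩ := h6 k n d E N M F eb O hd hE
  obtain ⟨fx, hfx, hfxz⟩ := eqX (k := k) n E N M e₁ ⟨0, hE⟩ (fun i => P * (f' i).coeff 0)
  obtain ⟨fq, hfq, hfqz⟩ := eqQ (k := k) n E N M i₁ (by omega)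
  obtain ⟨s, Λ, hs, hΛ⟩ := exists_functionals (V m) U c' (hU m) M eb had.mem
  obtain ⟨fl, hfl, hflz⟩ := eqL (k := k) n E N M s Λ t
  obtain ⟨g, hg⟩ := h7 k n d E N M c₁ F eb S
  have hall : ∀ (L : Type) [Field L] [Algebra k L] (z : IdxC n E N M → L),
      (∀ g ∈ f ∪ fx ∪ fq ∪ fl, aeval z g = 0) ↔ ((∀ g ∈ f, aeval z g = 0) ∧
        (∀ g ∈ fx, aeval z g = 0) ∧ (∀ g ∈ fq, aeval z g = 0) ∧ (∀ g ∈ fl, aeval z g = 0)) := by
    intro L _ _ z
    constructor
    · intro h
      refine ⟨fun g hg => h g ?_, fun g hg => h g ?_, fun g hg => h g ?_, fun g hg => h g ?_⟩ <;>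
        simp [hg]
    · rintro ⟨ha, hb, hc, hd⟩ g hg
      simp only [Finset.mem_union] at hg
      rcases hg with ((hg | hg) | hg) | hg
      · exact ha g hg
      · exact hb g hg
      · exact hc g hg
      · exact hd g hg
  -- the base point is a solution
  have hP0 : ∀ g ∈ f ∪ fx ∪ fq ∪ fl, eval pt g = 0 := by
    have h := (hall k pt).2 ⟨?_, ?_, ?_, ?_⟩
    · intro g hg
      have := h g hg
      rwa [MvPolynomial.aeval_eq_eval] at this
    · refine (hfz k _).2 ?_
      rw [upF_self]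
      refine ⟨hsys, fun o _ => ?_⟩
      rw [hev, map_zero]
    · refine (hfxz k _).2 fun i b _ => ?_
      rw [hpt]
      rfl
    · refine (hfqz k _).2 fun b _ => ?_
      rw [hpt]
      rfl
    · refine (hflz k _).2 fun i l => ?_
      refine Finset.sum_eq_zero fun b _ => ?_
      have : pt (Sum.inr (Sum.inr (i, b))) = t i b := by
        rw [hpt]
        rfl
      rw [this]
      simp
  obtain ⟨L, iL, iA, z, hz, hspec, htr⟩ := h1 k (IdxC n E N M) pt _ hP0
  obtain ⟨hz1, hz2, hz3, hz4⟩ := (hall L z).1 hz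
  -- the minor does not vanish at the generic solution
  have hminz : PowerSeries.coeff c₁ (cminor (upF L F) d E (crv (psC z) (etaC eb z)) S) ≠ 0 := by
    rw [← hg L z]
    intro h0
    have h := hspec g h0
    have h' := hg k pt
    rw [MvPolynomial.aeval_eq_eval, h, upF_self] at h'
    exact hminb h'.symm
  -- the factor does not vanish at the generic solution
  have hqz : ∃ b : Fin N, (b : ℕ) < i₁ ∧ z (Sum.inr (Sum.inl b)) ≠ 0 := by
    by_contra hcon
    push Not at hcon
    have hq0 : ∀ b, z (Sum.inr (Sum.inl b)) = 0 := by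
      intro b
      by_cases hb : (b : ℕ) < i₁
      · exact hcon b hb
      · exact (hfqz L z).1 hz3 b (Nat.not_lt.1 hb)
    have hoD : ∀ b, o b < δ * m + c + 1 := by
      intro b
      by_contra hb
      have h0 : eb b = 0 := by
        refine hV.ord m (eb b) (had.mem b) (PowerSeries.X_pow_dvd_iff.2 fun a ha => ?_)
        exact had.low b a (by omega)
      have := had.lead b
      rw [h0, map_zero] at this
      exact zero_ne_one this
    obtain ⟨T, hT, hTc⟩ := count h4 h8 d c₁ (δ * m + c + 1) F (V m) eb o had hoD S z hq0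
      ((hfz L z).1 hz1).1 hminz
    have hcard := htr T hT
    have hc1 : Fintype.card (IdxC n E N M) = E * (n + 1) * N + (N + (n + 1) * M) := by
      simp [IdxC, mul_assoc]
    have hc2 : (f ∪ fx ∪ fq ∪ fl).card ≤ f.card + fx.card + fq.card + fl.card := by
      have ha := Finset.card_union_le (f ∪ fx ∪ fq) fl
      have hb := Finset.card_union_le (f ∪ fx) fq
      have hc := Finset.card_union_le f fx
      omega
    have hM : δ * m ≤ M + c := by
      rw [had.card]
      exact hV.dim m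
    have hfin := arith n d E δ c m₀ (mp (E * N)) m N M (δ * m + c + 1) u D' v c₁ c' s e₁ i₁ f.card
      O.card fx.card fq.card fl.card T.card hmdef hpm hM hNm rfl hu hc₁ hs hO hf hfx hfq hfl hTc
      (by omega)
    omega
  obtain ⟨b₁, hb₁, hqb⟩ := hqz
  -- descent
  obtain ⟨z₀, hz₀, hqb₀⟩ := h2 k (IdxC n E N M) (f ∪ fx ∪ fq ∪ fl) (X (Sum.inr (Sum.inl b₁))) L z
    hz (by simpa using hqb)
  have hz₀' : ∀ g ∈ f ∪ fx ∪ fq ∪ fl, aeval z₀ g = 0 := by
    intro g hg
    rw [MvPolynomial.aeval_eq_eval]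
    exact hz₀ g hg
  obtain ⟨hy1, hy2, hy3, hy4⟩ := (hall k z₀).1 hz₀'
  have hS1 := (hfz k z₀).1 hy1
  have hphi : ∀ i, phiC eb z₀ i ∈ V m := by
    intro i
    rw [phiC_self]
    exact sum_mem fun b _ => Submodule.smul_mem _ _ (had.mem b)
  have hev0 : eval (phiC eb z₀) F = 0 := by
    have h := hZ k z₀ hS1.1 hS1.2
    rwa [upF_self] at h
  have hqne : PowerSeries.coeff (b₁ : ℕ) (qC z₀) ≠ 0 := by
    rw [qC, PowerSeries.coeff_mk, dif_pos b₁.2]
    simpa using hqb₀
  have hq0 : qC z₀ ≠ 0 := by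
    intro h
    rw [h, map_zero] at hqne
    exact hqne rfl
  obtain ⟨r, q, hq, hqc, -, hr⟩ := exists_factor hq0
  have hrb : r ≤ b₁ := by
    by_contra hcon
    exact hqne (hr _ (Nat.not_le.1 hcon))
  have hxd := psC_dvd (n := n) (N := N) (M := M) (e₀ := e₁) (by omega)
    (fun (_ : Fin E) i => P * (f' i).coeff 0) z₀ ⟨0, hE⟩ (fun i b hb => by
      have h := (hfxz k z₀).1 hy2 i b hb
      simpa using h)
  have hEr : E * r ≤ E * i₁ := Nat.mul_le_mul_left E (by omega)
  refine ⟨E * N, m, phiC eb z₀, E * r + u, q ^ E * p', hphi, hev0, ?_, fun i => ?_, fun i => ?_⟩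
  · rw [map_mul, map_pow]
    exact mul_ne_zero (pow_ne_zero _ hqc) hp'
  · obtain ⟨η, B, hφ, -, -⟩ := hS1.1
    have e0 : ∑ j : Fin E, qC z₀ ^ (E - (j : ℕ)) * PowerSeries.X ^ ((j : ℕ) * N) * psC z₀ j i =
        qC z₀ ^ E * psC z₀ ⟨0, hE⟩ i + ∑ j ∈ (Finset.univ : Finset (Fin E)).erase ⟨0, hE⟩,
          qC z₀ ^ (E - (j : ℕ)) * PowerSeries.X ^ ((j : ℕ) * N) * psC z₀ j i := by
      rw [← Finset.add_sum_erase _ _ (Finset.mem_univ (⟨0, hE⟩ : Fin E))]
      simp
    have e1 : phiC eb z₀ i - PowerSeries.X ^ (E * r + u) * (q ^ E * p') * (f' i).coeff 0 =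
        PowerSeries.X ^ (E * r) * (psC z₀ ⟨0, hE⟩ i - P * (f' i).coeff 0) * q ^ E +
        (∑ j ∈ (Finset.univ : Finset (Fin E)).erase ⟨0, hE⟩,
          qC z₀ ^ (E - (j : ℕ)) * PowerSeries.X ^ ((j : ℕ) * N) * psC z₀ j i +
        PowerSeries.X ^ (E * N) * η i) := by
      have e2 : qC z₀ ^ E = PowerSeries.X ^ (E * r) * q ^ E := by
        rw [hq, mul_pow, ← pow_mul, mul_comm r E]
      rw [hφ i, e0, e2, hPu, pow_add]
      ring
    rw [e1]
    have hNle : E * r + u + e₀ ≤ N := by omega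
    refine dvd_add (Dvd.dvd.mul_right ?_ _) (dvd_add (Finset.dvd_sum fun j hj => ?_)
      (Dvd.dvd.mul_right ?_ _))
    · refine dvd_trans (pow_dvd_pow _ (?_ : E * r + u + e₀ ≤ E * r + e₁)) ?_
      · omega
      · rw [pow_add]
        exact mul_dvd_mul_left _ (hxd i)
    · have hj0 : (j : ℕ) ≠ 0 := by
        intro h0
        exact (Finset.mem_erase.1 hj).1 (Fin.ext h0)
      refine Dvd.dvd.mul_right (Dvd.dvd.mul_left (pow_dvd_pow _ (hNle.trans ?_)) _) _
      exact Nat.le_mul_of_pos_left N (Nat.pos_of_ne_zero hj0)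
    · refine pow_dvd_pow _ (hNle.trans ?_)
      exact Nat.le_mul_of_pos_left N hE
  · rw [ht i, phiC_self, ← Finset.sum_sub_distrib]
    have h := hΛ (fun b => z₀ (Sum.inr (Sum.inr (i, b))) - t i b) (fun l => by
      have h' := (hflz k z₀).1 hy4 i l
      simpa using h')
    simpa [sub_smul] using h

end Pool.Agent.FCV
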