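import Pool.Agent.FCV.TargetsL

/-!
# Free curves on hypersurfaces: bounds for degrees
-/

set_option autoImplicit false

open MvPolynomial

namespace Pool.Agent.FCV

section

variable {A : Type} [CommRing A]

lemma BDM_zero (E s ρ : ℕ) : BD (0 : Polynomial (Polynomial A)) E s ρ :=
  ⟨by simp, fun i => by simp⟩

lemma BDM_add {P Q : Polynomial (Polynomial A)} {E s ρ : ℕ} (hP : BD P E s ρ)
    (hQ : BD Q E s ρ) : BD (P + Q) E s ρ := by
  refine ⟨Polynomial.natDegree_add_le_of_degree_le hP.1 hQ.1, fun i => ?_⟩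
  rw [Polynomial.coeff_add]
  exact Polynomial.natDegree_add_le_of_degree_le (hP.2 i) (hQ.2 i)

lemma BDM_sum {ι : Type} (t : Finset ι) (P : ι → Polynomial (Polynomial A)) {E s ρ : ℕ}
    (hP : ∀ i ∈ t, BD (P i) E s ρ) : BD (∑ i ∈ t, P i) E s ρ := by
  classical
  induction t using Finset.induction_on with
  | empty => rw [Finset.sum_empty]; exact BDM_zero E s ρ
  | insert a t ha ih =>
    rw [Finset.sum_insert ha]
    exact BDM_add (hP a (Finset.mem_insert_self a t))
      (ih fun i hi => hP i (Finset.mem_insert_of_mem hi))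

lemma BDM_mul {P Q : Polynomial (Polynomial A)} {E E' s s' ρ : ℕ} (hP : BD P E s ρ)
    (hQ : BD Q E' s' ρ) : BD (P * Q) (E + E') (s + s') ρ := by
  refine ⟨Polynomial.natDegree_mul_le.trans (add_le_add hP.1 hQ.1), fun i => ?_⟩
  rw [Polynomial.coeff_mul]
  refine Polynomial.natDegree_sum_le_of_forall_le _ _ fun p hp => ?_
  have h1 : p.1 + p.2 = i := Finset.HasAntidiagonal.mem_antidiagonal.1 hp
  refine Polynomial.natDegree_mul_le.trans ((add_le_add (hP.2 p.1) (hQ.2 p.2)).trans ?_)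
  rw [← h1]
  exact le_of_eq (by ring)

lemma BDM_C {c : Polynomial A} (hc : c.natDegree ≤ 0) (ρ : ℕ) :
    BD (Polynomial.C c) 0 0 ρ := by
  refine ⟨by simp, fun i => ?_⟩
  rw [Polynomial.coeff_C]
  split_ifs with h
  · exact hc.trans (Nat.zero_le _)
  · simp

lemma BDM_one (ρ : ℕ) : BD (1 : Polynomial (Polynomial A)) 0 0 ρ := by
  have h := BDM_C (c := (1 : Polynomial A)) (by simp) ρ
  rwa [Polynomial.C_1] at h

lemma BDM_pow {P : Polynomial (Polynomial A)} {E s ρ : ℕ} (hP : BD P E s ρ) (n : ℕ) :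
    BD (P ^ n) (n * E) (n * s) ρ := by
  induction n with
  | zero => rw [pow_zero, Nat.zero_mul, Nat.zero_mul]; exact BDM_one ρ
  | succ n ih =>
    rw [pow_succ, Nat.succ_mul, Nat.succ_mul]
    exact BDM_mul ih hP

lemma BDM_prod {σ : Type} (g : σ → Polynomial (Polynomial A)) {e s ρ : ℕ}
    (hg : ∀ i, BD (g i) e s ρ) (t : Finset σ) (k : σ → ℕ) :
    BD (∏ i ∈ t, g i ^ k i) ((∑ i ∈ t, k i) * e) ((∑ i ∈ t, k i) * s) ρ := by
  classical
  induction t using Finset.induction_on with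
  | empty =>
    rw [Finset.prod_empty, Finset.sum_empty, Nat.zero_mul, Nat.zero_mul]
    exact BDM_one ρ
  | insert a t ha ih =>
    rw [Finset.prod_insert ha, Finset.sum_insert ha, Nat.add_mul, Nat.add_mul]
    exact BDM_mul (BDM_pow (hg a) (k a)) ih

end

theorem p_BDM : T_BDM := by
  intro σ A _ F d hF0 hF g e s ρ hg
  unfold onC
  rw [eval₂_eq]
  refine BDM_sum _ _ fun μ hμ => ?_
  have h1 : ∑ i ∈ μ.support, μ i = d := by
    have h2 := hF (mem_support_iff.1 hμ)
    rw [← h2, Finsupp.weight_apply, Finsupp.sum]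
    exact Finset.sum_congr rfl fun i _ => by simp
  have h3 := BDM_mul (BDM_C (hF0 μ) ρ) (BDM_prod g hg μ.support μ)
  rw [h1, Nat.zero_add, Nat.zero_add] at h3
  exact h3

end Pool.Agent.FCV
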