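import Pool.Agent.FCV.TargetsM

/-!
# The expansion of a form on a curve
-/

set_option autoImplicit false

open MvPolynomial

namespace Pool.Agent.FCV

namespace BINC_

variable {σ A : Type} [CommRing A]

/-- Homogenisation. -/
noncomputable def hm (n : ℕ) (α β : A) (p : Polynomial A) : A :=
  eval ![β, α] (p.homogenize n)

theorem hm_eq (n : ℕ) (α β : A) (p : Polynomial A) :
    hm n α β p = ∑ j ∈ Finset.range (n + 1), α ^ (n - j) * β ^ j * p.coeff j := by
  unfold hm Polynomial.homogenize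
  rw [map_sum, Finset.Nat.sum_antidiagonal_eq_sum_range_succ_mk]
  refine Finset.sum_congr rfl fun j _ => ?_
  rw [eval_monomial, Finsupp.prod_fintype _ _ (fun i => pow_zero _), Fin.prod_univ_two]
  simp
  ring

theorem hm_mul {m n : ℕ} {p q : Polynomial A} (hp : p.natDegree ≤ m) (hq : q.natDegree ≤ n)
    (α β : A) : hm (m + n) α β (p * q) = hm m α β p * hm n α β q := by
  unfold hm
  rw [Polynomial.homogenize_mul _ _ hp hq, eval_mul]

theorem hm_sum {ι : Type} (n : ℕ) (s : Finset ι) (f : ι → Polynomial A) (α β : A) :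
    hm n α β (∑ i ∈ s, f i) = ∑ i ∈ s, hm n α β (f i) := by
  unfold hm
  rw [Polynomial.homogenize_finsetSum, map_sum]

theorem mono {E : ℕ} {f : σ → Polynomial A} (hf : ∀ i, (f i).natDegree ≤ E) (s : σ →₀ ℕ) (a : A) :
    ∃ n, (monomial s a).IsHomogeneous n ∧ (onC (monomial s a) f).natDegree ≤ n * E ∧
      ∀ α β : A, hm (n * E) α β (onC (monomial s a) f) =
        eval (fun i => hm E α β (f i)) (monomial s a) := by
  refine MvPolynomial.induction_on_monomial (motive := fun p => ∃ n, p.IsHomogeneous n ∧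
    (onC p f).natDegree ≤ n * E ∧ ∀ α β : A, hm (n * E) α β (onC p f) =
      eval (fun i => hm E α β (f i)) p) ?_ ?_ s a
  · intro c
    have h0 : onC (C c : MvPolynomial σ A) f = Polynomial.C c := by unfold onC; rw [eval₂_C]
    refine ⟨0, isHomogeneous_C σ c, ?_, fun α β => ?_⟩
    · rw [h0]; simp
    · rw [h0, eval_C, hm_eq]
      simp
  · rintro p i ⟨n, h1, h2, h3⟩
    have h0 : onC (p * X i) f = onC p f * f i := by unfold onC; rw [eval₂_mul, eval₂_X]
    refine ⟨n + 1, h1.mul (isHomogeneous_X A i), ?_, fun α β => ?_⟩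
    · rw [h0, add_mul, one_mul]
      exact Polynomial.natDegree_mul_le.trans (Nat.add_le_add h2 (hf i))
    · rw [h0, add_mul, one_mul, hm_mul h2 (hf i), h3, eval_mul, eval_X]

theorem main {E d : ℕ} {f : σ → Polynomial A} (hf : ∀ i, (f i).natDegree ≤ E)
    (F : MvPolynomial σ A) (hF : F.IsHomogeneous d) :
    (onC F f).natDegree ≤ d * E ∧
      ∀ α β : A, hm (d * E) α β (onC F f) = eval (fun i => hm E α β (f i)) F := by
  classical
  have hs : onC F f = ∑ s ∈ F.support, onC (monomial s (coeff s F)) f := by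
    conv_lhs => rw [F.as_sum]
    unfold onC
    rw [eval₂_sum]
  have hk : ∀ s ∈ F.support, (onC (monomial s (coeff s F)) f).natDegree ≤ d * E ∧
      ∀ α β : A, hm (d * E) α β (onC (monomial s (coeff s F)) f) =
        eval (fun i => hm E α β (f i)) (monomial s (coeff s F)) := by
    intro s hs
    obtain ⟨n, h1, h2, h3⟩ := mono hf s (coeff s F)
    have hne : coeff s F ≠ 0 := mem_support_iff.mp hs
    have hn : n = d := by
      have e1 := h1 (d := s) (by rw [coeff_monomial, if_pos rfl]; exact hne)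
      have e2 := hF (d := s) hne
      rw [← e1, ← e2]
    rw [← hn]
    exact ⟨h2, h3⟩
  refine ⟨?_, fun α β => ?_⟩
  · rw [hs]
    exact Polynomial.natDegree_sum_le_of_forall_le _ _ fun s h => (hk s h).1
  · conv_rhs => rw [F.as_sum]
    rw [hs, hm_sum, map_sum]
    exact Finset.sum_congr rfl fun s h => (hk s h).2 α β

theorem crv_deg {E : ℕ} (ψ : Fin E → σ → A) (η : σ → A) (i : σ) :
    (crv ψ η i).natDegree ≤ E := by
  unfold crv
  refine (Polynomial.natDegree_add_le _ _).trans (max_le ?_ (Polynomial.natDegree_C_mul_X_pow_le _ _))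
  refine Polynomial.natDegree_sum_le_of_forall_le _ _ fun j _ => ?_
  exact (Polynomial.natDegree_C_mul_X_pow_le _ _).trans j.2.le

theorem hm_C_mul_X_pow {n j : ℕ} (hj : j ≤ n) (a α β : A) :
    hm n α β (Polynomial.C a * Polynomial.X ^ j) = α ^ (n - j) * β ^ j * a := by
  rw [hm_eq, Finset.sum_eq_single j]
  · rw [Polynomial.coeff_C_mul_X_pow, if_pos rfl]
  · intro b _ hb
    rw [Polynomial.coeff_C_mul_X_pow, if_neg hb, mul_zero]
  · intro h
    exact absurd (Finset.mem_range.2 (Nat.lt_succ_of_le hj)) h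

theorem hm_add (n : ℕ) (p q : Polynomial A) (α β : A) :
    hm n α β (p + q) = hm n α β p + hm n α β q := by
  unfold hm
  rw [Polynomial.homogenize_add, eval_add]

theorem hm_crv {E : ℕ} (ψ : Fin E → σ → A) (η : σ → A) (i : σ) (α β : A) :
    hm E α β (crv ψ η i) =
      ∑ j : Fin E, α ^ (E - (j : ℕ)) * β ^ (j : ℕ) * ψ j i + β ^ E * η i := by
  unfold crv
  rw [hm_add, hm_sum, hm_C_mul_X_pow le_rfl, Nat.sub_self, pow_zero, one_mul]
  congr 1
  exact Finset.sum_congr rfl fun j _ => hm_C_mul_X_pow j.2.le _ _ _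

end BINC_

open BINC_ in
theorem p_BINC : T_BINC := by
  intro σ A _ F d E hE hF ψ η
  have hd := crv_deg ψ η
  obtain ⟨h1, h2⟩ := main hd F hF
  have h4 : ∀ α β : A,
      eval (fun i => ∑ j : Fin E, α ^ (E - (j : ℕ)) * β ^ (j : ℕ) * ψ j i + β ^ E * η i) F =
        ∑ j ∈ Finset.range (d * E + 1), α ^ (d * E - j) * β ^ j * (onC F (crv ψ η)).coeff j := by
    intro α β
    rw [← hm_eq, h2 α β]
    congr 2
    funext i
    exact (hm_crv ψ η i α β).symm
  refine ⟨hd, h1, ?_, h4⟩
  have h5 := h4 0 1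
  rw [Finset.sum_eq_single (d * E)] at h5
  · rw [Nat.sub_self, pow_zero, one_mul, one_pow, one_pow, one_mul] at h5
    rw [← h5]
    congr 2
    funext i
    rw [one_mul, Finset.sum_eq_zero, zero_add]
    intro j _
    rw [zero_pow (by have := j.2; omega), zero_mul, zero_mul]
  · intro j hj hne
    have : j < d * E := lt_of_le_of_ne (Nat.lt_succ_iff.1 (Finset.mem_range.1 hj)) hne
    rw [zero_pow (by omega), zero_mul, zero_mul]
  · intro h
    exact absurd (Finset.mem_range.2 (Nat.lt_succ_self _)) h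

end Pool.Agent.FCV
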