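import Pool.Agent.FCV.TargetsG

/-!
# T_CAL: points of a cone that is cut by `m` linear forms have transcendence degree at most `m`
-/

set_option autoImplicit false

open MvPolynomial

namespace Pool.Agent.FCV

/-- The linear form with given coefficients. -/
noncomputable def CAL_.lf {κ τ : Type} [Field κ] [Fintype τ] (l : τ → κ) : MvPolynomial τ κ :=
  ∑ t, C (l t) * X t

theorem CAL_.lf_hom {κ τ : Type} [Field κ] [Fintype τ] (l : τ → κ) :
    (CAL_.lf l).IsHomogeneous 1 := by
  unfold CAL_.lf
  refine IsHomogeneous.sum _ _ _ fun t _ => ?_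
  have h := (isHomogeneous_C τ (l t)).mul (isHomogeneous_X κ t)
  simpa using h

theorem CAL_.lf_aeval {κ τ L : Type} [Field κ] [Fintype τ] [Field L] [Algebra κ L] (l : τ → κ)
    (z : τ → L) : aeval z (CAL_.lf l) = ∑ t, algebraMap κ L (l t) * z t := by
  unfold CAL_.lf
  rw [map_sum]
  refine Finset.sum_congr rfl fun t _ => ?_
  rw [map_mul, aeval_C, aeval_X]

theorem p_CAL (hCBC : T_CBC) : T_CAL := by
  classical
  intro κ τ _ _ _ m r h e hh hcut Ω _ _ z hz
  obtain ⟨l, hl⟩ := hcut
  refine ⟨Finset.univ.image (fun s : Fin m => aeval z (CAL_.lf (l s))), ?_, ?_⟩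
  · refine Finset.card_image_le.trans ?_
    simp
  · by_contra hcon
    push Not at hcon
    obtain ⟨t, ht⟩ := hcon
    obtain ⟨κ', _, _, w, hw, hdeg⟩ := WA.exists_degeneration
      (IntermediateField.adjoin κ
        ((Finset.univ.image (fun s : Fin m => aeval z (CAL_.lf (l s))) : Finset Ω) : Set Ω))
      z ⟨t, ht⟩
    apply hw
    refine hCBC κ τ m r h e l hh (fun y hy hy' => hl y hy hy') κ' w ?_ ?_
    · intro i
      refine hdeg (e i) (h i) (hh i) (Fin 0) (fun i => i.elim0) (fun i => i.elim0)
        (fun i => i.elim0) (fun i => i.elim0) (fun i => i.elim0) (fun i => i.elim0) ?_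
      simpa using hz i
    · intro s
      rw [← CAL_.lf_aeval]
      refine hdeg 1 (CAL_.lf (l s)) (CAL_.lf_hom _) Unit (fun _ => aeval z (CAL_.lf (l s))) ?_
        (fun _ => 1) (fun _ => 0) (fun _ => isHomogeneous_one τ κ) (fun _ => Nat.one_pos) ?_
      · intro _
        apply IntermediateField.subset_adjoin
        simp
      · simp

end Pool.Agent.FCV
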