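import Pool.Agent.FCV.TargetsG

/-!
# Base change for cuts
-/

set_option autoImplicit false

open MvPolynomial

namespace Pool.Agent.FCV

theorem p_CBC (hNS : WL.T_NS) : T_CBC := by
  classical
  intro κ τ _ _ _ m r h e l _ hz L _ _ z hz1 hz2
  by_contra hne
  obtain ⟨t₀, ht₀⟩ := Function.ne_iff.1 hne
  let f : Finset (MvPolynomial τ κ) :=
    (Finset.univ.image h) ∪ (Finset.univ.image fun s => ∑ t, C (l s t) * X t)
  obtain ⟨z₀, h1, h2⟩ := hNS κ τ f (X t₀) L z (by
    intro g hg
    rcases Finset.mem_union.1 hg with hg | hg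
    · obtain ⟨i, -, rfl⟩ := Finset.mem_image.1 hg
      exact hz1 i
    · obtain ⟨s, -, rfl⟩ := Finset.mem_image.1 hg
      rw [← hz2 s, map_sum]
      refine Finset.sum_congr rfl fun t _ => ?_
      rw [map_mul, aeval_X, aeval_C]) (by simpa using ht₀)
  have h3 : z₀ = 0 := by
    refine hz z₀ (fun i => h1 _ ?_) (fun s => ?_)
    · exact Finset.mem_union_left _ (Finset.mem_image_of_mem _ (Finset.mem_univ i))
    · have h4 := h1 (∑ t, C (l s t) * X t)
        (Finset.mem_union_right _ (Finset.mem_image_of_mem _ (Finset.mem_univ s)))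
      simpa using h4
  rw [h3] at h2
  simp at h2

end Pool.Agent.FCV
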