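import Pool.Agent.FCV.TargetsL
import Pool.Agent.WL.TAY

/-!
# Free curves on hypersurfaces: the main system for combs over large fields
-/

set_option autoImplicit false

open MvPolynomial
open Pool.Agent.WL

namespace Pool.Agent.FCV

namespace CMB_

section general

variable {σ A B : Type} [CommRing A] [CommRing B]

lemma onC_eq_eval (F : MvPolynomial σ A) (f : σ → Polynomial A) :
    onC F f = eval f (F.map Polynomial.C) := by
  unfold onC
  rw [eval_map]

lemma onC_tay [Fintype σ] (F : MvPolynomial σ A) (u h : σ → Polynomial A) (t : Polynomial A) :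
    ∃ r, onC F (fun i => u i + t * h i) =
      onC F u + t * ∑ i, h i * onC (pderiv i F) u + t ^ 2 * r := by
  obtain ⟨r, hr⟩ := p_TAY σ (Polynomial A) (F.map Polynomial.C) u h t
  refine ⟨r, ?_⟩
  rw [onC_eq_eval, hr, onC_eq_eval]
  simp only [onC_eq_eval, pderiv_map]

lemma onC_tay' [Fintype σ] (F : MvPolynomial σ A) (u h : σ → Polynomial A) (t : Polynomial A) :
    ∃ s, onC F (fun i => u i + t * h i) = onC F u + t * s := by
  obtain ⟨r, hr⟩ := onC_tay F u h t
  exact ⟨(∑ i, h i * onC (pderiv i F) u) + t * r, by rw [hr]; ring⟩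

lemma onC_C (F : MvPolynomial σ A) (f : σ → Polynomial A) :
    onC (F.map Polynomial.C) (fun i => Polynomial.C (f i)) = Polynomial.C (onC F f) := by
  rw [onC_eq_eval (F.map Polynomial.C), onC_eq_eval F]
  rw [show (fun i => Polynomial.C (f i)) = (fun i => (Polynomial.C : Polynomial A →+* _) (f i))
    from rfl]
  rw [eval_map, ← MvPolynomial.coe_eval₂Hom]
  have h := MvPolynomial.eval₂_comp_left (Polynomial.C : Polynomial A →+* _)
    (RingHom.id (Polynomial A)) f (F.map Polynomial.C)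
  simp only [RingHom.comp_id] at h
  rw [coe_eval₂Hom]
  rw [show eval f (F.map Polynomial.C) = eval₂ (RingHom.id _) f (F.map Polynomial.C) from rfl, h]
  rfl

lemma coeff_fs {R : Type} [CommRing R] (a : ℕ) (f : Fin a → R) (k : ℕ) :
    (∑ t : Fin a, Polynomial.C (f t) * Polynomial.X ^ (t : ℕ)).coeff k =
      if h : k < a then f ⟨k, h⟩ else 0 := by
  rw [Polynomial.finsetSum_coeff]
  simp only [Polynomial.coeff_C_mul, Polynomial.coeff_X_pow, mul_ite, mul_one, mul_zero]
  by_cases h : k < a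
  · rw [dif_pos h, Finset.sum_eq_single (⟨k, h⟩ : Fin a)]
    · simp
    · intro b _ hb
      rw [if_neg]
      intro hk
      apply hb
      ext
      simp [hk]
    · simp
  · rw [dif_neg h]
    apply Finset.sum_eq_zero
    intro t _
    rw [if_neg]
    intro hk
    exact h (hk ▸ t.2)

lemma cg_map (φ : A →+* B) (c e : ℕ) (f : σ → Polynomial A) (N : Fin e → σ → Polynomial A)
    (i : σ) :
    cg c e (fun i => (f i).map φ) (fun j i => (N j i).map φ) i =
      (cg c e f N i).map (Polynomial.mapRingHom φ) := by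
  unfold cg
  have h : ∀ j : Fin e, (Polynomial.C (Polynomial.X ^ c * N j i) *
      Polynomial.X ^ ((j : ℕ) + 1) : Polynomial (Polynomial A)).map (Polynomial.mapRingHom φ) =
      Polynomial.C (Polynomial.X ^ c * (N j i).map φ) * Polynomial.X ^ ((j : ℕ) + 1) := by
    intro j
    rw [Polynomial.map_mul, Polynomial.map_C, Polynomial.map_pow, Polynomial.map_X]
    simp only [Polynomial.coe_mapRingHom, Polynomial.map_mul, Polynomial.map_pow,
      Polynomial.map_X]
  rw [Polynomial.map_add, Polynomial.map_C, Polynomial.map_sum]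
  simp only [h]
  rfl

lemma cg_eq (c e : ℕ) (f : σ → Polynomial A) (N : Fin e → σ → Polynomial A) (i : σ) :
    cg c e f N i = Polynomial.C (f i) + (Polynomial.C (Polynomial.X ^ c) * Polynomial.X) *
      ∑ j : Fin e, Polynomial.C (N j i) * Polynomial.X ^ (j : ℕ) := by
  unfold cg
  rw [Finset.mul_sum]
  have h : ∀ j : Fin e, (Polynomial.C (Polynomial.X ^ c * N j i) *
      Polynomial.X ^ ((j : ℕ) + 1) : Polynomial (Polynomial A)) =
      (Polynomial.C (Polynomial.X ^ c) * Polynomial.X) *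
        (Polynomial.C (N j i) * Polynomial.X ^ (j : ℕ)) := by
    intro j
    rw [Polynomial.C_mul, pow_succ]
    ring
  simp only [h]

lemma coeff_T (c : ℕ) (S : Polynomial (Polynomial A)) (i t : ℕ) :
    (((Polynomial.C (Polynomial.X ^ c) * Polynomial.X) * S).coeff (i + 1)).coeff (t + c) =
      (S.coeff i).coeff t := by
  rw [mul_assoc, Polynomial.coeff_C_mul, Polynomial.coeff_X_mul, Polynomial.coeff_X_pow_mul]

/-- The value on a comb is divisible. -/
lemma exists_S [Fintype σ] (F : MvPolynomial σ A) (c e : ℕ) (f : σ → Polynomial A)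
    (hf : onC F f = 0) (N : Fin e → σ → Polynomial A) :
    ∃ S, onC (F.map Polynomial.C) (cg c e f N) =
      (Polynomial.C (Polynomial.X ^ c) * Polynomial.X) * S := by
  obtain ⟨r, hr⟩ := onC_tay' (F.map Polynomial.C) (fun i => Polynomial.C (f i))
    (fun i => ∑ j : Fin e, Polynomial.C (N j i) * Polynomial.X ^ (j : ℕ))
    (Polynomial.C (Polynomial.X ^ c) * Polynomial.X)
  rw [onC_C, hf, Polynomial.C_0, zero_add] at hr
  rw [show cg c e f N = fun i => Polynomial.C (f i) +
    (Polynomial.C (Polynomial.X ^ c) * Polynomial.X) *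
      ∑ j : Fin e, Polynomial.C (N j i) * Polynomial.X ^ (j : ℕ) from funext (cg_eq c e f N), hr]
  exact ⟨r, rfl⟩

end general

section sys

/-- The unknowns. -/
abbrev IX (n d c ρ e : ℕ) : Type :=
  (Fin e × Fin (n + 1) × Fin (ρ + 1)) ⊕ (Σ i : Fin (d * e - 1), Fin (Ds d c ρ 1 i - 1))

/-- The equations. -/
abbrev JX (d c ρ e : ℕ) : Type := Σ i : Fin (d * e), Fin (Ds d c ρ 1 i)

variable {n d c ρ e : ℕ} {B B' : Type} [CommRing B] [CommRing B']

/-- The vectors. -/
noncomputable def NB (z : IX n d c ρ e → B) (j : Fin e) (i : Fin (n + 1)) : Polynomial B :=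
  ∑ t : Fin (ρ + 1), Polynomial.C (z (Sum.inl (j, i, t))) * Polynomial.X ^ (t : ℕ)

/-- The quotient. -/
noncomputable def QB (z : IX n d c ρ e → B) : Polynomial (Polynomial B) :=
  ∑ i : Fin (d * e - 1), Polynomial.C (∑ t : Fin (Ds d c ρ 1 i - 1),
    Polynomial.C (z (Sum.inr ⟨i, t⟩)) * Polynomial.X ^ (t : ℕ)) * Polynomial.X ^ (i : ℕ)

lemma NB_coeff (z : IX n d c ρ e → B) (j : Fin e) (i : Fin (n + 1)) (k : ℕ) :
    (NB z j i).coeff k = if h : k < ρ + 1 then z (Sum.inl (j, i, ⟨k, h⟩)) else 0 :=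
  coeff_fs _ _ _

lemma QB_coeff (z : IX n d c ρ e → B) (i k : ℕ) :
    ((QB z).coeff i).coeff k = if h : i < d * e - 1 then
      (if h' : k < Ds d c ρ 1 i - 1 then z (Sum.inr ⟨⟨i, h⟩, ⟨k, h'⟩⟩) else 0) else 0 := by
  unfold QB
  rw [coeff_fs (d * e - 1) (fun i => ∑ t : Fin (Ds d c ρ 1 i - 1),
    Polynomial.C (z (Sum.inr ⟨i, t⟩)) * Polynomial.X ^ (t : ℕ))]
  by_cases h : i < d * e - 1
  · rw [dif_pos h, dif_pos h, coeff_fs]
  · rw [dif_neg h, dif_neg h]
    simp

lemma NB_degree (z : IX n d c ρ e → B) (j : Fin e) (i : Fin (n + 1)) :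
    (NB z j i).degree < ((ρ + 1 : ℕ) : WithBot ℕ) := by
  rw [Polynomial.degree_lt_iff_coeff_zero]
  intro k hk
  rw [NB_coeff, dif_neg (by omega)]

lemma QB_degree (z : IX n d c ρ e → B) :
    (QB z).degree < ((d * e - 1 : ℕ) : WithBot ℕ) := by
  rw [Polynomial.degree_lt_iff_coeff_zero]
  intro i hi
  ext k
  rw [QB_coeff, dif_neg (by omega), Polynomial.coeff_zero]

lemma QB_degree' (z : IX n d c ρ e → B) (i : ℕ) :
    ((QB z).coeff i).degree < ((Ds d c ρ 1 i - 1 : ℕ) : WithBot ℕ) := by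
  rw [Polynomial.degree_lt_iff_coeff_zero]
  intro k hk
  rw [QB_coeff]
  by_cases h : i < d * e - 1
  · rw [dif_pos h, dif_neg (by omega)]
  · rw [dif_neg h]

lemma exists_z (N : Fin e → Fin (n + 1) → Polynomial B)
    (hN : ∀ j i, (N j i).degree < ((ρ + 1 : ℕ) : WithBot ℕ)) (Q : Polynomial (Polynomial B))
    (hQ : Q.degree < ((d * e - 1 : ℕ) : WithBot ℕ))
    (hQ' : ∀ i, (Q.coeff i).degree < ((Ds d c ρ 1 i - 1 : ℕ) : WithBot ℕ)) :
    ∃ z : IX n d c ρ e → B, NB z = N ∧ QB z = Q := by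
  refine ⟨Sum.elim (fun p => (N p.1 p.2.1).coeff p.2.2) (fun p => (Q.coeff p.1).coeff p.2),
    ?_, ?_⟩
  · funext j i
    ext k
    rw [NB_coeff]
    by_cases h : k < ρ + 1
    · rw [dif_pos h]
      rfl
    · rw [dif_neg h]
      exact ((Polynomial.degree_lt_iff_coeff_zero _ _).1 (hN j i) k (by omega)).symm
  · ext i k
    rw [QB_coeff]
    by_cases h : i < d * e - 1
    · rw [dif_pos h]
      by_cases h' : k < Ds d c ρ 1 i - 1
      · rw [dif_pos h']
        rfl
      · rw [dif_neg h']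
        exact ((Polynomial.degree_lt_iff_coeff_zero _ _).1 (hQ' i) k (by omega)).symm
    · rw [dif_neg h, (Polynomial.degree_lt_iff_coeff_zero _ _).1 hQ i (by omega),
        Polynomial.coeff_zero]

lemma NB_map (φ : B →+* B') (z : IX n d c ρ e → B) (j : Fin e) (i : Fin (n + 1)) :
    NB (fun x => φ (z x)) j i = (NB z j i).map φ := by
  ext k
  rw [Polynomial.coeff_map, NB_coeff, NB_coeff]
  split_ifs <;> simp

lemma QB_map (φ : B →+* B') (z : IX n d c ρ e → B) :
    QB (fun x => φ (z x)) = (QB z).map (Polynomial.mapRingHom φ) := by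
  ext i k
  rw [Polynomial.coeff_map, Polynomial.coe_mapRingHom, Polynomial.coeff_map, QB_coeff, QB_coeff]
  split_ifs <;> simp

lemma NB_add (z u : IX n d c ρ e → B) (ε : B) (j : Fin e) (i : Fin (n + 1)) :
    NB (fun x => z x + ε * u x) j i = NB z j i + Polynomial.C ε * NB u j i := by
  ext k
  rw [Polynomial.coeff_add, Polynomial.coeff_C_mul, NB_coeff, NB_coeff, NB_coeff]
  split_ifs <;> simp

lemma QB_add (z u : IX n d c ρ e → B) (ε : B) :
    QB (fun x => z x + ε * u x) = QB z + Polynomial.C (Polynomial.C ε) * QB u := by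
  ext i k
  rw [Polynomial.coeff_add, Polynomial.coeff_C_mul, Polynomial.coeff_add, Polynomial.coeff_C_mul,
    QB_coeff, QB_coeff, QB_coeff]
  split_ifs <;> simp

variable {E : Type} [Field E] [Algebra E B] [Algebra E B']

/-- The comb. -/
noncomputable def GB (f₀ : Fin (n + 1) → Polynomial E) (z : IX n d c ρ e → B)
    (i : Fin (n + 1)) : Polynomial (Polynomial B) :=
  cg c e (fun i => (f₀ i).map (algebraMap E B)) (NB z) i

/-- The value of the form. -/
noncomputable def PB (F : MvPolynomial (Fin (n + 1)) E) (f₀ : Fin (n + 1) → Polynomial E)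
    (z : IX n d c ρ e → B) : Polynomial (Polynomial B) :=
  onC ((F.map (algebraMap E B)).map Polynomial.C) (GB f₀ z)

/-- The right hand side. -/
noncomputable def RB (m : Polynomial E) (θ : B) (z : IX n d c ρ e → B) :
    Polynomial (Polynomial B) :=
  (Polynomial.C (m.map (algebraMap E B)) * Polynomial.X - Polynomial.C (Polynomial.C θ)) * QB z

/-- The system. -/
noncomputable def Psi (F : MvPolynomial (Fin (n + 1)) E) (m : Polynomial E)
    (f₀ : Fin (n + 1) → Polynomial E) (θ : B) (z : IX n d c ρ e → B) (j : JX d c ρ e) : B :=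
  ((PB F f₀ z).coeff ((j.1 : ℕ) + 1)).coeff ((j.2 : ℕ) + c) -
    ((RB m θ z).coeff (j.1 : ℕ)).coeff (j.2 : ℕ)

lemma GB_map (φ : B →ₐ[E] B') (f₀ : Fin (n + 1) → Polynomial E) (z : IX n d c ρ e → B)
    (i : Fin (n + 1)) :
    GB f₀ (fun x => φ (z x)) i = (GB f₀ z i).map (Polynomial.mapRingHom φ.toRingHom) := by
  unfold GB
  rw [← cg_map]
  congr 1
  · funext i
    rw [Polynomial.map_map]
    congr 1
    exact (φ.comp_algebraMap).symm
  · funext j i
    exact NB_map φ.toRingHom z j i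

lemma F_map (φ : B →ₐ[E] B') (F : MvPolynomial (Fin (n + 1)) E) :
    ((F.map (algebraMap E B)).map Polynomial.C).map (Polynomial.mapRingHom φ.toRingHom) =
      (F.map (algebraMap E B')).map Polynomial.C := by
  rw [map_map, map_map, map_map]
  have h : ((Polynomial.mapRingHom φ.toRingHom).comp Polynomial.C).comp (algebraMap E B) =
      Polynomial.C.comp (algebraMap E B') := by
    ext a : 1
    simp
  rw [h]

lemma PB_map (φ : B →ₐ[E] B') (F : MvPolynomial (Fin (n + 1)) E)
    (f₀ : Fin (n + 1) → Polynomial E) (z : IX n d c ρ e → B) :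
    PB F f₀ (fun x => φ (z x)) = (PB F f₀ z).map (Polynomial.mapRingHom φ.toRingHom) := by
  unfold PB
  rw [← onC_map, F_map]
  congr 1
  funext i
  exact GB_map φ f₀ z i

lemma RB_map (φ : B →ₐ[E] B') (m : Polynomial E) (θ : B) (z : IX n d c ρ e → B) :
    RB m (φ θ) (fun x => φ (z x)) = (RB m θ z).map (Polynomial.mapRingHom φ.toRingHom) := by
  unfold RB
  have h := QB_map φ.toRingHom z
  rw [Polynomial.map_mul, ← h]
  congr 1
  rw [Polynomial.map_sub, Polynomial.map_mul, Polynomial.map_C, Polynomial.map_X,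
    Polynomial.map_C, Polynomial.coe_mapRingHom, Polynomial.map_map, Polynomial.map_C]
  congr 4
  exact (φ.comp_algebraMap).symm

lemma Psi_map (φ : B →ₐ[E] B') (F : MvPolynomial (Fin (n + 1)) E) (m : Polynomial E)
    (f₀ : Fin (n + 1) → Polynomial E) (θ : B) (z : IX n d c ρ e → B) (j : JX d c ρ e) :
    Psi F m f₀ (φ θ) (fun x => φ (z x)) j = φ (Psi F m f₀ θ z j) := by
  unfold Psi
  rw [PB_map, RB_map, map_sub]
  simp [Polynomial.coeff_map]

/-- The linearisation. -/
noncomputable def LB (F : MvPolynomial (Fin (n + 1)) E) (f₀ : Fin (n + 1) → Polynomial E)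
    (z u : IX n d c ρ e → B) : Polynomial (Polynomial B) :=
  ∑ i, (∑ j : Fin e, Polynomial.C (NB u j i) * Polynomial.X ^ (j : ℕ)) *
    onC (pderiv i ((F.map (algebraMap E B)).map Polynomial.C)) (GB f₀ z)

lemma LB_map (φ : B →ₐ[E] B') (F : MvPolynomial (Fin (n + 1)) E)
    (f₀ : Fin (n + 1) → Polynomial E) (z u : IX n d c ρ e → B) :
    LB F f₀ (fun x => φ (z x)) (fun x => φ (u x)) =
      (LB F f₀ z u).map (Polynomial.mapRingHom φ.toRingHom) := by
  unfold LB
  rw [Polynomial.map_sum]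
  apply Finset.sum_congr rfl
  intro i _
  rw [Polynomial.map_mul, ← onC_map]
  congr 1
  · rw [Polynomial.map_sum]
    apply Finset.sum_congr rfl
    intro j _
    have h := NB_map φ.toRingHom u j i
    rw [Polynomial.map_mul, Polynomial.map_pow, Polynomial.map_X, Polynomial.map_C,
      Polynomial.coe_mapRingHom, ← h]
    rfl
  · rw [← pderiv_map, F_map]
    congr 1
    funext i
    exact GB_map φ f₀ z i

lemma GB_add (f₀ : Fin (n + 1) → Polynomial E) (z u : IX n d c ρ e → B) (ε : B)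
    (i : Fin (n + 1)) : GB f₀ (fun x => z x + ε * u x) i = GB f₀ z i +
      Polynomial.C (Polynomial.C ε) * ((Polynomial.C (Polynomial.X ^ c) * Polynomial.X) *
        ∑ j : Fin e, Polynomial.C (NB u j i) * Polynomial.X ^ (j : ℕ)) := by
  unfold GB
  rw [cg_eq, cg_eq]
  have h : (∑ j : Fin e, Polynomial.C (NB (fun x => z x + ε * u x) j i) *
      Polynomial.X ^ (j : ℕ) : Polynomial (Polynomial B)) =
      (∑ j : Fin e, Polynomial.C (NB z j i) * Polynomial.X ^ (j : ℕ)) +
      Polynomial.C (Polynomial.C ε) *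
        ∑ j : Fin e, Polynomial.C (NB u j i) * Polynomial.X ^ (j : ℕ) := by
    rw [Finset.mul_sum, ← Finset.sum_add_distrib]
    apply Finset.sum_congr rfl
    intro j _
    rw [NB_add, Polynomial.C_add, Polynomial.C_mul]
    ring
  rw [h]
  ring

lemma PB_add (F : MvPolynomial (Fin (n + 1)) E) (f₀ : Fin (n + 1) → Polynomial E)
    (z u : IX n d c ρ e → B) (ε : B) (hε : ε * ε = 0) :
    PB F f₀ (fun x => z x + ε * u x) = PB F f₀ z + Polynomial.C (Polynomial.C ε) *
      ((Polynomial.C (Polynomial.X ^ c) * Polynomial.X) * LB F f₀ z u) := by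
  unfold PB LB
  rw [show (GB f₀ fun x => z x + ε * u x) = fun i => GB f₀ z i +
      Polynomial.C (Polynomial.C ε) * ((Polynomial.C (Polynomial.X ^ c) * Polynomial.X) *
        ∑ j : Fin e, Polynomial.C (NB u j i) * Polynomial.X ^ (j : ℕ)) from
    funext (GB_add f₀ z u ε)]
  obtain ⟨r, hr⟩ := onC_tay ((F.map (algebraMap E B)).map Polynomial.C) (GB f₀ z)
    (fun i => (Polynomial.C (Polynomial.X ^ c) * Polynomial.X) *
        ∑ j : Fin e, Polynomial.C (NB u j i) * Polynomial.X ^ (j : ℕ))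
    (Polynomial.C (Polynomial.C ε))
  rw [hr, pow_two, ← Polynomial.C_mul, ← Polynomial.C_mul, hε]
  simp only [Polynomial.C_0, zero_mul, add_zero, mul_assoc]
  congr 2
  rw [Finset.mul_sum, Finset.mul_sum]

lemma RB_add (m : Polynomial E) (θ : B) (z u : IX n d c ρ e → B) (ε : B) :
    RB m θ (fun x => z x + ε * u x) = RB m θ z + Polynomial.C (Polynomial.C ε) * RB m θ u := by
  unfold RB
  rw [QB_add]
  ring

lemma Psi_add (F : MvPolynomial (Fin (n + 1)) E) (m : Polynomial E)
    (f₀ : Fin (n + 1) → Polynomial E) (θ : B) (z u : IX n d c ρ e → B) (ε : B)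
    (hε : ε * ε = 0) (j : JX d c ρ e) :
    Psi F m f₀ θ (fun x => z x + ε * u x) j = Psi F m f₀ θ z j +
      ε * (((LB F f₀ z u - RB m θ u).coeff (j.1 : ℕ)).coeff (j.2 : ℕ)) := by
  unfold Psi
  rw [PB_add F f₀ z u ε hε, RB_add]
  simp only [Polynomial.coeff_add, Polynomial.coeff_C_mul, Polynomial.coeff_sub, coeff_T]
  ring

lemma GB_self (f₀ : Fin (n + 1) → Polynomial E) (z : IX n d c ρ e → E) :
    GB f₀ z = cg c e f₀ (NB z) := by
  funext i
  unfold GB
  simp [Algebra.algebraMap_self, Polynomial.map_id]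

lemma PB_self (F : MvPolynomial (Fin (n + 1)) E) (f₀ : Fin (n + 1) → Polynomial E)
    (z : IX n d c ρ e → E) : PB F f₀ z = onC (F.map Polynomial.C) (cg c e f₀ (NB z)) := by
  unfold PB
  rw [GB_self, Algebra.algebraMap_self, map_id]

lemma RB_self (m : Polynomial E) (θ : E) (z : IX n d c ρ e → E) :
    RB m θ z = (Polynomial.C m * Polynomial.X - Polynomial.C (Polynomial.C θ)) * QB z := by
  unfold RB
  rw [Algebra.algebraMap_self, Polynomial.map_id]

lemma LB_self (F : MvPolynomial (Fin (n + 1)) E) (f₀ : Fin (n + 1) → Polynomial E)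
    (z u : IX n d c ρ e → E) : LB F f₀ z u =
      ∑ i, (∑ j : Fin e, Polynomial.C (NB u j i) * Polynomial.X ^ (j : ℕ)) *
        onC (pderiv i (F.map Polynomial.C)) (cg c e f₀ (NB z)) := by
  unfold LB
  rw [GB_self, Algebra.algebraMap_self, map_id]

lemma Psi_dual (F : MvPolynomial (Fin (n + 1)) E) (m : Polynomial E)
    (f₀ : Fin (n + 1) → Polynomial E) (z u : IX n d c ρ e → E) (j : JX d c ρ e) :
    Psi F m f₀ (0 : DualNumber E)
      (fun x => TrivSqZeroExt.inl (z x) + TrivSqZeroExt.inr (u x)) j =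
      TrivSqZeroExt.inl (Psi F m f₀ 0 z j) +
        TrivSqZeroExt.inr (((LB F f₀ z u - RB m 0 u).coeff (j.1 : ℕ)).coeff (j.2 : ℕ)) := by
  set φ : E →ₐ[E] DualNumber E := Algebra.ofId E (DualNumber E) with hφ
  have hφ' : ∀ a, φ a = TrivSqZeroExt.inl a := fun a => rfl
  have hin : ∀ a : E, (TrivSqZeroExt.inr a : DualNumber E) = DualNumber.eps * φ a := by
    intro a
    rw [hφ']
    apply TrivSqZeroExt.ext <;> simp
  have h1 : (fun x => (TrivSqZeroExt.inl (z x) + TrivSqZeroExt.inr (u x) : DualNumber E)) =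
      fun x => φ (z x) + DualNumber.eps * φ (u x) := by
    funext x
    rw [hin, hφ' (z x)]
  rw [h1, Psi_add F m f₀ (0 : DualNumber E) (fun x => φ (z x)) (fun x => φ (u x)) _
    (DualNumber.eps_mul_eps), hin, ← hφ' (Psi F m f₀ 0 z j)]
  congr 1
  · have := Psi_map φ F m f₀ 0 z j
    rwa [map_zero] at this
  · congr 1
    have h2 := LB_map φ F f₀ z u
    have h3 := RB_map φ m 0 u
    rw [map_zero] at h3
    rw [h2, h3, ← Polynomial.map_sub]
    simp [Polynomial.coeff_map]

lemma cg_coeff_zero {A : Type} [CommRing A] (f : Fin (n + 1) → Polynomial A)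
    (N : Fin e → Fin (n + 1) → Polynomial A) (i : Fin (n + 1)) :
    (cg c e f N i).coeff 0 = f i := by
  rw [cg_eq]
  simp [mul_assoc]

lemma cg_coeff_succ {A : Type} [CommRing A] (f : Fin (n + 1) → Polynomial A)
    (N : Fin e → Fin (n + 1) → Polynomial A) (i : Fin (n + 1)) (k : ℕ) :
    (cg c e f N i).coeff (k + 1) =
      if h : k < e then Polynomial.X ^ c * N ⟨k, h⟩ i else 0 := by
  rw [cg_eq, Polynomial.coeff_add, mul_assoc, Polynomial.coeff_C_mul, Polynomial.coeff_X_mul,
    coeff_fs e (fun j => N j i), Polynomial.coeff_C_succ, zero_add]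
  split_ifs <;> simp

lemma cg_BD (f : Fin (n + 1) → Polynomial E) (N : Fin e → Fin (n + 1) → Polynomial E)
    (hf : ∀ i, (f i).natDegree ≤ c) (hN : ∀ j i, (N j i).degree < ((ρ + 1 : ℕ) : WithBot ℕ))
    (i : Fin (n + 1)) : BD (cg c e f N i) e c ρ := by
  constructor
  · rw [Polynomial.natDegree_le_iff_coeff_eq_zero]
    intro k hk
    obtain ⟨k, rfl⟩ : ∃ l, k = l + 1 := ⟨k - 1, by omega⟩
    rw [cg_coeff_succ, dif_neg (by omega)]
  · intro k
    cases k with
    | zero =>
      rw [cg_coeff_zero]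
      simpa using hf i
    | succ k =>
      rw [cg_coeff_succ]
      by_cases h : k < e
      · rw [dif_pos h]
        refine (Polynomial.natDegree_mul_le).trans ?_
        have h1 : (N ⟨k, h⟩ i).natDegree ≤ ρ := by
          have := hN ⟨k, h⟩ i
          by_cases h0 : N ⟨k, h⟩ i = 0
          · simp [h0]
          · rw [Polynomial.degree_eq_natDegree h0] at this
            have h2 : (N ⟨k, h⟩ i).natDegree < ρ + 1 := by exact_mod_cast this
            omega
        have h2 : (Polynomial.X ^ c : Polynomial E).natDegree ≤ c := by simp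
        have h3 : ρ ≤ (k + 1) * ρ := Nat.le_mul_of_pos_left _ (by omega)
        omega
      · rw [dif_neg h]
        simp

end sys

section main

variable {E : Type} [Field E] {n d c ρ e : ℕ}

lemma Ds_eq (i : ℕ) : Ds d c ρ 1 i = (d - 1) * c + (i + 1) * ρ + 1 := rfl

lemma dc_eq (hd : 1 ≤ d) : d * c = (d - 1) * c + c := by
  obtain ⟨k, rfl⟩ : ∃ k, d = k + 1 := ⟨d - 1, by omega⟩
  simp [Nat.add_mul]

/-- The value of the form at a comb is bounded. -/
lemma P_BD (h1 : T_BDM) (F : MvPolynomial (Fin (n + 1)) E) (hF : F.IsHomogeneous d)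
    (f : Fin (n + 1) → Polynomial E) (N : Fin e → Fin (n + 1) → Polynomial E)
    (hf : ∀ i, (f i).natDegree ≤ c) (hN : ∀ j i, (N j i).degree < ((ρ + 1 : ℕ) : WithBot ℕ)) :
    BD (onC (F.map Polynomial.C) (cg c e f N)) (d * e) (d * c) ρ := by
  apply h1 (Fin (n + 1)) E (F.map Polynomial.C) d _ (hF.map _) _ e c ρ
  · intro i
    exact cg_BD f N hf hN i
  · intro μ
    rw [coeff_map]
    simp

/-- The quotient at the base point. -/
lemma exists_Q (h1 : T_BDM) (F : MvPolynomial (Fin (n + 1)) E) (m : Polynomial E)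
    (f₀ : Fin (n + 1) → Polynomial E) (N₀ : Fin e → Fin (n + 1) → Polynomial E) (hd : 1 ≤ d)
    (hF : F.IsHomogeneous d) (hm : m.Monic) (hmd : m.natDegree = ρ + 1)
    (hc : c = 0 ∨ m.coeff 0 ≠ 0) (hf : ∀ i, (f₀ i).natDegree ≤ c)
    (hN : ∀ j i, (N₀ j i).degree < ((ρ + 1 : ℕ) : WithBot ℕ)) (h0 : onC F f₀ = 0)
    (hdvd : Polynomial.C m ∣ onC (F.map Polynomial.C) (cg c e f₀ N₀))
    (hc1 : (onC (F.map Polynomial.C) (cg c e f₀ N₀)).coeff 1 = 0) :
    ∃ Q : Polynomial (Polynomial E), Q.degree < ((d * e - 1 : ℕ) : WithBot ℕ) ∧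
      (∀ i, (Q.coeff i).degree < ((Ds d c ρ 1 i - 1 : ℕ) : WithBot ℕ)) ∧
      onC (F.map Polynomial.C) (cg c e f₀ N₀) = (Polynomial.C (Polynomial.X ^ c) * Polynomial.X) *
        ((Polynomial.C m * Polynomial.X) * Q) := by
  obtain ⟨S, hS⟩ := exists_S F c e f₀ h0 N₀
  have hcoef : ∀ i, (onC (F.map Polynomial.C) (cg c e f₀ N₀)).coeff (i + 1) =
      Polynomial.X ^ c * S.coeff i := by
    intro i
    rw [hS, mul_assoc, Polynomial.coeff_C_mul, Polynomial.coeff_X_mul]
  have hmS : ∀ i, m ∣ S.coeff i := by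
    intro i
    have h := (Polynomial.C_dvd_iff_dvd_coeff m _).1 hdvd (i + 1)
    rw [hcoef] at h
    rcases hc with hc | hc
    · subst hc
      simpa using h
    · have hcop : IsCoprime m (Polynomial.X ^ c) := by
        apply IsCoprime.pow_right
        have hX : ¬ (Polynomial.X : Polynomial E) ∣ m := by
          rw [Polynomial.X_dvd_iff]
          exact hc
        exact ((Polynomial.irreducible_X.coprime_iff_not_dvd).2 hX).symm
      exact hcop.dvd_of_dvd_mul_left h
  obtain ⟨T, hT⟩ := (Polynomial.C_dvd_iff_dvd_coeff m S).2 hmS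
  have hT0 : T.coeff 0 = 0 := by
    have h := hcoef 0
    rw [zero_add, hc1, hT, Polynomial.coeff_C_mul] at h
    have hX : (Polynomial.X ^ c : Polynomial E) ≠ 0 := pow_ne_zero _ Polynomial.X_ne_zero
    rcases mul_eq_zero.1 h.symm with h' | h'
    · exact absurd h' hX
    · rcases mul_eq_zero.1 h' with h'' | h''
      · exact absurd h'' hm.ne_zero
      · exact h''
  obtain ⟨Q, hQ⟩ := Polynomial.X_dvd_iff.2 hT0
  have hP : onC (F.map Polynomial.C) (cg c e f₀ N₀) =
      (Polynomial.C (Polynomial.X ^ c) * Polynomial.X) *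
        ((Polynomial.C m * Polynomial.X) * Q) := by
    rw [hS, hT, hQ]
    ring
  have hco : ∀ i, (onC (F.map Polynomial.C) (cg c e f₀ N₀)).coeff (i + 2) =
      Polynomial.X ^ c * (m * Q.coeff i) := by
    intro i
    rw [hcoef (i + 1), hT, hQ, Polynomial.coeff_C_mul, Polynomial.coeff_X_mul]
  obtain ⟨hB1, hB2⟩ := P_BD h1 F hF f₀ N₀ hf hN
  refine ⟨Q, ?_, ?_, hP⟩
  · rw [Polynomial.degree_lt_iff_coeff_zero]
    intro i hi
    by_contra hne
    have h := hco i
    rw [Polynomial.coeff_eq_zero_of_natDegree_lt (by omega)] at h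
    exact mul_ne_zero (pow_ne_zero _ Polynomial.X_ne_zero) (mul_ne_zero hm.ne_zero hne) h.symm
  · intro i
    by_cases hne : Q.coeff i = 0
    · rw [hne, Polynomial.degree_zero]
      exact WithBot.bot_lt_coe _
    · rw [Polynomial.degree_eq_natDegree hne]
      have h := hB2 (i + 2)
      rw [hco, Polynomial.natDegree_mul (pow_ne_zero _ Polynomial.X_ne_zero)
        (mul_ne_zero hm.ne_zero hne), Polynomial.natDegree_mul hm.ne_zero hne,
        Polynomial.natDegree_X_pow, hmd, dc_eq hd] at h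
      have h2 : (i + 2) * ρ = (i + 1) * ρ + ρ := by ring
      have h3 : (Q.coeff i).natDegree < Ds d c ρ 1 i - 1 := by
        rw [Ds_eq]
        omega
      exact_mod_cast h3

/-- A solution of the system. -/
lemma eq_of_Psi (h1 : T_BDM) (F : MvPolynomial (Fin (n + 1)) E) (m : Polynomial E)
    (f₀ : Fin (n + 1) → Polynomial E) (hd : 1 ≤ d)
    (hF : F.IsHomogeneous d) (hmd : m.natDegree = ρ + 1)
    (hf : ∀ i, (f₀ i).natDegree ≤ c) (h0 : onC F f₀ = 0) (θ : E) (z : IX n d c ρ e → E)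
    (hz : ∀ j, Psi F m f₀ θ z j = 0) :
    onC (F.map Polynomial.C) (cg c e f₀ (NB z)) =
      (Polynomial.C m * Polynomial.X - Polynomial.C (Polynomial.C θ)) *
        (Polynomial.C (Polynomial.X ^ c) * Polynomial.X * QB z) := by
  obtain ⟨S, hS⟩ := exists_S F c e f₀ h0 (NB z)
  obtain ⟨hB1, hB2⟩ := P_BD h1 F hF f₀ (NB z) hf (NB_degree z)
  have hR : S = (Polynomial.C m * Polynomial.X - Polynomial.C (Polynomial.C θ)) * QB z := by
    ext i t
    rw [← coeff_T c S i t, ← hS]
    by_cases hi : i < d * e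
    · by_cases ht : t < Ds d c ρ 1 i
      · have h := hz ⟨⟨i, hi⟩, ⟨t, ht⟩⟩
        unfold Psi at h
        rw [PB_self, RB_self] at h
        exact sub_eq_zero.1 h
      · rw [Polynomial.coeff_eq_zero_of_natDegree_lt]
        · symm
          apply Polynomial.coeff_eq_zero_of_degree_lt
          refine lt_of_lt_of_le ?_ (show ((Ds d c ρ 1 i : ℕ) : WithBot ℕ) ≤ (t : WithBot ℕ) by
            exact_mod_cast not_lt.1 ht)
          rw [sub_mul, mul_assoc, Polynomial.coeff_sub, Polynomial.coeff_C_mul,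
            Polynomial.coeff_C_mul]
          refine lt_of_le_of_lt (Polynomial.degree_sub_le _ _) (max_lt ?_ ?_)
          · cases i with
            | zero =>
              simp only [Polynomial.mul_coeff_zero, Polynomial.coeff_X_zero, zero_mul, mul_zero,
                Polynomial.degree_zero]
              exact WithBot.bot_lt_coe _
            | succ i =>
              rw [Polynomial.coeff_X_mul]
              by_cases hne : (QB z).coeff i = 0
              · rw [hne, mul_zero, Polynomial.degree_zero]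
                exact WithBot.bot_lt_coe _
              · have h3 := QB_degree' z i
                rw [Polynomial.degree_eq_natDegree hne] at h3
                have h4 : ((QB z).coeff i).natDegree < Ds d c ρ 1 i - 1 := by exact_mod_cast h3
                have h5 : (m * (QB z).coeff i).natDegree < Ds d c ρ 1 (i + 1) := by
                  refine lt_of_le_of_lt Polynomial.natDegree_mul_le ?_
                  rw [hmd]
                  rw [Ds_eq] at h4 ⊢
                  have h2 : (i + 1 + 1) * ρ = (i + 1) * ρ + ρ := by ring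
                  omega
                exact lt_of_le_of_lt Polynomial.degree_le_natDegree (by exact_mod_cast h5)
          · refine lt_of_le_of_lt (Polynomial.degree_mul_le _ _) ?_
            refine lt_of_le_of_lt (add_le_add_left Polynomial.degree_C_le _) ?_
            rw [zero_add]
            refine lt_of_lt_of_le (QB_degree' z i) ?_
            exact_mod_cast Nat.sub_le _ _
        · have h := hB2 (i + 1)
          rw [dc_eq hd] at h
          rw [Ds_eq] at ht
          omega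
    · rw [Polynomial.coeff_eq_zero_of_natDegree_lt (n := i + 1) (by omega),
        Polynomial.coeff_zero, sub_mul, mul_assoc, Polynomial.coeff_sub, Polynomial.coeff_C_mul,
        Polynomial.coeff_C_mul]
      have hq : ∀ k, d * e - 1 ≤ k → (QB z).coeff k = 0 := fun k hk =>
        (Polynomial.degree_lt_iff_coeff_zero _ _).1 (QB_degree z) k hk
      rw [hq i (by omega)]
      cases i with
      | zero => simp
      | succ i =>
        rw [Polynomial.coeff_X_mul, hq i (by omega)]
        simp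
  rw [hS, hR]
  ring

/-- The linearised system is solvable. -/
lemma surj (F : MvPolynomial (Fin (n + 1)) E) (m : Polynomial E)
    (f₀ : Fin (n + 1) → Polynomial E) (z : IX n d c ρ e → E)
    (hL : LSur F d c ρ e 1 m 0 (cg c e f₀ (NB z))) (w : JX d c ρ e → E) :
    ∃ u : IX n d c ρ e → E, ∀ j : JX d c ρ e,
      ((LB F f₀ z u - RB m 0 u).coeff (j.1 : ℕ)).coeff (j.2 : ℕ) = w j := by
  set H : Polynomial (Polynomial E) := ∑ i : Fin (d * e), Polynomial.C
    (∑ t : Fin (Ds d c ρ 1 i), Polynomial.C (w ⟨i, t⟩) * Polynomial.X ^ (t : ℕ)) *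
      Polynomial.X ^ (i : ℕ) with hH
  have hHc : ∀ i k, (H.coeff i).coeff k = if h : i < d * e then
      (if h' : k < Ds d c ρ 1 i then w ⟨⟨i, h⟩, ⟨k, h'⟩⟩ else 0) else 0 := by
    intro i k
    rw [hH, coeff_fs (d * e) (fun i => ∑ t : Fin (Ds d c ρ 1 i),
      Polynomial.C (w ⟨i, t⟩) * Polynomial.X ^ (t : ℕ))]
    by_cases h : i < d * e
    · rw [dif_pos h, dif_pos h, coeff_fs]
    · rw [dif_neg h, dif_neg h]
      simp
  obtain ⟨u, Q, hu1, hu2, hu3, hQ1, hQ2, hE⟩ := hL H (by
    rw [Polynomial.degree_lt_iff_coeff_zero]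
    intro i hi
    ext k
    rw [hHc, dif_neg (by omega), Polynomial.coeff_zero]) (by
    intro i
    rw [Polynomial.degree_lt_iff_coeff_zero]
    intro k hk
    rw [hHc]
    by_cases h : i < d * e
    · rw [dif_pos h, dif_neg (by omega)]
    · rw [dif_neg h])
  obtain ⟨y, hy1, hy2⟩ := exists_z (n := n) (d := d) (c := c) (ρ := ρ) (e := e)
    (fun j i => (u i).coeff j) (by
      intro j i
      rcases Nat.eq_zero_or_pos (j : ℕ) with h | h
      · simp only [h]
        exact hu2 i
      · exact hu3 i j h) Q hQ1 hQ2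
  refine ⟨y, ?_⟩
  intro j
  have hsum : ∀ i, (∑ j : Fin e, Polynomial.C (NB y j i) * Polynomial.X ^ (j : ℕ)) = u i := by
    intro i
    ext1 k
    rw [coeff_fs e (fun j => NB y j i), hy1]
    by_cases h : k < e
    · rw [dif_pos h]
    · rw [dif_neg h, (Polynomial.degree_lt_iff_coeff_zero _ _).1 (hu1 i) k (by omega)]
  rw [LB_self, RB_self, hy2]
  simp only [hsum]
  rw [hE, hHc, dif_pos j.1.2, dif_pos j.2.2]

end main

end CMB_

open CMB_ in
theorem p_CMB (h1 : T_NPN) (h2 : T_BDM) (h3 : T_LOP) : T_CMB := by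
  intro E _ hE n d c ρ e F m f₀ N₀ hd he hF hm hmd hc hf hN h0 hdvd hc1 hL
  classical
  obtain ⟨Q, hQ1, hQ2, hQ⟩ := exists_Q h2 F m f₀ N₀ hd hF hm hmd hc hf hN h0 hdvd hc1
  obtain ⟨z₀, hz1, hz2⟩ := exists_z (n := n) (d := d) (c := c) (ρ := ρ) (e := e) N₀ hN Q hQ1 hQ2
  have hBD0 : ∀ i, BD (cg c e f₀ N₀ i) e c ρ := cg_BD f₀ N₀ hf hN
  obtain ⟨D1, hD1n, hD1, hD1'⟩ := h3 E n d c ρ e 1 F m 0 (cg c e f₀ N₀) hd he hF hmd.le
    (Or.inl rfl) hBD0 hL
  obtain ⟨D2, hD2n, hD2, hD2'⟩ : ∃ D : ∀ (B : Type) [CommRing B] [Algebra E B], B →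
      (Fin (n + 1) → Polynomial (Polynomial B)) → B,
      (∀ (B B' : Type) [CommRing B] [CommRing B'] [Algebra E B] [Algebra E B'] (φ : B →ₐ[E] B')
        (θ : B) (g : Fin (n + 1) → Polynomial (Polynomial B)),
        D B' (φ θ) (fun i => (g i).map (Polynomial.mapRingHom φ.toRingHom)) = φ (D B θ g)) ∧
      D E 0 (cg c e f₀ N₀) ≠ 0 ∧
      (1 ≤ ρ → LSur F d c ρ e 0 m 0 (cg c e f₀ N₀) →
        ∀ (θ : E) (g : Fin (n + 1) → Polynomial (Polynomial E)),
        (∀ i, BD (g i) e c ρ) → D E θ g ≠ 0 → LSur F d c ρ e 0 m θ g) := by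
    by_cases hcase : 1 ≤ ρ ∧ LSur F d c ρ e 0 m 0 (cg c e f₀ N₀)
    · obtain ⟨D, a, b, c'⟩ := h3 E n d c ρ e 0 F m 0 (cg c e f₀ N₀) hd he hF hmd.le
        (Or.inr ⟨rfl, hcase.1⟩) hBD0 hcase.2
      exact ⟨D, a, b, fun _ _ => c'⟩
    · refine ⟨fun B _ _ _ _ => 1, ?_, one_ne_zero, ?_⟩
      · intros
        simp
      · intro a b
        exact absurd ⟨a, b⟩ hcase
  obtain ⟨θ, z, hθ, hz, hD⟩ := (h1 E).1 hE (IX n d c ρ e) (JX d c ρ e)
    (fun B _ _ θ z j => Psi F m f₀ θ z j)
    (fun B _ _ θ z => D1 B θ (GB f₀ z) * D2 B θ (GB f₀ z))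
    (by
      intro B B' _ _ _ _ φ θ z j
      exact Psi_map φ F m f₀ θ z j)
    (by
      intro B B' _ _ _ _ φ θ z
      have hG : GB f₀ (fun i => φ (z i)) = fun i =>
          (GB f₀ z i).map (Polynomial.mapRingHom φ.toRingHom) := funext (GB_map φ f₀ z)
      simp only [hG]
      rw [hD1n, hD2n, map_mul])
    z₀
    (by
      intro j
      show Psi F m f₀ 0 z₀ j = 0
      unfold Psi
      rw [PB_self, RB_self, hz1, hz2, hQ, coeff_T]
      simp)
    (by
      show D1 E 0 (GB f₀ z₀) * D2 E 0 (GB f₀ z₀) ≠ 0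
      rw [GB_self, hz1]
      exact mul_ne_zero hD1 hD2)
    (by
      intro w
      obtain ⟨u, hu⟩ := surj F m f₀ z₀ (by rw [hz1]; exact hL) w
      refine ⟨u, ?_⟩
      intro j
      show Psi F m f₀ (0 : DualNumber E)
        (fun x => TrivSqZeroExt.inl (z₀ x) + TrivSqZeroExt.inr (u x)) j = _
      rw [Psi_dual, hu]
      have hb : Psi F m f₀ 0 z₀ j = 0 := by
        unfold Psi
        rw [PB_self, RB_self, hz1, hz2, hQ, coeff_T]
        simp
      rw [hb, TrivSqZeroExt.inl_zero, zero_add])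
  have hz' : ∀ j, Psi F m f₀ θ z j = 0 := hz
  have hD' : D1 E θ (GB f₀ z) * D2 E θ (GB f₀ z) ≠ 0 := hD
  rw [GB_self] at hD'
  have hBDz : ∀ i, BD (cg c e f₀ (NB z) i) e c ρ := cg_BD f₀ (NB z) hf (NB_degree z)
  refine ⟨θ, NB z, _, hθ, NB_degree z, eq_of_Psi h2 F m f₀ hd hF hmd hf h0 θ z hz', ?_, ?_⟩
  · exact hD1' θ _ hBDz (left_ne_zero_of_mul hD')
  · intro a b
    exact hD2' a b θ _ hBDz (right_ne_zero_of_mul hD')

end Pool.Agent.FCV
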