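import Pool.Agent.FCV.TargetsM

/-!
# The count of the arcs of curves near a free curve
-/

set_option autoImplicit false

open MvPolynomial WithZero
open Pool.Agent.WA Pool.Agent.WL

namespace Pool.Agent.FCV

namespace CNTC_

theorem up_up (k E L : Type) [Field k] [Field E] [Field L] [Algebra k E] [Algebra k L]
    [Algebra E L] [IsScalarTower k E L] (f : PowerSeries k) :
    up E L (up k E f) = up k L f := by
  unfold up
  ext n
  simp only [PowerSeries.coeff_map]
  exact (IsScalarTower.algebraMap_apply k E L _).symm

theorem upF_upF {σ : Type} (k E L : Type) [Field k] [Field E] [Field L] [Algebra k E]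
    [Algebra k L] [Algebra E L] [IsScalarTower k E L] (F : MvPolynomial σ (PowerSeries k)) :
    (upF E F).map (up E L) = upF L F := by
  unfold upF
  rw [map_map]
  have h : (up E L).comp (up k E) = up k L := RingHom.ext fun f => up_up k E L f
  rw [h]

/-- The set of pairs `(p, b)` whose coefficients are adjoined. -/
theorem card_pairs {ι : Type} [Fintype ι] [DecidableEq ι] (d N c : ℕ) (R : Finset ι)
    (hR : R.card = d) (hc : 2 * c + 2 ≤ N) :
    ((((Finset.univ : Finset ι) ×ˢ Finset.range N).filter
      (fun p => ¬ (p.1 ∈ R ∧ c < p.2 ∧ p.2 + c < N))).card) + d * N ≤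
      Fintype.card ι * N + d * (2 * c + 1) := by
  classical
  have h1 := Finset.card_filter_add_card_filter_not
    (s := (Finset.univ : Finset ι) ×ˢ Finset.range N)
    (fun p => (p.1 ∈ R ∧ c < p.2 ∧ p.2 + c < N))
  have h2 : R ×ˢ (Finset.Ioo c (N - c)) ⊆ ((Finset.univ : Finset ι) ×ˢ
      Finset.range N).filter (fun p => (p.1 ∈ R ∧ c < p.2 ∧ p.2 + c < N)) := by
    intro p hp
    rw [Finset.mem_product, Finset.mem_Ioo] at hp
    rw [Finset.mem_filter, Finset.mem_product, Finset.mem_range]
    refine ⟨⟨Finset.mem_univ _, by omega⟩, hp.1, hp.2.1, by omega⟩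
  have h3 := Finset.card_le_card h2
  rw [Finset.card_product, Nat.card_Ioo, hR] at h3
  rw [Finset.card_product, Finset.card_univ, Finset.card_range] at h1
  have h4 : d * (N - c - c - 1) + d * (2 * c + 1) = d * N := by
    rw [← Nat.mul_add]
    congr 1
    omega
  omega

end CNTC_

open CNTC_ in
theorem p_CNTC (h1 : T_NC) (h2 : T_GLC) : T_CNTC := by
  classical
  intro k E₀ L _ _ _ _ _ _ _ n d E N c F ψ η S hj hm
  set u : Fin E × Fin (n + 1) → PowerSeries L := fun p => ψ p.1 p.2 with hu
  by_cases hP : N ≤ 2 * c + 1
  · refine ⟨((Finset.univ : Finset (Fin E × Fin (n + 1))) ×ˢ Finset.range N).image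
      (fun p => PowerSeries.coeff p.2 (u p.1)), ?_, fun j i b hb => ?_⟩
    · refine Nat.add_le_add ?_ (Nat.mul_le_mul_left _ hP)
      refine Finset.card_image_le.trans ?_
      rw [Finset.card_product, Finset.card_univ, Fintype.card_prod, Fintype.card_fin,
        Fintype.card_fin, Finset.card_range]
    · refine IntermediateField.subset_adjoin _ _ ?_
      rw [Finset.mem_coe, Finset.mem_image]
      exact ⟨((j, i), b), Finset.mem_product.mpr ⟨Finset.mem_univ _, Finset.mem_range.mpr hb⟩,
        rfl⟩
  · rw [not_le] at hP
    have hS : Function.Injective S := by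
      intro l l' hll
      by_contra hne
      apply hm
      have : cminor (upF L F) d E (crv ψ (fun i => up E₀ L (η i))) S = 0 := by
        unfold cminor
        refine Matrix.det_zero_of_column_eq hne fun r => ?_
        simp only [Matrix.submatrix_apply, hll]
      rw [this]
      exact dvd_zero _
    set R : Finset (Fin E × Fin (n + 1)) := Finset.univ.image S with hRdef
    have hR : R.card = d * E := by
      rw [hRdef, Finset.card_image_of_injective _ hS, Finset.card_univ, Fintype.card_fin]
    set Q := ((Finset.univ : Finset (Fin E × Fin (n + 1))) ×ˢ Finset.range N).filter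
      (fun p => ¬ (p.1 ∈ R ∧ c < p.2 ∧ p.2 + c < N)) with hQ
    set T : Finset L := Q.image (fun p => PowerSeries.coeff p.2 (u p.1)) with hT
    have hmem : ∀ p b, b < N → ¬ (p ∈ R ∧ c < b ∧ b + c < N) →
        PowerSeries.coeff b (u p) ∈ IntermediateField.adjoin E₀ (T : Set L) := by
      intro p b hb hn
      refine IntermediateField.subset_adjoin _ _ ?_
      rw [Finset.mem_coe, hT, Finset.mem_image]
      refine ⟨(p, b), ?_, rfl⟩
      rw [hQ, Finset.mem_filter, Finset.mem_product]
      exact ⟨⟨Finset.mem_univ _, Finset.mem_range.mpr hb⟩, hn⟩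
    refine ⟨T, ?_, ?_⟩
    · have := card_pairs (ι := Fin E × Fin (n + 1)) (d * E) N c R hR (by omega)
      rw [← hQ, Fintype.card_prod, Fintype.card_fin, Fintype.card_fin] at this
      have h3 : T.card ≤ Q.card := Finset.card_image_le
      omega
    · -- the polynomials of the expansion coefficients
      have hG := fun l : Fin (d * E) => h2 (Fin (n + 1)) (PowerSeries E₀) (upF E₀ F) E l η
      choose G hG using hG
      have hG' := fun l : Fin (d * E) => hG l (PowerSeries L) (up E₀ L) u
      have key := h1 E₀ L (Fin E × Fin (n + 1)) (d * E) N c G S u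
        (IntermediateField.adjoin E₀ (T : Set L)) ?_ ?_ ?_ ?_
      · intro j i b hb
        by_cases hbP : b + c < N
        · exact key (j, i) b hbP
        · exact hmem (j, i) b hb (fun h => hbP h.2.2)
      · intro l
        have := (hG' l).1
        rw [upF_upF] at this
        change _ ∣ eval u ((G l).map (up E₀ L))
        rw [this]
        exact hj l l.2
      · intro hdvd
        apply hm
        convert hdvd using 1
        unfold cminor
        congr 1
        refine Matrix.ext fun l l' => ?_
        simp only [Matrix.submatrix_apply, Matrix.of_apply, cmat, id]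
        have := (hG' l).2 (S l')
        rw [upF_upF] at this
        change _ = eval u (pderiv (S l') ((G l).map (up E₀ L)))
        rw [this]
      · intro p hp a ha
        refine hmem p a (by omega) fun h => hp ?_
        obtain ⟨l, -, hl⟩ := Finset.mem_image.mp h.1
        exact ⟨l, hl⟩
      · intro p a ha
        exact hmem p a (by omega) (fun h => by omega)

end Pool.Agent.FCV
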