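import Pool.Agent.FCV.TargetsL

/-!
# Relations with large support
-/

set_option autoImplicit false

namespace Pool.Agent.FCV

/-- a generic element of a space of vectors -/
theorem COL_generic {E : Type} [Field E] [Infinite E] {s : ℕ} (Z : Submodule E (Fin s → E)) :
    ∃ γ ∈ Z, ∀ i, (∃ z ∈ Z, z i ≠ 0) → γ i ≠ 0 := by
  classical
  let R : Type := {i : Fin s // ∃ z ∈ Z, z i ≠ 0}
  let p : R → Submodule E Z := fun i =>
    LinearMap.ker ((LinearMap.proj (R := E) (φ := fun _ : Fin s => E) i.1).comp Z.subtype)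
  have hp : ∀ i, p i ≠ ⊤ := by
    rintro ⟨i, z, hz, hzi⟩ h
    have h1 : (⟨z, hz⟩ : Z) ∈ p ⟨i, z, hz, hzi⟩ := by
      rw [h]; exact Submodule.mem_top
    exact hzi (LinearMap.mem_ker.1 h1)
  have hU : ⋃ i, (p i : Set Z) ≠ Set.univ := by
    intro h
    obtain ⟨i, hi⟩ := Subspace.exists_eq_top_of_iUnion_eq_univ h
    exact hp i hi
  obtain ⟨γ, hγ⟩ := (Set.ne_univ_iff_exists_notMem _).1 hU
  refine ⟨γ.1, γ.2, fun i hi h0 => hγ ?_⟩
  rw [Set.mem_iUnion]
  exact ⟨⟨i, hi⟩, LinearMap.mem_ker.2 h0⟩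

theorem p_COL : T_COL := by
  classical
  intro E V _ _ _ _ _ s ρ
  let L : (Fin s → E) →ₗ[E] V := Fintype.linearCombination E ρ
  obtain ⟨γ, hγ, hγ'⟩ := COL_generic (LinearMap.ker L)
  let R : Finset (Fin s) := Finset.univ.filter fun i => γ i ≠ 0
  refine ⟨R, γ, ?_, fun i hi => (Finset.mem_filter.1 hi).2, ?_⟩
  · have h1 : Module.finrank E (LinearMap.range L) + Module.finrank E (LinearMap.ker L) = s := by
      rw [LinearMap.finrank_range_add_finrank_ker]
      simp
    have h2 : Module.finrank E (LinearMap.range L) ≤ Module.finrank E V :=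
      Submodule.finrank_le _
    let f : LinearMap.ker L →ₗ[E] (R → E) :=
      (LinearMap.funLeft E E (fun i : R => (i.1 : Fin s))).comp (LinearMap.ker L).subtype
    have hf : Function.Injective f := by
      rw [injective_iff_map_eq_zero]
      rintro ⟨z, hz⟩ h
      apply Subtype.ext
      funext i
      change z i = 0
      by_contra hne
      have hi : i ∈ R := Finset.mem_filter.2 ⟨Finset.mem_univ _, hγ' i ⟨z, hz, hne⟩⟩
      exact hne (congrFun h ⟨i, hi⟩)
    have h3 : Module.finrank E (LinearMap.ker L) ≤ Module.finrank E (R → E) :=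
      LinearMap.finrank_le_finrank_of_injective hf
    have h4 : Module.finrank E (R → E) = R.card := by simp
    omega
  · have h1 : L γ = ∑ i, γ i • ρ i := Fintype.linearCombination_apply E ρ γ
    have h2 : L γ = 0 := LinearMap.mem_ker.1 hγ
    rw [h2] at h1
    have h3 : ∑ i ∈ R, γ i • ρ i = ∑ i, γ i • ρ i := by
      apply Finset.sum_subset (Finset.subset_univ R)
      intro i _ hi
      have h4 : γ i = 0 := by
        by_contra hne
        exact hi (Finset.mem_filter.2 ⟨Finset.mem_univ _, hne⟩)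
      rw [h4, zero_smul]
    rw [h3, ← h1]

end Pool.Agent.FCV
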