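import Pool.Agent.FCV.TargetsG

/-!
# Torus degeneration
-/

set_option autoImplicit false

open MvPolynomial

namespace Pool.Agent.FCV

theorem DEGE_onC_comp {σ A : Type} [CommRing A] (F : MvPolynomial σ A)
    (f : σ → Polynomial A) (q : Polynomial A) :
    onC F (fun i => (f i).comp q) = (onC F f).comp q := by
  unfold onC
  have h := MvPolynomial.eval₂_comp_left (Polynomial.compRingHom q) (Polynomial.C : A →+* _)
    f F
  rw [Polynomial.coe_compRingHom_apply] at h
  rw [h]
  congr 1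
  ext a
  simp

theorem DEGE_coeff {n a : ℕ} {A : Type} [CommRing A] (z : Fin a × Fin (n + 1) → A)
    (i : Fin (n + 1)) (j : ℕ) :
    (cv z i).coeff j = if h : j < a then z (⟨j, h⟩, i) else 0 := by
  unfold cv
  rw [Polynomial.finsetSum_coeff]
  simp only [Polynomial.coeff_C_mul_X_pow]
  split_ifs with h
  · rw [Finset.sum_eq_single ⟨j, h⟩]
    · simp
    · intro b _ hb
      rw [if_neg]
      intro hj
      exact hb (Fin.ext hj.symm)
    · intro hn
      exact absurd (Finset.mem_univ _) hn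
  · refine Finset.sum_eq_zero fun b _ => ?_
    rw [if_neg]
    intro hj
    exact h (hj ▸ b.2)

theorem DEGE_cv_scale {n a : ℕ} {A : Type} [CommRing A] (w : Fin a × Fin (n + 1) → A) (t : A)
    (i : Fin (n + 1)) :
    cv (fun p : Fin a × Fin (n + 1) => t ^ (p.1 : ℕ) * w p) i =
      (cv w i).comp (Polynomial.C t * Polynomial.X) := by
  ext j
  rw [Polynomial.comp_C_mul_X_coeff, DEGE_coeff, DEGE_coeff]
  split_ifs with h
  · ring
  · simp

/-- curves of degree less than `a` seen as curves of degree less than `μ` -/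
noncomputable def DEGE_ext {n a μ : ℕ} {A : Type} [CommRing A] (z : Fin a × Fin (n + 1) → A) :
    Fin μ × Fin (n + 1) → A :=
  fun p => if h : (p.1 : ℕ) < a then z (⟨p.1, h⟩, p.2) else 0

theorem DEGE_cv_ext {n a μ : ℕ} {A : Type} [CommRing A] (z : Fin a × Fin (n + 1) → A)
    (hz : ∀ p : Fin a × Fin (n + 1), μ ≤ (p.1 : ℕ) → z p = 0) (i : Fin (n + 1)) :
    cv (DEGE_ext (μ := μ) z) i = cv z i := by
  ext j
  rw [DEGE_coeff, DEGE_coeff]
  unfold DEGE_ext
  by_cases h1 : j < μ
  · rw [dif_pos h1]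
  · rw [dif_neg h1]
    by_cases h2 : j < a
    · rw [dif_pos h2, hz (⟨j, h2⟩, i) (not_lt.1 h1)]
    · rw [dif_neg h2]

theorem DEGE_sum {n a μ : ℕ} {A : Type} [CommRing A] (l : Fin μ × Fin (n + 1) → A)
    (z : Fin a × Fin (n + 1) → A) :
    ∑ p : Fin μ × Fin (n + 1), l p * DEGE_ext (μ := μ) z p =
      ∑ p : Fin a × Fin (n + 1), DEGE_ext (μ := a) l p * z p := by
  rw [Fintype.sum_prod_type, Fintype.sum_prod_type, Finset.sum_comm]
  rw [Finset.sum_comm (s := (Finset.univ : Finset (Fin a)))]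
  refine Finset.sum_congr rfl fun i _ => ?_
  have h1 : ∀ (u v : ℕ) (l : Fin u × Fin (n + 1) → A) (z : Fin v × Fin (n + 1) → A),
      ∑ j : Fin u, l (j, i) * DEGE_ext (μ := u) z (j, i) =
      ∑ j ∈ Finset.range (max u v), (if h : j < u then l (⟨j, h⟩, i) else 0) *
        (if h : j < v then z (⟨j, h⟩, i) else 0) := by
    intro u v l z
    have h2 : ∑ j : Fin u, l (j, i) * DEGE_ext (μ := u) z (j, i) =
        ∑ j ∈ Finset.range u, (if h : j < u then l (⟨j, h⟩, i) else 0) *
        (if h : j < v then z (⟨j, h⟩, i) else 0) := by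
      rw [Finset.sum_range]
      refine Finset.sum_congr rfl fun j _ => ?_
      rw [dif_pos j.2]
      rfl
    rw [h2]
    refine Finset.sum_subset (Finset.range_mono (le_max_left _ _)) fun j _ hj => ?_
    rw [dif_neg (by simpa using hj), zero_mul]
  rw [h1 μ a l z]
  have h3 := h1 a μ z l
  have h4 : ∑ j : Fin a, DEGE_ext (μ := a) l (j, i) * z (j, i) =
      ∑ j : Fin a, z (j, i) * DEGE_ext (μ := a) l (j, i) :=
    Finset.sum_congr rfl fun j _ => mul_comm _ _
  rw [h4, h3, max_comm]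
  exact Finset.sum_congr rfl fun j _ => mul_comm _ _

section Val

variable {κ M : Type} [Field κ] [Field M] [Algebra κ M] (V : ValuationSubring M)
  (hV : ∀ a : κ, algebraMap κ M a ∈ V)

/-- the base field in the valuation ring -/
noncomputable def DEGE_ik : κ →+* V := (algebraMap κ M).codRestrict V.toSubring hV

/-- the base field in the residue field -/
noncomputable def DEGE_rk : κ →+* IsLocalRing.ResidueField V :=
  (IsLocalRing.residue V).comp (DEGE_ik V hV)

theorem DEGE_max {τ : Type} [Finite τ] (w : τ → M) (hw : w ≠ 0) :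
    ∃ (p₁ : τ) (y : τ → V), w p₁ ≠ 0 ∧ (∀ p, (y p : M) = (w p₁)⁻¹ * w p) ∧ y p₁ = 1 ∧
      ∀ p, V.valuation (w p) ≤ V.valuation (w p₁) := by
  obtain ⟨p₀, hp₀⟩ := Function.ne_iff.1 hw
  have : Nonempty τ := ⟨p₀⟩
  obtain ⟨p₁, hp₁⟩ := Finite.exists_max (fun p => V.valuation (w p))
  have hne : w p₁ ≠ 0 := by
    intro h0
    have h1 : V.valuation (w p₀) ≤ V.valuation (w p₁) := hp₁ p₀
    rw [h0, map_zero, nonpos_iff_eq_zero, Valuation.zero_iff] at h1
    exact hp₀ h1
  have hmem : ∀ p, (w p₁)⁻¹ * w p ∈ V := by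
    intro p
    rw [← ValuationSubring.valuation_le_one_iff, map_mul, map_inv₀]
    exact inv_mul_le_one_of_le₀ (hp₁ p) (by simp)
  refine ⟨p₁, fun p => ⟨(w p₁)⁻¹ * w p, hmem p⟩, hne, fun p => rfl, ?_, hp₁⟩
  apply Subtype.ext
  change (w p₁)⁻¹ * w p₁ = 1
  rw [inv_mul_cancel₀ hne]

theorem DEGE_hom {τ : Type} (q : MvPolynomial τ κ) (e : ℕ) (hq : q.IsHomogeneous e)
    (w : τ → M) (c : M) (y : τ → V) (hy : ∀ p, (y p : M) = c * w p) (h0 : aeval w q = 0) :
    eval₂ (DEGE_rk V hV) (fun p => IsLocalRing.residue V (y p)) q = 0 := by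
  have h1 : eval₂ (DEGE_rk V hV) (fun p => IsLocalRing.residue V (y p)) q =
      IsLocalRing.residue V (eval₂ (DEGE_ik V hV) y q) := by
    rw [MvPolynomial.eval₂_comp_left]
    rfl
  have h2 : ((eval₂ (DEGE_ik V hV) y q : V) : M) = aeval (fun p => c * w p) q := by
    have h3 := MvPolynomial.eval₂_comp_left (V.subtype) (DEGE_ik V hV) y q
    have h4 : V.subtype.comp (DEGE_ik V hV) = algebraMap κ M := by
      ext a
      rfl
    rw [h4] at h3
    have h5 : (V.subtype ∘ y) = fun p => c * w p := by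
      funext p
      exact hy p
    rw [h5] at h3
    exact h3
  rw [WA.aeval_smul_of_homogeneous hq, h0, mul_zero] at h2
  have h3 : (eval₂ (DEGE_ik V hV) y q : V) = 0 := Subtype.ext h2
  rw [h1, h3, map_zero]

end Val

theorem DEGE_main (hNS : WL.T_NS) (hCBC : T_CBC) (hQC : T_QC) {κ : Type} [Field κ]
    [IsAlgClosed κ] {M : Type} [Field M] [Algebra κ M] (t : M) (ht : t ≠ 0)
    (V : ValuationSubring M) (hV : ∀ a : κ, algebraMap κ M a ∈ V) (htV : V.valuation t < 1)
    {n d a μ m r : ℕ} (F : MvPolynomial (Fin (n + 1)) κ) (hF : F.IsHomogeneous d)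
    (h : Fin r → MvPolynomial (Fin a × Fin (n + 1)) κ) (e : Fin r → ℕ)
    (hh : ∀ i, (h i).IsHomogeneous (e i))
    (hN : ∀ z : Fin a × Fin (n + 1) → κ, (∀ i, eval z (h i) = 0) → onC F (cv z) = 0)
    (hN0 : ∀ z : Fin a × Fin (n + 1) → κ, (∀ i, eval z (h i) = 0) →
      (∀ p : Fin a × Fin (n + 1), (p.1 : ℕ) < μ → z p = 0) → z = 0)
    (l : Fin m → Fin μ × Fin (n + 1) → κ)
    (hl : ∀ z ∈ Qset F μ, (∀ s, ∑ p, l s p * z p = 0) → z = 0)
    (w : Fin a × Fin (n + 1) → M) (hw : ∀ i, aeval w (h i) = 0)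
    (hwl : ∀ s, ∑ p : Fin a × Fin (n + 1), algebraMap κ M (DEGE_ext (μ := a) (l s) p) *
      (t ^ (p.1 : ℕ) * w p) = 0) : w = 0 := by
  classical
  by_contra hw0
  let _ : Algebra κ (IsLocalRing.ResidueField V) := (DEGE_rk V hV).toAlgebra
  have hev : ∀ (τ : Type) (z : τ → κ) (q : MvPolynomial τ κ), aeval z q = eval z q :=
    fun τ z q => by rw [aeval_eq_eval]
  have hid : F.map (algebraMap κ κ) = F := by
    rw [Algebra.algebraMap_self, MvPolynomial.map_id]
  -- the curve lies on the hypersurface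
  obtain ⟨ra, ha, ea, hha, hiffa⟩ := hQC κ n d a F hF
  have hQw : onC (F.map (algebraMap κ M)) (cv w) = 0 := by
    rw [← hiffa M w]
    intro i
    by_contra hne
    obtain ⟨z₀, hz₀, hz₁⟩ := hNS κ (Fin a × Fin (n + 1)) (Finset.univ.image h) (ha i) M w
      (by
        intro q hq
        obtain ⟨j, _, rfl⟩ := Finset.mem_image.1 hq
        exact hw j) hne
    have h1 := hN z₀ fun j => hz₀ (h j) (Finset.mem_image_of_mem _ (Finset.mem_univ _))
    have h2 := (hiffa κ z₀).2 (by rw [hid]; exact h1) i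
    rw [hev] at h2
    exact hz₁ h2
  -- first normalisation
  obtain ⟨p₁, y, hp₁, hy, hy1, hmax⟩ := DEGE_max V w hw0
  have hex : ∃ p : Fin a × Fin (n + 1), (p.1 : ℕ) < μ ∧ V.valuation (w p) =
      V.valuation (w p₁) := by
    by_contra hcon
    push Not at hcon
    let f : Finset (MvPolynomial (Fin a × Fin (n + 1)) κ) := Finset.univ.image h ∪
      (Finset.univ.filter fun p : Fin a × Fin (n + 1) => (p.1 : ℕ) < μ).image X
    obtain ⟨z₀, hz₀, hz₁⟩ := hNS κ (Fin a × Fin (n + 1)) f (X p₁)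
      (IsLocalRing.ResidueField V) (fun p => IsLocalRing.residue V (y p))
      (by
        intro q hq
        rcases Finset.mem_union.1 hq with hq | hq
        · obtain ⟨j, _, rfl⟩ := Finset.mem_image.1 hq
          exact DEGE_hom V hV (h j) (e j) (hh j) w _ y hy (hw j)
        · obtain ⟨p, hp, rfl⟩ := Finset.mem_image.1 hq
          rw [aeval_X, IsLocalRing.residue_eq_zero_iff, ValuationSubring.valuation_lt_one_iff,
            hy p, map_mul, map_inv₀]
          have h1 := lt_of_le_of_ne (hmax p) (hcon p (Finset.mem_filter.1 hp).2)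
          have h2 : V.valuation (w p₁) ≠ 0 := by
            rw [Ne, Valuation.zero_iff]
            exact hp₁
          rw [← div_eq_inv_mul]
          exact (div_lt_one₀ (zero_lt_iff.2 h2)).2 h1)
      (by
        rw [aeval_X, hy1, map_one]
        exact one_ne_zero)
    have h1 := hN0 z₀ (fun j => hz₀ (h j) (Finset.mem_union_left _
      (Finset.mem_image_of_mem _ (Finset.mem_univ _)))) (fun p hp => by
        have := hz₀ (X p) (Finset.mem_union_right _ (Finset.mem_image_of_mem _
          (Finset.mem_filter.2 ⟨Finset.mem_univ _, hp⟩)))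
        rwa [eval_X] at this)
    rw [h1, eval_X] at hz₁
    exact hz₁ rfl
  obtain ⟨p₀, hp₀μ, hp₀⟩ := hex
  -- second normalisation
  let c : Fin a × Fin (n + 1) → M := fun p => t ^ (p.1 : ℕ) * w p
  have hc0 : c ≠ 0 := by
    intro h0
    have h1 := congrFun h0 p₁
    have h2 : t ^ (p₁.1 : ℕ) * w p₁ = 0 := h1
    exact mul_ne_zero (pow_ne_zero _ ht) hp₁ h2
  obtain ⟨p₂, y₂, hp₂, hy₂, hy21, hmax₂⟩ := DEGE_max V c hc0
  have hvt : V.valuation t ≠ 0 := by
    rw [Ne, Valuation.zero_iff]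
    exact ht
  have hvw : V.valuation (w p₁) ≠ 0 := by
    rw [Ne, Valuation.zero_iff]
    exact hp₁
  have hlt : ∀ p : Fin a × Fin (n + 1), μ ≤ (p.1 : ℕ) →
      V.valuation (c p) < V.valuation (c p₂) := by
    intro p hp
    refine lt_of_lt_of_le ?_ (hmax₂ p₀)
    have h1 : V.valuation (c p) ≤ V.valuation t ^ (p.1 : ℕ) * V.valuation (w p₁) := by
      change V.valuation (t ^ (p.1 : ℕ) * w p) ≤ _
      rw [map_mul, map_pow]
      exact mul_le_mul_right (hmax p) _
    have h2 : V.valuation (c p₀) = V.valuation t ^ (p₀.1 : ℕ) * V.valuation (w p₁) := by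
      change V.valuation (t ^ (p₀.1 : ℕ) * w p₀) = _
      rw [map_mul, map_pow, hp₀]
    rw [h2]
    refine lt_of_le_of_lt h1 ?_
    refine mul_lt_mul_of_pos_right ?_ (zero_lt_iff.2 hvw)
    exact pow_lt_pow_right_of_lt_one₀ (zero_lt_iff.2 hvt) htV (lt_of_lt_of_le hp₀μ hp)
  let v : Fin a × Fin (n + 1) → IsLocalRing.ResidueField V :=
    fun p => IsLocalRing.residue V (y₂ p)
  have hv0 : ∀ p : Fin a × Fin (n + 1), μ ≤ (p.1 : ℕ) → v p = 0 := by
    intro p hp
    change IsLocalRing.residue V (y₂ p) = 0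
    rw [IsLocalRing.residue_eq_zero_iff, ValuationSubring.valuation_lt_one_iff,
      hy₂ p, map_mul, map_inv₀]
    have h2 : V.valuation (c p₂) ≠ 0 := by
      rw [Ne, Valuation.zero_iff]
      exact hp₂
    rw [← div_eq_inv_mul]
    exact (div_lt_one₀ (zero_lt_iff.2 h2)).2 (hlt p hp)
  -- the curve in the residue field
  have hQc : onC (F.map (algebraMap κ M)) (cv c) = 0 := by
    have h1 : cv c = fun i => (cv w i).comp (Polynomial.C t * Polynomial.X) := by
      funext i
      exact DEGE_cv_scale w t i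
    rw [h1, DEGE_onC_comp, hQw, Polynomial.zero_comp]
  have hQv : onC (F.map (algebraMap κ (IsLocalRing.ResidueField V))) (cv v) = 0 := by
    rw [← hiffa (IsLocalRing.ResidueField V) v]
    intro i
    exact DEGE_hom V hV (ha i) (ea i) (hha i) c _ y₂ hy₂ ((hiffa M c).2 hQc i)
  obtain ⟨rb, hb, eb, hhb, hiffb⟩ := hQC κ n d μ F hF
  have hzero : DEGE_ext (μ := μ) v = 0 := by
    refine hCBC κ (Fin μ × Fin (n + 1)) m rb hb eb l hhb ?_ (IsLocalRing.ResidueField V) _ ?_ ?_
    · intro z hz hlz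
      refine hl z ?_ hlz
      have h1 := (hiffb κ z).1 (fun i => by rw [hev]; exact hz i)
      rw [hid] at h1
      exact h1
    · rw [hiffb]
      have h1 : cv (DEGE_ext (μ := μ) v) = cv v := by
        funext i
        exact DEGE_cv_ext v hv0 i
      rw [h1]
      exact hQv
    · intro s
      rw [DEGE_sum]
      let q : MvPolynomial (Fin a × Fin (n + 1)) κ :=
        ∑ p, C (DEGE_ext (μ := a) (l s) p) * X p
      have hq : q.IsHomogeneous 1 := by
        refine MvPolynomial.IsHomogeneous.sum _ _ _ fun p _ => ?_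
        exact (isHomogeneous_C_mul_X _ _)
      have h1 := DEGE_hom V hV q 1 hq c _ y₂ hy₂ (by
        rw [map_sum]
        simp only [map_mul, aeval_C, aeval_X]
        exact hwl s)
      rw [eval₂_sum] at h1
      simp only [eval₂_mul, eval₂_C, eval₂_X] at h1
      rw [← h1]
      refine Finset.sum_congr rfl fun p _ => ?_
      have h2 : DEGE_ext (μ := a) (fun t => algebraMap κ (IsLocalRing.ResidueField V) (l s t)) p =
          DEGE_rk V hV (DEGE_ext (μ := a) (l s) p) := by
        unfold DEGE_ext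
        split_ifs
        · rfl
        · rw [map_zero]
      rw [h2]
  have hp₂μ : (p₂.1 : ℕ) < μ := by
    by_contra hcon
    exact absurd (hlt p₂ (not_lt.1 hcon)) (lt_irrefl _)
  have h1 := congrFun hzero (⟨p₂.1, hp₂μ⟩, p₂.2)
  have h2 : DEGE_ext (μ := μ) v (⟨p₂.1, hp₂μ⟩, p₂.2) = v p₂ := by
    unfold DEGE_ext
    dsimp only
    rw [dif_pos p₂.1.2]
  rw [h2] at h1
  have h3 : v p₂ = 1 := by
    change IsLocalRing.residue V (y₂ p₂) = 1
    rw [hy21, map_one]
  rw [h3] at h1
  exact one_ne_zero h1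

theorem p_DEGE (hELIM : WL.T_ELIM) (hNS : WL.T_NS) (hCBC : T_CBC) (hQC : T_QC) : T_DEGE := by
  classical
  intro κ _ _ n d a μ m F N hF hcone hNQ hN0 hcut
  obtain ⟨r, h, e, hh, hNh⟩ := hcone
  obtain ⟨l, hl⟩ := hcut
  let M := AlgebraicClosure (RatFunc κ)
  let t : M := algebraMap (RatFunc κ) M RatFunc.X
  have htr : Transcendental κ t := by
    have h1 : Transcendental κ (RatFunc.X : RatFunc κ) := RatFunc.transcendental_X
    exact (transcendental_algebraMap_iff (algebraMap (RatFunc κ) M).injective).2 h1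
  have ht : t ≠ 0 := by
    intro h0
    exact htr (h0 ▸ isAlgebraic_zero)
  let L : Fin m → MvPolynomial (Fin a × Fin (n + 1)) (MvPolynomial Unit κ) := fun s =>
    ∑ p : Fin a × Fin (n + 1), C (X () ^ (p.1 : ℕ) * C (DEGE_ext (μ := a) (l s) p)) * X p
  let g : Fin r ⊕ Fin m → MvPolynomial (Fin a × Fin (n + 1)) (MvPolynomial Unit κ) :=
    Sum.elim (fun i => (h i).map C) L
  have hg : ∀ i, (g i).IsHomogeneous (Sum.elim e (fun _ => 1) i) := by
    rintro (i | s)
    · exact (hh i).map _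
    · refine MvPolynomial.IsHomogeneous.sum _ _ _ fun p _ => ?_
      exact isHomogeneous_C_mul_X _ _
  by_cases hcase : ∀ w : Fin a × Fin (n + 1) → M,
      (∀ i, eval₂ (aeval (fun _ : Unit => t) : MvPolynomial Unit κ →ₐ[κ] M).toRingHom w (g i) = 0)
        → w = 0
  · obtain ⟨Δ, K, hΔ, hspan⟩ := hELIM κ Unit (Fin a × Fin (n + 1)) M (fun _ => t) _ g _ hg hcase
    have hΔ0 : Δ ≠ 0 := by
      rintro rfl
      exact hΔ (map_zero _)
    obtain ⟨t₀, ht₀⟩ : ∃ t₀ : Unit → κ, eval t₀ Δ ≠ 0 := by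
      by_contra hcon
      push Not at hcon
      exact hΔ0 (MvPolynomial.funext fun x => by rw [hcon x, map_zero])
    refine ⟨fun s p => t₀ () ^ (p.1 : ℕ) * DEGE_ext (μ := a) (l s) p, fun z hz hlz => ?_⟩
    funext b
    have hker : Ideal.span (Set.range g) ≤ RingHom.ker (eval₂Hom (eval t₀) z) := by
      rw [Ideal.span_le]
      rintro _ ⟨i, rfl⟩
      rw [SetLike.mem_coe, RingHom.mem_ker]
      rcases i with i | s
      · change eval₂ (eval t₀) z ((h i).map C) = 0
        rw [eval₂_map]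
        have h1 : (eval t₀).comp (C : κ →+* MvPolynomial Unit κ) = RingHom.id κ := by
          ext x
          simp
        rw [h1]
        exact (hNh z).1 hz i
      · change eval₂ (eval t₀) z (L s) = 0
        rw [← hlz s, eval₂_sum]
        refine Finset.sum_congr rfl fun p _ => ?_
        rw [eval₂_mul, eval₂_C, eval₂_X, map_mul, map_pow, eval_X, eval_C]
    have h1 := hker (hspan b)
    rw [RingHom.mem_ker] at h1
    have h2 : eval t₀ Δ * z b ^ K = 0 := by
      have h3 : eval₂Hom (eval t₀) z (C Δ * X b ^ K) = eval t₀ Δ * z b ^ K := by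
        rw [map_mul, map_pow, eval₂Hom_X']
        simp
      rw [← h3]
      exact h1
    rcases mul_eq_zero.1 h2 with h3 | h3
    · exact absurd h3 ht₀
    · exact eq_zero_of_pow_eq_zero h3
  · exfalso
    push Not at hcase
    obtain ⟨w, hw, hw0⟩ := hcase
    let F₀ : IntermediateField κ M := ⊥
    have hu : ¬ IsAlgebraic F₀.toSubfield t⁻¹ := by
      intro h1
      have h2 : IsAlgebraic F₀ t⁻¹ := h1
      have h3 : IsAlgebraic F₀ t := by
        have := h2.inv
        rwa [inv_inv] at this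
      exact htr (h3.restrictScalars κ)
    obtain ⟨V, hV, htV⟩ := WA.exists_valuationSubring F₀.toSubfield t⁻¹ hu
    have hkV : ∀ x : κ, algebraMap κ M x ∈ V := fun x => hV (F₀.algebraMap_mem x)
    have htV' : V.valuation t < 1 := by
      rw [← ValuationSubring.valuation_le_one_iff, not_le, map_inv₀] at htV
      have hvt : V.valuation t ≠ 0 := by
        rw [Ne, Valuation.zero_iff]
        exact ht
      exact (one_lt_inv₀ (zero_lt_iff.2 hvt)).1 htV
    refine hw0 (DEGE_main hNS hCBC hQC t ht V hkV htV' F hF h e hh ?_ ?_ l hl w ?_ ?_)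
    · intro z hz
      exact hNQ ((hNh z).2 hz)
    · intro z hz hp
      exact hN0 z ((hNh z).2 hz) fun j i hj => hp (j, i) hj
    · intro i
      have h1 := hw (Sum.inl i)
      have h2 : eval₂ (aeval (fun _ : Unit => t) : MvPolynomial Unit κ →ₐ[κ] M).toRingHom w
          ((h i).map C) = aeval w (h i) := by
        rw [eval₂_map]
        have h3 : (aeval (fun _ : Unit => t) : MvPolynomial Unit κ →ₐ[κ] M).toRingHom.comp
            (C : κ →+* MvPolynomial Unit κ) = algebraMap κ M := by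
          ext x
          simp
        rw [h3]
        rfl
      rw [← h2]
      exact h1
    · intro s
      have h1 := hw (Sum.inr s)
      have h2 : eval₂ (aeval (fun _ : Unit => t) : MvPolynomial Unit κ →ₐ[κ] M).toRingHom w
          (L s) = 0 := h1
      rw [← h2, eval₂_sum]
      refine Finset.sum_congr rfl fun p _ => ?_
      rw [eval₂_mul, eval₂_C, eval₂_X]
      have h3 : (aeval (fun _ : Unit => t) : MvPolynomial Unit κ →ₐ[κ] M).toRingHom
          (X () ^ (p.1 : ℕ) * C (DEGE_ext (μ := a) (l s) p)) =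
          t ^ (p.1 : ℕ) * algebraMap κ M (DEGE_ext (μ := a) (l s) p) := by
        simp
      rw [h3]
      ring

end Pool.Agent.FCV
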