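import Pool.Agent.FCV.TargetsL

/-!
# FCV, T_DESC: descent of very free curves from the algebraic closure (helper86)
-/

set_option autoImplicit false

open MvPolynomial

namespace Pool.Agent.FCV

namespace DESC_

section

variable {σ A B : Type} [Fintype σ] [CommRing A] [CommRing B]

theorem sur_of_pow {F : MvPolynomial σ A} {f : σ → Polynomial A} {a b : ℕ}
    (h : ∀ l : Fin b, ∃ u : σ → Polynomial A, (∀ i, (u i).degree < a) ∧
      ∑ i, u i * onC (pderiv i F) f = Polynomial.X ^ (l : ℕ)) : Sur F f a b := by
  intro H hH
  choose u hu1 hu2 using h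
  refine ⟨fun i => ∑ l : Fin b, Polynomial.C (H.coeff l) * u l i, fun i => ?_, ?_⟩
  · refine Polynomial.mem_degreeLT.1 (Submodule.sum_mem _ fun l _ => ?_)
    rw [← Polynomial.smul_eq_C_mul]
    exact Submodule.smul_mem _ _ (Polynomial.mem_degreeLT.2 (hu1 l i))
  · have e1 : ∑ i, (∑ l : Fin b, Polynomial.C (H.coeff l) * u l i) * onC (pderiv i F) f =
        ∑ l : Fin b, Polynomial.C (H.coeff l) * Polynomial.X ^ (l : ℕ) := by
      simp_rw [Finset.sum_mul]
      rw [Finset.sum_comm]
      refine Finset.sum_congr rfl fun l _ => ?_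
      rw [← hu2 l, Finset.mul_sum]
      exact Finset.sum_congr rfl fun i _ => by ring
    rw [e1]
    ext k
    rw [Polynomial.finset_sum_coeff]
    simp only [Polynomial.coeff_C_mul, Polynomial.coeff_X_pow, mul_ite, mul_one, mul_zero]
    by_cases hk : k < b
    · rw [Finset.sum_eq_single (⟨k, hk⟩ : Fin b)]
      · simp
      · intro l _ hl
        have : k ≠ (l : ℕ) := fun e => hl (Fin.ext e.symm)
        simp [this]
      · intro h
        exact absurd (Finset.mem_univ _) h
    · rw [Polynomial.coeff_eq_zero_of_degree_lt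
        (hH.trans_le (by exact_mod_cast not_lt.1 hk))]
      refine Finset.sum_eq_zero fun l _ => ?_
      have : k ≠ (l : ℕ) := fun e => hk (e ▸ l.2)
      simp [this]

/-- transport along an isomorphism -/
theorem vf_equiv (φ : A ≃+* B) {F : MvPolynomial σ A} {d e : ℕ} {x : σ → A}
    {f : σ → Polynomial A} (h : VF F d x e f) :
    VF (F.map (φ : A →+* B)) d (fun i => φ (x i)) e (fun i => (f i).map (φ : A →+* B)) where
  two := h.two
  deg i := Polynomial.natDegree_map_le.trans (h.deg i)
  zero := by rw [onC_map, h.zero, Polynomial.map_zero]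
  pt i := by rw [Polynomial.coeff_map, h.pt i]; rfl
  sur := by
    intro H hH
    have hd : (H.map (φ.symm : B →+* A)).degree < ((d * e - 1 : ℕ) : WithBot ℕ) :=
      lt_of_le_of_lt Polynomial.degree_map_le hH
    obtain ⟨u, hu1, hu2⟩ := h.sur _ hd
    refine ⟨fun i => (u i).map (φ : A →+* B),
      fun i => lt_of_le_of_lt Polynomial.degree_map_le (hu1 i), ?_⟩
    have e1 : ∑ i, (u i).map (φ : A →+* B) *
        onC (pderiv i (F.map (φ : A →+* B))) (fun i => (f i).map (φ : A →+* B)) =
        (∑ i, u i * onC (pderiv i F) f).map (φ : A →+* B) := by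
      rw [Polynomial.map_sum]
      refine Finset.sum_congr rfl fun i _ => ?_
      rw [pderiv_map, onC_map, Polynomial.map_mul]
    rw [e1, hu2, Polynomial.map_map]
    have e2 : (φ : A →+* B).comp (φ.symm : B →+* A) = RingHom.id B := by
      ext b
      simp
    rw [e2, Polynomial.map_id]

end

/-- descent to a finitely generated subextension -/
theorem finite_level (E Ω : Type) [Field E] [Field Ω] [Algebra E Ω] [Algebra.IsAlgebraic E Ω]
    (n d e : ℕ) (F : MvPolynomial (Fin (n + 1)) E) (x : Fin (n + 1) → E)
    (f : Fin (n + 1) → Polynomial Ω)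
    (h : VF (F.map (algebraMap E Ω)) d (fun i => algebraMap E Ω (x i)) e f) :
    ∃ L : IntermediateField E Ω, FiniteDimensional E L ∧ ∃ f' : Fin (n + 1) → Polynomial L,
      VF (F.map (algebraMap E L)) d (fun i => algebraMap E L (x i)) e f' := by
  classical
  have hw : ∀ l : Fin (d * e - 1), ∃ u : Fin (n + 1) → Polynomial Ω,
      (∀ i, (u i).degree < ((e - 1 : ℕ) : WithBot ℕ)) ∧
      ∑ i, u i * onC (pderiv i (F.map (algebraMap E Ω))) f = Polynomial.X ^ (l : ℕ) := by
    intro l
    refine h.sur _ ?_
    refine lt_of_le_of_lt (Polynomial.degree_X_pow_le _) ?_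
    exact_mod_cast l.2
  choose u hu1 hu2 using hw
  let S : Finset Ω := (Finset.univ.biUnion fun i => (f i).coeffs) ∪
    Finset.univ.biUnion fun p : Fin (d * e - 1) × Fin (n + 1) => (u p.1 p.2).coeffs
  let L : IntermediateField E Ω := IntermediateField.adjoin E (S : Set Ω)
  have hfin : FiniteDimensional E L :=
    IntermediateField.finiteDimensional_adjoin fun y _ => Algebra.IsIntegral.isIntegral y
  have hinj : Function.Injective (algebraMap L Ω) := (algebraMap L Ω).injective
  have hSL : ∀ y ∈ S, y ∈ L := fun y hy =>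
    IntermediateField.subset_adjoin E (S : Set Ω) (Finset.mem_coe.2 hy)
  have hlift : ∀ p : Polynomial Ω, p.coeffs ⊆ S → ∃ q : Polynomial L,
      q.map (algebraMap L Ω) = p := by
    intro p hp
    have : p ∈ Polynomial.lifts (algebraMap L Ω) := by
      rw [Polynomial.lifts_iff_coeff_lifts]
      intro k
      by_cases hk : p.coeff k = 0
      · exact ⟨0, by rw [hk, map_zero]⟩
      · exact ⟨⟨p.coeff k, hSL _ (hp (Polynomial.coeff_mem_coeffs hk))⟩, rfl⟩
    exact (Polynomial.mem_lifts _).1 this
  have hf : ∀ i, ∃ q : Polynomial L, q.map (algebraMap L Ω) = f i := fun i =>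
    hlift _ fun y hy => Finset.mem_union_left _
      (Finset.mem_biUnion.2 ⟨i, Finset.mem_univ i, hy⟩)
  have huu : ∀ (l : Fin (d * e - 1)) (i : Fin (n + 1)), ∃ q : Polynomial L,
      q.map (algebraMap L Ω) = u l i := fun l i =>
    hlift _ fun y hy => Finset.mem_union_right _
      (Finset.mem_biUnion.2 ⟨(l, i), Finset.mem_univ _, hy⟩)
  choose f' hf' using hf
  choose u' hu' using huu
  have hff : (fun i => (f' i).map (algebraMap L Ω)) = f := funext hf'
  have hFm : (F.map (algebraMap E L)).map (algebraMap L Ω) = F.map (algebraMap E Ω) := by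
    rw [MvPolynomial.map_map, ← IsScalarTower.algebraMap_eq]
  refine ⟨L, hfin, f', ?_⟩
  refine ⟨h.two, fun i => ?_, ?_, fun i => ?_, ?_⟩
  · rw [← Polynomial.natDegree_map_eq_of_injective hinj, hf' i]
    exact h.deg i
  · apply Polynomial.map_injective _ hinj
    rw [← onC_map, hFm, hff, h.zero, Polynomial.map_zero]
  · apply hinj
    rw [← Polynomial.coeff_map, hf' i, h.pt i, ← IsScalarTower.algebraMap_apply]
  · refine sur_of_pow fun l => ⟨u' l, fun i => ?_, ?_⟩
    · rw [← Polynomial.degree_map_eq_of_injective hinj, hu' l i]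
      exact hu1 l i
    · apply Polynomial.map_injective _ hinj
      rw [Polynomial.map_sum, Polynomial.map_pow, Polynomial.map_X, ← hu2 l]
      refine Finset.sum_congr rfl fun i _ => ?_
      rw [Polynomial.map_mul, hu' l i, ← onC_map, ← pderiv_map, hFm, hff]

/-- descent in finite extensions -/
theorem desc_fin (h1 : T_ST1) (n d : ℕ) (hd : 2 ≤ d) : ∀ (k : ℕ) (E : Type) [Field E],
    (∀ (E' : Type) [Field E'] [Algebra E E'] [FiniteDimensional E E'], NP E') →
    ∀ (K : Type) [Field K] [Algebra E K] [FiniteDimensional E K], Module.finrank E K ≤ k →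
    ∀ (F : MvPolynomial (Fin (n + 1)) E), F.IsHomogeneous d → ∀ x : Fin (n + 1) → E,
    (∃ e f, VF (F.map (algebraMap E K)) d (fun i => algebraMap E K (x i)) e f) →
    ∃ e f, VF F d x e f := by
  intro k
  induction k with
  | zero =>
    intro E _ _ K _ _ _ hk
    have := Module.finrank_pos (R := E) (M := K)
    omega
  | succ k ih =>
    intro E _ hNP K _ _ _ hk F hF x hK
    by_cases hs : Function.Surjective (algebraMap E K)
    · -- degree one
      obtain ⟨e, f, hf⟩ := hK
      let φ : E ≃+* K := RingEquiv.ofBijective (algebraMap E K) ⟨(algebraMap E K).injective, hs⟩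
      have h2 := vf_equiv φ.symm hf
      have e1 : (F.map (algebraMap E K)).map (φ.symm : K →+* E) = F := by
        rw [MvPolynomial.map_map]
        have : (φ.symm : K →+* E).comp (algebraMap E K) = RingHom.id E := by
          ext a
          exact φ.symm_apply_apply a
        rw [this, MvPolynomial.map_id]
      have e2 : (fun i => φ.symm (algebraMap E K (x i))) = x :=
        funext fun i => φ.symm_apply_apply (x i)
      rw [e1, e2] at h2
      exact ⟨e, _, h2⟩
    · obtain ⟨β, hβ⟩ : ∃ β : K, β ∉ Set.range (algebraMap E K) := by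
        by_contra hcon
        push Not at hcon
        exact hs fun y => hcon y
      have hint : IsIntegral E β := Algebra.IsIntegral.isIntegral β
      let E1 : IntermediateField E K := IntermediateField.adjoin E {β}
      have hNP1 : ∀ (E' : Type) [Field E'] [Algebra E1 E'] [FiniteDimensional E1 E'],
          NP E' := by
        intro E' _ _ _
        letI : Algebra E E' := ((algebraMap E1 E').comp (algebraMap E E1)).toAlgebra
        haveI : IsScalarTower E E1 E' := IsScalarTower.of_algebraMap_eq fun _ => rfl
        haveI : FiniteDimensional E E' := FiniteDimensional.trans E E1 E'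
        exact hNP E'
      have hdeg2 : 2 ≤ (minpoly E β).natDegree := by
        have h0 : 0 < (minpoly E β).natDegree := minpoly.natDegree_pos hint
        have h1' : (minpoly E β).natDegree ≠ 1 := by
          intro h1'
          apply hβ
          exact minpoly.mem_range_of_degree_eq_one E β (by
            rw [Polynomial.degree_eq_natDegree (minpoly.ne_zero hint), h1']
            rfl)
        omega
      have hrank : Module.finrank E E1 = (minpoly E β).natDegree :=
        IntermediateField.adjoin.finrank hint
      have hmul : Module.finrank E E1 * Module.finrank E1 K = Module.finrank E K :=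
        Module.finrank_mul_finrank E E1 K
      have hk1 : Module.finrank E1 K ≤ k := by
        have hp : 0 < Module.finrank E1 K := Module.finrank_pos
        nlinarith
      have hFm : (F.map (algebraMap E E1)).map (algebraMap E1 K) = F.map (algebraMap E K) := by
        rw [MvPolynomial.map_map, ← IsScalarTower.algebraMap_eq]
      have hVF1 : ∃ e f, VF (F.map (algebraMap E E1)) d (fun i => algebraMap E E1 (x i)) e f := by
        refine ih E1 hNP1 K hk1 _ (hF.map _) _ ?_
        obtain ⟨e, f, hf⟩ := hK
        refine ⟨e, f, ?_⟩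
        rw [hFm]
        exact hf
      obtain ⟨e, f, hf⟩ := hVF1
      haveI : Fact (Irreducible (minpoly E β)) := ⟨minpoly.irreducible hint⟩
      refine h1 E (hNP E) n d F hd hF (minpoly E β) (minpoly.monic hint) hdeg2 x ?_
      let ψ : AdjoinRoot (minpoly E β) ≃ₐ[E] E1 := IntermediateField.adjoinRootEquivAdjoin E hint
      have h2 := vf_equiv ψ.symm.toRingEquiv hf
      have e1 : (F.map (algebraMap E E1)).map (ψ.symm.toRingEquiv : E1 →+* AdjoinRoot (minpoly E β))
          = F.map (algebraMap E (AdjoinRoot (minpoly E β))) := by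
        rw [MvPolynomial.map_map]
        have : (ψ.symm.toRingEquiv : E1 →+* AdjoinRoot (minpoly E β)).comp (algebraMap E E1) =
            algebraMap E (AdjoinRoot (minpoly E β)) := by
          ext a
          exact ψ.symm.commutes a
        rw [this]
      have e2 : (fun i => ψ.symm.toRingEquiv (algebraMap E E1 (x i))) =
          fun i => algebraMap E (AdjoinRoot (minpoly E β)) (x i) :=
        funext fun i => ψ.symm.commutes (x i)
      rw [e1, e2] at h2
      exact ⟨e, _, h2⟩

end DESC_

/-- T_DESC -/
theorem p_DESC (h1 : T_ST1) : T_DESC := by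
  intro E _ hNP n d F hd hF x ⟨e, f, hf⟩
  obtain ⟨L, hL, f', hf'⟩ := DESC_.finite_level E (AlgebraicClosure E) n d e F x f hf
  exact DESC_.desc_fin h1 n d hd _ E hNP L le_rfl F hF x ⟨e, f', hf'⟩

end Pool.Agent.FCV
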