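import Pool.Agent.FCV.TargetsG

/-!
# Descent of curves with many sections to an algebraically closed field
-/

set_option autoImplicit false

open MvPolynomial

namespace Pool.Agent.FCV

namespace DSC_

variable {A B : Type} [CommRing A] [CommRing B] {n a : ℕ}

theorem cv_map (φ : A →+* B) (z : Fin a × Fin (n + 1) → A) (i : Fin (n + 1)) :
    (cv z i).map φ = cv (fun p => φ (z p)) i := by
  simp [cv, Polynomial.map_sum]

theorem cv_coeff (z : Fin a × Fin (n + 1) → A) (i : Fin (n + 1)) (j : Fin a) :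
    (cv z i).coeff j = z (j, i) := by
  unfold cv
  rw [Polynomial.finsetSum_coeff, Finset.sum_eq_single j]
  · simp
  · intro b _ hb
    rw [Polynomial.coeff_C_mul, Polynomial.coeff_X_pow, if_neg, mul_zero]
    intro h
    exact hb (Fin.ext h.symm)
  · intro h
    exact absurd (Finset.mem_univ j) h

theorem cv_degree (z : Fin a × Fin (n + 1) → A) (i : Fin (n + 1)) :
    (cv z i).degree < (a : WithBot ℕ) := by
  unfold cv
  refine (Polynomial.degree_sum_fin_lt fun j => z (j, i))

theorem cv_of (g : Fin (n + 1) → Polynomial A) (hg : ∀ i, (g i).degree < (a : WithBot ℕ)) :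
    cv (fun p : Fin a × Fin (n + 1) => (g p.2).coeff p.1) = g := by
  funext i
  unfold cv
  ext j
  rw [Polynomial.finsetSum_coeff]
  by_cases hj : j < a
  · rw [Finset.sum_eq_single ⟨j, hj⟩]
    · simp
    · intro b _ hb
      rw [Polynomial.coeff_C_mul, Polynomial.coeff_X_pow, if_neg, mul_zero]
      intro h
      exact hb (Fin.ext h.symm)
    · intro h
      exact absurd (Finset.mem_univ _) h
  · rw [Finset.sum_eq_zero, Polynomial.coeff_eq_zero_of_degree_lt]
    · refine (hg i).trans_le ?_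
      exact_mod_cast not_lt.1 hj
    · intro b _
      rw [Polynomial.coeff_C_mul, Polynomial.coeff_X_pow, if_neg, mul_zero]
      intro h
      exact hj (h ▸ b.2)

/-- the set of coefficients -/
noncomputable def cs [DecidableEq A] (P : Polynomial A) : Finset A := P.support.image P.coeff

theorem map_eq_zero [DecidableEq A] (φ : A →+* B) (P : Polynomial A) :
    P.map φ = 0 ↔ ∀ h ∈ cs P, φ h = 0 := by
  constructor
  · intro h g hg
    obtain ⟨j, -, rfl⟩ := Finset.mem_image.1 hg
    rw [← Polynomial.coeff_map, h, Polynomial.coeff_zero]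
  · intro h
    ext j
    rw [Polynomial.coeff_map, Polynomial.coeff_zero]
    by_cases hj : P.coeff j = 0
    · rw [hj, map_zero]
    · exact h _ (Finset.mem_image_of_mem _ (Polynomial.mem_support_iff.2 hj))

end DSC_

open DSC_

theorem p_DSC (hNS : WL.T_NS) : T_DSC := by
  classical
  intro κ _ _ n d e a b F x Ω _ _ f hf h0 hx hS
  have hu : ∀ l : Fin b, ∃ u : Fin (n + 1) → Polynomial Ω, (∀ i, (u i).degree < a) ∧
      ∑ i, u i * onC (pderiv i (F.map (algebraMap κ Ω))) f = Polynomial.X ^ (l : ℕ) := by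
    intro l
    refine hS _ ?_
    rw [Polynomial.degree_X_pow]
    exact_mod_cast l.2
  choose u hu1 hu2 using hu
  let σ : Type := (Fin (e + 1) × Fin (n + 1)) ⊕ (Fin b × (Fin a × Fin (n + 1)))
  let R : Type := MvPolynomial σ κ
  let fR : Fin (n + 1) → Polynomial R := cv fun p : Fin (e + 1) × Fin (n + 1) =>
    (X (Sum.inl p) : MvPolynomial σ κ)
  let uR : Fin b → Fin (n + 1) → Polynomial R := fun l =>
    cv fun p : Fin a × Fin (n + 1) => (X (Sum.inr (l, p)) : MvPolynomial σ κ)
  let FR : MvPolynomial (Fin (n + 1)) R := F.map (algebraMap κ R)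
  let PR : Fin b → Polynomial R := fun l =>
    ∑ i, uR l i * onC (pderiv i FR) fR - Polynomial.X ^ (l : ℕ)
  let eq : Finset R := cs (onC FR fR) ∪ ((Finset.univ.image fun i : Fin (n + 1) =>
    (X (Sum.inl (Fin.last e, i)) - C (x i) : MvPolynomial σ κ)) ∪
    Finset.univ.biUnion fun l : Fin b => cs (PR l))
  -- specialisation
  have hspec : ∀ (L : Type) [Field L] [Algebra κ L] (z : σ → L)
      (φ : R →ₐ[κ] L), (∀ s, φ (X s) = z s) →
      (∀ i, (fR i).map (φ : R →+* L) = cv (fun p => z (Sum.inl p)) i) ∧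
      (∀ l i, (uR l i).map (φ : R →+* L) = cv (fun p => z (Sum.inr (l, p))) i) ∧
      FR.map (φ : R →+* L) = F.map (algebraMap κ L) := by
    intro L _ _ z φ hφ
    refine ⟨fun i => ?_, fun l i => ?_, ?_⟩
    · rw [cv_map]
      congr 1
      funext p
      exact hφ _
    · rw [cv_map]
      congr 1
      funext p
      exact hφ _
    · rw [map_map, φ.comp_algebraMap]
  have hPR : ∀ (L : Type) [Field L] [Algebra κ L] (z : σ → L)
      (φ : R →ₐ[κ] L), (∀ s, φ (X s) = z s) →
      (onC FR fR).map (φ : R →+* L) =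
        onC (F.map (algebraMap κ L)) (cv (fun p => z (Sum.inl p))) ∧
      ∀ l, (PR l).map (φ : R →+* L) = ∑ i, cv (fun p => z (Sum.inr (l, p))) i *
        onC (pderiv i (F.map (algebraMap κ L))) (cv (fun p => z (Sum.inl p))) -
          Polynomial.X ^ (l : ℕ) := by
    intro L _ _ z φ hφ
    obtain ⟨h1, h2, h3⟩ := hspec L z φ hφ
    have h1' : (fun i => (fR i).map (φ : R →+* L)) = cv (fun p => z (Sum.inl p)) := funext h1
    refine ⟨?_, fun l => ?_⟩
    · rw [← onC_map, h3, h1']
    · simp only [PR, Polynomial.map_sub, Polynomial.map_sum, Polynomial.map_mul,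
        Polynomial.map_pow, Polynomial.map_X]
      congr 1
      refine Finset.sum_congr rfl fun i _ => ?_
      rw [h2, ← onC_map, h1', ← pderiv_map, h3]
  -- the solution over Ω
  let z : σ → Ω := Sum.elim (fun p => (f p.2).coeff p.1) fun q => (u q.1 q.2.2).coeff q.2.1
  have hz1 : cv (fun p : Fin (e + 1) × Fin (n + 1) => z (Sum.inl p)) = f := by
    refine cv_of f fun i => ?_
    refine (Polynomial.degree_le_natDegree).trans_lt ?_
    exact_mod_cast Nat.lt_succ_of_le (hf i)
  have hz2 : ∀ l, cv (fun p : Fin a × Fin (n + 1) => z (Sum.inr (l, p))) = u l :=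
    fun l => cv_of (u l) (hu1 l)
  obtain ⟨hz3, hz4⟩ := hPR Ω z (aeval z) fun s => aeval_X z s
  obtain ⟨z₀, h1, -⟩ := hNS κ σ eq 1 Ω z (by
    intro g hg
    rcases Finset.mem_union.1 hg with hg | hg
    · refine (map_eq_zero ((aeval z : R →ₐ[κ] Ω) : R →+* Ω) (onC FR fR)).1 ?_ g hg
      rw [hz3, hz1]
      exact h0
    · rcases Finset.mem_union.1 hg with hg | hg
      · obtain ⟨i, -, rfl⟩ := Finset.mem_image.1 hg
        rw [map_sub, aeval_X, aeval_C, sub_eq_zero]
        exact hx i
      · obtain ⟨l, -, hl⟩ := Finset.mem_biUnion.1 hg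
        refine (map_eq_zero ((aeval z : R →ₐ[κ] Ω) : R →+* Ω) (PR l)).1 ?_ g hl
        rw [hz4, hz1, hz2, hu2, sub_self]) (by rw [map_one]; exact one_ne_zero)
  -- the solution over κ
  obtain ⟨hw3, hw4⟩ := hPR κ z₀ (aeval z₀) fun s => aeval_X z₀ s
  have he : ∀ h : R, (aeval z₀ : R →ₐ[κ] κ) h = eval z₀ h := fun h => by
    rw [aeval_eq_eval]
  have hid : F.map (algebraMap κ κ) = F := by
    rw [Algebra.algebraMap_self, map_id]
  rw [hid] at hw3
  simp only [hid] at hw4
  set f' : Fin (n + 1) → Polynomial κ := cv (fun p => z₀ (Sum.inl p)) with hf'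
  refine ⟨f', fun i => ?_, ?_, fun i => ?_, ?_⟩
  · refine Polynomial.natDegree_le_iff_coeff_eq_zero.2 fun N hN => ?_
    refine Polynomial.coeff_eq_zero_of_degree_lt
      ((cv_degree (fun p : Fin (e + 1) × Fin (n + 1) => z₀ (Sum.inl p)) i).trans_le ?_)
    exact_mod_cast hN
  · rw [← hw3]
    refine (map_eq_zero ((aeval z₀ : R →ₐ[κ] κ) : R →+* κ) (onC FR fR)).2 fun h hh => ?_
    exact (he h).trans (h1 h (Finset.mem_union_left _ hh))
  · have h2 := h1 (X (Sum.inl (Fin.last e, i)) - C (x i)) (Finset.mem_union_right _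
      (Finset.mem_union_left _ (Finset.mem_image_of_mem _ (Finset.mem_univ i))))
    rw [map_sub, eval_X, eval_C, sub_eq_zero] at h2
    rw [← h2]
    exact cv_coeff (fun p : Fin (e + 1) × Fin (n + 1) => z₀ (Sum.inl p)) i (Fin.last e)
  · intro H hH
    have hl : ∀ l : Fin b, ∑ i, cv (fun p => z₀ (Sum.inr (l, p))) i * onC (pderiv i F) f' =
        Polynomial.X ^ (l : ℕ) := by
      intro l
      rw [← sub_eq_zero, ← hw4]
      refine (map_eq_zero ((aeval z₀ : R →ₐ[κ] κ) : R →+* κ) (PR l)).2 fun h hh => ?_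
      exact (he h).trans (h1 h (Finset.mem_union_right _ (Finset.mem_union_right _
        (Finset.mem_biUnion.2 ⟨l, Finset.mem_univ l, hh⟩))))
    refine ⟨fun i => ∑ l : Fin b, Polynomial.C (H.coeff l) *
      cv (fun p => z₀ (Sum.inr (l, p))) i, fun i => ?_, ?_⟩
    · rw [← Polynomial.mem_degreeLT]
      refine Submodule.sum_mem _ fun l _ => ?_
      rw [← Polynomial.smul_eq_C_mul]
      exact Submodule.smul_mem _ _ (Polynomial.mem_degreeLT.2 (cv_degree _ i))
    · simp only [Finset.sum_mul]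
      rw [Finset.sum_comm]
      have : ∀ l : Fin b, ∑ i, Polynomial.C (H.coeff l) * cv (fun p => z₀ (Sum.inr (l, p))) i *
          onC (pderiv i F) f' = Polynomial.C (H.coeff l) * Polynomial.X ^ (l : ℕ) := by
        intro l
        rw [← hl l, Finset.mul_sum]
        exact Finset.sum_congr rfl fun i _ => by ring
      rw [Finset.sum_congr rfl fun l _ => this l]
      exact congrFun (cv_of (fun _ : Fin (n + 1) => H) fun _ => hH) 0

end Pool.Agent.FCV
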