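import Pool.Agent.FCV.TargetsM
import Pool.Agent.WL.FIN2
import Pool.Agent.WL.ONE

/-!
# The frozen statement from the last target
-/

set_option autoImplicit false

open MvPolynomial WithZero Topology
open Pool.Agent.WA Pool.Agent.WL

namespace Pool.Agent.FCV

open FIN2_ in
/-- The frozen statement from weak approximation in the notation of the targets. -/
theorem frozen_of_targets (hWAC : T_WAC) (hWA : T_WA) (hFIN : T_FIN) (hONE : T_ONE)
    (k : Type) [Field k] [IsAlgClosed k]
    (K : Type) [Field K] [Algebra (RatFunc k) K] [FiniteDimensional (RatFunc k) K]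
    (n d : ℕ) (F : MvPolynomial (Fin (n + 1)) K) (hd : 1 ≤ d) (hn : d ^ 2 ≤ n)
    (hF : F.IsHomogeneous d)
    (hsm : ∀ x : Fin (n + 1) → AlgebraicClosure K, x ≠ 0 → MvPolynomial.aeval x F = 0 →
        ∃ i, MvPolynomial.aeval x (MvPolynomial.pderiv i F) ≠ 0)
    (m : ℕ) (v : Fin m → Valuation K (WithZero (Multiplicative ℤ)))
    (hnt : ∀ j, ∃ a : K, v j a ≠ 0 ∧ v j a ≠ 1)
    (htr : ∀ j (c : k), c ≠ 0 → v j (algebraMap (RatFunc k) K (RatFunc.C c)) = 1)
    (hne : ∀ i j, i ≠ j → ¬ (v i).IsEquiv (v j))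
    (x : ∀ j, Fin (n + 1) → UniformSpace.Completion (WithVal (v j)))
    (hx : ∀ j, x j ≠ 0 ∧
        MvPolynomial.eval₂
          ((UniformSpace.Completion.coeRingHom : WithVal (v j) →+* _).comp
            (WithVal.equiv (v j)).symm.toRingHom) (x j) F = 0)
    (U : ∀ j, Set (Fin (n + 1) → UniformSpace.Completion (WithVal (v j))))
    (hU : ∀ j, IsOpen (U j) ∧ x j ∈ U j) :
    ∃ y : Fin (n + 1) → K, y ≠ 0 ∧ MvPolynomial.eval y F = 0 ∧
        ∀ j, ∃ c : UniformSpace.Completion (WithVal (v j)), c ≠ 0 ∧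
          (fun i => c * ((UniformSpace.Completion.coeRingHom : WithVal (v j) →+* _).comp
            (WithVal.equiv (v j)).symm.toRingHom) (y i)) ∈ U j := by
  have hsm' : SmoothForm F := smoothForm_of_algebraicClosure hsm
  refine frozen_of_one k K n F ?_ m v hnt htr hne x hx U hU
  intro _ _
  have hfun : FunField k K := hFIN k K
  have hC1 : C1 K := C1.functionField k K
  rcases eq_or_lt_of_le hd with h1 | h2
  · subst h1
    exact waOne_of_good hWA k K hfun hC1 n 1 F 1 (hONE K n F (by simpa using hn) hF hsm')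
  · exact hWAC k K hfun hC1 n d F h2 hn hF hsm'

end Pool.Agent.FCV
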