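import Pool.Agent.FCV.TargetsM
import Pool.Agent.WL.DIMF
import Pool.Agent.WL.RANK

/-!
# Free curves on hypersurfaces: the transcendence degree of free curves
-/

set_option autoImplicit false

open MvPolynomial

namespace Pool.Agent.FCV

/-- Jacobian criterion. -/
theorem FRD_alg {K M τ : Type} [Field K] [Field M] [Algebra K M] [Fintype τ] {r : ℕ}
    (G : Fin r → MvPolynomial τ K) (z : τ → M) (S : Fin r → τ) (h0 : ∀ l, aeval z (G l) = 0)
    (hS : (Matrix.of fun l m : Fin r => aeval z (pderiv (S m) (G l))).det ≠ 0) :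
    ∃ T : Finset M, T.card + r ≤ Fintype.card τ ∧
      ∀ t, IsAlgebraic (IntermediateField.adjoin K (T : Set M)) (z t) := by
  classical
  have hinj : Function.Injective S := by
    intro a b hab
    by_contra hne
    apply hS
    refine Matrix.det_zero_of_column_eq hne fun k => ?_
    rw [Matrix.of_apply, Matrix.of_apply, hab]
  let T : Finset M := (Finset.univ \ Finset.univ.image S).image z
  have hTc : T.card + r ≤ Fintype.card τ := by
    have h1 : T.card ≤ (Finset.univ \ Finset.univ.image S).card := Finset.card_image_le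
    have h2 : (Finset.univ.image S).card = r := by
      rw [Finset.card_image_of_injective _ hinj, Finset.card_univ, Fintype.card_fin]
    have h3 : (Finset.univ \ Finset.univ.image S).card + (Finset.univ.image S).card =
        (Finset.univ : Finset τ).card :=
      Finset.card_sdiff_add_card_eq_card (Finset.subset_univ _)
    rw [Finset.card_univ, h2] at h3
    omega
  refine ⟨T, hTc, ?_⟩
  let E := IntermediateField.adjoin K (T : Set M)
  let L := IntermediateField.adjoin E (Set.range z)
  have hfin : (L : IntermediateField E M).FG := by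
    refine ⟨Finset.univ.image z, ?_⟩
    rw [Finset.coe_image, Finset.coe_univ, Set.image_univ]
  have hess : Algebra.EssFiniteType E L := IntermediateField.essFiniteType_iff.2 hfin
  let zL : τ → L := fun i => ⟨z i, IntermediateField.subset_adjoin E _ ⟨i, rfl⟩⟩
  have hzM : ∀ i, algebraMap L M (zL i) = z i := fun i => rfl
  have hae : ∀ g : MvPolynomial τ K, algebraMap L M (aeval zL g) = aeval z g := by
    intro g
    have h1 := MvPolynomial.map_aeval zL (algebraMap L M) g
    rw [h1, aeval_def]
    rfl
  have h0L : ∀ l, aeval zL (G l) = 0 := by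
    intro l
    apply (algebraMap L M).injective
    rw [hae, h0, map_zero]
  have hSL : (Matrix.of fun l m : Fin r => aeval zL (pderiv (S m) (G l))).det ≠ 0 := by
    intro hcon
    apply hS
    have h1 := RingHom.map_det (algebraMap L M)
      (Matrix.of fun l m : Fin r => aeval zL (pderiv (S m) (G l)))
    rw [hcon, map_zero] at h1
    rw [h1]
    congr 1
    ext l m
    simp only [Matrix.of_apply, RingHom.mapMatrix_apply, Matrix.map_apply]
    exact (hae _).symm
  have hder : ∀ D : Derivation E L L, D = 0 := by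
    intro D
    have hD0 : ∀ i, i ∉ Set.range S → D (zL i) = 0 := by
      intro j hj
      have hjT : z j ∈ (T : Set M) := by
        refine Finset.mem_coe.2 (Finset.mem_image_of_mem _ ?_)
        rw [Finset.mem_sdiff, Finset.mem_image]
        refine ⟨Finset.mem_univ _, ?_⟩
        rintro ⟨m, -, hm⟩
        exact hj ⟨m, hm⟩
      have hjE : z j ∈ E := IntermediateField.subset_adjoin K _ hjT
      have hw : zL j = algebraMap E L ⟨z j, hjE⟩ := rfl
      rw [hw]
      exact D.map_algebraMap _
    have h5 : ∀ l : Fin r, ∑ m : Fin r, aeval zL (pderiv (S m) (G l)) * D (zL (S m)) = 0 := by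
      intro l
      have h6 := WL.GENF_.chain (D.restrictScalars K) zL (G l)
      rw [h0L, map_zero] at h6
      have h7 : ∑ m : Fin r, aeval zL (pderiv (S m) (G l)) * D (zL (S m)) =
          ∑ i ∈ Finset.univ.image S, aeval zL (pderiv i (G l)) * D (zL i) := by
        rw [Finset.sum_image (fun a _ b _ h => hinj h)]
      rw [h7, h6]
      refine Finset.sum_subset (Finset.subset_univ _) fun i _ hi => ?_
      have h8 : D (zL i) = 0 := hD0 i (by
        rintro ⟨m, rfl⟩
        exact hi (Finset.mem_image_of_mem _ (Finset.mem_univ _)))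
      change _ * D (zL i) = 0
      rw [h8, mul_zero]
    have h8 : (Matrix.of fun l m : Fin r => aeval zL (pderiv (S m) (G l))).mulVec
        (fun m => D (zL (S m))) = 0 := by
      funext l
      exact h5 l
    have h9 := Matrix.eq_zero_of_mulVec_eq_zero hSL h8
    have hDw : ∀ i, D (zL i) = 0 := by
      intro i
      by_cases hi : i ∈ Set.range S
      · obtain ⟨m, rfl⟩ := hi
        exact congrFun h9 m
      · exact hD0 i hi
    ext x
    obtain ⟨x, hx⟩ := x
    have key : ∀ (x : M) (hx : x ∈ L), D ⟨x, hx⟩ = 0 := by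
      intro x hx
      refine IntermediateField.adjoin_induction (F := E) (s := Set.range z)
        (p := fun x hx => D ⟨x, hx⟩ = 0) ?_ ?_ ?_ ?_ ?_ hx
      · rintro _ ⟨i, rfl⟩
        exact hDw i
      · intro x
        exact D.map_algebraMap x
      · intro x y hx hy h1 h2
        have h3 : (⟨x + y, add_mem hx hy⟩ : L) = ⟨x, hx⟩ + ⟨y, hy⟩ := rfl
        rw [h3, map_add, h1, h2, add_zero]
      · intro x hx h1
        have h3 : (⟨x⁻¹, inv_mem hx⟩ : L) = (⟨x, hx⟩ : L)⁻¹ := rfl
        rw [h3, Derivation.leibniz_inv, h1, smul_zero]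
      · intro x y hx hy h1 h2
        have h3 : (⟨x * y, mul_mem hx hy⟩ : L) = ⟨x, hx⟩ * ⟨y, hy⟩ := rfl
        rw [h3, Derivation.leibniz, h1, h2, smul_zero, smul_zero, add_zero]
    rw [key x hx]
    rfl
  have halg : Algebra.IsAlgebraic E L := WL.DIMF_.alg_of_der hder
  intro i
  have h1 : IsAlgebraic E (zL i) := halg.isAlgebraic _
  exact h1.algebraMap (A := M)

theorem FRD_crv {A : Type} [CommRing A] {n a : ℕ} (u : Fin a × Fin (n + 1) → A)
    (i : Fin (n + 1)) : crv (fun j i => u (j, i)) (fun _ => (0 : A)) i = cv u i := by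
  simp [crv, cv]

/-- The transcendence degree of free curves. -/
theorem p_FRD (hGLC : T_GLC) : T_FRD := by
  classical
  intro κ Ω _ _ _ n d a F z ha hF h0 hsur
  set r := d * (a - 1) + 1 with hr
  have hG : ∀ l : Fin r, ∃ G : MvPolynomial (Fin a × Fin (n + 1)) κ, aeval z G = 0 ∧
      ∀ p, aeval z (pderiv p G) = (onC (pderiv p.2 (F.map (algebraMap κ Ω))) (cv z) *
        Polynomial.X ^ (p.1 : ℕ)).coeff l := by
    intro l
    obtain ⟨G, hG⟩ := hGLC (Fin (n + 1)) κ F a l (fun _ => 0)
    obtain ⟨h1, h2⟩ := hG Ω (algebraMap κ Ω) z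
    have e : crv (fun j i => z (j, i)) (fun _ : Fin (n + 1) => (algebraMap κ Ω) 0) = cv z := by
      funext i
      rw [map_zero]
      exact FRD_crv z i
    rw [e] at h1
    refine ⟨G, ?_, fun p => ?_⟩
    · rw [aeval_def, eval₂_eq_eval_map, h1, h0, Polynomial.coeff_zero]
    · have h3 := h2 p
      rw [e] at h3
      rw [aeval_def, eval₂_eq_eval_map, ← h3, pderiv_map]
  choose G hG0 hGd using hG
  set A : Matrix (Fin r) (Fin a × Fin (n + 1)) Ω := Matrix.of fun l p =>
    (onC (pderiv p.2 (F.map (algebraMap κ Ω))) (cv z) * Polynomial.X ^ (p.1 : ℕ)).coeff l with hA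
  have hmul : ∀ v : Fin r → Ω, ∃ w : Fin a × Fin (n + 1) → Ω, A.mulVec w = v := by
    intro v
    obtain ⟨u, hu, hsum⟩ := hsur (∑ l : Fin r, Polynomial.C (v l) * Polynomial.X ^ (l : ℕ)) (by
      rw [Polynomial.degree_lt_iff_coeff_zero]
      intro m hm
      rw [Polynomial.finsetSum_coeff]
      refine Finset.sum_eq_zero fun l _ => ?_
      rw [Polynomial.coeff_C_mul, Polynomial.coeff_X_pow, if_neg, mul_zero]
      have := l.2
      omega)
    refine ⟨fun p => (u p.2).coeff p.1, ?_⟩
    funext l
    have h1 := congrArg (fun P => Polynomial.coeff P (l : ℕ)) hsum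
    have h2 : (∑ l : Fin r, Polynomial.C (v l) * Polynomial.X ^ (l : ℕ)).coeff (l : ℕ) = v l := by
      rw [Polynomial.finsetSum_coeff, Finset.sum_eq_single l]
      · rw [Polynomial.coeff_C_mul, Polynomial.coeff_X_pow, if_pos rfl, mul_one]
      · intro b _ hb
        rw [Polynomial.coeff_C_mul, Polynomial.coeff_X_pow, if_neg, mul_zero]
        intro h
        exact hb (Fin.ext h.symm)
      · intro h
        exact absurd (Finset.mem_univ _) h
    rw [h2] at h1
    rw [← h1, Polynomial.finsetSum_coeff]
    simp only [Matrix.mulVec, dotProduct]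
    rw [Fintype.sum_prod_type, Finset.sum_comm]
    refine Finset.sum_congr rfl fun i _ => ?_
    have h3 : u i = ∑ j : Fin a, Polynomial.C ((u i).coeff j) * Polynomial.X ^ (j : ℕ) := by
      by_cases hui : u i = 0
      · rw [hui]
        simp
      · rw [Fin.sum_univ_eq_sum_range
          (fun s => Polynomial.C ((u i).coeff s) * Polynomial.X ^ s) a]
        exact Polynomial.as_sum_range_C_mul_X_pow' _
          ((Polynomial.natDegree_lt_iff_degree_lt hui).2 (hu i))
    conv_rhs => rw [h3]
    rw [Finset.sum_mul, Polynomial.finsetSum_coeff]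
    refine Finset.sum_congr rfl fun j _ => ?_
    rw [hA, Matrix.of_apply, mul_assoc, Polynomial.coeff_C_mul, mul_comm]
    congr 2
    ring
  obtain ⟨S, hS⟩ := (WL.RANK_.minors r A).2 hmul
  obtain ⟨T, hT1, hT2⟩ := FRD_alg G z S hG0 (by
    have e : (Matrix.of fun l m : Fin r => aeval z (pderiv (S m) (G l))) = A.submatrix id S := by
      ext l m
      rw [Matrix.of_apply, hGd]
      rfl
    rw [e]
    exact hS)
  refine ⟨T.card, ⟨T, le_rfl, hT2⟩, ?_⟩
  rw [Fintype.card_prod, Fintype.card_fin, Fintype.card_fin] at hT1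
  rw [mul_comm (n + 1) a]
  exact hT1

end Pool.Agent.FCV
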