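import Pool.Agent.FCV.TargetsG

/-!
# FCV: removal of the base points of a curve
-/

set_option autoImplicit false

open MvPolynomial

namespace Pool.Agent.FCV

namespace GCD_

theorem coeff_cv {A : Type} [CommRing A] {n a : ℕ} (z : Fin a × Fin (n + 1) → A)
    (i : Fin (n + 1)) (j : ℕ) :
    (cv z i).coeff j = if h : j < a then z (⟨j, h⟩, i) else 0 := by
  unfold cv
  rw [Polynomial.finset_sum_coeff]
  simp only [Polynomial.coeff_C_mul_X_pow]
  split_ifs with h
  · rw [Finset.sum_eq_single (⟨j, h⟩ : Fin a)]
    · simp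
    · intro b _ hb
      rw [if_neg]
      intro hjb
      exact hb (Fin.ext hjb.symm)
    · intro hb
      exact absurd (Finset.mem_univ _) hb
  · apply Finset.sum_eq_zero
    intro b _
    rw [if_neg]
    intro hjb
    exact h (hjb ▸ b.2)

theorem eval₂_mul {σ A B : Type} [CommRing A] [CommRing B] (g : A →+* B) (F : MvPolynomial σ A)
    (d : ℕ) (hF : F.IsHomogeneous d) (G : B) (f : σ → B) :
    eval₂ g (fun i => G * f i) F = G ^ d * eval₂ g f F := by
  rw [eval₂_eq, eval₂_eq, Finset.mul_sum]
  refine Finset.sum_congr rfl fun m hm => ?_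
  have h1 : m.degree = d := by
    have h2 := hF (mem_support_iff.1 hm)
    rw [Finsupp.degree_eq_weight_one]
    exact h2
  have h3 : ∏ i ∈ m.support, (G * f i) ^ m i = G ^ d * ∏ i ∈ m.support, f i ^ m i := by
    simp only [mul_pow]
    rw [Finset.prod_mul_distrib, Finset.prod_pow_eq_pow_sum]
    congr 2
  rw [h3]
  ring

theorem alg_mono {κ Ω : Type} [Field κ] [Field Ω] [Algebra κ Ω] {S T : Set Ω} (h : S ⊆ T)
    {x : Ω} (hx : IsAlgebraic (IntermediateField.adjoin κ S) x) :
    IsAlgebraic (IntermediateField.adjoin κ T) x := by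
  have hle : IntermediateField.adjoin κ S ≤ IntermediateField.adjoin κ T :=
    IntermediateField.adjoin.mono κ S T h
  letI : Algebra (IntermediateField.adjoin κ S) (IntermediateField.adjoin κ T) :=
    (IntermediateField.inclusion hle).toRingHom.toAlgebra
  haveI : IsScalarTower (IntermediateField.adjoin κ S) (IntermediateField.adjoin κ T) Ω :=
    IsScalarTower.of_algebraMap_eq fun y => rfl
  exact hx.tower_top (IntermediateField.adjoin κ T)

/-- the gcd of a family of polynomials -/
theorem exists_gcd {Ω : Type} [Field Ω] {n : ℕ} (f : Fin (n + 1) → Polynomial Ω)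
    (hf : ∃ i, f i ≠ 0) : ∃ (G : Polynomial Ω) (g c : Fin (n + 1) → Polynomial Ω), G.Monic ∧
      (∀ i, f i = G * g i) ∧ ∑ i, c i * g i = 1 := by
  obtain ⟨i0, hi0⟩ := hf
  set G0 := Submodule.IsPrincipal.generator (Ideal.span (Set.range f)) with hG0
  have hspan : Ideal.span {G0} = Ideal.span (Set.range f) :=
    Ideal.span_singleton_generator _
  have hdvd : ∀ i, G0 ∣ f i := by
    intro i
    rw [← Ideal.mem_span_singleton, hspan]
    exact Ideal.subset_span ⟨i, rfl⟩
  have hG0ne : G0 ≠ 0 := by
    intro h
    have := hdvd i0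
    rw [h] at this
    exact hi0 (zero_dvd_iff.1 this)
  have hmem : G0 ∈ Ideal.span (Set.range f) := by
    rw [← hspan]
    exact Ideal.mem_span_singleton_self _
  obtain ⟨c, hc⟩ := (Ideal.mem_span_range_iff_exists_fun).1 hmem
  choose g0 hg0 using hdvd
  set u := G0.leadingCoeff with hu
  have hune : u ≠ 0 := Polynomial.leadingCoeff_ne_zero.2 hG0ne
  refine ⟨G0 * Polynomial.C u⁻¹, fun i => Polynomial.C u * g0 i,
    fun i => c i * Polynomial.C u⁻¹, ?_, ?_, ?_⟩
  · exact Polynomial.monic_mul_leadingCoeff_inv hG0ne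
  · intro i
    have : G0 * Polynomial.C u⁻¹ * (Polynomial.C u * g0 i) =
        (Polynomial.C u⁻¹ * Polynomial.C u) * (G0 * g0 i) := by ring
    rw [this, ← Polynomial.C_mul, inv_mul_cancel₀ hune, Polynomial.C_1, one_mul, ← hg0 i]
  · have h1 : ∀ i, c i * Polynomial.C u⁻¹ * (Polynomial.C u * g0 i) = c i * g0 i := by
      intro i
      have : c i * Polynomial.C u⁻¹ * (Polynomial.C u * g0 i) =
        (Polynomial.C u⁻¹ * Polynomial.C u) * (c i * g0 i) := by ring
      rw [this, ← Polynomial.C_mul, inv_mul_cancel₀ hune, Polynomial.C_1, one_mul]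
    simp only [h1]
    apply mul_left_cancel₀ hG0ne
    rw [mul_one, Finset.mul_sum]
    conv_rhs => rw [← hc]
    refine Finset.sum_congr rfl fun i _ => ?_
    rw [hg0 i]
    ring

end GCD_

open GCD_

theorem p_GCD : T_GCD := by
  classical
  intro κ Ω _ _ _ _ n d a F z hF hz hzero
  set f : Fin (n + 1) → Polynomial Ω := cv z with hfdef
  have hfne : ∃ i, f i ≠ 0 := by
    by_contra hcon
    push Not at hcon
    apply hz
    funext p
    obtain ⟨j, i⟩ := p
    have h1 := coeff_cv z i j
    rw [dif_pos j.2] at h1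
    have h2 : (cv z i).coeff (j : ℕ) = 0 := by
      have := hcon i
      rw [hfdef] at this
      rw [this, Polynomial.coeff_zero]
    rw [h2] at h1
    exact h1.symm
  obtain ⟨G, g, c, hG, hfg, hcg⟩ := exists_gcd f hfne
  have hGne : G ≠ 0 := hG.ne_zero
  -- the maximal degree
  set D' : ℕ := Finset.univ.sup fun i => (g i).natDegree with hD'
  have hDle : ∀ i, (g i).natDegree ≤ D' := fun i =>
    Finset.le_sup (f := fun i => (g i).natDegree) (Finset.mem_univ i)
  have hgne : ∃ i, g i ≠ 0 := by
    obtain ⟨i, hi⟩ := hfne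
    exact ⟨i, fun h => hi (by rw [hfg i, h, mul_zero])⟩
  have hex : ∃ i, g i ≠ 0 ∧ (g i).natDegree = D' := by
    obtain ⟨i1, _, hi1⟩ := Finset.exists_mem_eq_sup (Finset.univ : Finset (Fin (n + 1)))
      Finset.univ_nonempty (fun i => (g i).natDegree)
    by_cases h0 : g i1 = 0
    · have hD0 : D' = 0 := by
        rw [hD', hi1, h0, Polynomial.natDegree_zero]
      obtain ⟨i2, hi2⟩ := hgne
      exact ⟨i2, hi2, le_antisymm (hDle i2) (by rw [hD0]; exact Nat.zero_le _)⟩
    · exact ⟨i1, h0, hi1.symm⟩
  have hcoeffz : ∀ i (j : ℕ), a ≤ j → (f i).coeff j = 0 := by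
    intro i j hj
    rw [hfdef, coeff_cv, dif_neg (by omega)]
  have hfdeg : ∀ i, g i ≠ 0 → G.natDegree + (g i).natDegree < a := by
    intro i hi
    by_contra hcon
    push Not at hcon
    have h1 : (f i).natDegree = G.natDegree + (g i).natDegree := by
      rw [hfg i, Polynomial.natDegree_mul hGne hi]
    have h2 : (f i).coeff (f i).natDegree ≠ 0 := by
      rw [Polynomial.coeff_natDegree]
      apply Polynomial.leadingCoeff_ne_zero.2
      rw [hfg i]
      exact mul_ne_zero hGne hi
    exact h2 (hcoeffz i _ (by omega))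
  obtain ⟨i0, hi0, hi0D⟩ := hex
  have hkey : G.natDegree + D' < a := by
    have := hfdeg i0 hi0
    rwa [hi0D] at this
  set z' : Fin (D' + 1) × Fin (n + 1) → Ω := fun p => (g p.2).coeff p.1 with hz'
  have hcv : ∀ i, cv z' i = g i := by
    intro i
    ext j
    rw [coeff_cv]
    split_ifs with h
    · rfl
    · exact (Polynomial.coeff_eq_zero_of_natDegree_lt (by have := hDle i; omega)).symm
  have hcv' : cv z' = g := funext hcv
  refine ⟨D' + 1, z', by omega, by omega, ?_, ?_, ?_, ?_, ?_⟩
  · rw [hcv']
    have h1 : onC (F.map (algebraMap κ Ω)) f = G ^ d * onC (F.map (algebraMap κ Ω)) g := by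
      unfold onC
      have h2 : f = fun i => G * g i := funext hfg
      rw [h2]
      exact eval₂_mul _ _ d (hF.map _) G g
    rw [hzero] at h1
    exact (mul_eq_zero.1 h1.symm).resolve_left (pow_ne_zero _ hGne)
  · intro α
    by_contra hcon
    push Not at hcon
    rw [hcv'] at hcon
    have h1 := congrArg (Polynomial.eval α) hcg
    rw [Polynomial.eval_finset_sum] at h1
    simp [hcon] at h1
  · refine ⟨i0, ?_⟩
    rw [hcv', Nat.add_sub_cancel, ← hi0D, Polynomial.coeff_natDegree]
    exact Polynomial.leadingCoeff_ne_zero.2 hi0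
  · rintro m ⟨T, hT, hTa⟩
    refine ⟨T ∪ (Finset.range G.natDegree).image (fun j => G.coeff j), ?_, ?_⟩
    · refine (Finset.card_union_le _ _).trans ?_
      have h1 : ((Finset.range G.natDegree).image (fun j => G.coeff j)).card ≤ G.natDegree :=
        Finset.card_image_le.trans (by rw [Finset.card_range])
      omega
    · rintro ⟨j, i⟩
      set K := IntermediateField.adjoin κ
        ((T ∪ (Finset.range G.natDegree).image (fun j => G.coeff j) : Finset Ω) : Set Ω) with hK
      have hg1 : ∀ (i : Fin (n + 1)) (q : ℕ), IsAlgebraic K ((g i).coeff q) := by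
        intro i q
        by_cases hq : q < D' + 1
        · have h2 := hTa (⟨q, hq⟩, i)
          refine alg_mono ?_ h2
          intro x hx
          rw [Finset.coe_union]
          exact Or.inl hx
        · rw [Polynomial.coeff_eq_zero_of_natDegree_lt (by have := hDle i; omega)]
          exact isAlgebraic_zero
      have hG1 : ∀ p : ℕ, IsAlgebraic K (G.coeff p) := by
        intro p
        rcases lt_trichotomy p G.natDegree with hp | hp | hp
        · have h2 : G.coeff p ∈ K := by
            apply IntermediateField.subset_adjoin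
            rw [Finset.coe_union]
            right
            exact Finset.mem_coe.2 (Finset.mem_image.2 ⟨p, Finset.mem_range.2 hp, rfl⟩)
          exact isAlgebraic_algebraMap (⟨G.coeff p, h2⟩ : K)
        · rw [hp, hG.coeff_natDegree]
          exact isAlgebraic_one
        · rw [Polynomial.coeff_eq_zero_of_natDegree_lt hp]
          exact isAlgebraic_zero
      have h3 : z (j, i) = (f i).coeff (j : ℕ) := by
        rw [hfdef, coeff_cv, dif_pos j.2]
      rw [h3, hfg i, Polynomial.coeff_mul]
      have hsum : ∀ s : Finset (ℕ × ℕ),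
          IsAlgebraic K (∑ x ∈ s, G.coeff x.1 * (g i).coeff x.2) := by
        intro s
        induction s using Finset.induction_on with
        | empty => rw [Finset.sum_empty]; exact isAlgebraic_zero
        | insert x s hx ih =>
          rw [Finset.sum_insert hx]
          exact ((hG1 _).mul (hg1 _ _)).add ih
      exact hsum _
  · intro x hx hxi i
    rw [hcv', Nat.add_sub_cancel]
    obtain ⟨i1, hi1⟩ := Function.ne_iff.1 hx
    have h1 : (f i1).coeff (a - 1) ≠ 0 := by
      rw [hxi i1]
      exact hi1
    have h2 : a - 1 ≤ (f i1).natDegree := Polynomial.le_natDegree_of_ne_zero h1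
    have h3 : g i1 ≠ 0 := by
      intro h
      apply h1
      rw [hfg i1, h, mul_zero, Polynomial.coeff_zero]
    have h4 : (f i1).natDegree = G.natDegree + (g i1).natDegree := by
      rw [hfg i1, Polynomial.natDegree_mul hGne h3]
    have h5 := hDle i1
    have h6 : a - 1 = G.natDegree + D' := by omega
    rw [← hxi i, h6, hfg i, Polynomial.coeff_mul_add_eq_of_natDegree_le le_rfl (hDle i),
      hG.coeff_natDegree, one_mul]

end Pool.Agent.FCV
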