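import Pool.Agent.FCV.TargetsM

/-!
# The coefficients of a form on a curve as polynomials
-/

set_option autoImplicit false

open MvPolynomial

namespace Pool.Agent.FCV

namespace GLC_

variable {κ A : Type}

/-- `Q` is the derivative of the coefficients of `P`. -/
def Rel {R : Type} [CommRing R] (D : R →+ R) (P Q : Polynomial R) : Prop :=
  ∀ j, D (P.coeff j) = Q.coeff j

section

variable [CommRing A]

theorem onC_C (a : A) (f : κ → Polynomial A) :
    onC (C a : MvPolynomial κ A) f = Polynomial.C a := by
  unfold onC; rw [eval₂_C]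

theorem onC_add (p q : MvPolynomial κ A) (f : κ → Polynomial A) :
    onC (p + q) f = onC p f + onC q f := by
  unfold onC; rw [eval₂_add]

theorem onC_mul (p q : MvPolynomial κ A) (f : κ → Polynomial A) :
    onC (p * q) f = onC p f * onC q f := by
  unfold onC; rw [eval₂_mul]

theorem onC_X (i : κ) (f : κ → Polynomial A) : onC (X i : MvPolynomial κ A) f = f i := by
  unfold onC; rw [eval₂_X]

theorem onC_zero (f : κ → Polynomial A) : onC (0 : MvPolynomial κ A) f = 0 := by
  unfold onC; rw [eval₂_zero]

theorem onC_one (f : κ → Polynomial A) : onC (1 : MvPolynomial κ A) f = 1 := by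
  unfold onC; rw [eval₂_one]

end

section

variable {R : Type} [CommRing R] {D : R →+ R}

theorem rel_zero (a : R) (ha : D a = 0) : Rel D (Polynomial.C a) 0 := by
  intro j
  rw [Polynomial.coeff_C, Polynomial.coeff_zero]
  split_ifs
  · exact ha
  · exact map_zero D

theorem rel_add {P Q P' Q' : Polynomial R} (h : Rel D P Q) (h' : Rel D P' Q') :
    Rel D (P + P') (Q + Q') := by
  intro j
  rw [Polynomial.coeff_add, Polynomial.coeff_add, map_add, h j, h' j]

theorem rel_mul (hD : ∀ a b, D (a * b) = D a * b + a * D b) {P Q P' Q' : Polynomial R}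
    (h : Rel D P Q) (h' : Rel D P' Q') : Rel D (P * P') (Q * P' + P * Q') := by
  intro j
  rw [Polynomial.coeff_add, Polynomial.coeff_mul, Polynomial.coeff_mul, Polynomial.coeff_mul,
    map_sum, ← Finset.sum_add_distrib]
  refine Finset.sum_congr rfl fun x _ => ?_
  rw [hD, h, h']

end

/-- The chain rule. -/
theorem chain_rule [CommRing A] [Fintype κ] {R : Type} [CommRing R] {D : R →+ R}
    (hD : ∀ a b, D (a * b) = D a * b + a * D b) (f : A →+* R) (hf : ∀ a, D (f a) = 0)
    (F : MvPolynomial κ A) (c c' : κ → Polynomial R) (hc : ∀ i, Rel D (c i) (c' i)) :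
    Rel D (onC (F.map f) c) (∑ i, onC (pderiv i (F.map f)) c * c' i) := by
  classical
  induction F using MvPolynomial.induction_on with
  | C a =>
    have h0 : ∀ i, pderiv i (C (f a) : MvPolynomial κ R) = 0 := fun i => pderiv_C
    rw [map_C, onC_C]
    simp only [h0, onC_zero, zero_mul, Finset.sum_const_zero]
    exact rel_zero _ (hf a)
  | add p q hp hq =>
    have h := rel_add hp hq
    rw [← Finset.sum_add_distrib, ← onC_add, ← map_add] at h
    convert h using 1
    refine Finset.sum_congr rfl fun i _ => ?_
    rw [map_add, map_add, onC_add, add_mul]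
  | mul_X p n hp =>
    have h := rel_mul hD hp (hc n)
    rw [map_mul, map_X, onC_mul, onC_X]
    convert h using 1
    rw [Finset.sum_mul]
    have e2 : ∀ i, onC (pderiv i (MvPolynomial.map f p * X n)) c * c' i =
        onC (pderiv i (MvPolynomial.map f p)) c * c' i * c n +
        (if i = n then onC (MvPolynomial.map f p) c * c' n else 0) := by
      intro i
      rw [pderiv_mul, pderiv_X, onC_add, onC_mul, onC_mul, onC_X]
      by_cases hi : i = n
      · subst hi
        rw [Pi.single_eq_same, if_pos rfl, onC_one]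
        ring
      · rw [if_neg hi, Pi.single_eq_of_ne (fun h => hi h.symm), onC_zero]
        ring
    rw [Finset.sum_congr rfl (fun i _ => e2 i), Finset.sum_add_distrib]
    congr 1
    rw [Finset.sum_ite_eq' Finset.univ n, if_pos (Finset.mem_univ _)]

end GLC_

open GLC_ in
theorem p_GLC : T_GLC := by
  classical
  intro σ A _ _ F E l η
  set cU : σ → Polynomial (MvPolynomial (Fin E × σ) A) :=
    crv (fun (j : Fin E) i => (X (j, i) : MvPolynomial (Fin E × σ) A)) (fun i => C (η i)) with hcU
  refine ⟨(onC (F.map (C : A →+* MvPolynomial (Fin E × σ) A)) cU).coeff l, ?_⟩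
  intro B _ φ u
  set ψ : MvPolynomial (Fin E × σ) A →+* B := eval₂Hom φ u with hψ
  have hψ' : ∀ p : MvPolynomial (Fin E × σ) A, eval u (p.map φ) = ψ p := by
    intro p; rw [eval_map]; rfl
  have hψC : ψ.comp (C : A →+* MvPolynomial (Fin E × σ) A) = φ := by
    ext r
    simp [hψ]
  have hψc : (fun i => (cU i).map ψ) = crv (fun j i => u (j, i)) (fun i => φ (η i)) := by
    funext i
    simp only [hcU, crv, Polynomial.map_add, Polynomial.map_sum, Polynomial.map_mul,
      Polynomial.map_C, Polynomial.map_pow, Polynomial.map_X, hψ, coe_eval₂Hom, eval₂_C, eval₂_X]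
  have hon : ∀ P : MvPolynomial σ A,
      (onC (P.map (C : A →+* MvPolynomial (Fin E × σ) A)) cU).map ψ =
        onC (P.map φ) (crv (fun j i => u (j, i)) (fun i => φ (η i))) := by
    intro P
    have h := onC_map ψ (P.map (C : A →+* MvPolynomial (Fin E × σ) A)) cU
    rw [hψc, map_map, hψC] at h
    exact h.symm
  refine ⟨by rw [hψ', ← hon F, Polynomial.coeff_map], ?_⟩
  intro p
  rw [pderiv_map, hψ']
  set D : MvPolynomial (Fin E × σ) A →+ MvPolynomial (Fin E × σ) A :=
    (pderiv p).toLinearMap.toAddMonoidHom with hDd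
  have hD : ∀ a b, D (a * b) = D a * b + a * D b := by
    intro a b
    have h := pderiv_mul (i := p) (f := a) (g := b)
    exact h
  have hDC : ∀ r : A, D (C r : MvPolynomial (Fin E × σ) A) = 0 := fun r => pderiv_C
  have hc : ∀ i, Rel D (cU i) (if i = p.2 then Polynomial.X ^ (p.1 : ℕ) else 0) := by
    intro i k
    have e1 : (cU i).coeff k = (∑ j : Fin E, if k = (j : ℕ) then
        (X (j, i) : MvPolynomial (Fin E × σ) A) else 0) + if k = E then C (η i) else 0 := by
      rw [hcU]
      simp only [crv, Polynomial.coeff_add, Polynomial.finsetSum_coeff, Polynomial.coeff_C_mul,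
        Polynomial.coeff_X_pow, mul_ite, mul_one, mul_zero]
    have e2 : D ((cU i).coeff k) = ∑ j : Fin E, if k = (j : ℕ) then
        (if (j, i) = p then (1 : MvPolynomial (Fin E × σ) A) else 0) else 0 := by
      rw [e1, map_add, map_sum]
      have e3 : D (if k = E then (C (η i) : MvPolynomial (Fin E × σ) A) else 0) = 0 := by
        split_ifs
        · exact hDC _
        · exact map_zero D
      rw [e3, add_zero]
      refine Finset.sum_congr rfl fun j _ => ?_
      split_ifs with h1 h2
      · have h4 : D (X (j, i) : MvPolynomial (Fin E × σ) A) = pderiv p (X (j, i)) := rfl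
        rw [h4, h2, pderiv_X_self]
      · have h4 : D (X (j, i) : MvPolynomial (Fin E × σ) A) = pderiv p (X (j, i)) := rfl
        rw [h4, pderiv_X_of_ne h2]
      · exact map_zero D
    rw [e2]
    by_cases hi : i = p.2
    · rw [if_pos hi, Polynomial.coeff_X_pow, Finset.sum_eq_single p.1]
      · have h5 : ((p.1, i) : Fin E × σ) = p := by rw [hi]
        rw [if_pos h5]
      · intro j _ hj
        rw [if_neg (fun h => hj (congrArg Prod.fst h)), ite_self]
      · intro h; exact absurd (Finset.mem_univ _) h
    · rw [if_neg hi, Polynomial.coeff_zero]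
      refine Finset.sum_eq_zero fun j _ => ?_
      rw [if_neg (fun h => hi (congrArg Prod.snd h)), ite_self]
  have hch := chain_rule hD (C : A →+* MvPolynomial (Fin E × σ) A) hDC F cU _ hc l
  refine (congrArg ψ hch).trans ?_
  have hsum : (∑ i, onC (pderiv i (F.map (C : A →+* MvPolynomial (Fin E × σ) A))) cU *
      (if i = p.2 then (Polynomial.X ^ (p.1 : ℕ) : Polynomial (MvPolynomial (Fin E × σ) A))
        else 0)) =
      onC (pderiv p.2 (F.map (C : A →+* MvPolynomial (Fin E × σ) A))) cU *
        Polynomial.X ^ (p.1 : ℕ) := by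
    rw [Finset.sum_eq_single p.2]
    · rw [if_pos rfl]
    · intro i _ hi
      rw [if_neg hi, mul_zero]
    · intro h; exact absurd (Finset.mem_univ _) h
  rw [hsum, ← Polynomial.coeff_map, Polynomial.map_mul, Polynomial.map_pow, Polynomial.map_X,
    pderiv_map, hon, pderiv_map]

end Pool.Agent.FCV
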