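import Pool.Agent.FCV.TargetsM

/-!
# FCV, T_GLD: coefficients of a form on a curve with variable end point (helper86)
-/

set_option autoImplicit false

open MvPolynomial

namespace Pool.Agent.FCV

namespace GLD_

/-- `Q` is the derivative of the coefficients of `P`. -/
def Rel {R : Type} [CommRing R] (D : R → R) (P Q : Polynomial R) : Prop :=
  ∀ j, D (P.coeff j) = Q.coeff j

section

variable {R : Type} [CommRing R] {D : R → R} (h0 : D 0 = 0) (ha : ∀ a b, D (a + b) = D a + D b)
  (hm : ∀ a b, D (a * b) = D a * b + a * D b)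

include ha in
theorem rel_add {P Q P' Q' : Polynomial R} (h : Rel D P Q) (h' : Rel D P' Q') :
    Rel D (P + P') (Q + Q') := by
  intro j
  rw [Polynomial.coeff_add, Polynomial.coeff_add, ha, h j, h' j]

include h0 ha in
theorem map_sum' {ι : Type} (s : Finset ι) (g : ι → R) : D (∑ i ∈ s, g i) = ∑ i ∈ s, D (g i) := by
  classical
  induction s using Finset.induction_on with
  | empty => simp [h0]
  | insert a s hs ih => rw [Finset.sum_insert hs, Finset.sum_insert hs, ha, ih]

include h0 ha in
theorem rel_sum {ι : Type} (s : Finset ι) (P Q : ι → Polynomial R)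
    (h : ∀ i ∈ s, Rel D (P i) (Q i)) : Rel D (∑ i ∈ s, P i) (∑ i ∈ s, Q i) := by
  intro j
  rw [Polynomial.finset_sum_coeff, Polynomial.finset_sum_coeff, map_sum' h0 ha]
  exact Finset.sum_congr rfl fun i hi => h i hi j

include h0 ha hm in
theorem rel_mul {P Q P' Q' : Polynomial R} (h : Rel D P Q) (h' : Rel D P' Q') :
    Rel D (P * P') (Q * P' + P * Q') := by
  intro j
  rw [Polynomial.coeff_mul, Polynomial.coeff_add, Polynomial.coeff_mul, Polynomial.coeff_mul,
    map_sum' h0 ha, ← Finset.sum_add_distrib]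
  refine Finset.sum_congr rfl fun q _ => ?_
  rw [hm, h q.1, h' q.2]

include h0 in
theorem rel_CX (a : R) (k : ℕ) : Rel D (Polynomial.C a * Polynomial.X ^ k)
    (Polynomial.C (D a) * Polynomial.X ^ k) := by
  intro j
  rw [Polynomial.coeff_C_mul_X_pow, Polynomial.coeff_C_mul_X_pow]
  split_ifs
  · rfl
  · exact h0

include h0 ha hm in
/-- The chain rule. -/
theorem chain {σ A : Type} [Fintype σ] [CommRing A] (i₀ : A →+* Polynomial R)
    (hi₀ : ∀ a, Rel D (i₀ a) 0) (f g : σ → Polynomial R) (hfg : ∀ i, Rel D (f i) (g i))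
    (F : MvPolynomial σ A) :
    Rel D (eval₂ i₀ f F) (∑ i, eval₂ i₀ f (pderiv i F) * g i) := by
  classical
  induction F using MvPolynomial.induction_on with
  | C a =>
    have : ∀ i, pderiv i (C a : MvPolynomial σ A) = 0 := fun i => pderiv_C
    simp only [this, eval₂_zero, zero_mul, Finset.sum_const_zero, eval₂_C]
    exact hi₀ a
  | add p q hp hq =>
    have h := rel_add ha hp hq
    rw [← Finset.sum_add_distrib, ← eval₂_add] at h
    have e : ∑ i, (eval₂ i₀ f (pderiv i p) * g i + eval₂ i₀ f (pderiv i q) * g i) =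
        ∑ i, eval₂ i₀ f (pderiv i (p + q)) * g i := by
      refine Finset.sum_congr rfl fun i _ => ?_
      rw [map_add, eval₂_add, add_mul]
    rw [e] at h
    exact h
  | mul_X p n hp =>
    have h := rel_mul h0 ha hm hp (hfg n)
    rw [eval₂_mul, eval₂_X]
    have e : ∑ i, eval₂ i₀ f (pderiv i (p * X n)) * g i =
        (∑ i, eval₂ i₀ f (pderiv i p) * g i) * f n + eval₂ i₀ f p * g n := by
      have e1 : ∀ i, eval₂ i₀ f (pderiv i (p * X n)) * g i =
          eval₂ i₀ f (pderiv i p) * g i * f n +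
            (if i = n then eval₂ i₀ f p * g n else 0) := by
        intro i
        rw [pderiv_mul, pderiv_X, eval₂_add, eval₂_mul, eval₂_mul, eval₂_X]
        by_cases hi : i = n
        · subst hi
          rw [Pi.single_eq_same, if_pos rfl, eval₂_one]
          ring
        · rw [if_neg hi, Pi.single_eq_of_ne (fun h => hi h.symm), eval₂_zero]
          ring
      rw [Finset.sum_congr rfl (fun i _ => e1 i), Finset.sum_add_distrib, ← Finset.sum_mul,
        Finset.sum_ite_eq' Finset.univ n, if_pos (Finset.mem_univ _)]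
    rw [e]
    exact h

end

end GLD_

open GLD_ in
/-- The coefficients of a form on a curve with variable end point as polynomials. -/
theorem p_GLD : T_GLD := by
  classical
  intro σ A _ _ F E l
  set ψU : Fin E → σ → MvPolynomial (σ ⊕ (Fin E × σ)) A := fun j i => X (Sum.inr (j, i)) with hψU
  set ηU : σ → MvPolynomial (σ ⊕ (Fin E × σ)) A := fun i => X (Sum.inl i) with hηU
  refine ⟨(onC (F.map (C : A →+* MvPolynomial (σ ⊕ (Fin E × σ)) A)) (crv ψU ηU)).coeff l, ?_⟩
  intro B _ φ η u
  set ψ : MvPolynomial (σ ⊕ (Fin E × σ)) A →+* B := eval₂Hom φ (Sum.elim η u) with hψ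
  have hψ' : ∀ p : MvPolynomial (σ ⊕ (Fin E × σ)) A, eval (Sum.elim η u) (p.map φ) = ψ p := by
    intro p; rw [eval_map]; rfl
  have hcr : (fun i => (crv ψU ηU i).map ψ) = crv (fun j i => u (j, i)) η := by
    funext i
    rw [← crv_map ψ ψU ηU i]
    have e1 : (fun j i => ψ (ψU j i)) = fun j i => u (j, i) := by
      funext j i
      simp [hψU, hψ]
    have e2 : (fun i => ψ (ηU i)) = η := by
      funext i
      simp [hηU, hψ]
    rw [e1, e2]
  have hψC : ψ.comp (C : A →+* MvPolynomial (σ ⊕ (Fin E × σ)) A) = φ := by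
    ext r
    simp [hψ]
  have hon : ∀ P : MvPolynomial σ A,
      (onC (P.map (C : A →+* MvPolynomial (σ ⊕ (Fin E × σ)) A)) (crv ψU ηU)).map ψ =
        onC (P.map φ) (crv (fun j i => u (j, i)) η) := by
    intro P
    rw [← onC_map, hcr, map_map, hψC]
  refine ⟨by rw [hψ', ← hon F, Polynomial.coeff_map], ?_⟩
  rintro ⟨pj, pi⟩
  rw [pderiv_map, hψ']
  have hg : ∀ i, Rel (fun r : MvPolynomial (σ ⊕ (Fin E × σ)) A => pderiv (Sum.inr (pj, pi)) r)
      (crv ψU ηU i) (if i = pi then Polynomial.X ^ (pj : ℕ) else 0) := by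
    intro i
    have h1 := rel_sum (D := fun r : MvPolynomial (σ ⊕ (Fin E × σ)) A =>
      pderiv (Sum.inr (pj, pi)) r) (map_zero _) (fun _ _ => map_add _ _ _) Finset.univ
      (fun j : Fin E => Polynomial.C (ψU j i) * Polynomial.X ^ (j : ℕ))
      (fun j : Fin E => Polynomial.C (pderiv (Sum.inr (pj, pi)) (ψU j i)) *
        Polynomial.X ^ (j : ℕ)) (fun j _ => rel_CX (map_zero _) _ _)
    have h2 := rel_CX (D := fun r : MvPolynomial (σ ⊕ (Fin E × σ)) A =>
      pderiv (Sum.inr (pj, pi)) r) (map_zero _) (ηU i) E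
    have h3 := rel_add (D := fun r : MvPolynomial (σ ⊕ (Fin E × σ)) A =>
      pderiv (Sum.inr (pj, pi)) r) (fun _ _ => map_add _ _ _) h1 h2
    have e : ∑ j : Fin E, Polynomial.C (pderiv (Sum.inr (pj, pi)) (ψU j i)) *
        Polynomial.X ^ (j : ℕ) + Polynomial.C (pderiv (Sum.inr (pj, pi)) (ηU i)) *
        Polynomial.X ^ E = if i = pi then Polynomial.X ^ (pj : ℕ) else 0 := by
      have e2 : pderiv (Sum.inr (pj, pi)) (ηU i) = 0 := by
        rw [hηU]
        exact pderiv_X_of_ne (by simp)
      rw [e2, Polynomial.C_0, zero_mul, add_zero]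
      by_cases hi : i = pi
      · subst hi
        rw [if_pos rfl, Finset.sum_eq_single pj]
        · rw [hψU]
          simp only
          rw [pderiv_X_self, Polynomial.C_1, one_mul]
        · intro j _ hj
          have : pderiv (Sum.inr (pj, i)) (ψU j i) = 0 := by
            rw [hψU]
            refine pderiv_X_of_ne fun h => hj ?_
            have h' := Sum.inr.inj h
            exact congrArg Prod.fst h'
          rw [this, Polynomial.C_0, zero_mul]
        · intro h; exact absurd (Finset.mem_univ _) h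
      · rw [if_neg hi]
        refine Finset.sum_eq_zero fun j _ => ?_
        have : pderiv (Sum.inr (pj, pi)) (ψU j i) = 0 := by
          rw [hψU]
          refine pderiv_X_of_ne fun h => hi ?_
          have h' := Sum.inr.inj h
          exact congrArg Prod.snd h'
        rw [this, Polynomial.C_0, zero_mul]
    rw [e] at h3
    exact h3
  have hch := chain (D := fun r : MvPolynomial (σ ⊕ (Fin E × σ)) A =>
      pderiv (Sum.inr (pj, pi)) r) (map_zero _) (fun _ _ => map_add _ _ _)
      (fun _ _ => pderiv_mul)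
      ((Polynomial.C : MvPolynomial (σ ⊕ (Fin E × σ)) A →+* _).comp
        (C : A →+* MvPolynomial (σ ⊕ (Fin E × σ)) A))
      (fun a j => by
        rw [RingHom.comp_apply, Polynomial.coeff_C, Polynomial.coeff_zero]
        split_ifs
        · exact pderiv_C
        · exact map_zero _) (crv ψU ηU) _ hg F l
  have eon : ∀ P : MvPolynomial σ A,
      onC (P.map (C : A →+* MvPolynomial (σ ⊕ (Fin E × σ)) A)) (crv ψU ηU) =
      eval₂ ((Polynomial.C : MvPolynomial (σ ⊕ (Fin E × σ)) A →+* _).comp
        (C : A →+* MvPolynomial (σ ⊕ (Fin E × σ)) A)) (crv ψU ηU) P := by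
    intro P
    unfold onC
    rw [eval₂_map]
  rw [← eon F] at hch
  refine (congrArg ψ hch).trans ?_
  have e1 : ∑ i, eval₂ ((Polynomial.C : MvPolynomial (σ ⊕ (Fin E × σ)) A →+* _).comp
        (C : A →+* MvPolynomial (σ ⊕ (Fin E × σ)) A)) (crv ψU ηU) (pderiv i F) *
        (if i = pi then Polynomial.X ^ (pj : ℕ) else 0) =
      onC ((pderiv pi F).map (C : A →+* MvPolynomial (σ ⊕ (Fin E × σ)) A)) (crv ψU ηU) *
        Polynomial.X ^ (pj : ℕ) := by
    rw [eon]
    simp only [mul_ite, mul_zero]
    rw [Finset.sum_ite_eq' Finset.univ pi, if_pos (Finset.mem_univ _)]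
  rw [e1, ← Polynomial.coeff_map, Polynomial.map_mul, Polynomial.map_pow, Polynomial.map_X, hon,
    pderiv_map]

end Pool.Agent.FCV
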