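import Pool.Agent.FCV.TargetsG
import Pool.Agent.WA.Valuative

/-!
# Free curves on hypersurfaces: target T_GNN (helper12)
-/

set_option autoImplicit false

open MvPolynomial

namespace Pool.Agent.FCV

namespace GNN_

/-- The equations of the cone and the generic linear forms. -/
noncomputable def H {κ τ : Type} [Field κ] [Fintype τ] {m r : ℕ}
    (h : Fin r → MvPolynomial τ κ) :
    Fin r ⊕ Fin m → MvPolynomial τ (MvPolynomial (Fin m × τ) κ)
  | Sum.inl i => (h i).map C
  | Sum.inr s => ∑ t, C (X (s, t)) * X t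

theorem H_hom {κ τ : Type} [Field κ] [Fintype τ] {m r : ℕ}
    {h : Fin r → MvPolynomial τ κ} {e : Fin r → ℕ} (he : ∀ i, (h i).IsHomogeneous (e i)) :
    ∀ j : Fin r ⊕ Fin m, (H (m := m) h j).IsHomogeneous (Sum.elim e (fun _ => 1) j)
  | Sum.inl i => (he i).map _
  | Sum.inr _ => IsHomogeneous.sum _ _ _ fun _ _ => isHomogeneous_C_mul_X _ _

theorem H_eval_inl {κ τ A : Type} [Field κ] [Fintype τ] [CommRing A] {m r : ℕ}
    (h : Fin r → MvPolynomial τ κ) (φ : MvPolynomial (Fin m × τ) κ →+* A) (w : τ → A)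
    (i : Fin r) : eval₂ φ w (H (m := m) h (Sum.inl i)) = eval₂ (φ.comp C) w (h i) := by
  show eval₂ φ w ((h i).map C) = _
  rw [eval₂_map]

theorem H_eval_inr {κ τ A : Type} [Field κ] [Fintype τ] [CommRing A] {m r : ℕ}
    (h : Fin r → MvPolynomial τ κ) (φ : MvPolynomial (Fin m × τ) κ →+* A) (w : τ → A)
    (s : Fin m) : eval₂ φ w (H (m := m) h (Sum.inr s)) = ∑ t, φ (X (s, t)) * w t := by
  show eval₂ φ w (∑ t, C (X (s, t)) * X t) = _
  rw [← coe_eval₂Hom, map_sum]
  simp

/-- If the equations and the generic linear forms have only the trivial solution, then some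
linear forms over the base field cut the cone. -/
theorem cut {κ τ : Type} [Field κ] [IsAlgClosed κ] [Fintype τ] {m r : ℕ}
    {h : Fin r → MvPolynomial τ κ} {Δ : MvPolynomial (Fin m × τ) κ} {N : ℕ} (hΔ : Δ ≠ 0)
    (hN : ∀ b : τ, C Δ * X b ^ N ∈ Ideal.span (Set.range (H (m := m) h))) :
    Cut {z : τ → κ | ∀ i, eval z (h i) = 0} m := by
  have hex : ∃ l₀ : Fin m × τ → κ, eval l₀ Δ ≠ 0 := by
    by_contra hcon
    push Not at hcon
    exact hΔ (MvPolynomial.funext fun x => by rw [hcon x, map_zero])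
  obtain ⟨l₀, hl₀⟩ := hex
  refine ⟨fun s t => l₀ (s, t), fun z hz hs => ?_⟩
  funext b
  have hle : Ideal.span (Set.range (H (m := m) h)) ≤
      RingHom.ker (eval₂Hom (eval l₀ : MvPolynomial (Fin m × τ) κ →+* κ) z) := by
    rw [Ideal.span_le]
    rintro _ ⟨j, rfl⟩
    show eval₂ (eval l₀) z (H h j) = 0
    rcases j with i | s
    · rw [H_eval_inl]
      have h1 := hz i
      have h2 : (eval l₀ : MvPolynomial (Fin m × τ) κ →+* κ).comp C = RingHom.id κ := by
        ext a
        simp
      rw [h2]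
      exact h1
    · rw [H_eval_inr]
      have h1 := hs s
      simpa using h1
  have h3 := hle (hN b)
  rw [RingHom.mem_ker, map_mul, map_pow, coe_eval₂Hom, eval₂_C, eval₂_X] at h3
  rcases mul_eq_zero.mp h3 with h4 | h4
  · exact absurd h4 hl₀
  · exact eq_zero_of_pow_eq_zero h4

/-- A nonzero point of the cone on a generic linear section, multiplied by an independent
element, is not algebraic over a field generated by few elements. -/
theorem not_algLe {κ Ω τ : Type} [Field κ] [Field Ω] [Algebra κ Ω] [Fintype τ] (m : ℕ)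
    (ξ : Option (Fin m × τ) → Ω) (hξ : AlgebraicIndependent κ ξ) (u : τ → Ω) (t₀ : τ)
    (hu : u t₀ = 1) (hsec : ∀ s, ∑ t, ξ (some (s, t)) * u t = 0) :
    ¬ AlgLe κ (fun t => ξ none * u t) m := by
  classical
  rintro ⟨T, hT, halg0⟩
  let s₂ : Finset Ω := (Finset.univ.filter (fun x : Fin m × τ => x.2 ≠ t₀)).image
    (fun x => ξ (some x))
  let S : Finset Ω := T ∪ s₂
  have hS : S.card ≤ m + m * (Fintype.card τ - 1) := by
    refine (Finset.card_union_le _ _).trans ?_
    have h2 : s₂.card ≤ m * (Fintype.card τ - 1) := by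
      refine Finset.card_image_le.trans ?_
      have h3 : (Finset.univ.filter (fun x : Fin m × τ => x.2 ≠ t₀)) =
          (Finset.univ : Finset (Fin m)) ×ˢ (Finset.univ.erase t₀) := by
        ext x
        simp
      rw [h3, Finset.card_product, Finset.card_erase_of_mem (Finset.mem_univ _)]
      simp
    omega
  have halg : ∀ x, IsAlgebraic (Algebra.adjoin κ (S : Set Ω)) (ξ x) := by
    have hsub : IntermediateField.adjoin κ (T : Set Ω) ≤
        IntermediateField.adjoin κ (S : Set Ω) := by
      apply IntermediateField.adjoin.mono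
      intro a ha
      exact Finset.mem_coe.mpr (Finset.mem_union_left _ (Finset.mem_coe.mp ha))
    have hz : ∀ t, IsAlgebraic (IntermediateField.adjoin κ (S : Set Ω)) (ξ none * u t) := by
      intro t
      obtain ⟨p, hp, hp0⟩ := halg0 t
      refine ⟨p.map (IntermediateField.inclusion hsub).toRingHom, ?_, ?_⟩
      · exact (Polynomial.map_ne_zero_iff
          (IntermediateField.inclusion hsub).toRingHom.injective).mpr hp
      · rw [Polynomial.aeval_def, Polynomial.eval₂_map]
        exact hp0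
    have hc : IsAlgebraic (IntermediateField.adjoin κ (S : Set Ω)) (ξ none) := by
      have h1 := hz t₀
      rwa [hu, mul_one] at h1
    have hc0 : ξ none ≠ 0 := hξ.ne_zero none
    have hu' : ∀ t, IsAlgebraic (IntermediateField.adjoin κ (S : Set Ω)) (u t) := by
      intro t
      have h1 := hc.inv.mul (hz t)
      rwa [inv_mul_cancel_left₀ hc0] at h1
    have hmem : ∀ a t, t ≠ t₀ →
        IsAlgebraic (IntermediateField.adjoin κ (S : Set Ω)) (ξ (some (a, t))) := by
      intro a t ht
      have h1 : ξ (some (a, t)) ∈ IntermediateField.adjoin κ (S : Set Ω) := by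
        apply IntermediateField.subset_adjoin
        have : ξ (some (a, t)) ∈ s₂ := Finset.mem_image.mpr ⟨(a, t), by simp [ht], rfl⟩
        exact Finset.mem_coe.mpr (Finset.mem_union_right _ this)
      exact isAlgebraic_algebraMap (⟨_, h1⟩ : IntermediateField.adjoin κ (S : Set Ω))
    rintro (_ | ⟨a, t⟩)
    · exact IntermediateField.isAlgebraic_adjoin_iff.mp hc
    apply IntermediateField.isAlgebraic_adjoin_iff.mp
    by_cases ht : t = t₀
    · subst ht
      have h1 : ξ (some (a, t)) =
          - ∑ t' ∈ Finset.univ.erase t, ξ (some (a, t')) * u t' := by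
        have h2 := hsec a
        rw [← Finset.add_sum_erase _ _ (Finset.mem_univ t), hu, mul_one] at h2
        exact eq_neg_of_add_eq_zero_left h2
      rw [h1]
      apply IsAlgebraic.neg
      rw [← mem_algebraicClosure_iff]
      apply sum_mem
      intro t' ht'
      rw [mem_algebraicClosure_iff]
      exact (hmem a t' (Finset.ne_of_mem_erase ht')).mul (hu' t')
    · exact hmem a t ht
  have h1 := Pool.Agent.WA.card_le_of_algebraic ξ hξ S halg
  rw [Fintype.card_option, Fintype.card_prod, Fintype.card_fin] at h1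
  have h2 : 0 < Fintype.card τ := Fintype.card_pos_iff.mpr ⟨t₀⟩
  obtain ⟨c, hc⟩ : ∃ c, Fintype.card τ = c + 1 := ⟨Fintype.card τ - 1, by omega⟩
  rw [hc] at h1 hS
  rw [Nat.add_sub_cancel] at hS
  rw [mul_add, mul_one] at h1
  omega

end GNN_

theorem p_GNN (hELIM : WL.T_ELIM) : T_GNN := by
  classical
  intro κ τ _ _ _ m r h e he hcut
  let σ := Option (Fin m × τ)
  let Ω := AlgebraicClosure (FractionRing (MvPolynomial σ κ))
  let ξ : σ → Ω := fun x => algebraMap (FractionRing (MvPolynomial σ κ)) Ω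
    (algebraMap (MvPolynomial σ κ) (FractionRing (MvPolynomial σ κ)) (X x))
  have hξ : AlgebraicIndependent κ ξ := by
    have h1 : AlgebraicIndependent κ (X : σ → MvPolynomial σ κ) := algebraicIndependent_X σ κ
    have h2 := h1.map' (f := IsScalarTower.toAlgHom κ (MvPolynomial σ κ)
      (FractionRing (MvPolynomial σ κ)))
      (IsFractionRing.injective (MvPolynomial σ κ) (FractionRing (MvPolynomial σ κ)))
    exact h2.map' (f := IsScalarTower.toAlgHom κ (FractionRing (MvPolynomial σ κ)) Ω)
      (algebraMap (FractionRing (MvPolynomial σ κ)) Ω).injective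
  by_cases hA : ∀ w : τ → Ω, (∀ i, eval₂ (aeval (fun x => ξ (some x)) :
      MvPolynomial (Fin m × τ) κ →ₐ[κ] Ω).toRingHom w (GNN_.H (m := m) h i) = 0) → w = 0
  · obtain ⟨Δ, N, hΔ, hN⟩ := hELIM κ (Fin m × τ) τ Ω (fun x => ξ (some x)) (Fin r ⊕ Fin m)
      (GNN_.H h) (Sum.elim e (fun _ => 1)) (GNN_.H_hom he) hA
    have hΔ0 : Δ ≠ 0 := by
      rintro rfl
      exact hΔ (map_zero _)
    exact absurd (GNN_.cut hΔ0 hN) hcut
  · push Not at hA
    obtain ⟨w, hw, hw0⟩ := hA
    obtain ⟨t₀, ht₀⟩ := Function.ne_iff.mp hw0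
    have ht₀' : w t₀ ≠ 0 := ht₀
    refine ⟨Ω, inferInstance, inferInstance, inferInstance,
      fun t => ξ none * ((w t₀)⁻¹ * w t), ?_, ?_⟩
    · intro i
      rw [Pool.Agent.WA.aeval_smul_of_homogeneous (he i),
        Pool.Agent.WA.aeval_smul_of_homogeneous (he i)]
      have h1 := hw (Sum.inl i)
      rw [GNN_.H_eval_inl] at h1
      have h2 : ((aeval (fun x => ξ (some x)) :
          MvPolynomial (Fin m × τ) κ →ₐ[κ] Ω).toRingHom).comp C = algebraMap κ Ω := by
        ext a
        simp
      rw [h2] at h1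
      have h3 : aeval w (h i) = 0 := h1
      rw [h3, mul_zero, mul_zero]
    · refine GNN_.not_algLe m ξ hξ (fun t => (w t₀)⁻¹ * w t) t₀ (inv_mul_cancel₀ ht₀') ?_
      intro s
      have h1 := hw (Sum.inr s)
      rw [GNN_.H_eval_inr] at h1
      have h2 : ∑ t, ξ (some (s, t)) * ((w t₀)⁻¹ * w t) =
          (w t₀)⁻¹ * ∑ t, ξ (some (s, t)) * w t := by
        rw [Finset.mul_sum]
        exact Finset.sum_congr rfl fun t _ => by ring
      rw [h2]
      have h3 : ∑ t, ξ (some (s, t)) * w t = 0 := by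
        rw [← h1]
        exact Finset.sum_congr rfl fun t _ => by simp
      rw [h3, mul_zero]

end Pool.Agent.FCV
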