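import Pool.Agent.FCV.TargetsL

/-!
# End points of the curves
-/

set_option autoImplicit false

open MvPolynomial

namespace Pool.Agent.FCV

theorem GVAL_coeff_zero {E : Type} [Field E] {n : ℕ} (c e : ℕ)
    (f₀ : Fin (n + 1) → Polynomial E) (N : Fin e → Fin (n + 1) → Polynomial E)
    (i : Fin (n + 1)) : (cg c e f₀ N i).coeff 0 = f₀ i := by
  unfold cg
  rw [Polynomial.coeff_add, Polynomial.coeff_C_zero, Polynomial.finsetSum_coeff,
    Finset.sum_eq_zero, add_zero]
  intro j _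
  rw [Polynomial.coeff_C_mul_X_pow, if_neg (by omega)]

theorem GVAL_coeff_succ {E : Type} [Field E] {n : ℕ} (c e : ℕ)
    (f₀ : Fin (n + 1) → Polynomial E) (N : Fin e → Fin (n + 1) → Polynomial E)
    (i : Fin (n + 1)) (j : Fin e) :
    (cg c e f₀ N i).coeff ((j : ℕ) + 1) = Polynomial.X ^ c * N j i := by
  unfold cg
  rw [Polynomial.coeff_add, Polynomial.coeff_C_succ, zero_add, Polynomial.finsetSum_coeff,
    Finset.sum_eq_single j]
  · rw [Polynomial.coeff_C_mul_X_pow, if_pos rfl]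
  · intro j' _ hj
    rw [Polynomial.coeff_C_mul_X_pow, if_neg]
    intro h
    exact hj (Fin.ext (by omega))
  · intro h
    exact absurd (Finset.mem_univ j) h

theorem GVAL_cG {E : Type} [Field E] {n : ℕ} (c e : ℕ) (m : Polynomial E) (θ : E)
    (f₀ : Fin (n + 1) → Polynomial E) (N : Fin e → Fin (n + 1) → Polynomial E)
    (i : Fin (n + 1)) : cG m θ e (cg c e f₀ N) i =
      ∑ j : Fin e, Polynomial.C (θ ^ ((j : ℕ) + 1)) * (Polynomial.X ^ c * N j i) *
        m ^ (e - ((j : ℕ) + 1)) + f₀ i * m ^ e := by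
  unfold cG
  rw [Finset.sum_range_succ', GVAL_coeff_zero, Finset.sum_range]
  simp only [GVAL_coeff_succ, pow_zero, map_one, one_mul, Nat.sub_zero]

theorem GVAL_deg {E : Type} [Field E] {n : ℕ} (c ρ e : ℕ) (m : Polynomial E) (θ : E)
    (N : Fin e → Fin (n + 1) → Polynomial E) (hm : m.natDegree = ρ + 1)
    (hN : ∀ j i, (N j i).degree < ((ρ + 1 : ℕ) : WithBot ℕ)) (i : Fin (n + 1)) (j : Fin e) :
    (Polynomial.C (θ ^ ((j : ℕ) + 1)) * (Polynomial.X ^ c * N j i) *
        m ^ (e - ((j : ℕ) + 1))).degree < ((c + (ρ + 1) * e : ℕ) : WithBot ℕ) := by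
  by_cases h0 : N j i = 0
  · rw [h0, mul_zero, mul_zero, zero_mul, Polynomial.degree_zero]
    exact WithBot.bot_lt_coe _
  have h1 : (N j i).natDegree < ρ + 1 := (Polynomial.natDegree_lt_iff_degree_lt h0).2 (hN j i)
  refine lt_of_le_of_lt Polynomial.degree_le_natDegree ?_
  have h2 : (Polynomial.C (θ ^ ((j : ℕ) + 1)) * (Polynomial.X ^ c * N j i) *
      m ^ (e - ((j : ℕ) + 1))).natDegree ≤
      (c + (N j i).natDegree) + (e - ((j : ℕ) + 1)) * (ρ + 1) := by
    refine (Polynomial.natDegree_mul_le).trans (add_le_add ?_ ?_)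
    · refine (Polynomial.natDegree_C_mul_le _ _).trans ?_
      refine (Polynomial.natDegree_mul_le).trans (add_le_add ?_ le_rfl)
      exact Polynomial.natDegree_X_pow_le _
    · rw [← hm]
      exact Polynomial.natDegree_pow_le
  have h3 : (c + (N j i).natDegree) + (e - ((j : ℕ) + 1)) * (ρ + 1) < c + (ρ + 1) * e := by
    obtain ⟨k, hk⟩ : ∃ k, e = (j : ℕ) + 1 + k := ⟨e - ((j : ℕ) + 1), by omega⟩
    have h4 : e - ((j : ℕ) + 1) = k := by omega
    rw [h4, hk]
    nlinarith
  exact_mod_cast lt_of_le_of_lt h2 h3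

theorem p_GVAL : T_GVAL := by
  intro E _ n c ρ e m θ f₀ N hmm hm hf hN i
  have hs : (∑ j : Fin e, Polynomial.C (θ ^ ((j : ℕ) + 1)) * (Polynomial.X ^ c * N j i) *
        m ^ (e - ((j : ℕ) + 1))).degree < ((c + (ρ + 1) * e : ℕ) : WithBot ℕ) := by
    refine lt_of_le_of_lt (Polynomial.degree_sum_le _ _) ?_
    rw [Finset.sup_lt_iff (WithBot.bot_lt_coe _)]
    intro j _
    exact GVAL_deg c ρ e m θ N hm hN i j
  have hme : (m ^ e).natDegree ≤ (ρ + 1) * e := by
    rw [← hm, mul_comm]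
    exact Polynomial.natDegree_pow_le
  have hmc : (m ^ e).coeff ((ρ + 1) * e) = 1 := by
    have h1 : (m ^ e).natDegree = (ρ + 1) * e := by
      rw [hmm.natDegree_pow, hm, mul_comm]
    rw [← h1]
    exact (hmm.pow e).coeff_natDegree
  rw [GVAL_cG]
  refine ⟨?_, ?_, fun hc => ?_⟩
  · refine Polynomial.natDegree_add_le_of_degree_le ?_ ?_
    · exact Polynomial.natDegree_le_iff_degree_le.2 hs.le
    · exact (Polynomial.natDegree_mul_le).trans (add_le_add (hf i) hme)
  · rw [Polynomial.coeff_add, Polynomial.coeff_eq_zero_of_degree_lt hs, zero_add,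
      Polynomial.coeff_mul_add_eq_of_natDegree_le (hf i) hme, hmc, mul_one]
  · rw [Polynomial.coeff_add, Polynomial.finsetSum_coeff, Finset.sum_eq_zero, zero_add,
      Polynomial.mul_coeff_zero, Polynomial.coeff_zero_eq_eval_zero (m ^ e), Polynomial.eval_pow,
      ← Polynomial.coeff_zero_eq_eval_zero, mul_comm]
    intro j _
    rw [Polynomial.mul_coeff_zero, Polynomial.mul_coeff_zero, Polynomial.mul_coeff_zero,
      Polynomial.coeff_X_pow, if_neg (by omega), zero_mul, mul_zero, zero_mul]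

end Pool.Agent.FCV
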