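import Pool.Agent.FCV.TargetsM

/-!
# Free curves on hypersurfaces: scaling of curves (target HOMC)
-/

set_option autoImplicit false

open MvPolynomial

namespace Pool.Agent.FCV

namespace HOMC_

variable {σ A : Type} [CommRing A]

theorem onC_scale {F : MvPolynomial σ A} {d : ℕ} (hF : F.IsHomogeneous d)
    (f : σ → Polynomial A) (α : A) :
    onC F (fun i => Polynomial.C α * f i) = Polynomial.C (α ^ d) * onC F f := by
  classical
  unfold onC
  rw [eval₂_eq, eval₂_eq, Finset.mul_sum]
  refine Finset.sum_congr rfl fun μ hμ => ?_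
  have hdeg : ∑ i ∈ μ.support, μ i = d := by
    have := hF (mem_support_iff.mp hμ)
    rw [← this]
    simp [Finsupp.weight_apply, Finsupp.sum]
  simp_rw [mul_pow]
  rw [Finset.prod_mul_distrib, Finset.prod_pow_eq_pow_sum, hdeg, map_pow]
  ring

end HOMC_

open HOMC_ in
/-- Scaling of curves. -/
theorem p_HOMC : T_HOMC := by
  intro σ A _ F d E hF f α
  refine ⟨onC_scale hF f α, fun S => ?_⟩
  have h : (cmat F d E (fun i => Polynomial.C α * f i)).submatrix id S =
      α ^ (d - 1) • (cmat F d E f).submatrix id S := by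
    ext l i
    simp only [Matrix.submatrix_apply, id_eq, Matrix.smul_apply, smul_eq_mul, cmat]
    rw [onC_scale hF.pderiv, mul_assoc, Polynomial.coeff_C_mul]
  unfold cminor
  rw [h, Matrix.det_smul, Fintype.card_fin, ← pow_mul]

end Pool.Agent.FCV
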