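import Pool.Agent.FCV.TargetsG
import Pool.Agent.WL.HT

/-!
# Generic points with prescribed specialisation, over an algebraically closed field
-/

set_option autoImplicit false

open MvPolynomial

namespace Pool.Agent.FCV

namespace HT2_

/-- Polynomials in algebraic elements are algebraic. -/
theorem aeval_isAlgebraic {k L σ : Type} [Field k] [Field L] [Algebra k L]
    (F : IntermediateField k L) (z : σ → L) (hz : ∀ i, IsAlgebraic F (z i))
    (g : MvPolynomial σ k) : IsAlgebraic F (aeval z g) := by
  induction g using MvPolynomial.induction_on with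
  | C a =>
    rw [MvPolynomial.aeval_C]
    have h : algebraMap k L a = algebraMap F L (algebraMap k F a) :=
      IsScalarTower.algebraMap_apply k F L a
    rw [h]
    exact isAlgebraic_algebraMap _
  | add p q hp hq =>
    rw [map_add]
    exact hp.add hq
  | mul_X p i hp =>
    rw [map_mul, aeval_X]
    exact hp.mul (hz i)

end HT2_

open Pool.Agent.WL.HT_ in
theorem p_HT2 : T_HT2 := by
  intro k _ σ _ P f hf
  classical
  let mP : Ideal (MvPolynomial σ k) := RingHom.ker (eval P)
  have hmP : mP.IsPrime := RingHom.ker_isPrime _
  have hle : Ideal.span (f : Set (MvPolynomial σ k)) ≤ mP := by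
    rw [Ideal.span_le]
    intro g hg
    exact hf g hg
  obtain ⟨p, hpmin, hpm⟩ := Ideal.exists_minimalPrimes_le hle
  have hpprime : p.IsPrime := hpmin.1.1
  have hht : p.height ≤ f.card := Ideal.height_le_card_of_mem_minimalPrimes_span_finset hpmin
  obtain ⟨m, u, hu, hcard⟩ := Q_fintype k σ p hpprime
  have hcard' : Fintype.card σ ≤ f.card + m := by
    have : (Fintype.card σ : ℕ∞) ≤ (f.card : ℕ∞) + m := hcard.trans (by gcongr)
    exact_mod_cast this
  let B := MvPolynomial σ k ⧸ p
  let L₀ := FractionRing B
  let L := AlgebraicClosure L₀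
  let ψ : MvPolynomial σ k →ₐ[k] L :=
    (IsScalarTower.toAlgHom k L₀ L).comp
      ((IsScalarTower.toAlgHom k B L₀).comp (Ideal.Quotient.mkₐ k p))
  let z : σ → L := fun i => ψ (X i)
  have hψz : ψ = aeval z := by
    apply MvPolynomial.algHom_ext
    intro i
    rw [aeval_X]
  have hz : ∀ g : MvPolynomial σ k,
      aeval z g = algebraMap L₀ L (algebraMap B L₀ (Ideal.Quotient.mk p g)) := by
    intro g
    rw [← hψz]
    rfl
  have hz0 : ∀ g : MvPolynomial σ k, aeval z g = 0 ↔ g ∈ p := by
    intro g
    rw [hz g]
    constructor
    · intro h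
      have h0 : algebraMap B L₀ (Ideal.Quotient.mk p g) = 0 := by
        apply (algebraMap L₀ L).injective
        rw [h, map_zero]
      have h1 : Ideal.Quotient.mk p g = 0 := by
        apply IsFractionRing.injective B L₀
        rw [h0, map_zero]
      exact Ideal.Quotient.eq_zero_iff_mem.mp h1
    · intro h
      rw [Ideal.Quotient.eq_zero_iff_mem.mpr h, map_zero, map_zero]
  refine ⟨L, inferInstance, inferInstance, inferInstance, z, ?_, ?_, ?_⟩
  · intro g hg
    rw [hz0]
    exact hpmin.1.2 (Ideal.subset_span hg)
  · intro g hg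
    rw [hz0] at hg
    exact hpm hg
  · rintro r ⟨T, hT, hTz⟩
    let v : Fin m → L := fun i => aeval z (u i)
    have hv : AlgebraicIndependent k v := by
      rw [algebraicIndependent_iff]
      intro g hg
      apply hu
      rw [← hz0]
      have : aeval v g = aeval z (aeval u g) := by
        rw [MvPolynomial.comp_aeval_apply]
      rw [← this]
      exact hg
    have h2 := Pool.Agent.WA.card_le_of_algebraic v hv T (fun i => by
      apply IntermediateField.isAlgebraic_adjoin_iff.mp
      exact HT2_.aeval_isAlgebraic _ z hTz (u i))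
    rw [Fintype.card_fin] at h2
    omega

end Pool.Agent.FCV
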