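import Pool.Agent.FCV.TargetsL
import Pool.Agent.WL.RANK

/-!
# The implicit function theorem over completions
-/

set_option autoImplicit false

open MvPolynomial WithZero Topology
open Pool.Agent.WA Pool.Agent.WL

namespace Pool.Agent.FCV

namespace IFT_

section Algebra

variable {π ι A : Type} [CommRing A]

theorem dvd_eval {σ : Type} (p : MvPolynomial σ A) (t : A) {x x' : σ → A}
    (hx : ∀ i, t ∣ x' i - x i) : t ∣ eval x' p - eval x p := by
  let φ := Ideal.Quotient.mk (Ideal.span {t})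
  have hφ : ∀ a b : A, φ a = φ b ↔ t ∣ a - b := by
    intro a b
    rw [← sub_eq_zero, ← map_sub, Ideal.Quotient.eq_zero_iff_mem, Ideal.mem_span_singleton]
  have h1 : (fun i => φ (x' i)) = fun i => φ (x i) := by
    funext i
    exact (hφ _ _).mpr (hx i)
  have h2 : ∀ y : σ → A, φ (eval y p) = eval (fun i => φ (y i)) (p.map φ) := by
    intro y
    rw [eval_map]
    exact eval₂_comp_left φ (RingHom.id _) y p
  rw [← hφ, h2, h2, h1]

/-- Partial evaluation. -/
noncomputable def pe (Y : π → A) (p : MvPolynomial (π ⊕ ι) A) : MvPolynomial ι A :=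
  aeval (Sum.elim (fun i => C (Y i)) X) p

theorem eval_pe (Y : π → A) (Z : ι → A) (p : MvPolynomial (π ⊕ ι) A) :
    eval Z (pe Y p) = eval (Sum.elim Y Z) p := by
  unfold pe
  induction p using MvPolynomial.induction_on with
  | C a => simp
  | add p q hp hq => rw [map_add, map_add, hp, hq, map_add]
  | mul_X p i hp =>
    rw [map_mul, map_mul, hp, map_mul, aeval_X, eval_X]
    cases i <;> simp

theorem pderiv_pe [DecidableEq ι] (Y : π → A) (s : ι) (p : MvPolynomial (π ⊕ ι) A) :
    pderiv s (pe Y p) = pe Y (pderiv (Sum.inr s) p) := by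
  classical
  unfold pe
  induction p using MvPolynomial.induction_on with
  | C a => simp
  | add p q hp hq => rw [map_add, map_add, hp, hq, map_add, map_add]
  | mul_X p i hp =>
    rw [map_mul, Derivation.leibniz, Derivation.leibniz, map_add, smul_eq_mul, smul_eq_mul,
      smul_eq_mul, smul_eq_mul, map_mul, map_mul, hp, aeval_X]
    congr 2
    cases i with
    | inl i =>
      simp [pderiv_X]
    | inr i =>
      simp only [Sum.elim_inr, pderiv_X]
      by_cases h : i = s
      · subst h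
        simp
      · have h' : (Sum.inr i : π ⊕ ι) ≠ Sum.inr s := fun h2 => h (Sum.inr_injective h2)
        rw [Pi.single_eq_of_ne h, Pi.single_eq_of_ne h']
        simp

end Algebra

/-- The statement over power series. -/
theorem series (h4 : T_NEWT) {k π ι : Type} [Field k] [Fintype ι] [DecidableEq ι] {d : ℕ}
    (G : Fin d → MvPolynomial (π ⊕ ι) (PowerSeries k))
    (Y₀ : π → PowerSeries k) (Z₀ : ι → PowerSeries k) (S : Fin d → ι)
    (h0 : ∀ j, eval (Sum.elim Y₀ Z₀) (G j) = 0)
    (hS : (Matrix.of fun j l : Fin d =>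
      eval (Sum.elim Y₀ Z₀) (pderiv (Sum.inr (S l)) (G j))).det ≠ 0) (N : ℕ) :
    ∃ P : ℕ, ∀ Y : π → PowerSeries k,
      (∀ i, (PowerSeries.X : PowerSeries k) ^ P ∣ Y i - Y₀ i) →
      ∃ Z : ι → PowerSeries k, (∀ i, (PowerSeries.X : PowerSeries k) ^ N ∣ Z i - Z₀ i) ∧
        ∀ j, eval (Sum.elim Y Z) (G j) = 0 := by
  classical
  let Q : MvPolynomial (π ⊕ ι) (PowerSeries k) :=
    (Matrix.of fun j l : Fin d => pderiv (Sum.inr (S l)) (G j)).det
  have hQ : ∀ x : π ⊕ ι → PowerSeries k, eval x Q =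
      (Matrix.of fun j l : Fin d => eval x (pderiv (Sum.inr (S l)) (G j))).det := by
    intro x
    show eval x (Matrix.det _) = _
    rw [RingHom.map_det]
    rfl
  obtain ⟨c, hc⟩ : ∃ c : ℕ, ¬ (PowerSeries.X : PowerSeries k) ^ (c + 1) ∣
      eval (Sum.elim Y₀ Z₀) Q := by
    by_contra hcon
    push Not at hcon
    apply hS
    rw [← hQ]
    ext a
    rw [map_zero]
    exact PowerSeries.X_pow_dvd_iff.mp (hcon a) a (Nat.lt_succ_self a)
  refine ⟨2 * c + 1 + N, ?_⟩
  intro Y hY
  have hx : ∀ P : ℕ, P ≤ 2 * c + 1 + N → ∀ i : π ⊕ ι, (PowerSeries.X : PowerSeries k) ^ P ∣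
      Sum.elim Y Z₀ i - Sum.elim Y₀ Z₀ i := by
    intro P hP i
    cases i with
    | inl i => exact (pow_dvd_pow _ hP).trans (hY i)
    | inr i =>
      rw [Sum.elim_inr, Sum.elim_inr, sub_self]
      exact dvd_zero _
  have h1 : ∀ j : Fin d, (PowerSeries.X : PowerSeries k) ^ (2 * c + 1 + N) ∣
      eval Z₀ (pe Y (G j)) := by
    intro j
    rw [eval_pe]
    have h2 := dvd_eval (G j) _ (hx _ le_rfl)
    rwa [h0 j, sub_zero] at h2
  have h2 : ¬ (PowerSeries.X : PowerSeries k) ^ (c + 1) ∣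
      (Matrix.of fun j l : Fin d => eval Z₀ (pderiv (S l) (pe Y (G j)))).det := by
    have h3 : (Matrix.of fun j l : Fin d => eval Z₀ (pderiv (S l) (pe Y (G j)))).det =
        eval (Sum.elim Y Z₀) Q := by
      rw [hQ]
      congr 1
      ext j l : 2
      simp only [Matrix.of_apply]
      rw [pderiv_pe, eval_pe]
    rw [h3]
    intro h4
    apply hc
    have h5 := dvd_eval Q _ (hx (c + 1) (by omega))
    exact (dvd_iff_dvd_of_dvd_sub h5).mp h4
  obtain ⟨u, hu1, hu2⟩ := h4 k ι d N c (fun j => pe Y (G j)) S Z₀ h1 h2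
  refine ⟨u, fun i => (pow_dvd_pow _ (by omega)).trans (hu1 i), ?_⟩
  intro j
  rw [← eval_pe]
  exact hu2 j

section Scale

variable {σ A : Type} [Field A]

/-- Rescaling of the variables. -/
noncomputable def sc (a : A) (p : MvPolynomial σ A) : MvPolynomial σ A :=
  aeval (fun i => C a⁻¹ * X i : σ → MvPolynomial σ A) p

theorem eval_sc {a : A} (ha : a ≠ 0) (p : MvPolynomial σ A) (x : σ → A) :
    eval (fun i => a * x i) (sc a p) = eval x p := by
  unfold sc
  induction p using MvPolynomial.induction_on with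
  | C c => simp
  | add p q hp hq => rw [map_add, map_add, hp, hq, map_add]
  | mul_X p i hp =>
    rw [map_mul, map_mul, hp, map_mul, aeval_X, eval_X, map_mul, eval_C, eval_X,
      inv_mul_cancel_left₀ ha]

theorem pderiv_sc (a : A) (p : MvPolynomial σ A) (s : σ) :
    pderiv s (sc a p) = C a⁻¹ * sc a (pderiv s p) := by
  classical
  unfold sc
  induction p using MvPolynomial.induction_on with
  | C c => simp
  | add p q hp hq => rw [map_add, map_add, hp, hq, map_add, map_add, mul_add]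
  | mul_X p i hp =>
    rw [map_mul, Derivation.leibniz, Derivation.leibniz, map_add, smul_eq_mul, smul_eq_mul,
      smul_eq_mul, smul_eq_mul, map_mul, map_mul, hp, aeval_X, Derivation.leibniz, pderiv_C,
      smul_zero, add_zero, smul_eq_mul]
    by_cases h : i = s
    · subst h
      rw [pderiv_X_self, map_one]
      ring
    · rw [pderiv_X_of_ne (fun h2 => h h2), map_zero]
      ring

end Scale

end IFT_

open IFT_ in
theorem p_IFT (h1 : T_PAR) (h2 : T_RES) (h3 : T_E) (h4 : T_NEWT) : T_IFT := by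
  classical
  intro k K _ _ _ _ hK v hv π ι J _ _ _ Φ y₀ z₀ hΦ0 hsur θ hθ
  obtain ⟨s, hs, -, -⟩ := h1 k K 0 v Fin.elim0 hv (fun l => l.elim0)
    ⟨fun l => l.elim0, fun l => l.elim0⟩
  obtain ⟨io, hio⟩ := h3 k K v s hv (h2 k K hK v hv) hs
  -- the minor
  let d := Fintype.card J
  let e : Fin d ≃ J := (Fintype.equivFin J).symm
  obtain ⟨S, hS⟩ := (RANK_.minors d
    (Matrix.of fun (j : Fin d) (i : ι) => eval (Sum.elim y₀ z₀) (pderiv (Sum.inr i) (Φ (e j))))).mpr
    (by
      intro w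
      obtain ⟨u, hu⟩ := hsur (fun j => w (e.symm j))
      refine ⟨u, ?_⟩
      funext j
      have h5 := hu (e j)
      rw [Equiv.symm_apply_apply] at h5
      rw [← h5]
      simp only [Matrix.mulVec, dotProduct, Matrix.of_apply]
      exact Finset.sum_congr rfl fun i _ => mul_comm _ _)
  -- the integers `M`
  have hbd : ∀ T : Finset (Compl v), ∃ M : ℕ, ∀ a ∈ T, vE v (emb v s ^ M * a) ≤ 1 := by
    intro T
    induction T using Finset.induction_on with
    | empty => exact ⟨0, by simp⟩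
    | insert a T ha ih =>
      obtain ⟨M, hM⟩ := ih
      obtain ⟨M', hM'⟩ := exists_le_zpow hs.ne_zero hs.lt_one (vE v a)
      refine ⟨M + M', ?_⟩
      intro b hb
      have hle : ∀ m : ℕ, v s ^ m ≤ 1 := fun m => pow_le_one₀ zero_le hs.lt_one.le
      rw [Finset.mem_insert] at hb
      rcases hb with rfl | hb
      · rw [map_mul, map_pow, val_emb, pow_add]
        have h8 : v s ^ M' * vE v b ≤ 1 := by
          rw [zpow_neg, zpow_natCast] at hM'
          calc v s ^ M' * vE v b ≤ v s ^ M' * (v s ^ M')⁻¹ := by gcongr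
            _ = 1 := mul_inv_cancel₀ (pow_ne_zero _ hs.ne_zero)
        calc v s ^ M * v s ^ M' * vE v b = v s ^ M * (v s ^ M' * vE v b) := by rw [mul_assoc]
          _ ≤ 1 * 1 := mul_le_mul' (hle M) h8
          _ = 1 := one_mul 1
      · have h8 := hM b hb
        rw [map_mul, map_pow, val_emb] at h8 ⊢
        calc v s ^ (M + M') * vE v b = v s ^ M' * (v s ^ M * vE v b) := by
              rw [pow_add, mul_comm (v s ^ M), mul_assoc]
          _ ≤ 1 * 1 := mul_le_mul' (hle M') h8
          _ = 1 := one_mul 1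
  obtain ⟨M, hM⟩ := hbd (Finset.univ.image y₀ ∪ Finset.univ.image z₀)
  set a : Compl v := emb v s ^ M with ha
  have hs0 : emb v s ≠ 0 := by
    intro h
    have h7 := val_emb v s
    rw [h, map_zero] at h7
    exact hs.ne_zero h7.symm
  have ha0 : a ≠ 0 := pow_ne_zero _ hs0
  have hva : vE v a = v s ^ M := by rw [ha, map_pow, val_emb]
  have hva0 : v s ^ M ≠ 0 := pow_ne_zero _ hs.ne_zero
  have hly : ∀ i, ∃ g, io g = a * y₀ i := fun i => hio.surj _ (hM _ (by simp))
  have hlz : ∀ i, ∃ g, io g = a * z₀ i := fun i => hio.surj _ (hM _ (by simp))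
  choose Y₀ hY₀ using hly
  choose Z₀ hZ₀ using hlz
  obtain ⟨M', hM'⟩ := hbd (Finset.univ.biUnion fun j : Fin d => (sc a (Φ (e j))).coeffs)
  set b : Compl v := emb v s ^ M' with hb
  have hb0 : b ≠ 0 := pow_ne_zero _ hs0
  have hG : ∀ j : Fin d, ∃ G : MvPolynomial (π ⊕ ι) (PowerSeries k),
      G.map io = C b * sc a (Φ (e j)) := by
    intro j
    have h8 : C b * sc a (Φ (e j)) ∈ Set.range (MvPolynomial.map (σ := π ⊕ ι) io) := by
      rw [mem_range_map_iff_coeffs_subset]
      intro c hc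
      rw [Finset.mem_coe, mem_coeffs_iff] at hc
      obtain ⟨μ, hμ, rfl⟩ := hc
      rw [mem_support_iff, coeff_C_mul] at hμ
      rw [coeff_C_mul]
      refine hio.surj _ (hM' _ ?_)
      rw [Finset.mem_biUnion]
      exact ⟨j, Finset.mem_univ _, coeff_mem_coeffs μ (right_ne_zero_of_mul hμ)⟩
    exact h8
  choose G hG using hG
  have hev : ∀ (p : MvPolynomial (π ⊕ ι) (PowerSeries k)) (x : π ⊕ ι → PowerSeries k),
      io (eval x p) = eval (fun i => io (x i)) (p.map io) := by
    intro p x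
    rw [eval_map]
    exact eval₂_comp_left io (RingHom.id _) x p
  have hiox : ∀ (y : π → Compl v) (z : ι → Compl v) (Y : π → PowerSeries k)
      (Z : ι → PowerSeries k), (∀ i, io (Y i) = a * y i) → (∀ i, io (Z i) = a * z i) →
      (fun i => io (Sum.elim Y Z i)) = fun i => a * Sum.elim y z i := by
    intro y z Y Z h5 h6
    funext i
    cases i with
    | inl i => exact h5 i
    | inr i => exact h6 i
  have hGe : ∀ (j : Fin d) (y : π → Compl v) (z : ι → Compl v) (Y : π → PowerSeries k)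
      (Z : ι → PowerSeries k), (∀ i, io (Y i) = a * y i) → (∀ i, io (Z i) = a * z i) →
      io (eval (Sum.elim Y Z) (G j)) = b * eval (Sum.elim y z) (Φ (e j)) := by
    intro j y z Y Z h5 h6
    rw [hev, hG, hiox y z Y Z h5 h6, map_mul, eval_C, eval_sc ha0]
  have hGd : ∀ (j : Fin d) (i : ι),
      io (eval (Sum.elim Y₀ Z₀) (pderiv (Sum.inr i) (G j))) =
        b * a⁻¹ * eval (Sum.elim y₀ z₀) (pderiv (Sum.inr i) (Φ (e j))) := by
    intro j i
    rw [hev, ← pderiv_map, hG, hiox y₀ z₀ Y₀ Z₀ hY₀ hZ₀, Derivation.leibniz, pderiv_C,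
      smul_zero, add_zero, smul_eq_mul, pderiv_sc, map_mul, map_mul, eval_C, eval_C,
      eval_sc ha0]
    ring
  have hdet : (Matrix.of fun j l : Fin d =>
      eval (Sum.elim Y₀ Z₀) (pderiv (Sum.inr (S l)) (G j))).det ≠ 0 := by
    intro h5
    have h6 := congrArg io h5
    rw [map_zero, RingHom.map_det] at h6
    have h7 : io.mapMatrix (Matrix.of fun j l : Fin d =>
        eval (Sum.elim Y₀ Z₀) (pderiv (Sum.inr (S l)) (G j))) =
        (b * a⁻¹) • (Matrix.of fun (j : Fin d) (i : ι) =>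
          eval (Sum.elim y₀ z₀) (pderiv (Sum.inr i) (Φ (e j)))).submatrix id S := by
      ext j l
      simp only [RingHom.mapMatrix_apply, Matrix.map_apply, Matrix.of_apply, Matrix.smul_apply,
        Matrix.submatrix_apply, id, smul_eq_mul]
      exact hGd j (S l)
    rw [h7, Matrix.det_smul] at h6
    rcases mul_eq_zero.mp h6 with h8 | h8
    · exact pow_ne_zero _ (mul_ne_zero hb0 (inv_ne_zero ha0)) h8
    · exact hS h8
  obtain ⟨N, hN⟩ := exists_pow_le hs.lt_one (c := v s ^ M * θ) (mul_ne_zero hva0 hθ)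
  obtain ⟨P, hP⟩ := series h4 G Y₀ Z₀ S (by
    intro j
    apply hio.inj
    rw [map_zero, hGe j y₀ z₀ Y₀ Z₀ hY₀ hZ₀, hΦ0, mul_zero]) hdet N
  refine ⟨v s ^ P, pow_ne_zero _ hs.ne_zero, ?_⟩
  intro y hy
  have hle : ∀ m : ℕ, v s ^ m ≤ 1 := fun m => pow_le_one₀ zero_le hs.lt_one.le
  have hdiff : ∀ i, vE v (a * y i - a * y₀ i) ≤ v s ^ P := by
    intro i
    rw [← mul_sub, map_mul, hva]
    calc v s ^ M * vE v (y i - y₀ i) ≤ 1 * v s ^ P := mul_le_mul' (hle M) (hy i)
      _ = v s ^ P := one_mul _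
  have hly : ∀ i, ∃ g, io g = a * y i := by
    intro i
    apply hio.surj
    have h8 : a * y i = (a * y i - a * y₀ i) + a * y₀ i := by ring
    rw [h8]
    refine (Valuation.map_add _ _ _).trans (max_le ((hdiff i).trans (hle P)) ?_)
    exact hM _ (by simp)
  choose Y hY using hly
  obtain ⟨Z, hZ1, hZ2⟩ := hP Y (by
    intro i
    rw [← hio.ord, map_sub, hY, hY₀]
    exact hdiff i)
  refine ⟨fun i => a⁻¹ * io (Z i), ?_, ?_⟩
  · intro i
    have h8 : a⁻¹ * io (Z i) - z₀ i = a⁻¹ * io (Z i - Z₀ i) := by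
      rw [map_sub, hZ₀]
      field_simp
    rw [h8, map_mul, map_inv₀, hva]
    have h9 : vE v (io (Z i - Z₀ i)) ≤ v s ^ N := (hio.ord _ _).mpr (hZ1 i)
    calc (v s ^ M)⁻¹ * vE v (io (Z i - Z₀ i)) ≤ (v s ^ M)⁻¹ * (v s ^ M * θ) :=
          mul_le_mul' le_rfl (h9.trans hN)
      _ = θ := by rw [← mul_assoc, inv_mul_cancel₀ hva0, one_mul]
  · intro j
    have h8 := hGe (e.symm j) y (fun i => a⁻¹ * io (Z i)) Y Z hY (fun i => by
      rw [mul_inv_cancel_left₀ ha0])
    rw [hZ2, map_zero, Equiv.apply_symm_apply] at h8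
    rcases mul_eq_zero.mp h8.symm with h9 | h9
    · exact absurd h9 hb0
    · exact h9

end Pool.Agent.FCV
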