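import Pool.Agent.FCV.TargetsL

/-!
# Free curves between the points of a line over a completion
-/

set_option autoImplicit false

open MvPolynomial WithZero
open Pool.Agent.WA Pool.Agent.WL

namespace Pool.Agent.FCV

namespace LOC_

theorem infinite_compl {k K : Type} [Field k] [IsAlgClosed k] [Field K] [Algebra k K]
    (v : Valuation K ℤᵐ⁰) : Infinite (Compl v) := by
  have : Infinite k := IsAlgClosed.instInfinite
  have : Infinite K := Infinite.of_injective _ (algebraMap k K).injective
  exact Infinite.of_injective _ (emb v).injective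

end LOC_

theorem p_LOC (hNPV : T_NPV) (hNPF : T_NPF) (hVFE : T_VFE) (hST2 : T_ST2) : T_LOC := by
  intro k K _ _ _ _ hK v hv n d F hd hn hF hS x y hxy hline
  have : Infinite (Compl v) := LOC_.infinite_compl (k := k) v
  have hNP : NP (Compl v) := hNPV k K hK v hv
  have hall : ∀ (E' : Type) [Field E'] [Algebra (Compl v) E'] [FiniteDimensional (Compl v) E'],
      NP E' := by
    intro E' _ _ _
    exact hNPF (Compl v) E' hNP
  exact hST2 (Compl v) hNP n d F hd hF hS (fun x hx hx0 =>
    hVFE (Compl v) hall n d F hd hn hF hS x hx hx0) x y hxy hline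

end Pool.Agent.FCV
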