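import Pool.Agent.FCV.TargetsL
import Pool.Agent.WL.RANK

/-!
# Surjectivity of the linearisation is an open condition
-/

set_option autoImplicit false

open MvPolynomial

namespace Pool.Agent.FCV

namespace LOP_

section Deg

variable {A : Type} [CommRing A]

theorem dmul {P Q : Polynomial A} {N M K : ℕ} (hP : P.degree < (N : WithBot ℕ))
    (hQ : Q.natDegree ≤ M) (h : N + M ≤ K) : (P * Q).degree < (K : WithBot ℕ) := by
  by_cases h0 : P = 0
  · rw [h0, zero_mul, Polynomial.degree_zero]
    exact WithBot.bot_lt_coe K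
  · have h1 : P.natDegree < N := (Polynomial.natDegree_lt_iff_degree_lt h0).mpr hP
    have h2 : (P * Q).natDegree ≤ P.natDegree + Q.natDegree := Polynomial.natDegree_mul_le
    refine lt_of_le_of_lt Polynomial.degree_le_natDegree ?_
    exact_mod_cast (by omega : (P * Q).natDegree < K)

theorem dmono {P : Polynomial A} {N K : ℕ} (hP : P.degree < (N : WithBot ℕ)) (h : N ≤ K) :
    P.degree < (K : WithBot ℕ) :=
  lt_of_lt_of_le hP (by exact_mod_cast h)

theorem dsum {ι : Type} (s : Finset ι) (f : ι → Polynomial A) (K : ℕ)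
    (h : ∀ i ∈ s, (f i).degree < (K : WithBot ℕ)) : (∑ i ∈ s, f i).degree < (K : WithBot ℕ) := by
  rw [← Polynomial.mem_degreeLT]
  exact Submodule.sum_mem _ fun i hi => Polynomial.mem_degreeLT.mpr (h i hi)

theorem dsub {P Q : Polynomial A} {K : ℕ} (hP : P.degree < (K : WithBot ℕ))
    (hQ : Q.degree < (K : WithBot ℕ)) : (P - Q).degree < (K : WithBot ℕ) := by
  rw [← Polynomial.mem_degreeLT] at *
  exact Submodule.sub_mem _ hP hQ

theorem coeff_ge {P : Polynomial A} {N k : ℕ} (hP : P.degree < (N : WithBot ℕ)) (h : N ≤ k) :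
    P.coeff k = 0 :=
  (Polynomial.degree_lt_iff_coeff_zero P N).mp hP k h

end Deg

section Mat

variable (n d c ρ e s1 : ℕ)

/-- Rows. -/
abbrev Row : Type := Σ i : Fin (d * e), Fin (Ds d c ρ s1 i)

/-- Columns for the vector. -/
abbrev ColU : Type := Fin (n + 1) × Σ j : Fin e, Fin (if (j : ℕ) = 0 then ρ + s1 else ρ + 1)

/-- Columns for the quotient. -/
abbrev ColQ : Type := Σ i : Fin (d * e - 1), Fin (Ds d c ρ s1 i - 1)

variable {n d c ρ e s1}

/-- The columns. -/
noncomputable def colP {E : Type} [Field E] (F : MvPolynomial (Fin (n + 1)) E)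
    (m : Polynomial E) (B : Type) [CommRing B] [Algebra E B] (θ : B)
    (g : Fin (n + 1) → Polynomial (Polynomial B)) :
    ColU n ρ e s1 ⊕ ColQ d c ρ e s1 → Polynomial (Polynomial B)
  | Sum.inl p => Polynomial.monomial (p.2.1 : ℕ) (Polynomial.monomial (p.2.2 : ℕ) (1 : B)) *
      onC (pderiv p.1 ((F.map (algebraMap E B)).map Polynomial.C)) g
  | Sum.inr p => -((Polynomial.C (m.map (algebraMap E B)) * Polynomial.X -
      Polynomial.C (Polynomial.C θ)) *
      Polynomial.monomial (p.1 : ℕ) (Polynomial.monomial (p.2 : ℕ) (1 : B)))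

theorem colP_map {E : Type} [Field E] (F : MvPolynomial (Fin (n + 1)) E)
    (m : Polynomial E) (B B' : Type) [CommRing B] [CommRing B'] [Algebra E B] [Algebra E B']
    (φ : B →ₐ[E] B') (θ : B) (g : Fin (n + 1) → Polynomial (Polynomial B))
    (p : ColU n ρ e s1 ⊕ ColQ d c ρ e s1) :
    colP F m B' (φ θ) (fun i => (g i).map (Polynomial.mapRingHom φ.toRingHom)) p =
      (colP F m B θ g p).map (Polynomial.mapRingHom φ.toRingHom) := by
  have hφ : φ.toRingHom.comp (algebraMap E B) = algebraMap E B' := by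
    ext x; exact φ.commutes x
  have hθ : φ θ = φ.toRingHom θ := rfl
  rw [hθ]
  generalize hψ : φ.toRingHom = ψ at hφ ⊢
  have h1 : ψ 1 = 1 := ψ.map_one
  cases p with
  | inl p =>
    simp only [colP]
    rw [Polynomial.map_mul, Polynomial.map_monomial, Polynomial.coe_mapRingHom,
      Polynomial.map_monomial, h1]
    congr 1
    have h2 : ((F.map (algebraMap E B)).map Polynomial.C).map (Polynomial.mapRingHom ψ) =
        (F.map (algebraMap E B')).map Polynomial.C := by
      rw [MvPolynomial.map_map, MvPolynomial.map_map, MvPolynomial.map_map, ← hφ]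
      have h3 : ((Polynomial.mapRingHom ψ).comp Polynomial.C).comp (algebraMap E B) =
          Polynomial.C.comp (ψ.comp (algebraMap E B)) := RingHom.ext fun x => by
        simp only [RingHom.comp_apply, Polynomial.coe_mapRingHom, Polynomial.map_C]
      rw [h3]
    rw [← h2, pderiv_map, onC_map]
  | inr p =>
    simp only [colP, Polynomial.map_neg, Polynomial.map_mul, Polynomial.map_monomial,
      Polynomial.map_sub, Polynomial.map_X, Polynomial.map_C, Polynomial.coe_mapRingHom,
      Polynomial.map_map, hφ, h1]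

/-- The matrix. -/
noncomputable def mat {E : Type} [Field E] (F : MvPolynomial (Fin (n + 1)) E)
    (m : Polynomial E) (B : Type) [CommRing B] [Algebra E B] (θ : B)
    (g : Fin (n + 1) → Polynomial (Polynomial B)) :
    Matrix (Row d c ρ e s1) (ColU n ρ e s1 ⊕ ColQ d c ρ e s1) B :=
  fun r p => ((colP F m B θ g p).coeff r.1).coeff r.2

theorem mat_map {E : Type} [Field E] (F : MvPolynomial (Fin (n + 1)) E)
    (m : Polynomial E) (B B' : Type) [CommRing B] [CommRing B'] [Algebra E B] [Algebra E B']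
    (φ : B →ₐ[E] B') (θ : B) (g : Fin (n + 1) → Polynomial (Polynomial B)) :
    mat (d := d) (c := c) (ρ := ρ) (e := e) (s1 := s1) F m B' (φ θ)
      (fun i => (g i).map (Polynomial.mapRingHom φ.toRingHom)) =
      (mat F m B θ g).map φ.toRingHom := by
  ext r p
  simp only [mat, Matrix.map_apply]
  rw [colP_map, Polynomial.coeff_map, Polynomial.coe_mapRingHom, Polynomial.coeff_map]

variable {E : Type} [Field E]

/-- The vector with given coefficients. -/
noncomputable def uOf (x : ColU n ρ e s1 ⊕ ColQ d c ρ e s1 → E) (i : Fin (n + 1)) :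
    Polynomial (Polynomial E) :=
  ∑ q : (Σ j : Fin e, Fin (if (j : ℕ) = 0 then ρ + s1 else ρ + 1)),
    Polynomial.monomial (q.1 : ℕ) (Polynomial.monomial (q.2 : ℕ) (x (Sum.inl (i, q))))

/-- The quotient with given coefficients. -/
noncomputable def QOf (x : ColU n ρ e s1 ⊕ ColQ d c ρ e s1 → E) :
    Polynomial (Polynomial E) :=
  ∑ q : ColQ d c ρ e s1,
    Polynomial.monomial (q.1 : ℕ) (Polynomial.monomial (q.2 : ℕ) (x (Sum.inr q)))

theorem coeff_sum {k : ℕ} (N : ℕ → ℕ) (y : (Σ j : Fin k, Fin (N j)) → E) (a b : ℕ) :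
    ((∑ q : (Σ j : Fin k, Fin (N j)), Polynomial.monomial (q.1 : ℕ)
      (Polynomial.monomial (q.2 : ℕ) (y q))).coeff a).coeff b =
      if h : a < k then (if h' : b < N a then y ⟨⟨a, h⟩, ⟨b, h'⟩⟩ else 0) else 0 := by
  classical
  rw [Polynomial.finsetSum_coeff, Polynomial.finsetSum_coeff]
  by_cases h : a < k
  · rw [dif_pos h]
    by_cases h' : b < N a
    · rw [dif_pos h', Finset.sum_eq_single (⟨⟨a, h⟩, ⟨b, h'⟩⟩ : Σ j : Fin k, Fin (N j))]
      · rw [Polynomial.coeff_monomial, if_pos rfl, Polynomial.coeff_monomial, if_pos rfl]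
      · rintro ⟨⟨j, hj⟩, ⟨t, ht⟩⟩ _ hne
        rw [Polynomial.coeff_monomial]
        by_cases hja : j = a
        · subst hja
          rw [if_pos rfl, Polynomial.coeff_monomial, if_neg]
          intro htb
          apply hne
          simp only at htb
          subst htb
          rfl
        · rw [if_neg hja, Polynomial.coeff_zero]
      · intro h1; exact absurd (Finset.mem_univ _) h1
    · rw [dif_neg h']
      refine Finset.sum_eq_zero ?_
      rintro ⟨⟨j, hj⟩, ⟨t, ht⟩⟩ _
      rw [Polynomial.coeff_monomial]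
      by_cases hja : j = a
      · subst hja
        rw [if_pos rfl, Polynomial.coeff_monomial, if_neg]
        intro htb
        have ht' : t < N j := ht
        simp only at htb
        omega
      · rw [if_neg hja, Polynomial.coeff_zero]
  · rw [dif_neg h]
    refine Finset.sum_eq_zero ?_
    rintro ⟨⟨j, hj⟩, ⟨t, ht⟩⟩ _
    rw [Polynomial.coeff_monomial, if_neg, Polynomial.coeff_zero]
    simp only
    omega

theorem sum_bounds {k : ℕ} (N : ℕ → ℕ) (y : (Σ j : Fin k, Fin (N j)) → E) :
    (∑ q : (Σ j : Fin k, Fin (N j)), Polynomial.monomial (q.1 : ℕ)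
      (Polynomial.monomial (q.2 : ℕ) (y q))).degree < (k : WithBot ℕ) ∧
    ∀ a, ((∑ q : (Σ j : Fin k, Fin (N j)), Polynomial.monomial (q.1 : ℕ)
      (Polynomial.monomial (q.2 : ℕ) (y q))).coeff a).degree < (N a : WithBot ℕ) := by
  constructor
  · rw [Polynomial.degree_lt_iff_coeff_zero]
    intro a ha
    ext b
    rw [coeff_sum, dif_neg (by omega), Polynomial.coeff_zero]
  · intro a
    rw [Polynomial.degree_lt_iff_coeff_zero]
    intro b hb
    rw [coeff_sum]
    split_ifs with h h'
    · omega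
    · rfl
    · rfl

theorem sum_eq {k : ℕ} (N : ℕ → ℕ) (P : Polynomial (Polynomial E))
    (h1 : P.degree < (k : WithBot ℕ))
    (h2 : ∀ a, a < k → (P.coeff a).degree < (N a : WithBot ℕ)) :
    (∑ q : (Σ j : Fin k, Fin (N j)), Polynomial.monomial (q.1 : ℕ)
      (Polynomial.monomial (q.2 : ℕ) ((P.coeff q.1).coeff q.2))) = P := by
  ext a b
  rw [coeff_sum]
  split_ifs with h h'
  · rfl
  · rw [coeff_ge (h2 a h) (by omega)]
  · rw [coeff_ge h1 (by omega), Polynomial.coeff_zero]

theorem lin (F : MvPolynomial (Fin (n + 1)) E) (m : Polynomial E) (θ : E)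
    (g : Fin (n + 1) → Polynomial (Polynomial E)) (x : ColU n ρ e s1 ⊕ ColQ d c ρ e s1 → E) :
    ∑ i, uOf x i * onC (pderiv i (F.map Polynomial.C)) g -
      (Polynomial.C m * Polynomial.X - Polynomial.C (Polynomial.C θ)) * QOf x =
      ∑ p, Polynomial.C (Polynomial.C (x p)) * colP F m E θ g p := by
  have hmap : F.map (algebraMap E E) = F := by
    rw [Algebra.algebraMap_self, MvPolynomial.map_id]
  have hm : m.map (algebraMap E E) = m := by
    rw [Algebra.algebraMap_self, Polynomial.map_id]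
  rw [Fintype.sum_sum_type, Fintype.sum_prod_type]
  have e1 : ∀ (a b : ℕ) (y : E), (Polynomial.monomial a (Polynomial.monomial b y) :
      Polynomial (Polynomial E)) = Polynomial.C (Polynomial.C y) *
      Polynomial.monomial a (Polynomial.monomial b 1) := by
    intro a b y
    rw [Polynomial.C_mul_monomial, Polynomial.C_mul_monomial, mul_one]
  rw [sub_eq_add_neg]
  congr 1
  · refine Finset.sum_congr rfl fun i _ => ?_
    rw [uOf, Finset.sum_mul]
    refine Finset.sum_congr rfl fun q _ => ?_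
    rw [e1]
    simp only [colP, hmap]
    ring
  · rw [QOf, Finset.mul_sum, ← Finset.sum_neg_distrib]
    refine Finset.sum_congr rfl fun q _ => ?_
    rw [e1]
    simp only [colP, hm]
    ring

theorem lin_coeff (F : MvPolynomial (Fin (n + 1)) E) (m : Polynomial E) (θ : E)
    (g : Fin (n + 1) → Polynomial (Polynomial E)) (x : ColU n ρ e s1 ⊕ ColQ d c ρ e s1 → E)
    (r : Row d c ρ e s1) :
    ((∑ i, uOf x i * onC (pderiv i (F.map Polynomial.C)) g -
      (Polynomial.C m * Polynomial.X - Polynomial.C (Polynomial.C θ)) * QOf x).coeff r.1).coeff r.2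
      = (mat F m E θ g).mulVec x r := by
  rw [lin, Polynomial.finsetSum_coeff, Polynomial.finsetSum_coeff]
  simp only [Matrix.mulVec, dotProduct]
  refine Finset.sum_congr rfl fun p _ => ?_
  rw [Polynomial.coeff_C_mul, Polynomial.coeff_C_mul, mul_comm]
  rfl

theorem grad_bd (h1 : T_BDM) (F : MvPolynomial (Fin (n + 1)) E) (hF : F.IsHomogeneous d)
    (g : Fin (n + 1) → Polynomial (Polynomial E)) (hg : ∀ i, BD (g i) e c ρ) (i : Fin (n + 1)) :
    BD (onC (pderiv i (F.map Polynomial.C)) g) ((d - 1) * e) ((d - 1) * c) ρ := by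
  refine h1 (Fin (n + 1)) E (pderiv i (F.map Polynomial.C)) (d - 1) ?_ ?_ g e c ρ hg
  · intro μ
    rw [pderiv_map, coeff_map, Polynomial.natDegree_C]
  · exact (IsHomogeneous.map hF _).pderiv

theorem bounds (h1 : T_BDM) (hd : 1 ≤ d) (he : 1 ≤ e) (F : MvPolynomial (Fin (n + 1)) E)
    (hF : F.IsHomogeneous d) (m : Polynomial E) (hm : m.natDegree ≤ ρ + 1)
    (hs : s1 = 1 ∨ (s1 = 0 ∧ 1 ≤ ρ)) (θ : E)
    (g : Fin (n + 1) → Polynomial (Polynomial E)) (hg : ∀ i, BD (g i) e c ρ)
    (u : Fin (n + 1) → Polynomial (Polynomial E)) (Q : Polynomial (Polynomial E))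
    (hu : ∀ i, (u i).degree < (e : WithBot ℕ))
    (hu0 : ∀ i, ((u i).coeff 0).degree < ((ρ + s1 : ℕ) : WithBot ℕ))
    (hu1 : ∀ i j, 1 ≤ j → ((u i).coeff j).degree < ((ρ + 1 : ℕ) : WithBot ℕ))
    (hQ : Q.degree < ((d * e - 1 : ℕ) : WithBot ℕ))
    (hQi : ∀ i, (Q.coeff i).degree < ((Ds d c ρ s1 i - 1 : ℕ) : WithBot ℕ)) :
    (∑ i, u i * onC (pderiv i (F.map Polynomial.C)) g -
      (Polynomial.C m * Polynomial.X - Polynomial.C (Polynomial.C θ)) * Q).degree <
        ((d * e : ℕ) : WithBot ℕ) ∧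
    ∀ a, ((∑ i, u i * onC (pderiv i (F.map Polynomial.C)) g -
      (Polynomial.C m * Polynomial.X - Polynomial.C (Polynomial.C θ)) * Q).coeff a).degree <
        ((Ds d c ρ s1 a : ℕ) : WithBot ℕ) := by
  have hG := grad_bd h1 F hF g hg
  have hde : e + (d - 1) * e = d * e := by
    obtain ⟨k, rfl⟩ : ∃ k, d = k + 1 := ⟨d - 1, by omega⟩
    simp only [Nat.add_sub_cancel]
    ring
  have hde1 : 1 ≤ d * e := Nat.mul_pos hd he
  constructor
  · refine dsub (dsum _ _ _ fun i _ => dmul (hu i) (hG i).1 hde.le) ?_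
    rw [mul_comm]
    refine dmul hQ (M := 1) ?_ (by omega)
    refine (Polynomial.natDegree_sub_le _ _).trans ?_
    rw [Polynomial.natDegree_C]
    have h2 : (Polynomial.C m * Polynomial.X : Polynomial (Polynomial E)).natDegree ≤ 0 + 1 := by
      refine Polynomial.natDegree_mul_le.trans (add_le_add ?_ Polynomial.natDegree_X_le)
      rw [Polynomial.natDegree_C]
    omega
  · intro a
    rw [Polynomial.coeff_sub, Polynomial.finsetSum_coeff]
    refine dsub (dsum _ _ _ fun i _ => ?_) ?_
    · rw [Polynomial.coeff_mul]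
      refine dsum _ _ _ fun q hq => ?_
      have hq : q.1 + q.2 = a := Finset.HasAntidiagonal.mem_antidiagonal.mp hq
      obtain ⟨j, k⟩ := q
      simp only at hq ⊢
      have hk := (hG i).2 k
      rcases Nat.eq_zero_or_pos j with hj | hj
      · subst hj
        refine dmul (hu0 i) hk ?_
        have : k = a := by omega
        subst this
        unfold Ds
        have : (k + 1) * ρ = k * ρ + ρ := by ring
        omega
      · refine dmul (hu1 i j hj) hk ?_
        unfold Ds
        have h2 : (a + 1) * ρ = k * ρ + j * ρ + ρ := by rw [← hq]; ring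
        have h3 : ρ ≤ j * ρ := Nat.le_mul_of_pos_left _ hj
        omega
    · rw [sub_mul, Polynomial.coeff_sub]
      refine dsub ?_ ?_
      · rcases Nat.eq_zero_or_pos a with ha | ha
        · subst ha
          rw [mul_assoc, Polynomial.coeff_C_mul, Polynomial.coeff_X_mul_zero, mul_zero,
            Polynomial.degree_zero]
          exact WithBot.bot_lt_coe _
        · obtain ⟨b, rfl⟩ : ∃ b, a = b + 1 := ⟨a - 1, by omega⟩
          rw [mul_assoc, Polynomial.coeff_C_mul, Polynomial.coeff_X_mul, mul_comm]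
          rcases Nat.eq_zero_or_pos (Ds d c ρ s1 b) with h0 | h0
          · have h4 := hQi b
            rw [h0] at h4
            have h5 : Q.coeff b = 0 := by
              ext t
              exact coeff_ge h4 (Nat.zero_le _)
            rw [h5, zero_mul, Polynomial.degree_zero]
            exact WithBot.bot_lt_coe _
          · refine dmul (hQi b) hm ?_
            have : Ds d c ρ s1 (b + 1) = Ds d c ρ s1 b + ρ := by
              unfold Ds; ring
            omega
      · rw [Polynomial.coeff_C_mul, mul_comm]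
        refine dmul (hQi a) (M := 0) ?_ (by omega)
        rw [Polynomial.natDegree_C]

theorem ext_coeff {P H : Polynomial (Polynomial E)} {k : ℕ} {N : ℕ → ℕ}
    (hP : P.degree < (k : WithBot ℕ)) (hPa : ∀ a, (P.coeff a).degree < (N a : WithBot ℕ))
    (hH : H.degree < (k : WithBot ℕ)) (hHa : ∀ a, (H.coeff a).degree < (N a : WithBot ℕ))
    (h : ∀ a b, a < k → b < N a → (P.coeff a).coeff b = (H.coeff a).coeff b) : P = H := by
  ext a b
  by_cases ha : a < k
  · by_cases hb : b < N a
    · exact h a b ha hb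
    · rw [coeff_ge (hPa a) (by omega), coeff_ge (hHa a) (by omega)]
  · rw [coeff_ge hP (by omega), coeff_ge hH (by omega)]

theorem key (h1 : T_BDM) (hd : 1 ≤ d) (he : 1 ≤ e) (F : MvPolynomial (Fin (n + 1)) E)
    (hF : F.IsHomogeneous d) (m : Polynomial E) (hm : m.natDegree ≤ ρ + 1)
    (hs : s1 = 1 ∨ (s1 = 0 ∧ 1 ≤ ρ)) (θ : E)
    (g : Fin (n + 1) → Polynomial (Polynomial E)) (hg : ∀ i, BD (g i) e c ρ) :
    LSur F d c ρ e s1 m θ g ↔ ∀ v : Row d c ρ e s1 → E, ∃ x,
      (mat F m E θ g).mulVec x = v := by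
  set NU : ℕ → ℕ := fun j => if j = 0 then ρ + s1 else ρ + 1 with hNU
  set NQ : ℕ → ℕ := fun i => Ds d c ρ s1 i - 1 with hNQ
  set NR : ℕ → ℕ := fun i => Ds d c ρ s1 i with hNR
  have ub : ∀ (x : ColU n ρ e s1 ⊕ ColQ d c ρ e s1 → E) i,
      (uOf x i).degree < (e : WithBot ℕ) ∧
      ∀ a, ((uOf x i).coeff a).degree < (NU a : WithBot ℕ) := fun x i =>
    sum_bounds NU fun q => x (Sum.inl (i, q))
  have qb : ∀ (x : ColU n ρ e s1 ⊕ ColQ d c ρ e s1 → E),
      (QOf x).degree < ((d * e - 1 : ℕ) : WithBot ℕ) ∧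
      ∀ a, ((QOf x).coeff a).degree < (NQ a : WithBot ℕ) := fun x =>
    sum_bounds NQ fun q => x (Sum.inr q)
  have ub1 : ∀ (x : ColU n ρ e s1 ⊕ ColQ d c ρ e s1 → E) i j, 1 ≤ j →
      ((uOf x i).coeff j).degree < ((ρ + 1 : ℕ) : WithBot ℕ) := by
    intro x i j hj
    have := (ub x i).2 j
    simp only [hNU] at this
    rwa [if_neg (by omega)] at this
  have ub0 : ∀ (x : ColU n ρ e s1 ⊕ ColQ d c ρ e s1 → E) i,
      ((uOf x i).coeff 0).degree < ((ρ + s1 : ℕ) : WithBot ℕ) := by
    intro x i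
    exact (ub x i).2 0
  constructor
  · intro hL v
    set H : Polynomial (Polynomial E) := ∑ q : (Σ j : Fin (d * e), Fin (NR j)),
      Polynomial.monomial (q.1 : ℕ) (Polynomial.monomial (q.2 : ℕ) (v q)) with hH
    have hHb := sum_bounds NR v
    obtain ⟨u, Q, hu, hu0, hu1, hQ, hQi, hEq⟩ := hL H hHb.1 hHb.2
    let x : ColU n ρ e s1 ⊕ ColQ d c ρ e s1 → E := Sum.elim
      (fun p => ((u p.1).coeff (p.2.1 : ℕ)).coeff (p.2.2 : ℕ))
      (fun p => (Q.coeff (p.1 : ℕ)).coeff (p.2 : ℕ))
    have hx : ∀ i, uOf x i = u i := by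
      intro i
      refine sum_eq NU (u i) (hu i) fun a _ => ?_
      simp only [hNU]
      split_ifs with h0
      · rw [h0]; exact hu0 i
      · exact hu1 i a (by omega)
    have hxQ : QOf x = Q := sum_eq NQ Q hQ fun a _ => hQi a
    refine ⟨x, ?_⟩
    funext r
    rw [← lin_coeff, hxQ]
    simp only [hx]
    rw [hEq, hH]
    obtain ⟨⟨a, ha⟩, ⟨b, hb⟩⟩ := r
    rw [coeff_sum NR v a b, dif_pos ha, dif_pos hb]
  · intro hM H hH hHa
    obtain ⟨x, hx⟩ := hM fun r => (H.coeff r.1).coeff r.2
    refine ⟨uOf x, QOf x, fun i => (ub x i).1, ub0 x, ub1 x, (qb x).1, (qb x).2, ?_⟩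
    have hb := bounds h1 hd he F hF m hm hs θ g hg (uOf x) (QOf x) (fun i => (ub x i).1) (ub0 x)
      (ub1 x) (qb x).1 (qb x).2
    refine ext_coeff (N := NR) hb.1 hb.2 hH hHa fun a b ha hb' => ?_
    have h3 := lin_coeff F m θ g x (⟨⟨a, ha⟩, ⟨b, hb'⟩⟩ : Row d c ρ e s1)
    rw [hx] at h3
    exact h3

end Mat

end LOP_

open LOP_ in
theorem p_LOP (h1 : T_BDM) : T_LOP := by
  classical
  intro E _ n d c ρ e s1 F m θ₀ g₀ hd he hF hm hs hg₀ hL
  have hk := (key h1 hd he F hF m hm hs θ₀ g₀ hg₀).mp hL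
  let N := Fintype.card (Row d c ρ e s1)
  let eq : Row d c ρ e s1 ≃ Fin N := Fintype.equivFin _
  have tr : ∀ A : Matrix (Row d c ρ e s1) (ColU n ρ e s1 ⊕ ColQ d c ρ e s1) E,
      (∀ v : Row d c ρ e s1 → E, ∃ x, A.mulVec x = v) ↔
      ∀ v : Fin N → E, ∃ x, (A.submatrix eq.symm id).mulVec x = v := by
    intro A
    constructor
    · intro h v
      obtain ⟨x, hx⟩ := h fun r => v (eq r)
      refine ⟨x, ?_⟩
      funext k
      have := congrFun hx (eq.symm k)
      simp only [Equiv.apply_symm_apply] at this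
      rw [← this]
      rfl
    · intro h v
      obtain ⟨x, hx⟩ := h fun k => v (eq.symm k)
      refine ⟨x, ?_⟩
      funext r
      have := congrFun hx (eq r)
      simp only [Equiv.symm_apply_apply] at this
      rw [← this]
      simp only [Matrix.mulVec, dotProduct, Matrix.submatrix_apply, Equiv.symm_apply_apply, id]
  obtain ⟨S, hS⟩ := (WL.RANK_.minors N ((mat F m E θ₀ g₀).submatrix eq.symm id)).mpr
    ((tr _).mp hk)
  refine ⟨fun B _ _ θ g => (((mat F m B θ g).submatrix eq.symm id).submatrix id S).det, ?_, hS,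
    ?_⟩
  · intro B B' _ _ _ _ φ θ g
    simp only
    rw [mat_map]
    have : (((mat F m B θ g).map φ.toRingHom).submatrix eq.symm id).submatrix id S =
        (((mat F m B θ g).submatrix eq.symm id).submatrix id S).map φ.toRingHom := rfl
    rw [this]
    exact (RingHom.map_det φ.toRingHom _).symm
  · intro θ g hg hD
    rw [key h1 hd he F hF m hm hs θ g hg, tr]
    exact (WL.RANK_.minors N ((mat F m E θ g).submatrix eq.symm id)).mp ⟨S, hD⟩

end Pool.Agent.FCV
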