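import Pool.Agent.FCV.TargetsL

/-!
# FCV-LS: surjectivity for combs
-/

set_option autoImplicit false

open MvPolynomial

namespace Pool.Agent.FCV

theorem LS_dmul {A : Type} [CommRing A] {P Q : Polynomial A} {a b : ℕ}
    (hP : P.degree < (a : WithBot ℕ)) (hQ : Q.natDegree ≤ b) :
    (P * Q).degree < ((a + b : ℕ) : WithBot ℕ) := by
  by_cases h0 : P = 0
  · rw [h0, zero_mul, Polynomial.degree_zero]
    exact WithBot.bot_lt_coe _
  · have h1 := (Polynomial.natDegree_lt_iff_degree_lt h0).2 hP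
    refine lt_of_le_of_lt Polynomial.degree_le_natDegree ?_
    have h2 := Polynomial.natDegree_mul_le (p := P) (q := Q)
    exact_mod_cast (by omega : (P * Q).natDegree < a + b)

theorem LS_cmul {A : Type} [CommRing A] {P Q : Polynomial (Polynomial A)} {a b ρ : ℕ}
    (hP : ∀ j, (P.coeff j).degree < (a : WithBot ℕ))
    (hQ : ∀ k, (Q.coeff k).natDegree ≤ b + k * ρ) (i : ℕ) :
    ((P * Q).coeff i).degree < ((a + b + i * ρ : ℕ) : WithBot ℕ) := by
  rw [Polynomial.coeff_mul, ← Polynomial.mem_degreeLT]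
  refine Submodule.sum_mem _ fun x hx => ?_
  rw [Finset.HasAntidiagonal.mem_antidiagonal] at hx
  rw [Polynomial.mem_degreeLT]
  refine (LS_dmul (hP x.1) (hQ x.2)).trans_le ?_
  have h3 : x.2 * ρ ≤ i * ρ := Nat.mul_le_mul_right _ (by omega)
  exact_mod_cast (by omega : a + (b + x.2 * ρ) ≤ a + b + i * ρ)

theorem LS_c0 {σ E : Type} [CommRing E] (F : MvPolynomial σ E)
    (g : σ → Polynomial (Polynomial E)) :
    (onC (F.map Polynomial.C) g).coeff 0 = onC F (fun i => (g i).coeff 0) := by
  change Polynomial.constantCoeff (onC (F.map Polynomial.C) g) = _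
  unfold onC
  rw [eval₂_map]
  refine (MvPolynomial.hom_eval₂ _ _ _ _).trans ?_
  have h1 : (Polynomial.constantCoeff : Polynomial (Polynomial E) →+* Polynomial E).comp
      ((Polynomial.C : Polynomial E →+* Polynomial (Polynomial E)).comp
        (Polynomial.C : E →+* Polynomial E)) = Polynomial.C := by
    ext a
    simp
  rw [h1]
  rfl

/-- reduction of the coefficients -/
theorem LS_red {E : Type} [Field E] (m : Polynomial E) (hm : m.Monic)
    (P : Polynomial (Polynomial E)) (N : ℕ) (hP : P.degree < (N : WithBot ℕ)) :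
    ∃ P' R : Polynomial (Polynomial E), P'.degree < (N : WithBot ℕ) ∧
      (∀ j, (P'.coeff j).degree < m.degree) ∧ P = P' + Polynomial.C m * R := by
  have hco : ∀ (a : ℕ → Polynomial E) (k : ℕ),
      (∑ j ∈ Finset.range N, Polynomial.C (a j) * Polynomial.X ^ j).coeff k =
        if k < N then a k else 0 := by
    intro a k
    rw [Polynomial.finsetSum_coeff]
    simp only [Polynomial.coeff_C_mul_X_pow]
    rw [Finset.sum_ite_eq]
    simp only [Finset.mem_range]
  refine ⟨∑ j ∈ Finset.range N, Polynomial.C (P.coeff j %ₘ m) * Polynomial.X ^ j,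
    ∑ j ∈ Finset.range N, Polynomial.C (P.coeff j /ₘ m) * Polynomial.X ^ j, ?_, ?_, ?_⟩
  · rw [Polynomial.degree_lt_iff_coeff_zero]
    intro k hk
    rw [hco, if_neg (by omega)]
  · intro j
    rw [hco]
    split_ifs
    · exact Polynomial.degree_modByMonic_lt _ hm
    · rw [Polynomial.degree_zero]
      exact bot_lt_iff_ne_bot.2 fun h => hm.ne_zero (Polynomial.degree_eq_bot.1 h)
  · refine Polynomial.ext fun k => ?_
    rw [Polynomial.coeff_add, Polynomial.coeff_C_mul, hco, hco]
    split_ifs with hk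
    · exact (Polynomial.modByMonic_add_div (P.coeff k) m).symm
    · rw [mul_zero, add_zero]
      exact (Polynomial.degree_lt_iff_coeff_zero _ _).1 hP k (by omega)

theorem p_LS (hB : T_BDM) : T_LS := by
  intro E _ n d c ρ e s1 F m g hd he hF hm hmd hs hg hg0 hgj hSur hT H hH hHi
  obtain ⟨d, rfl⟩ : ∃ d', d = d' + 1 := ⟨d - 1, by omega⟩
  obtain ⟨e, rfl⟩ : ∃ e', e = e' + 1 := ⟨e - 1, by omega⟩
  simp only [Nat.add_sub_cancel] at hSur hT
  obtain ⟨D, hD⟩ : ∃ D : Fin (n + 1) → Polynomial (Polynomial E),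
      D = fun i => onC (pderiv i (F.map Polynomial.C)) g := ⟨_, rfl⟩
  have hDi : ∀ i, onC (pderiv i (F.map Polynomial.C)) g = D i := fun i => by rw [hD]
  have hBD : ∀ i, BD (D i) (d * (e + 1)) (d * c) ρ := by
    intro i
    rw [← hDi]
    refine hB (Fin (n + 1)) E (pderiv i (F.map Polynomial.C)) d ?_ ?_ g (e + 1) c ρ ?_
    · intro μ
      rw [pderiv_map, coeff_map]
      exact (Polynomial.natDegree_C _).le
    · have h1 := (hF.map (f := Polynomial.C)).pderiv (i := i)
      simpa using h1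
    · intro i
      refine ⟨hg i, fun j => ?_⟩
      rcases Nat.eq_zero_or_pos j with rfl | hj
      · simpa using hg0 i
      · refine (hgj i j hj).trans ?_
        have := Nat.mul_le_mul_right ρ hj
        omega
  have hD0 : ∀ i, (D i).coeff 0 = onC (pderiv i F) (fun i => (g i).coeff 0) := by
    intro i
    rw [← hDi, pderiv_map]
    exact LS_c0 _ _
  obtain ⟨u0, hu0, hu0'⟩ := hSur (H.coeff 0) (by
    have := hHi 0
    simpa [Ds] using this)
  obtain ⟨H', hH'⟩ : Polynomial.X ∣ H - ∑ i, Polynomial.C (u0 i) * D i := by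
    rw [Polynomial.X_dvd_iff, Polynomial.coeff_sub, Polynomial.finsetSum_coeff, ← hu0',
      sub_eq_zero]
    refine Finset.sum_congr rfl fun i _ => ?_
    rw [Polynomial.coeff_C_mul, hD0]
  -- bounds for the remainder
  have hH'd : H'.degree < (((d + 1) * (e + 1) - 1 : ℕ) : WithBot ℕ) := by
    rw [Polynomial.degree_lt_iff_coeff_zero]
    intro k hk
    have h1 : (Polynomial.X * H').coeff (k + 1) = H'.coeff k := Polynomial.coeff_X_mul _ _
    rw [← h1, ← hH', Polynomial.coeff_sub, Polynomial.finsetSum_coeff]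
    have h2 : (d + 1) * (e + 1) = d * (e + 1) + (e + 1) := by ring
    rw [(Polynomial.degree_lt_iff_coeff_zero _ _).1 hH (k + 1) (by omega), zero_sub, neg_eq_zero]
    refine Finset.sum_eq_zero fun i _ => ?_
    rw [Polynomial.coeff_C_mul, Polynomial.coeff_eq_zero_of_natDegree_lt, mul_zero]
    have h3 := (hBD i).1
    omega
  have hH'c : ∀ i, (H'.coeff i).degree < ((Ds (d + 1) c ρ s1 (i + 1) : ℕ) : WithBot ℕ) := by
    intro k
    have h1 : (Polynomial.X * H').coeff (k + 1) = H'.coeff k := Polynomial.coeff_X_mul _ _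
    rw [← h1, ← hH', Polynomial.coeff_sub, Polynomial.finsetSum_coeff,
      ← Polynomial.mem_degreeLT]
    refine Submodule.sub_mem _ (Polynomial.mem_degreeLT.2 (hHi (k + 1)))
      (Submodule.sum_mem _ fun i _ => ?_)
    rw [Polynomial.coeff_C_mul, Polynomial.mem_degreeLT]
    refine (LS_dmul (hu0 i) ((hBD i).2 (k + 1))).trans_le ?_
    have h4 : ρ + s1 + (d * c + (k + 1) * ρ) ≤ Ds (d + 1) c ρ s1 (k + 1) := by
      unfold Ds
      rw [Nat.add_sub_cancel]
      have : (k + 1 + 1) * ρ = (k + 1) * ρ + ρ := by ring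
      omega
    exact_mod_cast h4
  obtain ⟨u1, hu1, hu1'⟩ := hT H' hH'd
  choose u2 R hu2 hu2c hu2e using fun i => LS_red m hm (u1 i) e (hu1 i)
  have hmdeg : m.degree = ((ρ + 1 : ℕ) : WithBot ℕ) := by
    rw [Polynomial.degree_eq_natDegree hm.ne_zero, hmd]
  obtain ⟨Q, hQ⟩ : Polynomial.C m ∣ ∑ i, u2 i * D i - H' := by
    have h5 : ∑ i, u2 i * D i - H' = (∑ i, u1 i * D i - H') -
        Polynomial.C m * ∑ i, R i * D i := by
      rw [Finset.mul_sum, sub_right_comm, ← Finset.sum_sub_distrib]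
      congr 1
      refine Finset.sum_congr rfl fun i _ => ?_
      rw [hu2e i]
      ring
    rw [h5]
    refine dvd_sub ?_ (dvd_mul_right _ _)
    simpa only [hDi] using hu1'
  have hCm0 : (Polynomial.C m : Polynomial (Polynomial E)) ≠ 0 :=
    Polynomial.C_ne_zero.2 hm.ne_zero
  refine ⟨fun i => Polynomial.C (u0 i) + Polynomial.X * u2 i, Q, ?_, ?_, ?_, ?_, ?_, ?_⟩
  · intro i
    rw [Polynomial.degree_lt_iff_coeff_zero]
    intro k hk
    obtain ⟨k, rfl⟩ : ∃ k', k = k' + 1 := ⟨k - 1, by omega⟩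
    rw [Polynomial.coeff_add, Polynomial.coeff_X_mul, Polynomial.coeff_C_succ, zero_add]
    exact (Polynomial.degree_lt_iff_coeff_zero _ _).1 (hu2 i) k (by omega)
  · intro i
    rw [Polynomial.coeff_add, Polynomial.coeff_C_zero, Polynomial.coeff_X_mul_zero, add_zero]
    exact hu0 i
  · intro i j hj
    obtain ⟨k, rfl⟩ : ∃ k', j = k' + 1 := ⟨j - 1, by omega⟩
    rw [Polynomial.coeff_add, Polynomial.coeff_X_mul, Polynomial.coeff_C_succ, zero_add, ← hmdeg]
    exact hu2c i k
  · have h6 : (Polynomial.C m * Q).degree < (((d + 1) * (e + 1) - 1 : ℕ) : WithBot ℕ) := by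
      rw [← hQ, ← Polynomial.mem_degreeLT]
      refine Submodule.sub_mem _ (Submodule.sum_mem _ fun i _ => ?_)
        (Polynomial.mem_degreeLT.2 hH'd)
      rw [Polynomial.mem_degreeLT]
      refine (LS_dmul (hu2 i) (hBD i).1).trans_le ?_
      have h7 : e + d * (e + 1) ≤ (d + 1) * (e + 1) - 1 := by
        have : (d + 1) * (e + 1) = d * (e + 1) + (e + 1) := by ring
        omega
      exact_mod_cast h7
    rw [Polynomial.degree_mul, Polynomial.degree_C hm.ne_zero, zero_add] at h6
    exact h6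
  · intro i
    have h8 : (m * Q.coeff i).degree < ((Ds (d + 1) c ρ s1 (i + 1) : ℕ) : WithBot ℕ) := by
      rw [← Polynomial.coeff_C_mul, ← hQ, Polynomial.coeff_sub, Polynomial.finsetSum_coeff,
        ← Polynomial.mem_degreeLT]
      refine Submodule.sub_mem _ (Submodule.sum_mem _ fun k _ => ?_)
        (Polynomial.mem_degreeLT.2 (hH'c i))
      rw [Polynomial.mem_degreeLT]
      refine (LS_cmul (a := ρ + 1) (fun j => by rw [← hmdeg]; exact hu2c k j)
        (hBD k).2 i).trans_le ?_
      have h9 : ρ + 1 + d * c + i * ρ ≤ Ds (d + 1) c ρ s1 (i + 1) := by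
        unfold Ds
        rw [Nat.add_sub_cancel]
        have : (i + 1 + 1) * ρ = i * ρ + ρ + ρ := by ring
        omega
      exact_mod_cast h9
    by_cases h0 : Q.coeff i = 0
    · rw [h0, Polynomial.degree_zero]
      exact WithBot.bot_lt_coe _
    · rw [Polynomial.degree_mul, hmdeg, Polynomial.degree_eq_natDegree h0] at h8
      rw [Polynomial.degree_eq_natDegree h0]
      have h10 : ρ + 1 + (Q.coeff i).natDegree < Ds (d + 1) c ρ s1 (i + 1) := by
        exact_mod_cast h8
      have h11 : (Q.coeff i).natDegree < Ds (d + 1) c ρ s1 i - 1 := by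
        unfold Ds at h10 ⊢
        have : (i + 1 + 1) * ρ = (i + 1) * ρ + ρ := by ring
        omega
      exact_mod_cast h11
  · simp only [hDi, add_mul, Finset.sum_add_distrib]
    have h12 : ∑ i, Polynomial.C (u0 i) * D i = H - Polynomial.X * H' := by
      rw [← hH']
      ring
    have h13 : ∑ i, Polynomial.X * u2 i * D i = Polynomial.X * (H' + Polynomial.C m * Q) := by
      rw [← hQ]
      simp only [mul_assoc, ← Finset.mul_sum]
      ring
    rw [h12, h13, Polynomial.C_0, Polynomial.C_0]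
    ring

end Pool.Agent.FCV
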