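import Pool.Agent.FCV.TargetsM
import Pool.Agent.WL.MOVE

/-!
# FCV-MOVEC: moving along a free curve over a completion
-/

set_option autoImplicit false

open MvPolynomial WithZero
open Pool.Agent.WA Pool.Agent.WL

namespace Pool.Agent.FCV

namespace MOVEC_

/-! ### Curves -/

section Curves

variable {σ A : Type} [CommRing A]

theorem onC_C_mul (c : A) (F : MvPolynomial σ A) (f : σ → Polynomial A) :
    onC (C c * F) f = Polynomial.C c * onC F f := by
  unfold onC
  rw [eval₂_mul, eval₂_C]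

theorem cminor_C_mul (c : A) (F : MvPolynomial σ A) (d E : ℕ) (f : σ → Polynomial A)
    (S : Fin (d * E) → Fin E × σ) :
    cminor (C c * F) d E f S = c ^ (d * E) * cminor F d E f S := by
  have h1 : cmat (C c * F) d E f = c • cmat F d E f := by
    ext l p
    rw [Matrix.smul_apply, smul_eq_mul]
    unfold cmat
    rw [pderiv_C_mul, onC_C_mul, mul_assoc, Polynomial.coeff_C_mul]
  unfold cminor
  rw [h1]
  have h2 : (c • cmat F d E f).submatrix id S = c • (cmat F d E f).submatrix id S := rfl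
  rw [h2, Matrix.det_smul, Fintype.card_fin]

end Curves

theorem eval_smul' {σ A : Type} [CommRing A]
    (F : MvPolynomial σ A) (d : ℕ) (hF : F.IsHomogeneous d) (w : σ → A) (β : A) :
    eval (fun i => β * w i) F = β ^ d * eval w F := by
  rw [eval_eq, eval_eq, Finset.mul_sum]
  refine Finset.sum_congr rfl fun m hm => ?_
  have h1 : d = ∑ i ∈ m.support, m i := hF.degree_eq_sum_deg_support hm
  have h2 : ∏ i ∈ m.support, (β * w i) ^ m i = β ^ d * ∏ i ∈ m.support, w i ^ m i := by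
    simp only [mul_pow]
    rw [Finset.prod_mul_distrib, Finset.prod_pow_eq_pow_sum, ← h1]
  rw [h2]
  ring

/-- lifting polynomials along a map that hits all coefficients -/
theorem lift_poly {A B : Type} [CommRing A] [CommRing B] (φ : A →+* B) (E : ℕ)
    (g : Polynomial B) (hg : g.natDegree ≤ E) (h : ∀ j, ∃ a, φ a = g.coeff j) :
    ∃ g' : Polynomial A, g'.natDegree ≤ E ∧ g'.map φ = g := by
  choose a ha using h
  have hc : ∀ j, (∑ l ∈ Finset.range (E + 1), Polynomial.monomial l (a l)).coeff j =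
      if j < E + 1 then a j else 0 := by
    intro j
    rw [Polynomial.finsetSum_coeff]
    simp only [Polynomial.coeff_monomial]
    rw [Finset.sum_ite_eq']
    simp only [Finset.mem_range]
  refine ⟨∑ l ∈ Finset.range (E + 1), Polynomial.monomial l (a l), ?_, ?_⟩
  · rw [Polynomial.natDegree_le_iff_coeff_eq_zero]
    intro j hj
    rw [hc, if_neg (by omega)]
  · ext j
    rw [Polynomial.coeff_map, hc]
    split_ifs with hj
    · exact ha j
    · rw [map_zero]
      exact (Polynomial.coeff_eq_zero_of_natDegree_lt (by omega)).symm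

end MOVEC_

open MOVEC_ Pool.Agent.WL.MOVE_

theorem p_MOVEC (hPKG : WL.T_PKG) (hBC : T_BC) (hCOD : T_COD) (hRES : T_RES)
    (hRANKC : T_RANKC) (hHOMC : T_HOMC) : T_MOVEC := by
  classical
  intro k K _ _ _ _ hfun n d r F v w hv hw hind hd hF x y α E f hx hα hf θ η hθ hη
  obtain ⟨s, io, δ, c, V, V', b, F', κ, hP⟩ := hPKG k K hfun n d r F v w hv hw hind hF
  have he := hP.emb
  have hs0 : v s ≠ 0 := he.unif.ne_zero
  have hs1 : v s < 1 := he.unif.lt_one
  have hFE : (FE v F).IsHomogeneous d := hF.map _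
  -- the nonzero minor
  obtain ⟨S, hmin⟩ := (hRANKC _ _ (FE v F) d E hFE hd f hf.deg).2 hf.sur
  -- the coordinate of `x` with largest valuation
  obtain ⟨a, ha⟩ := Finite.exists_max (fun i => vE v (x i))
  have hxa : x a ≠ 0 := by
    intro h
    apply hx
    funext i
    have h1 := ha i
    rw [h, map_zero] at h1
    exact (Valuation.zero_iff _).1 (le_antisymm h1 zero_le)
  have hva : vE v (x a) ≠ 0 := (Valuation.ne_zero_iff _).2 hxa
  -- the power of `s`
  have hj₀ : ∃ j₀ : ℕ, ∀ i j, v s ^ j₀ * vE v ((f i).coeff j) ≤ 1 := by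
    obtain ⟨B, hB0, hB⟩ : ∃ B : ℤᵐ⁰, B ≠ 0 ∧ ∀ i j, vE v ((f i).coeff j) ≤ B := by
      obtain ⟨p, hp⟩ := Finite.exists_max (fun p : Fin (n + 1) × Fin (E + 1) =>
        vE v ((f p.1).coeff p.2))
      refine ⟨max 1 (vE v ((f p.1).coeff p.2)), ?_, fun i j => ?_⟩
      · exact ne_of_gt (lt_of_lt_of_le zero_lt_one (le_max_left _ _))
      · by_cases hj : j < E + 1
        · exact (hp (i, ⟨j, hj⟩)).trans (le_max_right _ _)
        · rw [Polynomial.coeff_eq_zero_of_natDegree_lt (lt_of_le_of_lt (hf.deg i) (by omega)),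
            map_zero]
          exact zero_le
    obtain ⟨j₀, hj₀⟩ := exists_pow_le hs1 (inv_ne_zero hB0)
    refine ⟨j₀, fun i j => ?_⟩
    calc v s ^ j₀ * vE v ((f i).coeff j) ≤ B⁻¹ * B := by
          gcongr
          exact hB i j
      _ = 1 := inv_mul_cancel₀ hB0
  obtain ⟨j₀, hj₀⟩ := hj₀
  have hsK : s ≠ 0 := (Valuation.ne_zero_iff _).1 hs0
  -- the factor `b''`
  obtain ⟨b', hb', m₀, hm₀⟩ := hP.exh (insert 1 (Finset.univ.image fun i => s ^ j₀ * y i))
  have hvb' : v b' ≤ 1 := by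
    obtain ⟨g, -, hg⟩ := hP.lift m₀ _ (hm₀ 1 (Finset.mem_insert_self _ _))
    rw [mul_one] at hg
    rw [← val_emb v b', ← hg]
    exact val_le_one he g
  obtain ⟨b'', hb''⟩ : ∃ b'', b'' = b' * s ^ j₀ := ⟨_, rfl⟩
  have hb0 : b'' ≠ 0 := by
    rw [hb'']
    exact mul_ne_zero hb' (pow_ne_zero _ hsK)
  have hbV : ∀ i, b'' * y i ∈ V m₀ := by
    intro i
    have := hm₀ (s ^ j₀ * y i) (Finset.mem_insert_of_mem
      (Finset.mem_image_of_mem (fun i => s ^ j₀ * y i) (Finset.mem_univ i)))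
    rw [hb'', mul_assoc]
    exact this
  have hbe : emb v b ≠ 0 := fun h => hP.ne ((emb v).injective (by rw [h, map_zero]))
  have hb''e : emb v b'' ≠ 0 := fun h => hb0 ((emb v).injective (by rw [h, map_zero]))
  -- the curve over the power series
  have hlift : ∀ i, ∃ g' : Polynomial (PowerSeries k), g'.natDegree ≤ E ∧
      g'.map io = Polynomial.C (emb v b'') * f i := by
    intro i
    apply lift_poly io E
    · exact (Polynomial.natDegree_C_mul_le _ _).trans (hf.deg i)
    · intro j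
      apply he.surj
      rw [Polynomial.coeff_C_mul, map_mul, val_emb, hb'', map_mul, map_pow, mul_assoc]
      calc v b' * (v s ^ j₀ * vE v ((f i).coeff j)) ≤ 1 * 1 := by
            gcongr
            exact hj₀ i j
        _ = 1 := mul_one _
  choose f' hf'1 hf'2 using hlift
  have hf'3 : (fun i => (f' i).map io) = fun i => Polynomial.C (emb v b'') * f i := funext hf'2
  have hco : ∀ i j, io ((f' i).coeff j) = emb v b'' * (f i).coeff j := by
    intro i j
    rw [← Polynomial.coeff_map, hf'2, Polynomial.coeff_C_mul]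
  have htop : ∀ i, io ((f' i).coeff E) = emb v (b'' * y i) := by
    intro i
    rw [hco, hf.top, map_mul]
  have hpt : ∀ i, io ((f' i).coeff 0) = emb v b'' * α * x i := by
    intro i
    rw [hco, hf.pt, mul_assoc]
  have htopV : ∀ i, (f' i).coeff E ∈ V' m₀ := fun i =>
    (hP.mem_iff m₀ _).2 ⟨_, hbV i, htop i⟩
  have hzero' : onC F' f' = 0 := by
    apply Polynomial.map_injective io he.inj
    rw [← onC_map, hP.map, onC_C_mul, hf'3, (hHOMC _ _ (FE v F) d E hFE f (emb v b'')).1,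
      hf.zero, mul_zero, mul_zero, Polynomial.map_zero]
  have hmin' : cminor F' d E f' S ≠ 0 := by
    intro h
    have h1 : io (cminor F' d E f' S) = 0 := by rw [h, map_zero]
    rw [← cminor_map, hP.map, cminor_C_mul, hf'3,
      (hHOMC _ _ (FE v F) d E hFE f (emb v b'')).2 S] at h1
    exact mul_ne_zero (pow_ne_zero _ hbe) (mul_ne_zero (pow_ne_zero _ hb''e) hmin) h1
  -- the functions `p`
  have hp : ∀ N : ℕ, ∃ (p : PowerSeries k) (m : ℕ) (pK : K), (p ∈ V' m ∧
      (PowerSeries.X : PowerSeries k) ^ N ∣ p ∧ p ≠ 0 ∧ δ * m ≤ N + c) ∧ pK ≠ 0 ∧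
      io p = emb v pK ∧ ∀ l, κ l ≤ w l pK := by
    intro N
    obtain ⟨pK, m, h1, h2, h3, h4, h5⟩ := hP.pi N
    obtain ⟨p, hp1, hp2⟩ := hP.lift m pK h1
    refine ⟨p, m, pK, ⟨hp1, ?_, ?_, h4⟩, h2, hp2, h5⟩
    · rw [← he.ord, hp2, val_emb]
      exact h3
    · intro h
      rw [h, map_zero] at hp2
      exact h2 ((emb v).injective (by rw [← hp2, map_zero]))
  choose p mp pK hp1 hpK0 hpK hpκ using hp
  -- the subspace
  obtain ⟨U₀, c', hU₀, hcod⟩ := hCOD k K r w hw (fun l => hRES k K hfun (w l) (hw l))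
    (fun l => η l * (κ l * w l b'')) (fun l => mul_ne_zero (hη l)
      (mul_ne_zero (hP.κne l) ((Valuation.ne_zero_iff _).2 hb0)))
  have hV' : ∀ m, V' m = pull he (V m) := by
    intro m
    ext g
    exact hP.mem_iff m g
  have hfr : ∀ m, Module.finrank k (V' m) ≤
      Module.finrank k (V' m ⊓ pull he U₀ : Submodule k (PowerSeries k)) + c' := by
    intro m
    have hlift : ∀ f ∈ V m, ∃ g, io g = emb v f := fun f hf => by
      obtain ⟨g, -, hg⟩ := hP.lift m f hf
      exact ⟨g, hg⟩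
    rw [hV' m, pull_inf, finrank_pull he (V m) hlift, finrank_pull he (V m ⊓ U₀)
      (fun f hf => hlift f (Submodule.mem_inf.1 hf).1)]
    have := hP.fin m
    exact hcod (V m) this (hP.wle m)
  -- the precision
  obtain ⟨β, hβ⟩ : ∃ β, β = emb v b'' * α := ⟨_, rfl⟩
  have hβ0 : β ≠ 0 := by
    rw [hβ]
    exact mul_ne_zero hb''e hα
  have hvβ : vE v β ≠ 0 := (Valuation.ne_zero_iff _).2 hβ0
  obtain ⟨e, hee⟩ := exists_pow_le hs1 (mul_ne_zero hθ hvβ)
  have hee' : (vE v β)⁻¹ * v s ^ e ≤ θ := by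
    calc (vE v β)⁻¹ * v s ^ e ≤ (vE v β)⁻¹ * (θ * vE v β) := by gcongr
      _ = θ := by
        rw [mul_comm θ, ← mul_assoc, inv_mul_cancel₀ hvβ, one_mul]
  obtain ⟨N, m, φ, r', q, hφ1, hφ2, hq, hφ3, hφ4⟩ := hBC k n d E F' δ c V' f' m₀ S p mp
    (pull he U₀) c' hd hf.one hP.hom hP.fam hf'1 htopV hzero' hmin' hp1 hfr e
  choose g hg1 hg2 using fun i => (hP.mem_iff m (φ i)).1 (hφ1 i)
  -- the factor
  obtain ⟨D, hD⟩ : ∃ D, D = io (PowerSeries.X ^ r' * q) := ⟨_, rfl⟩
  have hvD : vE v D = v s ^ r' := by rw [hD, val_Xpow he r' q hq]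
  have hvD0 : vE v D ≠ 0 := by
    rw [hvD]
    exact pow_ne_zero _ hs0
  have hD0 : D ≠ 0 := (Valuation.ne_zero_iff _).1 hvD0
  have hG0 : D * β ≠ 0 := mul_ne_zero hD0 hβ0
  have hvG0 : vE v (D * β) ≠ 0 := (Valuation.ne_zero_iff _).2 hG0
  have hρ0 : vE v ((D * β)⁻¹) ≠ 0 := (Valuation.ne_zero_iff _).2 (inv_ne_zero hG0)
  obtain ⟨Cc, hCc⟩ := dense_emb he.unif ((D * β)⁻¹) (min (θ * (vE v (x a))⁻¹ * (vE v (D * β))⁻¹)
    (v s * vE v ((D * β)⁻¹))) (by
      rcases min_choice (θ * (vE v (x a))⁻¹ * (vE v (D * β))⁻¹) (v s * vE v ((D * β)⁻¹)) with h | h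
      · rw [h]; exact mul_ne_zero (mul_ne_zero hθ (inv_ne_zero hva)) (inv_ne_zero hvG0)
      · rw [h]; exact mul_ne_zero hs0 hρ0)
  have hC1 : vE v (emb v Cc * (D * β) - 1) ≤ θ * (vE v (x a))⁻¹ := by
    have h1 : emb v Cc * (D * β) - 1 = (emb v Cc - (D * β)⁻¹) * (D * β) := by
      rw [sub_mul, inv_mul_cancel₀ hG0]
    rw [h1, map_mul]
    calc vE v (emb v Cc - (D * β)⁻¹) * vE v (D * β) ≤
          (θ * (vE v (x a))⁻¹ * (vE v (D * β))⁻¹) * vE v (D * β) := by
          gcongr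
          exact hCc.trans (min_le_left _ _)
      _ = θ * (vE v (x a))⁻¹ := by rw [mul_assoc, inv_mul_cancel₀ hvG0, mul_one]
  have hC2 : vE v (emb v Cc) = vE v ((D * β)⁻¹) := by
    apply Valuation.map_eq_of_sub_lt
    refine lt_of_le_of_lt (hCc.trans (min_le_right _ _)) ?_
    calc v s * vE v ((D * β)⁻¹) < 1 * vE v ((D * β)⁻¹) := by
          gcongr
          exact zero_lt_iff.2 hρ0
      _ = _ := one_mul _
  have hCc0 : Cc ≠ 0 := by
    rintro rfl
    rw [map_zero, map_zero] at hC2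
    exact hρ0 hC2.symm
  have hioφ : (fun i => io (φ i)) = fun i => emb v (g i) := funext hg2
  refine ⟨fun i => Cc * g i, ?_, ?_, ?_⟩
  · rw [MOVEC_.eval_smul' F d hF]
    have h1 : io (eval φ F') = 0 := by rw [hφ2, map_zero]
    rw [map_eval', hP.map, map_mul, eval_C, hioφ] at h1
    have h2 : emb v (eval g F) = 0 := by
      rw [map_eval']
      rcases mul_eq_zero.1 h1 with h | h
      · exact absurd h hbe
      · exact h
    have h3 : eval g F = 0 := (emb v).injective (by rw [h2, map_zero])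
    rw [h3, mul_zero]
  · intro i
    have h1 : emb v (Cc * g i) - x i =
        emb v Cc * (io (φ i) - io (PowerSeries.X ^ r' * q * (f' i).coeff 0)) +
        (emb v Cc * (D * β) - 1) * x i := by
      rw [map_mul, ← hg2 i, map_mul io (PowerSeries.X ^ r' * q), ← hD, hpt i, ← hβ]
      ring
    rw [h1]
    refine Valuation.map_add_le _ ?_ ?_
    · rw [map_mul, hC2, ← map_sub]
      have h3 := (he.ord _ _).2 (hφ3 i)
      calc vE v ((D * β)⁻¹) * vE v (io (φ i - PowerSeries.X ^ r' * q * (f' i).coeff 0)) ≤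
          vE v ((D * β)⁻¹) * v s ^ (r' + e) := by gcongr
        _ = (vE v β)⁻¹ * v s ^ e := by
          rw [map_inv₀, map_mul, hvD, pow_add]
          have h4 : v s ^ r' ≠ 0 := pow_ne_zero _ hs0
          field_simp
        _ ≤ θ := hee'
    · rw [map_mul]
      calc vE v (emb v Cc * (D * β) - 1) * vE v (x i) ≤ θ * (vE v (x a))⁻¹ * vE v (x a) := by
            gcongr
            exact ha i
        _ = θ := by rw [mul_assoc, inv_mul_cancel₀ hva, mul_one]
  · intro l
    have hpb0 : pK N * b'' ≠ 0 := mul_ne_zero (hpK0 N) hb0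
    refine ⟨(Cc * (pK N * b''))⁻¹, inv_ne_zero (mul_ne_zero hCc0 hpb0), fun i => ?_⟩
    obtain ⟨u, hu1, hu2⟩ := hφ4 i
    have h1 : g i - pK N * (b'' * y i) = u := by
      apply (emb v).injective
      rw [← hu2, map_sub (emb v), map_mul (emb v) (pK N), ← hg2 i, ← htop i, ← hpK N, map_sub io,
        map_mul io]
    have h2 : (Cc * (pK N * b''))⁻¹ * (Cc * g i) - y i = (pK N * b'')⁻¹ * u := by
      rw [← h1]
      have := hpK0 N
      field_simp
    rw [h2, map_mul, map_inv₀, map_mul, inv_mul_le_iff₀ (zero_lt_iff.2 (mul_ne_zero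
      ((Valuation.ne_zero_iff _).2 (hpK0 N)) ((Valuation.ne_zero_iff _).2 hb0)))]
    calc w l u ≤ η l * (κ l * w l b'') := (hU₀ u).1 hu1 l
      _ ≤ η l * (w l (pK N) * w l b'') := by
        gcongr
        exact hpκ N l
      _ = _ := by rw [mul_comm]

end Pool.Agent.FCV
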