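import Pool.Agent.FCV.TargetsG

/-!
# FCV-MUL: the functional multiplied by a power of a general linear polynomial
-/

set_option autoImplicit false

namespace Pool.Agent.FCV

/-- existence of annihilators -/
theorem MUL_ex {κ : Type} [Field κ] (lam : Polynomial κ →ₗ[κ] κ) (N c : ℕ)
    (h : N < 2 * c + 1) : ∃ G : Polynomial κ, G ≠ 0 ∧ G.natDegree ≤ c ∧
      ∀ g : Polynomial κ, g.degree < ((N - c : ℕ) : WithBot ℕ) → lam (G * g) = 0 := by
  classical
  let T : Polynomial.degreeLT κ (c + 1) →ₗ[κ] (Fin (N - c) → κ) :=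
    LinearMap.pi fun j => lam ∘ₗ LinearMap.mulRight κ (Polynomial.X ^ (j : ℕ)) ∘ₗ
      (Polynomial.degreeLT κ (c + 1)).subtype
  have h1 : Module.finrank κ (Fin (N - c) → κ) <
      Module.finrank κ (Polynomial.degreeLT κ (c + 1)) := by
    rw [Module.finrank_fin_fun, (Polynomial.degreeLTEquiv κ (c + 1)).finrank_eq,
      Module.finrank_fin_fun]
    omega
  obtain ⟨G, hG, hG0⟩ := Submodule.exists_mem_ne_zero_of_ne_bot
    (LinearMap.ker_ne_bot_of_finrank_lt h1 (f := T))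
  have hG1 : ∀ j : ℕ, j < N - c → lam (G.1 * Polynomial.X ^ j) = 0 := by
    intro j hj
    have := congrFun (LinearMap.mem_ker.1 hG) ⟨j, hj⟩
    exact this
  refine ⟨G.1, fun h0 => hG0 (Subtype.ext h0), ?_, ?_⟩
  · have h2 := Polynomial.mem_degreeLT.1 G.2
    have h3 := (Polynomial.natDegree_lt_iff_degree_lt
      (fun h0 => hG0 (Subtype.ext h0))).2 h2
    omega
  · intro g hg
    have h3 : Polynomial.degreeLT κ (N - c) ≤
        LinearMap.ker (lam ∘ₗ LinearMap.mulLeft κ G.1) := by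
      rw [Polynomial.degreeLT_eq_span_X_pow, Submodule.span_le]
      intro x hx
      simp only [Finset.coe_image, Set.mem_image, Finset.mem_coe, Finset.mem_range] at hx
      obtain ⟨j, hj, rfl⟩ := hx
      exact hG1 j hj
    exact h3 (Polynomial.mem_degreeLT.2 hg)

theorem p_MUL (h1 : T_ANN) : T_MUL := by
  intro κ _ _ lam N c c' M hnd hc hN
  classical
  let P : ℕ → Prop := fun c1 => ∃ G : Polynomial κ, G ≠ 0 ∧ G.natDegree ≤ c1 ∧
      ∀ g : Polynomial κ, g.degree < ((N - c1 : ℕ) : WithBot ℕ) → lam (G * g) = 0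
  have hP0 : P ((N + 1) / 2) := MUL_ex lam N _ (by omega)
  have hex : ∃ c1, P c1 := ⟨_, hP0⟩
  obtain ⟨c1, hc1, hmin⟩ : ∃ c1, P c1 ∧ ∀ c2, P c2 → c1 ≤ c2 :=
    ⟨Nat.find hex, Nat.find_spec hex, fun c2 h2 => Nat.find_min' hex h2⟩
  have hle : c1 ≤ (N + 1) / 2 := hmin _ hP0
  have hmono : ∀ a b : ℕ, a ≤ b → P a → P b := by
    rintro a b hab ⟨G, hG0, hGd, hG⟩
    refine ⟨G, hG0, hGd.trans hab, fun g hg => hG g (hg.trans_le ?_)⟩
    exact_mod_cast Nat.sub_le_sub_left hab N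
  have hlt : c < c1 := by
    by_contra hcon
    obtain ⟨G, hG0, hGd, hG⟩ := hmono c1 c (by omega) hc1
    exact hG0 (hnd G hGd hG)
  obtain ⟨G, hG0, hGd, hG⟩ := hc1
  refine ⟨G.roots.toFinset, ?_⟩
  intro α hα H hH hlam
  have hroot : G.eval α ≠ 0 := by
    intro h0
    exact hα (Multiset.mem_toFinset.2 ((Polynomial.mem_roots hG0).2 h0))
  have hnd' : 1 ≤ c1 → Nondeg lam N (c1 - 1) := by
    intro h2 G2 hG2 hG2'
    by_contra hne
    have := hmin (c1 - 1) ⟨G2, hne, hG2, hG2'⟩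
    omega
  have hX : ((Polynomial.X - Polynomial.C α) ^ M : Polynomial κ).natDegree = M := by
    rw [Polynomial.natDegree_pow, Polynomial.natDegree_X_sub_C, mul_one]
  have hX0 : ((Polynomial.X - Polynomial.C α) ^ M : Polynomial κ) ≠ 0 :=
    pow_ne_zero _ (Polynomial.X_sub_C_ne_zero α)
  have e1 : ((Polynomial.X - Polynomial.C α) ^ M * H).natDegree ≤ M + c' := by
    refine Polynomial.natDegree_mul_le.trans ?_
    rw [hX]
    omega
  have e2 : ∀ g : Polynomial κ, g.degree < ((N - (M + c') : ℕ) : WithBot ℕ) →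
      lam ((Polynomial.X - Polynomial.C α) ^ M * H * g) = 0 := by
    intro g hg
    have h4 := hlam g (by rwa [Nat.sub_sub])
    rw [LinearMap.comp_apply, LinearMap.mulLeft_apply, ← mul_assoc] at h4
    exact h4
  obtain ⟨Q, hQ, hQ'⟩ := h1 κ lam N c1 (M + c') G ((Polynomial.X - Polynomial.C α) ^ M * H)
    hG0 hGd hG hnd' e1 e2 (by omega)
  by_contra hH0
  have hQ0 : Q ≠ 0 := by
    rintro rfl
    rw [zero_mul] at hQ
    exact hH0 ((mul_eq_zero.1 hQ).resolve_left hX0)
  have hcop : IsCoprime ((Polynomial.X - Polynomial.C α) ^ M : Polynomial κ) G := by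
    apply IsCoprime.pow_left
    rw [(Polynomial.irreducible_X_sub_C α).coprime_iff_not_dvd]
    intro hd
    exact hroot (Polynomial.dvd_iff_isRoot.1 hd)
  have hd : ((Polynomial.X - Polynomial.C α) ^ M : Polynomial κ) ∣ Q := by
    apply hcop.dvd_of_dvd_mul_right
    rw [← hQ]
    exact dvd_mul_right _ _
  have h3 := Polynomial.natDegree_le_of_dvd hd hQ0
  rw [hX] at h3
  rcases hQ' with h5 | h5
  · exact hQ0 h5
  · omega

end Pool.Agent.FCV
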