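import Pool.Agent.FCV.TargetsM

/-!
# FCV-NEARC: free curves near a free curve
-/

set_option autoImplicit false

open MvPolynomial WithZero
open Pool.Agent.WA Pool.Agent.WL

namespace Pool.Agent.FCV

theorem NEARC_sum {A : Type} [CommRing A] {E : ℕ} (P : Polynomial A)
    (hP : ∀ k, E ≤ k → P.coeff k = 0) :
    P = ∑ j : Fin E, Polynomial.C (P.coeff j) * Polynomial.X ^ (j : ℕ) := by
  refine Polynomial.ext fun k => ?_
  rw [Polynomial.finsetSum_coeff]
  simp only [Polynomial.coeff_C_mul_X_pow]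
  by_cases hk : k < E
  · rw [Finset.sum_eq_single (⟨k, hk⟩ : Fin E)]
    · rw [if_pos rfl]
    · intro j _ hj
      rw [if_neg]
      intro h
      exact hj (Fin.ext h.symm)
    · intro h
      exact absurd (Finset.mem_univ _) h
  · rw [hP k (by omega), Finset.sum_eq_zero]
    intro j _
    rw [if_neg]
    have := j.2
    omega

theorem NEARC_crv {A σ : Type} [CommRing A] {E : ℕ} (f : σ → Polynomial A)
    (hf : ∀ i, (f i).natDegree ≤ E) :
    crv (fun (j : Fin E) i => (f i).coeff j) (fun i => (f i).coeff E) = f := by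
  funext i
  have h1 := NEARC_sum (E := E + 1) (f i)
    (fun k hk => Polynomial.coeff_eq_zero_of_natDegree_lt (lt_of_le_of_lt (hf i) hk))
  rw [Fin.sum_univ_castSucc] at h1
  exact h1.symm

theorem NEARC_sur {A σ : Type} [CommRing A] [Fintype σ] (F : MvPolynomial σ A) (E N : ℕ)
    (f : σ → Polynomial A) (h : Sur F f E N) (w : Fin N → A) :
    ∃ u : Fin E × σ → A, ∀ l : Fin N,
      ∑ p, u p * (onC (pderiv p.2 F) f * Polynomial.X ^ (p.1 : ℕ)).coeff l = w l := by
  have hco : ∀ l : Fin N, (∑ l : Fin N, Polynomial.C (w l) * Polynomial.X ^ (l : ℕ)).coeff l =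
      w l := by
    intro l
    rw [Polynomial.finsetSum_coeff]
    simp only [Polynomial.coeff_C_mul_X_pow]
    rw [Finset.sum_eq_single l]
    · rw [if_pos rfl]
    · intro j _ hj
      rw [if_neg]
      intro h
      exact hj (Fin.ext h.symm)
    · intro h
      exact absurd (Finset.mem_univ _) h
  obtain ⟨u, hu, hu'⟩ := h (∑ l : Fin N, Polynomial.C (w l) * Polynomial.X ^ (l : ℕ)) (by
    rw [← Polynomial.mem_degreeLT]
    refine Submodule.sum_mem _ fun l _ => ?_
    rw [Polynomial.mem_degreeLT]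
    refine (Polynomial.degree_C_mul_X_pow_le _ _).trans_lt ?_
    exact_mod_cast l.2)
  refine ⟨fun p => (u p.2).coeff p.1, fun l => ?_⟩
  rw [← hco l, ← hu', Polynomial.finsetSum_coeff, Fintype.sum_prod_type_right]
  refine Finset.sum_congr rfl fun i _ => ?_
  have h1 := NEARC_sum (E := E) (u i)
    ((Polynomial.degree_lt_iff_coeff_zero _ _).1 (hu i))
  conv_rhs => rw [h1, Finset.sum_mul, Polynomial.finsetSum_coeff]
  refine Finset.sum_congr rfl fun j _ => ?_
  rw [mul_assoc, Polynomial.coeff_C_mul, mul_comm (Polynomial.X ^ (j : ℕ))]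

theorem NEARC_small (C a b : ℤᵐ⁰) (ha : a ≠ 0) (hb : b ≠ 0) :
    ∃ θ : ℤᵐ⁰, θ ≠ 0 ∧ θ ≤ b ∧ C * θ < a := by
  have hlt : exp (-1 : ℤ) < (1 : ℤᵐ⁰) := by
    rw [← exp_zero, exp_lt_exp]
    norm_num
  have hC : max C 1 ≠ 0 := (lt_of_lt_of_le zero_lt_one (le_max_right C 1)).ne'
  refine ⟨min b (a * (max C 1)⁻¹ * exp (-1 : ℤ)), ?_, min_le_left _ _, ?_⟩
  · refine (lt_min (zero_lt_iff.2 hb) (zero_lt_iff.2 ?_)).ne'
    exact mul_ne_zero (mul_ne_zero ha (inv_ne_zero hC)) exp_ne_zero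
  · calc C * min b (a * (max C 1)⁻¹ * exp (-1 : ℤ))
        ≤ max C 1 * (a * (max C 1)⁻¹ * exp (-1 : ℤ)) :=
          mul_le_mul' (le_max_left _ _) (min_le_right _ _)
      _ = a * exp (-1 : ℤ) := by
          rw [← mul_assoc, mul_comm (max C 1), mul_assoc a, inv_mul_cancel₀ hC, mul_one]
      _ < a * 1 := by
          exact mul_lt_mul_of_pos_left hlt (zero_lt_iff.2 ha)
      _ = a := mul_one a

theorem p_NEARC (hIFT : T_IFT) (hGLD : T_GLD) (hR : T_RANKC) (hB : T_BINC) : T_NEARC := by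
  intro k K _ _ _ _ hFF n d F v hv hd hF x z E f hf θ hθ
  obtain ⟨hE, hdeg, hzero, hpt, htop, hsur⟩ := hf
  have hFv : (FE v F).IsHomogeneous d := hF.map _
  choose G hG using fun l : Fin (d * E) => hGLD (Fin (n + 1)) (Compl v) (FE v F) E l
  have hG1 : ∀ (l : Fin (d * E)) (η : Fin (n + 1) → Compl v)
      (u : Fin E × Fin (n + 1) → Compl v), eval (Sum.elim η u) (G l) =
        (onC (FE v F) (crv (fun j i => u (j, i)) η)).coeff l := by
    intro l η u
    have := (hG l (Compl v) (RingHom.id _) η u).1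
    simpa only [MvPolynomial.map_id] using this
  have hG2 : ∀ (l : Fin (d * E)) (η : Fin (n + 1) → Compl v)
      (u : Fin E × Fin (n + 1) → Compl v) (p : Fin E × Fin (n + 1)),
      eval (Sum.elim η u) (pderiv (Sum.inr p) (G l)) =
        (onC (pderiv p.2 (FE v F)) (crv (fun j i => u (j, i)) η) *
          Polynomial.X ^ (p.1 : ℕ)).coeff l := by
    intro l η u p
    have := (hG l (Compl v) (RingHom.id _) η u).2 p
    simpa only [MvPolynomial.map_id] using this
  obtain ⟨z₀, hz₀⟩ : ∃ z₀ : Fin E × Fin (n + 1) → Compl v, z₀ = fun p => (f p.2).coeff p.1 :=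
    ⟨_, rfl⟩
  have hcrv : crv (fun (j : Fin E) i => z₀ (j, i)) z = f := by
    rw [hz₀]
    have h1 := NEARC_crv f hdeg
    rw [show (fun i => (f i).coeff E) = z from funext htop] at h1
    exact h1
  obtain ⟨S, hS⟩ := (hR (Fin (n + 1)) (Compl v) (FE v F) d E hFv hd f hdeg).2 hsur
  obtain ⟨Dm, hDm⟩ : ∃ Dm : MvPolynomial (Fin (n + 1) ⊕ (Fin E × Fin (n + 1))) (Compl v),
      ∀ (η : Fin (n + 1) → Compl v) (u : Fin E × Fin (n + 1) → Compl v),
        eval (Sum.elim η u) Dm = cminor (FE v F) d E (crv (fun j i => u (j, i)) η) S := by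
    refine ⟨Matrix.det (Matrix.of fun l k => pderiv (Sum.inr (S k)) (G l)), fun η u => ?_⟩
    rw [RingHom.map_det]
    unfold cminor
    congr 1
    ext l k
    exact hG2 l η u (S k)
  obtain ⟨P₀, hP₀⟩ : ∃ P₀ : Fin (n + 1) ⊕ (Fin E × Fin (n + 1)) → Compl v,
      P₀ = Sum.elim z z₀ := ⟨_, rfl⟩
  have hDm0 : eval P₀ Dm ≠ 0 := by
    rw [hP₀, hDm, hcrv]
    exact hS
  -- a bound for the coordinates
  obtain ⟨B, hB1, hBb⟩ : ∃ B : ℤᵐ⁰, 1 ≤ B ∧ ∀ l, vE v (P₀ l) ≤ B := by
    refine ⟨max 1 (Finset.univ.sup fun l => vE v (P₀ l)), le_max_left _ _, fun l => ?_⟩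
    exact le_max_of_le_right (Finset.le_sup (f := fun l => vE v (P₀ l)) (Finset.mem_univ l))
  obtain ⟨C, hC⟩ := exists_lipschitz (vE v) Dm B
  have hB0 : B ≠ 0 := (lt_of_lt_of_le zero_lt_one hB1).ne'
  obtain ⟨θ₁, hθ₁, hθ₁b, hθ₁C⟩ := NEARC_small C (vE v (eval P₀ Dm)) (min θ B)
    ((Valuation.ne_zero_iff _).2 hDm0) (lt_min (zero_lt_iff.2 hθ) (zero_lt_iff.2 hB0)).ne'
  obtain ⟨ρ₁, hρ₁, hρ⟩ := hIFT k K hFF v hv (Fin (n + 1)) (Fin E × Fin (n + 1)) (Fin (d * E))
    G z z₀ (fun l => by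
      rw [hG1, hcrv, hzero, Polynomial.coeff_zero])
    (fun w => by
      obtain ⟨u, hu⟩ := NEARC_sur (FE v F) E (d * E) f hsur w
      refine ⟨u, fun l => ?_⟩
      rw [← hu l]
      refine Finset.sum_congr rfl fun p _ => ?_
      rw [hG2, hcrv]) θ₁ hθ₁
  refine ⟨min ρ₁ θ₁, (lt_min (zero_lt_iff.2 hρ₁) (zero_lt_iff.2 hθ₁)).ne', ?_⟩
  intro y hy hyF
  obtain ⟨z', hz', hz'0⟩ := hρ y (fun i => (hy i).trans (min_le_left _ _))
  have hb := hB (Fin (n + 1)) (Compl v) (FE v F) d E hE hFv (fun j i => z' (j, i)) y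
  refine ⟨fun i => z' (⟨0, hE⟩, i), crv (fun j i => z' (j, i)) y, ?_, hE, hb.1, ?_, ?_, ?_, ?_⟩
  · intro i
    have h1 := hz' (⟨0, hE⟩, i)
    rw [hz₀] at h1
    rw [← hpt i]
    exact h1.trans (hθ₁b.trans (min_le_left _ _))
  · -- the curve lies on the hypersurface
    refine Polynomial.ext fun l => ?_
    rw [Polynomial.coeff_zero]
    rcases lt_trichotomy l (d * E) with hl | hl | hl
    · have h1 := hz'0 ⟨l, hl⟩
      rw [hG1] at h1
      exact h1
    · rw [hl, hb.2.2.1]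
      exact hyF
    · exact Polynomial.coeff_eq_zero_of_natDegree_lt (lt_of_le_of_lt hb.2.1 hl)
  · intro i
    simp only [crv, Polynomial.coeff_add, Polynomial.finsetSum_coeff,
      Polynomial.coeff_C_mul_X_pow]
    rw [if_neg (by omega), add_zero, Finset.sum_eq_single (⟨0, hE⟩ : Fin E)]
    · rw [if_pos rfl]
    · intro j _ hj
      rw [if_neg]
      intro h
      exact hj (Fin.ext h.symm)
    · intro h
      exact absurd (Finset.mem_univ _) h
  · intro i
    simp only [crv, Polynomial.coeff_add, Polynomial.finsetSum_coeff,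
      Polynomial.coeff_C_mul_X_pow]
    rw [if_true, Finset.sum_eq_zero, zero_add]
    intro j _
    rw [if_neg]
    have := j.2
    omega
  · -- surjectivity
    rw [← hR (Fin (n + 1)) (Compl v) (FE v F) d E hFv hd _ hb.1]
    refine ⟨S, ?_⟩
    rw [← hDm y z']
    intro h0
    obtain ⟨h, hh⟩ : ∃ h : Fin (n + 1) ⊕ (Fin E × Fin (n + 1)) → Compl v,
        h = Sum.elim y z' - P₀ := ⟨_, rfl⟩
    have h1 := hC P₀ h θ₁ hBb (by
      intro l
      rw [hh, hP₀]
      rcases l with i | p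
      · exact (hy i).trans (min_le_right _ _)
      · exact hz' p) (hθ₁b.trans (min_le_right _ _))
    rw [hh, add_sub_cancel, h0, zero_sub, Valuation.map_neg] at h1
    exact absurd hθ₁C (not_lt.2 h1)

end Pool.Agent.FCV
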