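import Pool.Agent.FCV.TargetsM

/-!
# The transcendence degree of curves that are not free
-/

set_option autoImplicit false

open MvPolynomial

namespace Pool.Agent.FCV

open Pool.Agent.WA (SmoothForm)

namespace NFD_

theorem transfer {κ Ω : Type} [Field κ] [Field Ω] [Algebra κ Ω] (N : ℕ)
    (lam : Polynomial Ω →ₗ[Ω] Ω) (c : ℕ → κ)
    (hc : ∀ j < N, algebraMap κ Ω (c j) = lam (Polynomial.X ^ j)) :
    ∃ lam' : Polynomial κ →ₗ[κ] κ, (∀ j < N, lam' (Polynomial.X ^ j) = c j) ∧
      ∀ G : Polynomial κ, G.degree < (N : WithBot ℕ) →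
        algebraMap κ Ω (lam' G) = lam (G.map (algebraMap κ Ω)) := by
  classical
  have h1 : ∀ j, (Polynomial.basisMonomials κ).constr κ c (Polynomial.X ^ j) = c j := by
    intro j
    have h2 : (Polynomial.X ^ j : Polynomial κ) = Polynomial.basisMonomials κ j := by
      rw [Polynomial.coe_basisMonomials]
      exact (Polynomial.monomial_one_right_eq_X_pow j).symm
    rw [h2, Module.Basis.constr_basis]
  refine ⟨(Polynomial.basisMonomials κ).constr κ c, fun j _ => h1 j, ?_⟩
  intro G hG
  have h3 : ∀ i ∈ G.support, i < N := by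
    intro i hi
    have h4 : (i : WithBot ℕ) ≤ G.degree := Polynomial.le_degree_of_mem_supp i hi
    exact_mod_cast lt_of_le_of_lt h4 hG
  conv_lhs => rw [G.as_sum_support_C_mul_X_pow]
  conv_rhs => rw [G.as_sum_support_C_mul_X_pow]
  rw [Polynomial.map_sum, map_sum, map_sum, map_sum]
  refine Finset.sum_congr rfl ?_
  intro i hi
  rw [Polynomial.map_mul, Polynomial.map_C, Polynomial.map_pow, Polynomial.map_X,
    ← Polynomial.smul_eq_C_mul, ← Polynomial.smul_eq_C_mul, LinearMap.map_smul,
    LinearMap.map_smul, h1, smul_eq_mul, smul_eq_mul, map_mul, hc i (h3 i hi)]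

theorem nondeg {κ Ω : Type} [Field κ] [Field Ω] [Algebra κ Ω] (N b : ℕ)
    (lam : Polynomial Ω →ₗ[Ω] Ω) (lam' : Polynomial κ →ₗ[κ] κ)
    (h : ∀ G : Polynomial κ, G.degree < (N : WithBot ℕ) →
        algebraMap κ Ω (lam' G) = lam (G.map (algebraMap κ Ω))) (hN : Nondeg lam N b) :
    Nondeg lam' N b := by
  intro G hG hz
  have h1 : G.map (algebraMap κ Ω) = 0 := by
    apply hN
    · exact le_trans Polynomial.natDegree_map_le hG
    intro g hg
    have h3 : ∀ i ∈ g.support, i < N - b := by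
      intro i hi
      have h4 : (i : WithBot ℕ) ≤ g.degree := Polynomial.le_degree_of_mem_supp i hi
      exact_mod_cast lt_of_le_of_lt h4 hg
    rw [g.as_sum_support_C_mul_X_pow, Finset.mul_sum, map_sum]
    refine Finset.sum_eq_zero ?_
    intro i hi
    have h5 : G.map (algebraMap κ Ω) * (Polynomial.C (g.coeff i) * Polynomial.X ^ i) =
        g.coeff i • ((G * Polynomial.X ^ i).map (algebraMap κ Ω)) := by
      rw [Polynomial.map_mul, Polynomial.map_pow, Polynomial.map_X, Polynomial.smul_eq_C_mul]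
      ring
    have h6 : (G * Polynomial.X ^ i).degree < (N : WithBot ℕ) := by
      refine lt_of_le_of_lt Polynomial.degree_le_natDegree ?_
      have h7 : (G * Polynomial.X ^ i).natDegree ≤ b + i :=
        le_trans Polynomial.natDegree_mul_le (by
          have := Polynomial.natDegree_X_pow_le (R := κ) i
          omega)
      have h8 := h3 i hi
      exact_mod_cast (by omega : (G * Polynomial.X ^ i).natDegree < N)
    have h9 : lam' (G * Polynomial.X ^ i) = 0 := by
      apply hz
      rw [Polynomial.degree_X_pow]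
      exact_mod_cast h3 i hi
    rw [h5, map_smul, ← h _ h6, h9, map_zero, smul_zero]
  exact (Polynomial.map_eq_zero _).1 h1

theorem step (h1 : T_NLC) (h2 : T_NLB) (h3 : T_CBC) (h4 : T_CAL) (h5 : T_QC) :
    ∀ (κ : Type) [Field κ] [IsAlgClosed κ] (n d : ℕ)
      (F : MvPolynomial (Fin (n + 1)) κ), 2 ≤ d → F.IsHomogeneous d → SmoothForm F →
    ∀ (μ m a b k : ℕ), 1 ≤ μ → Cut (Qset F μ) m → 1 ≤ k → k * μ + 1 ≤ a →
      (d - 1) * (a - 1 - k * μ) ≤ b → (d - 1) * (a - 1) ≤ b + (k - 1) * ((d - 1) * μ) →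
    ∀ (κ' Ω : Type) [Field κ'] [IsAlgClosed κ'] [Field Ω] [Algebra κ κ'] [Algebra κ Ω]
      [Algebra κ' Ω] [IsScalarTower κ κ' Ω] (z : Fin a × Fin (n + 1) → Ω)
      (lam : Polynomial Ω →ₗ[Ω] Ω), z ∈ NL (F.map (algebraMap κ Ω)) lam a b →
      Nondeg lam ((d - 1) * (a - 1) + b) b → (∀ j < (d - 1) * (a - 1) + b, ∃ c : κ',
        algebraMap κ' Ω c = lam (Polynomial.X ^ j)) → AlgLe κ' z (k * m) := by
  intro κ _ _ n d F hd hF hs μ m a b k hμ hcut hk hka hb1 hb2 κ' Ω _ _ _ _ _ _ _ z lam hz
    hnd hc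
  classical
  obtain ⟨c, hc'⟩ : ∃ c : ℕ → κ', ∀ j < (d - 1) * (a - 1) + b,
      algebraMap κ' Ω (c j) = lam (Polynomial.X ^ j) := by
    refine ⟨fun j => if h : j < (d - 1) * (a - 1) + b then (hc j h).choose else 0, ?_⟩
    intro j hj
    simp only [hj, dif_pos]
    exact (hc j hj).choose_spec
  obtain ⟨lam', hl1, hl2⟩ := transfer _ lam c hc'
  have hnd' := nondeg _ b lam lam' hl2 hnd
  have hF' : (F.map (algebraMap κ κ')).IsHomogeneous d := hF.map _
  have hs' : SmoothForm (F.map (algebraMap κ κ')) := hs.map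
  have hmm : (F.map (algebraMap κ κ')).map (algebraMap κ' Ω) = F.map (algebraMap κ Ω) := by
    rw [MvPolynomial.map_map, ← IsScalarTower.algebraMap_eq]
  have hcut' : Cut (Qset (F.map (algebraMap κ κ')) μ) m := by
    obtain ⟨l, hl⟩ := hcut
    obtain ⟨r, h, e, hh, hq⟩ := h5 κ n d μ F hF
    refine ⟨fun s t => algebraMap κ κ' (l s t), ?_⟩
    intro w hw hlw
    refine h3 κ _ m r h e l hh ?_ κ' w ((hq κ' w).2 hw) hlw
    intro y hy hly
    apply hl y _ hly
    have h6 := (hq κ y).1 hy
    rw [Algebra.algebraMap_self, MvPolynomial.map_id] at h6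
    exact h6
  have hcl := h2 κ' n d (F.map (algebraMap κ κ')) hd hF' hs' μ m a b b k lam' hμ hcut' hk hka hnd'
    hb1 hb2
  obtain ⟨r, h, e, hh, hq⟩ := h1 κ' n d a b (F.map (algebraMap κ κ')) lam' (by omega)
    (by omega) hF'
  refine h4 κ' _ (k * m) r h e hh ?_ Ω z ?_
  · have h7 : {w : Fin a × Fin (n + 1) → κ' | ∀ i, eval w (h i) = 0} =
        NL (F.map (algebraMap κ κ')) lam' a b := by
      ext w
      have h8 := hq κ' lam' (fun j _ => rfl) w
      rw [Algebra.algebraMap_self, MvPolynomial.map_id] at h8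
      exact h8
    rw [h7]
    exact hcl
  · refine (hq Ω lam ?_ z).2 ?_
    · intro j hj
      rw [hl1 j hj, hc' j hj]
    · rw [hmm]
      exact hz

theorem trans {κ Ω τ : Type} [Field κ] [Field Ω] [Algebra κ Ω] (S : Finset Ω)
    (z : τ → Ω) (p : ℕ) :
    AlgLe (algebraicClosure (IntermediateField.adjoin κ (S : Set Ω)) Ω) z p →
      AlgLe κ z (S.card + p) := by
  classical
  rintro ⟨T, hT, hz⟩
  refine ⟨S ∪ T, le_trans (Finset.card_union_le _ _) (by omega), ?_⟩
  intro t
  set K1 := IntermediateField.adjoin κ ((S ∪ T : Finset Ω) : Set Ω) with hK1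
  have hle : IntermediateField.adjoin κ (S : Set Ω) ≤ K1 := by
    apply IntermediateField.adjoin.mono
    rw [Finset.coe_union]
    exact Set.subset_union_left
  have hT1 : ∀ x ∈ T, x ∈ K1 := by
    intro x hx
    apply IntermediateField.subset_adjoin
    rw [Finset.coe_union]
    exact Or.inr hx
  -- the algebraic closure of `K1` in `Ω`
  have key : ∀ x : Ω, x ∈ IntermediateField.adjoin
      (algebraicClosure (IntermediateField.adjoin κ (S : Set Ω)) Ω) (T : Set Ω) →
      x ∈ algebraicClosure K1 Ω := by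
    intro x hx
    induction hx using IntermediateField.adjoin_induction with
    | mem x hx =>
      rw [mem_algebraicClosure_iff]
      exact isAlgebraic_algebraMap (⟨x, hT1 x hx⟩ : K1)
    | algebraMap x =>
      rw [mem_algebraicClosure_iff]
      have h1 : IsAlgebraic (IntermediateField.adjoin κ (S : Set Ω)) (x : Ω) :=
        mem_algebraicClosure_iff.1 x.2
      obtain ⟨P, hP0, hP⟩ := h1
      refine ⟨P.map (IntermediateField.inclusion hle).toRingHom, ?_, ?_⟩
      · intro h0
        apply hP0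
        exact (Polynomial.map_eq_zero _).1 h0
      · rw [Polynomial.aeval_def, Polynomial.eval₂_map]
        rw [Polynomial.aeval_def] at hP
        exact hP
    | add x y hx hy h1 h2 => exact add_mem h1 h2
    | inv x hx h1 => exact inv_mem h1
    | mul x y hx hy h1 h2 => exact mul_mem h1 h2
  obtain ⟨P, hP0, hP⟩ := hz t
  let φ : IntermediateField.adjoin
      (algebraicClosure (IntermediateField.adjoin κ (S : Set Ω)) Ω) (T : Set Ω) →+*
      algebraicClosure K1 Ω :=
    { toFun := fun x => ⟨(x : Ω), key x x.2⟩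
      map_one' := rfl
      map_zero' := rfl
      map_add' := fun x y => rfl
      map_mul' := fun x y => rfl }
  have h3 : IsAlgebraic (algebraicClosure K1 Ω) (z t) := by
    refine ⟨P.map φ, ?_, ?_⟩
    · intro h0
      apply hP0
      exact (Polynomial.map_eq_zero _).1 h0
    · rw [Polynomial.aeval_def, Polynomial.eval₂_map]
      rw [Polynomial.aeval_def] at hP
      exact hP
  exact IsAlgebraic.restrictScalars K1 h3

end NFD_

theorem p_NFD (h1 : T_NFR) (h2 : T_NLC) (h3 : T_NLB) (h4 : T_CBC) (h5 : T_CAL) (h6 : T_QC) :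
    T_NFD := by
  intro κ _ _ n d F hd hF hs μ m a b k hμ hcut hk hka hb1 hb2 Ω _ _ _ z hz hbp htop hsur
  classical
  obtain ⟨lam, hl1, hl2, j0, hj0, hj1⟩ := h1 Ω n d a b (F.map (algebraMap κ Ω)) z hd (hF.map _)
    hs.map hz hbp htop hsur
  set N := (d - 1) * (a - 1) + b with hN
  let S : Finset Ω := ((Finset.range N).erase j0).image (fun j => lam (Polynomial.X ^ j))
  have hS : S.card ≤ N - 1 := by
    refine le_trans Finset.card_image_le ?_
    rw [Finset.card_erase_of_mem (Finset.mem_range.2 hj0), Finset.card_range]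
  have : IsAlgClosed (algebraicClosure (IntermediateField.adjoin κ (S : Set Ω)) Ω) :=
    (algebraicClosure.isAlgClosure (IntermediateField.adjoin κ (S : Set Ω)) Ω).isAlgClosed
  have : IsScalarTower κ (algebraicClosure (IntermediateField.adjoin κ (S : Set Ω)) Ω) Ω :=
    IsScalarTower.of_algebraMap_eq (fun _ => rfl)
  have h7 : AlgLe (algebraicClosure (IntermediateField.adjoin κ (S : Set Ω)) Ω) z (k * m) := by
    refine NFD_.step h2 h3 h4 h5 h6 κ n d F hd hF hs μ m a b k hμ hcut hk hka hb1 hb2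
      (algebraicClosure (IntermediateField.adjoin κ (S : Set Ω)) Ω) Ω z lam hl1 hl2 ?_
    intro j hj
    have h8 : lam (Polynomial.X ^ j) ∈ IntermediateField.adjoin κ (S : Set Ω) := by
      by_cases hjj : j = j0
      · rw [hjj, hj1]
        exact one_mem _
      · apply IntermediateField.subset_adjoin
        exact Finset.mem_coe.2 (Finset.mem_image.2 ⟨j, Finset.mem_erase.2
          ⟨hjj, Finset.mem_range.2 hj⟩, rfl⟩)
    refine ⟨⟨lam (Polynomial.X ^ j), ?_⟩, rfl⟩
    rw [mem_algebraicClosure_iff]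
    exact isAlgebraic_algebraMap (⟨_, h8⟩ : IntermediateField.adjoin κ (S : Set Ω))
  obtain ⟨T, hT1, hT2⟩ := NFD_.trans S z (k * m) h7
  exact ⟨T, le_trans hT1 (by omega), hT2⟩

end Pool.Agent.FCV
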