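import Pool.Agent.FCV.TargetsG

/-!
# Curves without base points that are not free (NFR)
-/

set_option autoImplicit false

open MvPolynomial

open Pool.Agent.WA (SmoothForm)

namespace Pool.Agent.FCV

namespace NFR_

section Degree

variable {σ A : Type} [CommRing A]

theorem prod_aux (f : σ → Polynomial A) (m : σ → ℕ) (e : ℕ) (hf : ∀ i, (f i).natDegree ≤ e)
    (s : Finset σ) :
    (∏ i ∈ s, (f i) ^ m i).natDegree ≤ (∑ i ∈ s, m i) * e ∧
    (∏ i ∈ s, (f i) ^ m i).coeff ((∑ i ∈ s, m i) * e) = ∏ i ∈ s, ((f i).coeff e) ^ m i := by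
  classical
  induction s using Finset.induction_on with
  | empty => simp
  | insert a s ha ih =>
    rw [Finset.prod_insert ha, Finset.prod_insert ha, Finset.sum_insert ha, Nat.add_mul]
    have h1 : ((f a) ^ m a).natDegree ≤ m a * e :=
      Polynomial.natDegree_pow_le_of_le (m a) (hf a)
    have h2 : ((f a) ^ m a).coeff (m a * e) = ((f a).coeff e) ^ m a :=
      Polynomial.coeff_pow_of_natDegree_le (hf a)
    refine ⟨Polynomial.natDegree_mul_le_of_le h1 ih.1, ?_⟩
    rw [Polynomial.coeff_mul_add_eq_of_natDegree_le h1 ih.1, h2, ih.2]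

theorem deg_of_mem {F : MvPolynomial σ A} {d : ℕ} (hF : F.IsHomogeneous d) {m : σ →₀ ℕ}
    (hm : m ∈ F.support) : ∑ i ∈ m.support, m i = d := by
  have h := hF (mem_support_iff.1 hm)
  have h' : Finsupp.degree m = d := by
    rw [Finsupp.degree_eq_weight_one]
    exact h
  exact h'

/-- the degree of `F (f)` -/
theorem onC_deg {F : MvPolynomial σ A} {d : ℕ} (hF : F.IsHomogeneous d) (f : σ → Polynomial A)
    {e : ℕ} (hf : ∀ i, (f i).natDegree ≤ e) : (onC F f).natDegree ≤ d * e := by
  unfold onC
  rw [eval₂_eq]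
  refine Polynomial.natDegree_sum_le_of_forall_le _ _ fun m hm => ?_
  refine (Polynomial.natDegree_C_mul_le _ _).trans ?_
  rw [← deg_of_mem hF hm]
  exact (prod_aux f m e hf m.support).1

/-- the coefficient of highest degree of `F (f)` -/
theorem onC_top {F : MvPolynomial σ A} {d : ℕ} (hF : F.IsHomogeneous d) (f : σ → Polynomial A)
    {e : ℕ} (hf : ∀ i, (f i).natDegree ≤ e) :
    (onC F f).coeff (d * e) = eval (fun i => (f i).coeff e) F := by
  unfold onC
  rw [eval₂_eq, Polynomial.finsetSum_coeff, MvPolynomial.eval_eq]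
  refine Finset.sum_congr rfl fun m hm => ?_
  rw [Polynomial.coeff_C_mul]
  congr 1
  have h := (prod_aux f m e hf m.support).2
  rw [deg_of_mem hF hm] at h
  exact h

/-- values of `F (f)` -/
theorem onC_eval (F : MvPolynomial σ A) (f : σ → Polynomial A) (α : A) :
    (onC F f).eval α = eval (fun i => (f i).eval α) F := by
  unfold onC
  rw [← Polynomial.coe_evalRingHom, MvPolynomial.eval₂_comp_left]
  unfold MvPolynomial.eval
  congr 1
  · ext a
    simp

theorem cv_deg {n a : ℕ} (z : Fin a × Fin (n + 1) → A) (i : Fin (n + 1)) :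
    (cv z i).natDegree ≤ a - 1 := by
  unfold cv
  refine Polynomial.natDegree_sum_le_of_forall_le _ _ fun j _ => ?_
  refine (Polynomial.natDegree_C_mul_X_pow_le _ _).trans ?_
  have := j.2
  omega

end Degree

theorem aeval_self {Ω σ : Type} [Field Ω] (x : σ → Ω) (G : MvPolynomial σ Ω) :
    aeval x G = eval x G := by
  rw [aeval_def, Algebra.algebraMap_self]
  rfl

/-- a functional that kills the image of the gradient -/
theorem functional {κ : Type} [Field κ] {σ : Type} [Fintype σ] (D : σ → Polynomial κ) (b N : ℕ)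
    (hns : ¬ ∀ H : Polynomial κ, H.degree < N → ∃ u : σ → Polynomial κ, (∀ i, (u i).degree < b) ∧
      ∑ i, u i * D i = H) :
    ∃ lam : Polynomial κ →ₗ[κ] κ, (∀ i, ∀ h : Polynomial κ, h.degree < (b : WithBot ℕ) →
      lam (h * D i) = 0) ∧ ∃ j < N, lam (Polynomial.X ^ j) = 1 := by
  classical
  push Not at hns
  obtain ⟨H, hH, hno⟩ := hns
  let R : Submodule κ (Polynomial κ) :=
    { carrier := {P | ∃ u : σ → Polynomial κ, (∀ i, (u i).degree < b) ∧ ∑ i, u i * D i = P}
      zero_mem' := ⟨0, fun i => by simp, by simp⟩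
      add_mem' := by
        rintro P Q ⟨u, hu, rfl⟩ ⟨v, hv, rfl⟩
        refine ⟨u + v, fun i => ?_, ?_⟩
        · exact (Polynomial.degree_add_le _ _).trans_lt (max_lt (hu i) (hv i))
        · rw [← Finset.sum_add_distrib]
          refine Finset.sum_congr rfl fun i _ => ?_
          rw [Pi.add_apply, add_mul]
      smul_mem' := by
        rintro c P ⟨u, hu, rfl⟩
        refine ⟨fun i => c • u i, fun i => ?_, ?_⟩
        · exact (Polynomial.degree_smul_le _ _).trans_lt (hu i)
        · rw [Finset.smul_sum]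
          refine Finset.sum_congr rfl fun i _ => ?_
          rw [smul_mul_assoc] }
  have hHR : H ∉ R := by
    rintro ⟨u, hu, hs⟩
    exact hno u hu hs
  obtain ⟨f, hfH, hfR⟩ := Submodule.exists_le_ker_of_notMem hHR
  have hex : ∃ j < N, f (Polynomial.X ^ j) ≠ 0 := by
    by_contra hcon
    push Not at hcon
    apply hfH
    by_cases hH0 : H = 0
    · rw [hH0, map_zero]
    have hlt : H.natDegree < N := (Polynomial.natDegree_lt_iff_degree_lt hH0).2 hH
    rw [H.as_sum_range' N hlt, map_sum]
    refine Finset.sum_eq_zero fun i hi => ?_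
    rw [← Polynomial.C_mul_X_pow_eq_monomial, ← Polynomial.smul_eq_C_mul, map_smul,
      hcon i (Finset.mem_range.1 hi), smul_zero]
  obtain ⟨j, hj, hfj⟩ := hex
  refine ⟨(f (Polynomial.X ^ j))⁻¹ • f, ?_, j, hj, ?_⟩
  · intro i h hh
    have hm : h * D i ∈ R := by
      refine ⟨Pi.single i h, fun k => ?_, ?_⟩
      · by_cases hk : k = i
        · subst hk
          rw [Pi.single_eq_same]
          exact hh
        · rw [Pi.single_eq_of_ne hk, Polynomial.degree_zero]
          exact WithBot.bot_lt_coe _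
      · rw [Finset.sum_eq_single i]
        · rw [Pi.single_eq_same]
        · intro k _ hk
          rw [Pi.single_eq_of_ne hk, zero_mul]
        · intro hi
          exact absurd (Finset.mem_univ i) hi
    have := hfR hm
    rw [LinearMap.mem_ker] at this
    rw [LinearMap.smul_apply, this, smul_zero]
  · rw [LinearMap.smul_apply, smul_eq_mul, inv_mul_cancel₀ hfj]

end NFR_

open NFR_ in
/-- Curves without base points that are not free. -/
theorem p_NFR (hANN : T_ANN) : T_NFR := by
  classical
  intro Ω _ _ n d a b F z hd hF hsm h0 hbp htop hns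
  have hDd : ∀ i, (onC (pderiv i F) (cv z)).natDegree ≤ (d - 1) * (a - 1) := fun i =>
    onC_deg (hF.pderiv (i := i)) _ (cv_deg z)
  obtain ⟨lam, hlam, j, hj, hlj⟩ := functional (fun i => onC (pderiv i F) (cv z)) b
    ((d - 1) * (a - 1) + b) hns
  refine ⟨lam, ⟨h0, hlam⟩, ?_, j, hj, hlj⟩
  by_contra hND
  have hex : ∃ c, ¬ Nondeg lam ((d - 1) * (a - 1) + b) c := ⟨b, hND⟩
  let c1 := Nat.find hex
  have hc1 : ¬ Nondeg lam ((d - 1) * (a - 1) + b) c1 := Nat.find_spec hex
  have hc1b : c1 ≤ b := Nat.find_min' hex hND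
  have hmin : 1 ≤ c1 → Nondeg lam ((d - 1) * (a - 1) + b) (c1 - 1) := by
    intro h1
    by_contra hcon
    exact Nat.find_min hex (show c1 - 1 < Nat.find hex from by
      change c1 - 1 < c1
      omega) hcon
  unfold Nondeg at hc1
  push Not at hc1
  obtain ⟨G, hGd, hGk, hG0⟩ := hc1
  have hc1pos : 1 ≤ c1 := by
    by_contra hcon
    have hz : c1 = 0 := by omega
    rw [hz] at hGd hGk
    obtain ⟨g, hg⟩ : ∃ g : Ω, G = Polynomial.C g :=
      ⟨G.coeff 0, Polynomial.eq_C_of_natDegree_eq_zero (Nat.le_zero.1 hGd)⟩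
    have hg0 : g ≠ 0 := by
      rintro rfl
      apply hG0
      rw [hg, map_zero]
    have h1 := hGk (Polynomial.C g⁻¹ * Polynomial.X ^ j) (by
      refine (Polynomial.degree_C_mul_X_pow_le _ _).trans_lt ?_
      rw [Nat.sub_zero]
      exact_mod_cast hj)
    rw [hg, ← mul_assoc, ← map_mul, mul_inv_cancel₀ hg0, map_one, one_mul, hlj] at h1
    exact one_ne_zero h1
  have hann : ∀ i, ∃ Q : Polynomial Ω, onC (pderiv i F) (cv z) = Q * G ∧
      (Q = 0 ∨ Q.natDegree + c1 ≤ (d - 1) * (a - 1)) := by
    intro i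
    refine hANN Ω lam ((d - 1) * (a - 1) + b) c1 ((d - 1) * (a - 1)) G
      (onC (pderiv i F) (cv z)) hG0 hGd hGk hmin (hDd i) ?_ (by omega)
    intro g hg
    rw [mul_comm]
    refine hlam i g ?_
    rwa [Nat.add_sub_cancel_left] at hg
  by_cases hdeg : G.degree = 0
  · -- the polynomial is constant
    have hnat : G.natDegree = 0 := Polynomial.natDegree_eq_zero_iff_degree_le_zero.2 hdeg.le
    have htopz : ∀ i, eval (fun i => (cv z i).coeff (a - 1)) (pderiv i F) = 0 := by
      intro i
      rw [← onC_top (hF.pderiv (i := i)) (cv z) (cv_deg z)]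
      obtain ⟨Q, hQ, hQ'⟩ := hann i
      rw [hQ]
      rcases hQ' with rfl | hQ'
      · rw [zero_mul, Polynomial.coeff_zero]
      · apply Polynomial.coeff_eq_zero_of_natDegree_lt
        refine Polynomial.natDegree_mul_le.trans_lt ?_
        omega
    have hFz : eval (fun i => (cv z i).coeff (a - 1)) F = 0 := by
      rw [← onC_top hF (cv z) (cv_deg z), h0, Polynomial.coeff_zero]
    have := hsm Ω (fun i => (cv z i).coeff (a - 1)) (by
      rw [aeval_self]
      exact hFz) (fun i => by
      rw [aeval_self]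
      exact htopz i)
    obtain ⟨i, hi⟩ := htop
    exact hi (congrFun this i)
  · obtain ⟨α, hα⟩ := IsAlgClosed.exists_root G hdeg
    have hz : ∀ i, eval (fun i => (cv z i).eval α) (pderiv i F) = 0 := by
      intro i
      rw [← onC_eval]
      obtain ⟨Q, hQ, -⟩ := hann i
      rw [hQ, Polynomial.eval_mul, hα.eq_zero, mul_zero]
    have hFz : eval (fun i => (cv z i).eval α) F = 0 := by
      rw [← onC_eval, h0, Polynomial.eval_zero]
    have := hsm Ω (fun i => (cv z i).eval α) (by
      rw [aeval_self]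
      exact hFz) (fun i => by
      rw [aeval_self]
      exact hz i)
    obtain ⟨i, hi⟩ := hbp α
    exact hi (congrFun this i)

end Pool.Agent.FCV
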