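import Pool.Agent.FCV.TargetsG

/-!
# FCV, target NLB: curves with gradients killed by a fixed functional
-/

set_option autoImplicit false

open MvPolynomial

namespace Pool.Agent.FCV

open Pool.Agent.WA (SmoothForm)

namespace NLB_

section general

variable {σ A : Type} [CommRing A]

theorem deg_of_mem {F : MvPolynomial σ A} {d : ℕ} (hF : F.IsHomogeneous d) {m : σ →₀ ℕ}
    (hm : m ∈ F.support) : ∑ i ∈ m.support, m i = d := by
  have h := hF (mem_support_iff.1 hm)
  have h' : Finsupp.degree m = d := by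
    rw [Finsupp.degree_eq_weight_one]
    exact h
  exact h'

/-- homogeneity -/
theorem onC_scale {F : MvPolynomial σ A} {d : ℕ} (hF : F.IsHomogeneous d) (p : Polynomial A)
    (f : σ → Polynomial A) : onC F (fun i => p * f i) = p ^ d * onC F f := by
  unfold onC
  rw [eval₂_eq, eval₂_eq, Finset.mul_sum]
  refine Finset.sum_congr rfl fun m hm => ?_
  have h : ∏ i ∈ m.support, (p * f i) ^ m i = p ^ d * ∏ i ∈ m.support, f i ^ m i := by
    rw [← deg_of_mem hF hm, ← Finset.prod_pow_eq_pow_sum, ← Finset.prod_mul_distrib]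
    exact Finset.prod_congr rfl fun i _ => mul_pow _ _ _
  rw [h]
  ring

/-- bound for the degree -/
theorem onC_natDegree {F : MvPolynomial σ A} {d : ℕ} (hF : F.IsHomogeneous d)
    (f : σ → Polynomial A) (e : ℕ) (hf : ∀ i, (f i).natDegree ≤ e) :
    (onC F f).natDegree ≤ d * e := by
  unfold onC
  rw [eval₂_eq]
  refine Polynomial.natDegree_sum_le_of_forall_le _ _ fun m hm => ?_
  refine (Polynomial.natDegree_C_mul_le _ _).trans ?_
  rw [← deg_of_mem hF hm, Finset.sum_mul]
  refine (Polynomial.natDegree_prod_le _ _).trans (Finset.sum_le_sum fun i _ => ?_)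
  exact Polynomial.natDegree_pow_le.trans (Nat.mul_le_mul_left _ (hf i))

variable {n a : ℕ}

theorem cv_degree (z : Fin a × Fin (n + 1) → A) (i : Fin (n + 1)) :
    (cv z i).degree < (a : WithBot ℕ) := by
  unfold cv
  refine (Polynomial.degree_sum_fin_lt fun j => z (j, i)).trans_le le_rfl

theorem cv_coeff (z : Fin a × Fin (n + 1) → A) (i : Fin (n + 1)) (j : Fin a) :
    (cv z i).coeff (j : ℕ) = z (j, i) := by
  unfold cv
  rw [Polynomial.finsetSum_coeff, Finset.sum_eq_single j]
  · simp
  · intro k _ hk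
    rw [Polynomial.coeff_C_mul, Polynomial.coeff_X_pow, if_neg, mul_zero]
    intro h
    exact hk (Fin.ext h.symm)
  · intro h
    exact absurd (Finset.mem_univ j) h

theorem cv_of (g : Fin (n + 1) → Polynomial A) (hg : ∀ i, (g i).degree < (a : WithBot ℕ)) :
    cv (fun t : Fin a × Fin (n + 1) => (g t.2).coeff (t.1 : ℕ)) = g := by
  funext i
  ext k
  by_cases hk : k < a
  · exact cv_coeff _ i ⟨k, hk⟩
  · rw [Polynomial.coeff_eq_zero_of_degree_lt, Polynomial.coeff_eq_zero_of_degree_lt]
    · exact (hg i).trans_le (by exact_mod_cast not_lt.1 hk)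
    · exact (cv_degree _ i).trans_le (by exact_mod_cast not_lt.1 hk)

theorem cv_natDegree (z : Fin a × Fin (n + 1) → A) (i : Fin (n + 1)) :
    (cv z i).natDegree ≤ a - 1 := by
  by_cases h : cv z i = 0
  · rw [h]
    simp
  · have := cv_degree z i
    rw [Polynomial.degree_eq_natDegree h] at this
    have h2 : (cv z i).natDegree < a := by exact_mod_cast this
    omega

end general

section field

variable {κ : Type} [Field κ] {n d : ℕ}

/-- smoothness over the field of rational functions -/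
theorem smooth_zero {F : MvPolynomial (Fin (n + 1)) κ} (hF : SmoothForm F)
    (f : Fin (n + 1) → Polynomial κ) (h0 : onC F f = 0) (h1 : ∀ i, onC (pderiv i F) f = 0) :
    f = 0 := by
  have key : ∀ G : MvPolynomial (Fin (n + 1)) κ,
      aeval (fun i => algebraMap (Polynomial κ) (RatFunc κ) (f i)) G =
        algebraMap (Polynomial κ) (RatFunc κ) (onC G f) := by
    intro G
    unfold onC
    rw [aeval_def, IsScalarTower.algebraMap_eq κ (Polynomial κ) (RatFunc κ),
      MvPolynomial.eval₂_comp_left]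
    rfl
  have h := hF (RatFunc κ) (fun i => algebraMap (Polynomial κ) (RatFunc κ) (f i))
    (by rw [key, h0, map_zero]) (fun i => by rw [key, h1, map_zero])
  funext i
  exact (map_eq_zero_iff _ (IsFractionRing.injective (Polynomial κ) (RatFunc κ))).1
    (congrFun h i)

/-- the case without steps -/
theorem base {F : MvPolynomial (Fin (n + 1)) κ} (hF : F.IsHomogeneous d) (hs : SmoothForm F)
    {a b c : ℕ} {lam : Polynomial κ →ₗ[κ] κ} (hc : (d - 1) * (a - 1) ≤ c)
    (hN : Nondeg lam ((d - 1) * (a - 1) + b) c) {z : Fin a × Fin (n + 1) → κ}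
    (hz : z ∈ NL F lam a b) : z = 0 := by
  obtain ⟨h0, h1⟩ := hz
  have h2 : ∀ i, onC (pderiv i F) (cv z) = 0 := by
    intro i
    refine hN _ ((onC_natDegree hF.pderiv _ _ (cv_natDegree z)).trans hc) fun h hh => ?_
    rw [mul_comm]
    refine h1 i h (hh.trans_le ?_)
    exact_mod_cast (by omega : (d - 1) * (a - 1) + b - c ≤ b)
  have h3 := smooth_zero hs (cv z) h0 h2
  funext t
  rw [← cv_coeff z t.2 t.1, h3]
  rfl

/-- multiplication by a polynomial on coefficient vectors -/
noncomputable def T (n a a' : ℕ) (p : Polynomial κ) :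
    (Fin a' × Fin (n + 1) → κ) →ₗ[κ] (Fin a × Fin (n + 1) → κ) where
  toFun z := fun t => (p * cv z t.2).coeff (t.1 : ℕ)
  map_add' z w := by
    funext t
    change (p * cv (z + w) t.2).coeff _ = (p * cv z t.2).coeff _ + (p * cv w t.2).coeff _
    rw [← Polynomial.coeff_add, ← mul_add]
    congr 2
    unfold cv
    rw [← Finset.sum_add_distrib]
    refine Finset.sum_congr rfl fun j _ => ?_
    rw [Pi.add_apply, Polynomial.C_add, add_mul]
  map_smul' c z := by
    funext t
    change (p * cv (c • z) t.2).coeff _ = c * (p * cv z t.2).coeff _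
    rw [← Polynomial.coeff_C_mul]
    congr 1
    unfold cv
    rw [Finset.mul_sum, Finset.mul_sum, Finset.mul_sum]
    refine Finset.sum_congr rfl fun j _ => ?_
    rw [Pi.smul_apply, smul_eq_mul, Polynomial.C_mul]
    ring

theorem T_cv (a a' : ℕ) {p : Polynomial κ} {μ : ℕ} (hp : p.degree ≤ (μ : WithBot ℕ))
    (ha : μ + a' ≤ a) (z : Fin a' × Fin (n + 1) → κ) (i : Fin (n + 1)) :
    cv (T n a a' p z) i = p * cv z i := by
  have h := cv_of (a := a) (fun i => p * cv z i) (fun i => ?_)
  · exact congrFun h i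
  · rw [Polynomial.degree_mul]
    have h1 := cv_degree z i
    by_cases hz : cv z i = 0
    · rw [hz]
      simp
    · have h2 : (p.degree + (cv z i).degree) < (μ : WithBot ℕ) + (a' : WithBot ℕ) := by
        refine (add_le_add_left hp _).trans_lt ?_
        exact WithBot.add_lt_add_left (WithBot.coe_ne_bot) h1
      refine h2.trans_le ?_
      exact_mod_cast ha

/-- linear functionals instead of coefficient vectors -/
theorem cut_of {τ : Type} [Fintype τ] {N : Set (τ → κ)} {m : ℕ}
    (l : Fin m → (τ → κ) →ₗ[κ] κ) (h : ∀ z ∈ N, (∀ s, l s z = 0) → z = 0) : Cut N m := by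
  classical
  refine ⟨fun s t => l s (Pi.single t 1), fun z hz hl => h z hz fun s => ?_⟩
  rw [← hl s, LinearMap.pi_apply_eq_sum_univ (l s) z]
  refine Finset.sum_congr rfl fun t _ => ?_
  rw [smul_eq_mul, mul_comm]
  congr 2
  funext j
  rw [Pi.single_apply]
  congr 1
  exact propext eq_comm

/-- dividing by a power of a linear polynomial -/
theorem mem_step {F : MvPolynomial (Fin (n + 1)) κ} (hF : F.IsHomogeneous d)
    {a a' b μ : ℕ} {lam : Polynomial κ →ₗ[κ] κ} {α : κ} {z : Fin a × Fin (n + 1) → κ}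
    {z' : Fin a' × Fin (n + 1) → κ} (hz : z ∈ NL F lam a b)
    (hzz : ∀ i, cv z i = (Polynomial.X - Polynomial.C α) ^ μ * cv z' i) :
    z' ∈ NL F (lam ∘ₗ LinearMap.mulLeft κ
      ((Polynomial.X - Polynomial.C α) ^ ((d - 1) * μ))) a' b := by
  have hcz : cv z = fun i => (Polynomial.X - Polynomial.C α) ^ μ * cv z' i := funext hzz
  have hq0 : (Polynomial.X - Polynomial.C α) ^ μ ≠ 0 :=
    pow_ne_zero _ (Polynomial.X_sub_C_ne_zero α)
  obtain ⟨h0, h1⟩ := hz
  refine ⟨?_, fun i h hh => ?_⟩
  · rw [hcz, onC_scale hF] at h0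
    exact (mul_eq_zero.1 h0).resolve_left (pow_ne_zero _ hq0)
  · have h3 := h1 i h hh
    rw [hcz, onC_scale hF.pderiv, ← pow_mul, mul_comm μ (d - 1), mul_left_comm] at h3
    exact h3

/-- one step -/
theorem step {F : MvPolynomial (Fin (n + 1)) κ} (hF : F.IsHomogeneous d)
    {a b μ m' : ℕ} {lam : Polynomial κ →ₗ[κ] κ} {α : κ} (ha : μ ≤ a)
    (h : Cut (NL F (lam ∘ₗ LinearMap.mulLeft κ
      ((Polynomial.X - Polynomial.C α) ^ ((d - 1) * μ))) (a - μ) b) m') :
    Cut {z | z ∈ NL F lam a b ∧ ∀ i, (Polynomial.X - Polynomial.C α) ^ μ ∣ cv z i} m' := by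
  obtain ⟨l, hl⟩ := h
  have hq : ((Polynomial.X - Polynomial.C α) ^ μ).degree = (μ : WithBot ℕ) := by
    rw [Polynomial.degree_pow, Polynomial.degree_X_sub_C]
    simp
  have hq0 : (Polynomial.X - Polynomial.C α) ^ μ ≠ 0 := pow_ne_zero _ (Polynomial.X_sub_C_ne_zero α)
  have hT : ∀ (z : Fin (a - μ) × Fin (n + 1) → κ) (i : Fin (n + 1)),
      cv (T n a (a - μ) ((Polynomial.X - Polynomial.C α) ^ μ) z) i =
        (Polynomial.X - Polynomial.C α) ^ μ * cv z i :=
    T_cv a (a - μ) hq.le (by omega)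
  have hinj : LinearMap.ker (T n a (a - μ) ((Polynomial.X - Polynomial.C α) ^ μ)) = ⊥ := by
    rw [LinearMap.ker_eq_bot']
    intro z hz
    funext t
    have h1 := hT z t.2
    rw [hz] at h1
    have h2 : cv (0 : Fin a × Fin (n + 1) → κ) t.2 = 0 := by
      unfold cv
      simp
    rw [h2] at h1
    have h3 := (mul_eq_zero.1 h1.symm).resolve_left hq0
    rw [← cv_coeff z t.2 t.1, h3]
    rfl
  obtain ⟨R, hR⟩ := LinearMap.exists_leftInverse_of_injective _ hinj
  refine cut_of (fun s => (Fintype.linearCombination κ (l s)) ∘ₗ R) fun z hz hs => ?_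
  obtain ⟨h0, h2⟩ := hz
  choose g hg using h2
  have hgd : ∀ i, (g i).degree < ((a - μ : ℕ) : WithBot ℕ) := by
    intro i
    by_cases hgi : g i = 0
    · rw [hgi]
      simp
    · have h3 := cv_degree z i
      rw [hg i, Polynomial.degree_mul, hq, Polynomial.degree_eq_natDegree hgi] at h3
      rw [Polynomial.degree_eq_natDegree hgi]
      have h4 : μ + (g i).natDegree < a := by exact_mod_cast h3
      exact_mod_cast (by omega : (g i).natDegree < a - μ)
  have hcv : cv (fun t : Fin (a - μ) × Fin (n + 1) => (g t.2).coeff (t.1 : ℕ)) = g := cv_of g hgd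
  have hTz : T n a (a - μ) ((Polynomial.X - Polynomial.C α) ^ μ)
      (fun t : Fin (a - μ) × Fin (n + 1) => (g t.2).coeff (t.1 : ℕ)) = z := by
    funext t
    rw [← cv_coeff (T n a (a - μ) _ _) t.2 t.1, hT _ t.2, hcv, ← hg t.2, cv_coeff z t.2 t.1]
  have hRz : R z = fun t : Fin (a - μ) × Fin (n + 1) => (g t.2).coeff (t.1 : ℕ) := by
    rw [← hTz]
    exact LinearMap.congr_fun hR _
  have hmem := mem_step hF (a' := a - μ)
    (z' := fun t : Fin (a - μ) × Fin (n + 1) => (g t.2).coeff (t.1 : ℕ)) h0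
    (fun i => by rw [hcv]; exact hg i)
  have hz0 := hl _ hmem fun s => by
    have h4 := hs s
    rw [LinearMap.comp_apply, hRz, Fintype.linearCombination_apply] at h4
    rw [← h4]
    refine Finset.sum_congr rfl fun t _ => ?_
    rw [smul_eq_mul, mul_comm]
  rw [← hTz, hz0, map_zero]

/-- the induction -/
theorem main (hNLC : T_NLC) (hSUB : T_SUB) (hMUL : T_MUL) [IsAlgClosed κ]
    {F : MvPolynomial (Fin (n + 1)) κ} (hd : 2 ≤ d) (hF : F.IsHomogeneous d)
    (hs : SmoothForm F) {μ m : ℕ} (hm : Cut (Qset F μ) m) (k : ℕ) :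
    ∀ (a b c : ℕ) (lam : Polynomial κ →ₗ[κ] κ), k * μ + 1 ≤ a →
      Nondeg lam ((d - 1) * (a - 1) + b) c → (d - 1) * (a - 1 - k * μ) ≤ c →
      (1 ≤ k → (d - 1) * (a - 1) ≤ b + (k - 1) * ((d - 1) * μ)) →
      Cut (NL F lam a b) (k * m) := by
  induction k with
  | zero =>
    intro a b c lam _ hN hc _
    rw [zero_mul]
    refine ⟨fun s => s.elim0, fun z hz _ => base hF hs ?_ hN hz⟩
    simpa using hc
  | succ k ih =>
    intro a b c lam ha hN hc hb
    have hb' := hb (by omega)
    rw [Nat.add_sub_cancel] at hb'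
    have ha' : k * μ + μ + 1 ≤ a := by rw [Nat.succ_mul] at ha; exact ha
    have hinf : Infinite κ := IsAlgClosed.instInfinite
    -- the bound for the degree after all steps
    obtain ⟨r, hr⟩ : ∃ r, a = k * μ + μ + 1 + r := ⟨a - (k * μ + μ + 1), by omega⟩
    have e1 : a - 1 - (k + 1) * μ = r := by rw [Nat.succ_mul]; omega
    have e2 : a - 1 = k * μ + μ + r := by omega
    rw [e1] at hc
    have hsum : (d - 1) * (a - 1) = (d - 1) * (k * μ) + (d - 1) * μ + (d - 1) * r := by
      rw [e2]
      ring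
    have hkm : k * ((d - 1) * μ) = (d - 1) * (k * μ) := by ring
    rw [hkm, hsum] at hb'
    obtain ⟨S, hS⟩ := hMUL κ lam ((d - 1) * (a - 1) + b) c ((d - 1) * r) ((d - 1) * μ) hN hc
      (by rw [hsum]; omega)
    obtain ⟨α, hα⟩ := Infinite.exists_notMem_finset S
    have hND := hS α hα
    have e3 : (d - 1) * (a - 1) + b - (d - 1) * μ = (d - 1) * (a - μ - 1) + b := by
      have : a - μ - 1 = k * μ + r := by omega
      rw [hsum, this, mul_add]
      omega
    rw [e3] at hND
    have h1 := ih (a - μ) b ((d - 1) * r) _ (by omega) hND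
      (by rw [show a - μ - 1 - k * μ = r by omega]) (fun hk => ?_)
    · obtain ⟨m1, h, e, hh, hE⟩ := hNLC κ n d a b F lam (by omega) (by omega) hF
      have hcone : ACone (NL F lam a b) := by
        refine ⟨m1, h, e, hh, fun z => ?_⟩
        have h3 := hE κ lam (fun j _ => rfl) z
        rw [Algebra.algebraMap_self, MvPolynomial.map_id] at h3
        rw [← h3]
        exact Iff.rfl
      have h4 := hSUB κ n d a μ m (k * m) α F (NL F lam a b) hF hcone (fun z hz => hz.1) hm
        (step hF (by omega) h1)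
      rw [Nat.succ_mul, Nat.add_comm (k * m) m]
      exact h4
    · obtain ⟨k', rfl⟩ : ∃ k', k = k' + 1 := ⟨k - 1, by omega⟩
      have e4 : a - μ - 1 = (k' + 1) * μ + r := by omega
      rw [e4, Nat.add_sub_cancel]
      have e5 : k' * ((d - 1) * μ) = (d - 1) * (k' * μ) := by ring
      have e6 : (d - 1) * ((k' + 1) * μ + r) =
          (d - 1) * (k' * μ) + (d - 1) * μ + (d - 1) * r := by ring
      have e7 : (d - 1) * ((k' + 1) * μ) = (d - 1) * (k' * μ) + (d - 1) * μ := by ring
      rw [e5, e6]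
      rw [e7] at hb'
      omega

end field

end NLB_

open NLB_ in
/-- Bound for the curves with gradients killed by a fixed functional. -/
theorem p_NLB (hNLC : T_NLC) (hSUB : T_SUB) (hMUL : T_MUL) : T_NLB := by
  intro κ _ _ n d F hd hF hs μ m a b c k lam _ hm _ ha hN hc hb
  exact main hNLC hSUB hMUL hd hF hs hm k a b c lam ha hN hc fun _ => hb

end Pool.Agent.FCV
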