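import Pool.Agent.FCV.TargetsG

/-!
# Free curves on hypersurfaces: the cone `NL` is closed
-/

set_option autoImplicit false

open MvPolynomial

namespace Pool.Agent.FCV

/-- All coefficients are homogeneous of degree `D`. -/
def NLC_H {τ A : Type} [CommRing A] (D : ℕ) (P : Polynomial (MvPolynomial τ A)) : Prop :=
  ∀ j, (P.coeff j).IsHomogeneous D

section

variable {τ A : Type} [CommRing A]

theorem NLC_H_mul {D E : ℕ} {P Q : Polynomial (MvPolynomial τ A)} (hP : NLC_H D P)
    (hQ : NLC_H E Q) : NLC_H (D + E) (P * Q) := by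
  intro j
  rw [Polynomial.coeff_mul]
  exact IsHomogeneous.sum _ _ _ fun x _ => (hP x.1).mul (hQ x.2)

theorem NLC_H_pow {D : ℕ} {P : Polynomial (MvPolynomial τ A)} (hP : NLC_H D P) (k : ℕ) :
    NLC_H (k * D) (P ^ k) := by
  induction k with
  | zero =>
    intro j
    rw [pow_zero, Polynomial.coeff_one, zero_mul]
    split_ifs
    · exact isHomogeneous_one _ _
    · exact isHomogeneous_zero _ _ _
  | succ k ih =>
    rw [pow_succ, add_mul, one_mul]
    exact NLC_H_mul ih hP

theorem NLC_H_prod {ι : Type} (s : Finset ι) (D : ι → ℕ)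
    (P : ι → Polynomial (MvPolynomial τ A)) (h : ∀ i ∈ s, NLC_H (D i) (P i)) :
    NLC_H (∑ i ∈ s, D i) (∏ i ∈ s, P i) := by
  classical
  induction s using Finset.induction with
  | empty =>
    intro j
    rw [Finset.prod_empty, Finset.sum_empty, Polynomial.coeff_one]
    split_ifs
    · exact isHomogeneous_one _ _
    · exact isHomogeneous_zero _ _ _
  | insert a s ha ih =>
    rw [Finset.prod_insert ha, Finset.sum_insert ha]
    exact NLC_H_mul (h a (Finset.mem_insert_self a s))
      (ih fun i hi => h i (Finset.mem_insert_of_mem hi))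

theorem NLC_H_cv {n a : ℕ} (i : Fin (n + 1)) :
    NLC_H 1 (cv (fun t : Fin a × Fin (n + 1) => (X t : MvPolynomial (Fin a × Fin (n + 1)) A))
      i) := by
  intro j
  unfold cv
  rw [Polynomial.finsetSum_coeff]
  refine IsHomogeneous.sum _ _ _ fun x _ => ?_
  rw [Polynomial.coeff_C_mul, Polynomial.coeff_X_pow]
  split_ifs
  · rw [mul_one]
    exact isHomogeneous_X _ _
  · rw [mul_zero]
    exact isHomogeneous_zero _ _ _

theorem NLC_H_onC {n a D : ℕ} (G : MvPolynomial (Fin (n + 1)) A) (hG : G.IsHomogeneous D) :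
    NLC_H D (onC (G.map (C : A →+* MvPolynomial (Fin a × Fin (n + 1)) A)) (cv X)) := by
  intro j
  unfold onC
  rw [eval₂_eq', Polynomial.finsetSum_coeff]
  refine IsHomogeneous.sum _ _ _ fun m hm => ?_
  have hm' : G.coeff m ≠ 0 := by
    intro h0
    rw [mem_support_iff, coeff_map, h0, map_zero] at hm
    exact hm rfl
  rw [coeff_map, Polynomial.coeff_C_mul]
  have h1 : NLC_H (∑ i, m i * 1)
      (∏ i, (cv (fun t : Fin a × Fin (n + 1) => (X t : MvPolynomial (Fin a × Fin (n + 1)) A)) i)
        ^ m i) :=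
    NLC_H_prod _ _ _ fun i _ => NLC_H_pow (NLC_H_cv i) (m i)
  have h2 : ∑ i, m i * 1 = D := by
    have h3 := hG hm'
    rw [Finsupp.weight_apply, Finsupp.sum_fintype _ _ (fun _ => by simp)] at h3
    simpa using h3
  rw [h2] at h1
  have h4 := (isHomogeneous_C (Fin a × Fin (n + 1)) (G.coeff m)).mul (h1 j)
  rwa [zero_add] at h4

end

section

variable {L : Type} [Field L]

theorem NLC_cv_deg {n a : ℕ} (z : Fin a × Fin (n + 1) → L) (i : Fin (n + 1)) :
    (cv z i).natDegree ≤ a - 1 := by
  unfold cv
  refine Polynomial.natDegree_sum_le_of_forall_le _ _ fun j _ => ?_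
  refine (Polynomial.natDegree_C_mul_X_pow_le _ _).trans ?_
  have := j.2
  omega

theorem NLC_deg {σ : Type} [Fintype σ] {D e : ℕ} (G : MvPolynomial σ L) (hG : G.IsHomogeneous D)
    (f : σ → Polynomial L) (hf : ∀ i, (f i).natDegree ≤ e) :
    (onC G f).natDegree ≤ D * e := by
  unfold onC
  rw [eval₂_eq']
  refine Polynomial.natDegree_sum_le_of_forall_le _ _ fun m hm => ?_
  refine (Polynomial.natDegree_C_mul_le _ _).trans ?_
  refine (Polynomial.natDegree_prod_le _ _).trans ?_
  have h2 : ∑ i, m i = D := by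
    have h3 := hG (mem_support_iff.1 hm)
    rw [Finsupp.weight_apply, Finsupp.sum_fintype _ _ (fun _ => by simp)] at h3
    simpa using h3
  rw [← h2, Finset.sum_mul]
  refine Finset.sum_le_sum fun i _ => ?_
  exact Polynomial.natDegree_pow_le.trans (Nat.mul_le_mul_left _ (hf i))

theorem NLC_lin (lam : Polynomial L →ₗ[L] L) (P : Polynomial L) (b : ℕ) :
    (∀ h : Polynomial L, h.degree < (b : WithBot ℕ) → lam (h * P) = 0) ↔
      ∀ s : Fin b, lam (Polynomial.X ^ (s : ℕ) * P) = 0 := by
  constructor
  · intro h s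
    refine h _ ((Polynomial.degree_X_pow_le _).trans_lt ?_)
    exact_mod_cast s.2
  · intro h g hg
    by_cases hg0 : g = 0
    · rw [hg0, zero_mul, map_zero]
    have h1 : g = ∑ s : Fin b, Polynomial.C (g.coeff s) * Polynomial.X ^ (s : ℕ) := by
      rw [Fin.sum_univ_eq_sum_range (fun s => Polynomial.C (g.coeff s) * Polynomial.X ^ s) b]
      exact Polynomial.as_sum_range_C_mul_X_pow' _
        ((Polynomial.natDegree_lt_iff_degree_lt hg0).2 hg)
    rw [h1, Finset.sum_mul, map_sum]
    refine Finset.sum_eq_zero fun s _ => ?_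
    rw [mul_assoc, ← Polynomial.smul_eq_C_mul, map_smul, h s, smul_zero]

end

/-- The cone `NL` is closed. -/
theorem p_NLC (hQC : T_QC) : T_NLC := by
  intro κ _ n d a b F lam hd ha hF
  obtain ⟨m₀, h₀, e₀, hh₀, hz₀⟩ := hQC κ n d a F hF
  classical
  set U : Fin (n + 1) → Polynomial (MvPolynomial (Fin a × Fin (n + 1)) κ) := fun i =>
    onC ((pderiv i F).map (C : κ →+* MvPolynomial (Fin a × Fin (n + 1)) κ)) (cv X) with hU
  set H : Fin b × Fin (n + 1) → MvPolynomial (Fin a × Fin (n + 1)) κ := fun p =>
    ∑ j ∈ Finset.range ((d - 1) * (a - 1) + 1),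
      C (lam (Polynomial.X ^ (j + (p.1 : ℕ)))) * (U p.2).coeff j with hH
  have hHh : ∀ p, (H p).IsHomogeneous (d - 1) := by
    intro p
    refine IsHomogeneous.sum _ _ _ fun j _ => ?_
    have h1 := (isHomogeneous_C (Fin a × Fin (n + 1))
      (lam (Polynomial.X ^ (j + (p.1 : ℕ))))).mul
      (NLC_H_onC (a := a) (pderiv p.2 F) (hF.pderiv (i := p.2)) j)
    rwa [zero_add] at h1
  let I : Type := Fin m₀ ⊕ (Fin b × Fin (n + 1))
  refine ⟨Fintype.card I, fun i => Sum.elim h₀ H ((Fintype.equivFin I).symm i),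
    fun i => Sum.elim e₀ (fun _ => d - 1) ((Fintype.equivFin I).symm i), ?_, ?_⟩
  · intro i
    dsimp only
    generalize (Fintype.equivFin I).symm i = x
    rcases x with j | p
    · exact hh₀ j
    · exact hHh p
  · intro L _ _ lam' hlam z
    have key : ∀ p : Fin b × Fin (n + 1), aeval z (H p) =
        lam' (Polynomial.X ^ (p.1 : ℕ) *
          onC (pderiv p.2 (F.map (algebraMap κ L))) (cv z)) := by
      rintro ⟨s, i⟩
      have hUz : onC (pderiv i (F.map (algebraMap κ L))) (cv z) =
          (U i).map (aeval z : MvPolynomial (Fin a × Fin (n + 1)) κ →ₐ[κ] L).toRingHom := by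
        rw [hU]
        dsimp only
        rw [← onC_map]
        congr 1
        · have e0 : (aeval z : MvPolynomial (Fin a × Fin (n + 1)) κ →ₐ[κ] L).toRingHom.comp C =
              algebraMap κ L := by
            ext c
            simp
          rw [pderiv_map, map_map, e0]
        · funext i
          simp [cv, Polynomial.map_sum]
      have hdeg : (onC (pderiv i (F.map (algebraMap κ L))) (cv z)).natDegree ≤
          (d - 1) * (a - 1) :=
        NLC_deg _ ((hF.map (algebraMap κ L)).pderiv (i := i)) _ (NLC_cv_deg z)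
      have hsum := Polynomial.as_sum_range_C_mul_X_pow'
        (p := onC (pderiv i (F.map (algebraMap κ L))) (cv z))
        (n := (d - 1) * (a - 1) + 1)
        (Nat.lt_succ_of_le hdeg)
      rw [hsum, Finset.mul_sum, map_sum, map_sum]
      refine Finset.sum_congr rfl fun j hj => ?_
      rw [Finset.mem_range] at hj
      have e1 : (Polynomial.X : Polynomial L) ^ (s : ℕ) *
          (Polynomial.C ((onC (pderiv i (F.map (algebraMap κ L))) (cv z)).coeff j) *
            Polynomial.X ^ j) =
          ((onC (pderiv i (F.map (algebraMap κ L))) (cv z)).coeff j) •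
            Polynomial.X ^ (j + (s : ℕ)) := by
        rw [Polynomial.smul_eq_C_mul, pow_add]
        ring
      rw [e1, map_smul, hlam (j + s) (by have := s.2; omega), smul_eq_mul, map_mul, hUz,
        Polynomial.coeff_map, mul_comm]
      congr 1
      simp
    have hNL : z ∈ NL (F.map (algebraMap κ L)) lam' a b ↔
        (∀ i, aeval z (h₀ i) = 0) ∧ ∀ p, aeval z (H p) = 0 := by
      rw [hz₀ L z]
      constructor
      · rintro ⟨h1, h2⟩
        refine ⟨h1, fun p => ?_⟩
        rw [key p]
        exact (NLC_lin lam' _ b).1 (h2 p.2) p.1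
      · rintro ⟨h1, h2⟩
        refine ⟨h1, fun i => (NLC_lin lam' _ b).2 fun s => ?_⟩
        rw [← key (s, i)]
        exact h2 (s, i)
    rw [hNL]
    constructor
    · intro h
      refine ⟨fun i => ?_, fun p => ?_⟩
      · have := h (Fintype.equivFin I (Sum.inl i))
        simpa using this
      · have := h (Fintype.equivFin I (Sum.inr p))
        simpa using this
    · rintro ⟨h1, h2⟩ i
      dsimp only
      generalize (Fintype.equivFin I).symm i = x
      rcases x with j | p
      · exact h1 j
      · exact h2 p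

end Pool.Agent.FCV
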