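import Pool.Agent.FCV.TargetsM

/-!
# Finite extensions of large fields are large
-/

set_option autoImplicit false

open MvPolynomial

namespace Pool.Agent.FCV.NPF_

section res

variable {E E' τ : Type} [Field E] [Field E'] [Algebra E E']

/-- Apply a linear form to the coefficients. -/
noncomputable def res (c : E' →ₗ[E] E) (P : MvPolynomial τ E') : MvPolynomial τ E :=
  ∑ m ∈ P.support, monomial m (c (P.coeff m))

theorem coeff_res (c : E' →ₗ[E] E) (P : MvPolynomial τ E') (m : τ →₀ ℕ) :
    (res c P).coeff m = c (P.coeff m) := by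
  classical
  unfold res
  rw [coeff_sum]
  simp only [coeff_monomial]
  rw [Finset.sum_ite_eq']
  split_ifs with h
  · rfl
  · rw [notMem_support_iff.1 h, map_zero]

theorem res_add (c : E' →ₗ[E] E) (P Q : MvPolynomial τ E') :
    res c (P + Q) = res c P + res c Q := by
  ext m
  rw [coeff_add, coeff_res, coeff_res, coeff_res, coeff_add, map_add]

theorem res_monomial (c : E' →ₗ[E] E) (m : τ →₀ ℕ) (a : E') :
    res c (monomial m a) = monomial m (c a) := by
  classical
  ext k
  rw [coeff_res, coeff_monomial, coeff_monomial]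
  split_ifs with h
  · rfl
  · rw [map_zero]

theorem eval_res (c : E' →ₗ[E] E) (P : MvPolynomial τ E') (x : τ → E) :
    eval x (res c P) = c (eval (fun t => algebraMap E E' (x t)) P) := by
  induction P using MvPolynomial.induction_on' with
  | monomial m a =>
    rw [res_monomial, eval_monomial, eval_monomial]
    have h : (m.prod fun n e => (algebraMap E E' (x n)) ^ e) =
        algebraMap E E' (m.prod fun n e => (x n) ^ e) := by
      rw [Finsupp.prod, Finsupp.prod, map_prod]
      exact Finset.prod_congr rfl fun i _ => by rw [map_pow]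
    rw [h, mul_comm a, ← Algebra.smul_def, map_smul, smul_eq_mul, mul_comm]
  | add P Q hP hQ => rw [res_add, map_add, hP, hQ, map_add, map_add]

theorem pderiv_res (c : E' →ₗ[E] E) (P : MvPolynomial τ E') (i : τ) :
    pderiv i (res c P) = res c (pderiv i P) := by
  induction P using MvPolynomial.induction_on' with
  | monomial m a =>
    rw [res_monomial, pderiv_monomial, pderiv_monomial, res_monomial]
    congr 1
    rw [mul_comm a, ← nsmul_eq_mul, map_nsmul, nsmul_eq_mul, mul_comm]
  | add P Q hP hQ => rw [res_add, map_add, hP, hQ, map_add, res_add]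

end res

section sub

variable {E E' ι S : Type} [Field E] [Field E'] [Algebra E E'] [Fintype S]

/-- Substitution of coordinates. -/
noncomputable def gs (b : Module.Basis S E E') (o : Option ι) :
    MvPolynomial (Option (ι × S)) E' :=
  o.elim (X none) fun i => ∑ s, C (b s) * X (some (i, s))

theorem eval_gs (b : Module.Basis S E E') (θ : E) (z : ι × S → E) (P : MvPolynomial (Option ι) E') :
    eval (fun t => algebraMap E E' ((fun o : Option (ι × S) => o.elim θ z) t))
      (bind₁ (gs b) P) =
      eval (fun o : Option ι => o.elim (algebraMap E E' θ) fun i => ∑ s, z (i, s) • b s) P := by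
  refine (eval₂Hom_bind₁ (RingHom.id E') _ (gs b) P).trans ?_
  have h : (fun o : Option ι => eval₂Hom (RingHom.id E') (fun t => algebraMap E E'
      ((fun o : Option (ι × S) => o.elim θ z) t)) (gs b o)) =
      fun o : Option ι => o.elim (algebraMap E E' θ) fun i => ∑ s, z (i, s) • b s := ?_
  · rw [h]; rfl
  funext o
  change eval _ (gs b o) = _
  cases o with
  | none => simp [gs]
  | some i =>
    simp only [gs, Option.elim_some, map_sum, map_mul, eval_C, eval_X]
    exact Finset.sum_congr rfl fun s _ => by rw [Algebra.smul_def, mul_comm]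

theorem pderiv_gs (b : Module.Basis S E E') (P : MvPolynomial (Option ι) E') (i : ι) (t : S) :
    pderiv (some (i, t)) (bind₁ (gs b) P) = bind₁ (gs b) (pderiv (some i) P) * C (b t) := by
  classical
  induction P using MvPolynomial.induction_on with
  | C a => simp
  | add P Q hP hQ => rw [map_add, map_add, hP, hQ, map_add, map_add, add_mul]
  | mul_X P o hP =>
    rw [map_mul, pderiv_mul, hP, pderiv_mul, map_add, map_mul, map_mul, bind₁_X_right, add_mul]
    have h : pderiv (some (i, t)) (gs b o) = bind₁ (gs b) (pderiv (some i) (X o)) * C (b t) := by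
      cases o with
      | none =>
        rw [pderiv_X_of_ne (by simp), map_zero, zero_mul]
        simp only [gs, Option.elim_none]
        exact pderiv_X_of_ne (by simp)
      | some i' =>
        simp only [gs, Option.elim_some, map_sum, pderiv_C_mul]
        by_cases hi : i' = i
        · subst hi
          rw [pderiv_X_self, map_one, one_mul, Finset.sum_eq_single t]
          · rw [pderiv_X_self, mul_one]
          · intro s _ hs
            rw [pderiv_X_of_ne (by simpa using hs), mul_zero]
          · intro h; exact absurd (Finset.mem_univ _) h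
        · rw [pderiv_X_of_ne (by simpa using hi), map_zero, zero_mul]
          refine Finset.sum_eq_zero fun s _ => ?_
          rw [pderiv_X_of_ne (by simp [hi]), mul_zero]
    rw [h]
    ring

end sub

end Pool.Agent.FCV.NPF_

namespace Pool.Agent.FCV

open NPF_

theorem p_NPF : T_NPF := by
  intro E E' _ _ _ _ hE ι J _ _ Φ D z₀ h0 hD hsur
  classical
  let b := Module.finBasis E E'
  set n := Module.finrank E E' with hn
  let c : Fin n → (E' →ₗ[E] E) := fun s => b.coord s
  have hz : (fun i => ∑ s, b.repr (z₀ i) s • b s) = z₀ := by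
    funext i; exact b.sum_repr (z₀ i)
  have hcz : ∀ a : E', (∀ s, c s a = 0) → a = 0 := fun a ha => (b.forall_coord_eq_zero_iff).1 ha
  have hbase : ∀ P : MvPolynomial (Option ι) E',
      eval (fun t => algebraMap E E' ((fun o : Option (ι × Fin n) => o.elim 0
        (fun p : ι × Fin n => b.repr (z₀ p.1) p.2)) t)) (bind₁ (gs b) P) =
      eval (fun o : Option ι => o.elim 0 z₀) P := by
    intro P
    rw [eval_gs b 0 (fun p : ι × Fin n => b.repr (z₀ p.1) p.2) P]
    simp only [map_zero]
    rw [hz]
  obtain ⟨s0, hs0⟩ : ∃ s0, c s0 (eval (fun o : Option ι => o.elim 0 z₀) D) ≠ 0 := by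
    by_contra hcon
    simp only [not_exists, not_not] at hcon
    exact hD (hcz _ hcon)
  have g1 : ∀ p : J × Fin n, eval (fun o : Option (ι × Fin n) => o.elim 0
      (fun p : ι × Fin n => b.repr (z₀ p.1) p.2)) (res (c p.2) (bind₁ (gs b) (Φ p.1))) = 0 := by
    intro p
    rw [eval_res, hbase, h0, map_zero]
  have g2 : eval (fun o : Option (ι × Fin n) => o.elim 0
      (fun p : ι × Fin n => b.repr (z₀ p.1) p.2)) (res (c s0) (bind₁ (gs b) D)) ≠ 0 := by
    rw [eval_res, hbase]
    exact hs0
  have g3 : ∀ w : J × Fin n → E, ∃ u : ι × Fin n → E, ∀ p : J × Fin n,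
      ∑ q, u q * eval (fun o : Option (ι × Fin n) => o.elim 0
        (fun p : ι × Fin n => b.repr (z₀ p.1) p.2))
        (pderiv (some q) (res (c p.2) (bind₁ (gs b) (Φ p.1)))) = w p := by
    intro w
    obtain ⟨u, hu⟩ := hsur fun j => ∑ s, w (j, s) • b s
    refine ⟨fun p => b.repr (u p.1) p.2, fun p => ?_⟩
    obtain ⟨j, s⟩ := p
    have h1 : ∀ i : ι, ∀ t : Fin n,
        eval (fun o : Option (ι × Fin n) => o.elim 0 (fun p : ι × Fin n => b.repr (z₀ p.1) p.2))
          (pderiv (some (i, t)) (res (c s) (bind₁ (gs b) (Φ j)))) =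
        c s (eval (fun o : Option ι => o.elim 0 z₀) (pderiv (some i) (Φ j)) * b t) := by
      intro i t
      rw [pderiv_res, eval_res, pderiv_gs, map_mul, hbase, eval_C]
    rw [Fintype.sum_prod_type]
    simp only [h1]
    have h2 : ∀ i : ι, ∑ t : Fin n, b.repr (u i) t *
        c s (eval (fun o : Option ι => o.elim 0 z₀) (pderiv (some i) (Φ j)) * b t) =
        c s (u i * eval (fun o : Option ι => o.elim 0 z₀) (pderiv (some i) (Φ j))) := by
      intro i
      have h3 : u i * eval (fun o : Option ι => o.elim 0 z₀) (pderiv (some i) (Φ j)) =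
          ∑ t : Fin n, b.repr (u i) t •
            (eval (fun o : Option ι => o.elim 0 z₀) (pderiv (some i) (Φ j)) * b t) := by
        conv_lhs => rw [← b.sum_repr (u i)]
        rw [Finset.sum_mul]
        refine Finset.sum_congr rfl fun t _ => ?_
        rw [smul_mul_assoc, mul_comm (b t)]
      rw [h3, map_sum]
      refine Finset.sum_congr rfl fun t _ => ?_
      rw [map_smul, smul_eq_mul]
    simp only [h2]
    rw [← map_sum, hu j, map_sum]
    simp only [map_smul, smul_eq_mul]
    rw [Finset.sum_eq_single s]
    · have : c s (b s) = 1 := by simp [c]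
      rw [this, mul_one]
    · intro t _ ht
      have : c s (b t) = 0 := by
        simp only [c, Module.Basis.coord_apply, Module.Basis.repr_self]
        exact Finsupp.single_eq_of_ne (Ne.symm ht)
      rw [this, mul_zero]
    · intro h; exact absurd (Finset.mem_univ _) h
  obtain ⟨θ, z, hθ, hz1, hz2⟩ := hE (ι × Fin n) (J × Fin n)
    (fun p => res (c p.2) (bind₁ (gs b) (Φ p.1))) (res (c s0) (bind₁ (gs b) D))
    (fun p => b.repr (z₀ p.1) p.2) g1 g2 g3
  refine ⟨algebraMap E E' θ, fun i => ∑ s, z (i, s) • b s, ?_, ?_, ?_⟩
  · exact fun h => hθ ((algebraMap E E').injective (by rw [h, map_zero]))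
  · intro j
    refine hcz _ fun s => ?_
    have := hz1 (j, s)
    rw [eval_res, eval_gs] at this
    exact this
  · intro h
    apply hz2
    rw [eval_res, eval_gs, h, map_zero]

end Pool.Agent.FCV
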