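import Pool.Agent.FCV.TargetsL

/-!
# Natural functions are polynomials
-/

set_option autoImplicit false

open MvPolynomial

namespace Pool.Agent.FCV

namespace NPN_

/-- the value of a polynomial over the dual numbers -/
lemma dual {σ E : Type} [Fintype σ] [Field E] (a b : σ → E) (P : MvPolynomial σ E) :
    aeval (fun o => (TrivSqZeroExt.inl (a o) + TrivSqZeroExt.inr (b o) : DualNumber E)) P =
      TrivSqZeroExt.inl (eval a P) +
        TrivSqZeroExt.inr (∑ o, b o * eval a (pderiv o P)) := by
  classical
  induction P using MvPolynomial.induction_on with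
  | C c =>
    simp only [algHom_C, eval_C, pderiv_C, map_zero, mul_zero, Finset.sum_const_zero,
      TrivSqZeroExt.inr_zero, add_zero]
    rfl
  | add p q hp hq =>
    rw [map_add, hp, hq, map_add]
    simp only [map_add, mul_add, Finset.sum_add_distrib, TrivSqZeroExt.inl_add,
      TrivSqZeroExt.inr_add]
    abel
  | mul_X p i hp =>
    rw [map_mul, hp, aeval_X]
    apply TrivSqZeroExt.ext
    · simp [TrivSqZeroExt.fst_mul]
    · simp only [TrivSqZeroExt.snd_mul, TrivSqZeroExt.fst_add, TrivSqZeroExt.fst_inl,
        TrivSqZeroExt.fst_inr, add_zero, TrivSqZeroExt.snd_add, TrivSqZeroExt.snd_inl,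
        TrivSqZeroExt.snd_inr, zero_add, smul_eq_mul, MulOpposite.smul_eq_mul_unop,
        MulOpposite.unop_op, map_mul, eval_X]
      have h1 : ∀ o, b o * eval a (pderiv o (p * X i)) =
          (b o * eval a (pderiv o p)) * a i + (if o = i then b i * eval a p else 0) := by
        intro o
        rw [Derivation.leibniz, pderiv_X, smul_eq_mul, smul_eq_mul]
        by_cases h : o = i
        · subst h
          simp
          ring
        · simp [h]
          ring
      simp only [h1, Finset.sum_add_distrib, ← Finset.sum_mul, Finset.sum_ite_eq',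
        Finset.mem_univ, if_true]
      ring

lemma ev {σ E : Type} [Field E] (a : σ → E) (P : MvPolynomial σ E) : eval a P = aeval a P := by
  rw [← coe_aeval_eq_eval]
  rfl

variable {E ι : Type} [Field E]

/-- the universal point -/
lemma univ {B : Type} [CommRing B] [Algebra E B] {J : Type}
    (Ψ : ∀ (B : Type) [CommRing B] [Algebra E B], B → (ι → B) → J → B)
    (hΨ : ∀ (B B' : Type) [CommRing B] [CommRing B'] [Algebra E B] [Algebra E B']
      (φ : B →ₐ[E] B') (θ : B) (z : ι → B) (j : J),
      Ψ B' (φ θ) (fun i => φ (z i)) j = φ (Ψ B θ z j)) (θ : B) (z : ι → B) (j : J) :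
    aeval (fun o : Option ι => o.elim θ z)
      (Ψ (MvPolynomial (Option ι) E) (X none) (fun i => X (some i)) j) = Ψ B θ z j := by
  rw [← hΨ]
  simp only [aeval_X, Option.elim_none, Option.elim_some]

/-- dual numbers with parameter `0` -/
lemma dual0 [Fintype ι] (z₀ u : ι → E) (P : MvPolynomial (Option ι) E) :
    aeval (fun o : Option ι => (o.elim 0 (fun i => TrivSqZeroExt.inl (z₀ i) +
      TrivSqZeroExt.inr (u i)) : DualNumber E)) P =
      TrivSqZeroExt.inl (eval (fun o : Option ι => o.elim 0 z₀) P) + TrivSqZeroExt.inr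
        (∑ i, u i * eval (fun o : Option ι => o.elim 0 z₀) (pderiv (some i) P)) := by
  have h := dual (fun o : Option ι => o.elim 0 z₀) (fun o : Option ι => o.elim 0 u) P
  rw [Fintype.sum_option] at h
  simp only [Option.elim_none, Option.elim_some, zero_mul, zero_add] at h
  rw [← h]
  congr 2
  funext o
  cases o with
  | none => simp
  | some i => rfl

lemma nat_elim {B B' : Type} [CommRing B] [CommRing B'] [Algebra E B] [Algebra E B']
    (φ : B →ₐ[E] B') (θ : B) (z : ι → B) (P : MvPolynomial (Option ι) E) :
    aeval (fun o : Option ι => o.elim (φ θ) (fun i => φ (z i))) P =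
      φ (aeval (fun o : Option ι => o.elim θ z) P) := by
  rw [comp_aeval_apply]
  congr 2
  funext o
  cases o <;> rfl

end NPN_

open NPN_ in
theorem p_NPN : T_NPN := by
  intro E _
  constructor
  · intro hNP ι J _ _ Ψ D hΨ hD z₀ h0 hD0 hsur
    have hE : ∀ (θ : E) (z : ι → E) (j : J), eval (fun o : Option ι => o.elim θ z)
        (Ψ (MvPolynomial (Option ι) E) (X none) (fun i => X (some i)) j) = Ψ E θ z j := by
      intro θ z j
      rw [← univ Ψ hΨ θ z j, ev]
    have hED : ∀ (θ : E) (z : ι → E), eval (fun o : Option ι => o.elim θ z)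
        (D (MvPolynomial (Option ι) E) (X none) (fun i => X (some i))) = D E θ z := by
      intro θ z
      rw [← univ (J := Unit) (fun B _ _ θ z _ => D B θ z)
        (fun B B' _ _ _ _ φ θ z _ => hD B B' φ θ z) θ z (), ev]
    obtain ⟨θ, z, h1, h2, h3⟩ := hNP ι J
      (fun j => Ψ (MvPolynomial (Option ι) E) (X none) (fun i => X (some i)) j)
      (D (MvPolynomial (Option ι) E) (X none) (fun i => X (some i))) z₀
      (fun j => by rw [hE]; exact h0 j) (by rw [hED]; exact hD0)
      (fun w => by
        obtain ⟨u, hu⟩ := hsur w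
        refine ⟨u, fun j => ?_⟩
        have h := univ Ψ hΨ (0 : DualNumber E)
          (fun i => TrivSqZeroExt.inl (z₀ i) + TrivSqZeroExt.inr (u i)) j
        rw [dual0, hu j] at h
        have h' := congrArg TrivSqZeroExt.snd h
        simpa using h')
    refine ⟨θ, z, h1, fun j => ?_, ?_⟩
    · rw [← hE]
      exact h2 j
    · rw [← hED]
      exact h3
  · intro hN ι J _ _ Φ D z₀ h0 hD0 hsur
    obtain ⟨θ, z, h1, h2, h3⟩ := hN ι J
      (fun B _ _ θ z j => aeval (fun o : Option ι => o.elim θ z) (Φ j))
      (fun B _ _ θ z => aeval (fun o : Option ι => o.elim θ z) D)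
      (fun B B' _ _ _ _ φ θ z j => nat_elim φ θ z (Φ j))
      (fun B B' _ _ _ _ φ θ z => nat_elim φ θ z D) z₀
      (fun j => by
        have := h0 j
        rw [ev] at this
        exact this)
      (by
        intro h
        apply hD0
        rw [ev]
        exact h)
      (fun w => by
        obtain ⟨u, hu⟩ := hsur w
        refine ⟨u, fun j => ?_⟩
        show aeval (fun o : Option ι => (o.elim 0 (fun i => TrivSqZeroExt.inl (z₀ i) +
          TrivSqZeroExt.inr (u i)) : DualNumber E)) (Φ j) = _
        rw [dual0, h0 j, hu j]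
        simp)
    refine ⟨θ, z, h1, fun j => ?_, ?_⟩
    · have := h2 j
      rw [ev]
      exact this
    · intro h
      apply h3
      rw [ev] at h
      exact h

end Pool.Agent.FCV
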