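import Pool.Agent.FCV.TargetsL

/-!
# Free curves on hypersurfaces: completions are large (target T_NPV)
-/

set_option autoImplicit false

open MvPolynomial WithZero
open Pool.Agent.WA Pool.Agent.WL

namespace Pool.Agent.FCV

namespace NPV_

/-- the reindexing of the variables -/
def ren {ι : Type} (o : Option ι) : Unit ⊕ ι := o.elim (Sum.inl ()) Sum.inr

theorem ren_injective {ι : Type} : Function.Injective (ren : Option ι → Unit ⊕ ι) := by
  intro a b h
  cases a <;> cases b <;> simp_all [ren]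

theorem elim_ren {ι E : Type} (y : Unit → E) (z : ι → E) :
    (Sum.elim y z) ∘ (ren : Option ι → Unit ⊕ ι) = fun o : Option ι => o.elim (y ()) z := by
  funext o
  cases o <;> rfl

theorem eval_ren {ι E : Type} [Field E] (y : Unit → E) (z : ι → E)
    (G : MvPolynomial (Option ι) E) :
    eval (Sum.elim y z) (rename ren G) = eval (fun o : Option ι => o.elim (y ()) z) G := by
  rw [eval_rename, elim_ren]

/-- a polynomial does not vanish near a point where it does not vanish -/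
theorem exists_near {E ι : Type} [Field E] [Fintype ι] (v : Valuation E ℤᵐ⁰) {g : ℤᵐ⁰}
    (hg0 : g ≠ 0) (hg1 : g < 1) (D : MvPolynomial (Option ι) E) (x : Option ι → E)
    (hx : eval x D ≠ 0) :
    ∃ ρ : ℤᵐ⁰, ρ ≠ 0 ∧ ∀ h : Option ι → E, (∀ i, v (h i) ≤ ρ) → eval (x + h) D ≠ 0 := by
  obtain ⟨B, hB1, hB⟩ := exists_common_bound v x
  obtain ⟨C, hC⟩ := exists_lipschitz v D B
  set μ := v (eval x D) with hμ
  have hμ0 : μ ≠ 0 := (Valuation.ne_zero_iff _).mpr hx
  obtain ⟨N₁, hN₁⟩ := exists_mul_pow_le_one hg0 hg1 (C * μ⁻¹)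
  refine ⟨g ^ (N₁ + 1), pow_ne_zero _ hg0, ?_⟩
  intro h hh h0
  have h1 := hC x h (g ^ (N₁ + 1)) hB hh ((pow_le_one' hg1.le _).trans hB1)
  rw [h0, zero_sub, Valuation.map_neg] at h1
  have h2 : C * g ^ N₁ ≤ μ := by
    have h3 := hN₁ N₁ le_rfl
    calc C * g ^ N₁ = (C * μ⁻¹ * g ^ N₁) * μ := by
          rw [mul_right_comm, inv_mul_cancel_right₀ hμ0]
      _ ≤ 1 * μ := mul_le_mul' h3 le_rfl
      _ = μ := one_mul μ
  have h4 : C * g ^ (N₁ + 1) < μ := by
    calc C * g ^ (N₁ + 1) = (C * g ^ N₁) * g := by rw [pow_succ, mul_assoc]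
      _ ≤ μ * g := mul_le_mul' h2 le_rfl
      _ < μ * 1 := by
          rw [mul_lt_mul_iff_right₀ (zero_lt_iff.mpr hμ0)]
          exact hg1
      _ = μ := mul_one μ
  exact absurd h1 (not_le.mpr h4)

end NPV_

open NPV_ in
theorem p_NPV (hIFT : T_IFT) : T_NPV := by
  intro k K _ _ _ _ hfun v hv ι J _ _ Φ D z₀ hΦ hD hJ
  obtain ⟨π, hπ⟩ := exists_isUnif v hv.1
  have hπ' := isUnif_emb hπ
  obtain ⟨ρ₁, hρ₁, hnear⟩ := exists_near (vE v) hπ'.ne_zero hπ'.lt_one D _ hD
  obtain ⟨ρ, hρ, H⟩ := hIFT k K hfun v hv Unit ι J (fun j => rename ren (Φ j)) (fun _ => 0) z₀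
    (fun j => by rw [eval_ren]; exact hΦ j)
    (fun w => by
      obtain ⟨u, hu⟩ := hJ w
      refine ⟨u, fun j => ?_⟩
      rw [← hu j]
      refine Finset.sum_congr rfl fun i _ => ?_
      have e : (Sum.inr i : Unit ⊕ ι) = ren (some i) := rfl
      rw [e, pderiv_rename ren_injective, eval_ren])
    ρ₁ hρ₁
  obtain ⟨N, hN⟩ := exists_pow_le hπ'.lt_one (c := min ρ ρ₁) (by
    rcases min_choice ρ ρ₁ with h | h
    · rw [h]; exact hρ
    · rw [h]; exact hρ₁)
  have hθ0 : emb v π ^ N ≠ 0 := by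
    intro h
    have h1 : vE v (emb v π ^ N) = 0 := by rw [h, map_zero]
    rw [map_pow] at h1
    exact pow_ne_zero _ hπ'.ne_zero h1
  have hθv : vE v (emb v π ^ N) ≤ min ρ ρ₁ := by
    rw [map_pow]
    exact hN
  obtain ⟨z, hz, hz'⟩ := H (fun _ => emb v π ^ N) (fun i => by
    rw [sub_zero]
    exact hθv.trans (min_le_left _ _))
  refine ⟨emb v π ^ N, z, hθ0, fun j => ?_, ?_⟩
  · have h := hz' j
    rw [eval_ren] at h
    exact h
  · have h := hnear (fun o : Option ι => o.elim (emb v π ^ N) (fun i => z i - z₀ i)) (by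
      rintro (_ | i)
      · exact hθv.trans (min_le_right _ _)
      · exact hz i)
    have e : ((fun o : Option ι => o.elim 0 z₀) +
        fun o : Option ι => o.elim (emb v π ^ N) (fun i => z i - z₀ i)) =
        fun o : Option ι => o.elim (emb v π ^ N) z := by
      funext o
      cases o with
      | none => simp
      | some i => simp
    rw [e] at h
    exact h

end Pool.Agent.FCV
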