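import Pool.Agent.FCV.TargetsL

/-!
# FCV: POW (coverings of very free curves), by helper58
-/

set_option autoImplicit false

open MvPolynomial

namespace Pool.Agent.FCV

namespace POW_

variable {A : Type} [CommRing A]

theorem onC_comp {σ : Type} (F : MvPolynomial σ A) (f : σ → Polynomial A) (p : Polynomial A) :
    onC F (fun i => (f i).comp p) = (onC F f).comp p := by
  unfold onC
  have h := MvPolynomial.eval₂_comp_left (Polynomial.compRingHom p)
    (Polynomial.C : A →+* _) f F
  rw [Polynomial.coe_compRingHom_apply] at h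
  rw [h]
  congr 1
  ext a
  simp

/-- the coefficients of `H` in the residue class `s` -/
noncomputable def part (H : Polynomial A) (k s : ℕ) : Polynomial A :=
  ∑ j ∈ Finset.range (H.natDegree + 1), Polynomial.monomial j (H.coeff (s + k * j))

theorem part_coeff (H : Polynomial A) (k s j : ℕ) (hk : 1 ≤ k) :
    (part H k s).coeff j = H.coeff (s + k * j) := by
  unfold part
  rw [Polynomial.finsetSum_coeff]
  simp only [Polynomial.coeff_monomial]
  rw [Finset.sum_ite_eq' (Finset.range (H.natDegree + 1)) j fun j => H.coeff (s + k * j)]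
  split_ifs with h
  · rfl
  · rw [Finset.mem_range, not_lt] at h
    refine (Polynomial.coeff_eq_zero_of_natDegree_lt ?_).symm
    have : j ≤ k * j := Nat.le_mul_of_pos_left j hk
    omega

theorem decomp (H : Polynomial A) (k : ℕ) (hk : 1 ≤ k) :
    H = ∑ s ∈ Finset.range k, Polynomial.X ^ s * (part H k s).comp (Polynomial.X ^ k) := by
  ext m
  rw [Polynomial.finsetSum_coeff]
  have h1 : ∀ s ∈ Finset.range k,
      (Polynomial.X ^ s * (part H k s).comp (Polynomial.X ^ k)).coeff m =
        if s = m % k then H.coeff m else 0 := by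
    intro s hs
    rw [Finset.mem_range] at hs
    rw [← Polynomial.expand_eq_comp_X_pow, Polynomial.coeff_X_pow_mul']
    have hmd := Nat.mod_add_div m k
    split_ifs with h2 h3 h3
    · subst h3
      have h4 : m - m % k = k * (m / k) := by omega
      rw [h4, Polynomial.coeff_expand_mul' (by omega), part_coeff _ _ _ _ hk, hmd]
    · rw [Polynomial.coeff_expand (by omega), if_neg]
      intro h5
      apply h3
      obtain ⟨c, hc⟩ := h5
      have h6 : m = s + k * c := by omega
      rw [h6, Nat.add_mul_mod_self_left, Nat.mod_eq_of_lt hs]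
    · exfalso
      apply h2
      rw [h3]
      exact Nat.mod_le m k
    · rfl
  rw [Finset.sum_congr rfl h1, Finset.sum_ite_eq' (Finset.range k) (m % k)
    fun _ => H.coeff m, if_pos (Finset.mem_range.2 (Nat.mod_lt m hk))]

theorem deg_term (u : Polynomial A) (s k a b : ℕ) (hu : u.degree < (a : WithBot ℕ))
    (hb : a ≠ 0 → s + k * (a - 1) < b) :
    (Polynomial.X ^ s * u.comp (Polynomial.X ^ k)).degree < (b : WithBot ℕ) := by
  by_cases h0 : u = 0
  · rw [h0]
    simp
  · have h1 : u.natDegree < a := (Polynomial.natDegree_lt_iff_degree_lt h0).2 hu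
    have h2 : (Polynomial.X ^ s * u.comp (Polynomial.X ^ k)).natDegree ≤ s + k * (a - 1) := by
      refine Polynomial.natDegree_mul_le.trans (Nat.add_le_add
        (Polynomial.natDegree_X_pow_le s) ?_)
      refine Polynomial.natDegree_comp_le.trans ?_
      rw [mul_comm k]
      exact Nat.mul_le_mul (by omega) (Polynomial.natDegree_X_pow_le k)
    refine lt_of_le_of_lt Polynomial.degree_le_natDegree ?_
    exact_mod_cast lt_of_le_of_lt h2 (hb (by omega))

theorem part_deg (H : Polynomial A) (k s b c : ℕ) (hk : 1 ≤ k) (hH : H.degree < (b : WithBot ℕ))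
    (hc : b ≤ s + k * c) : (part H k s).degree < (c : WithBot ℕ) := by
  rw [Polynomial.degree_lt_iff_coeff_zero]
  intro m hm
  rw [part_coeff _ _ _ _ hk]
  refine (Polynomial.degree_lt_iff_coeff_zero H b).1 hH _ ?_
  have : k * c ≤ k * m := Nat.mul_le_mul_left k hm
  omega

end POW_

open POW_ in
theorem p_POW (hSUP : T_SUP) : T_POW := by
  intro E _ n d F x e k f hd hF hk hf
  have he := hf.two
  have hke : e ≤ k * e := Nat.le_mul_of_pos_left e hk
  have hsur2 : Sur F f e (d * e) :=
    (hSUP E n d e F f (by omega) hF hf.deg).1 he hd hf.sur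
  refine ⟨by omega, fun i => ?_, ?_, fun i => ?_, ?_⟩
  · refine Polynomial.natDegree_comp_le.trans ?_
    rw [mul_comm k]
    exact Nat.mul_le_mul (hf.deg i) (Polynomial.natDegree_X_pow_le k)
  · rw [onC_comp, hf.zero, Polynomial.zero_comp]
  · rw [← hf.pt i, ← Polynomial.expand_eq_comp_X_pow]
    have := Polynomial.coeff_expand_mul' (R := E) (p := k) (by omega) (f i) 0
    simpa using this
  · intro H hH
    have hdke : d * (k * e) = k * (d * e) := by ring
    have hde : 1 ≤ d * e := Nat.mul_pos (by omega) (by omega)
    have hkde : k ≤ k * (d * e) := Nat.le_mul_of_pos_right k hde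
    have hex : ∀ s, s < k → ∃ u : Fin (n + 1) → Polynomial E,
        (∀ i, (Polynomial.X ^ s * (u i).comp (Polynomial.X ^ k)).degree <
          ((k * e - 1 : ℕ) : WithBot ℕ)) ∧
        ∑ i, u i * onC (pderiv i F) f = part H k s := by
      intro s hs
      by_cases h1 : s + 1 = k
      · have h2 : (part H k s).degree < ((d * e - 1 : ℕ) : WithBot ℕ) := by
          refine part_deg H k s _ _ hk hH ?_
          have h3 : k * (d * e - 1) = k * (d * e) - k := by rw [Nat.mul_sub, mul_one]
          omega
        obtain ⟨u, hu1, hu2⟩ := hf.sur (part H k s) h2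
        refine ⟨u, fun i => deg_term _ s k (e - 1) _ (hu1 i) fun _ => ?_, hu2⟩
        have h3 : k * (e - 1 - 1) + 2 * k = k * e := by
          rw [← Nat.mul_comm k 2, ← Nat.mul_add]
          congr 1; omega
        omega
      · have h2 : (part H k s).degree < ((d * e : ℕ) : WithBot ℕ) := by
          refine part_deg H k s _ _ hk hH ?_
          omega
        obtain ⟨u, hu1, hu2⟩ := hsur2 (part H k s) h2
        refine ⟨u, fun i => deg_term _ s k e _ (hu1 i) fun _ => ?_, hu2⟩
        have h3 : k * (e - 1) + k = k * e := by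
          nth_rewrite 2 [← Nat.mul_one k]
          rw [← Nat.mul_add]
          congr 1; omega
        omega
    choose! u hu1 hu2 using hex
    refine ⟨fun i => ∑ s ∈ Finset.range k, Polynomial.X ^ s *
      (u s i).comp (Polynomial.X ^ k), fun i => ?_, ?_⟩
    · refine lt_of_le_of_lt (Polynomial.degree_sum_le _ _) ?_
      refine (Finset.sup_lt_iff (WithBot.bot_lt_coe _)).2 fun s hs => ?_
      exact hu1 s (Finset.mem_range.1 hs) i
    · have h4 : ∀ i, onC (pderiv i F) (fun i => (f i).comp (Polynomial.X ^ k)) =
          (onC (pderiv i F) f).comp (Polynomial.X ^ k) := fun i => onC_comp _ _ _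
      simp only [h4, Finset.sum_mul]
      rw [Finset.sum_comm]
      conv_rhs => rw [decomp H k hk]
      refine Finset.sum_congr rfl fun s hs => ?_
      rw [← hu2 s (Finset.mem_range.1 hs)]
      have h5 : (∑ i, u s i * onC (pderiv i F) f).comp (Polynomial.X ^ k) =
          ∑ i, (u s i).comp (Polynomial.X ^ k) *
            (onC (pderiv i F) f).comp (Polynomial.X ^ k) := by
        have := map_sum (Polynomial.compRingHom (Polynomial.X ^ k : Polynomial E))
          (fun i => u s i * onC (pderiv i F) f) Finset.univ
        simpa using this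
      rw [h5, Finset.mul_sum]
      exact Finset.sum_congr rfl fun i _ => by ring

end Pool.Agent.FCV
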