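import Pool.Agent.FCV.TargetsM
import Pool.Agent.WL.RANK

/-!
# Free curves by minors
-/

set_option autoImplicit false

open MvPolynomial

namespace Pool.Agent.FCV

namespace RANKC_

variable {σ M : Type} [Field M]

/-- The degree of a homogeneous polynomial along a curve. -/
theorem degree_onC [Fintype σ] (G : MvPolynomial σ M) (e E : ℕ) (hG : G.IsHomogeneous e)
    (f : σ → Polynomial M) (hf : ∀ i, (f i).natDegree ≤ E) : (onC G f).natDegree ≤ e * E := by
  unfold onC
  rw [MvPolynomial.eval₂_eq']
  refine Polynomial.natDegree_sum_le_of_forall_le _ _ fun m hm => ?_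
  refine (Polynomial.natDegree_C_mul_le _ _).trans ?_
  refine (Polynomial.natDegree_prod_le _ _).trans ?_
  have h1 : ∑ i, m i = e := by
    have h2 := hG (MvPolynomial.mem_support_iff.mp hm)
    rw [← h2, Finsupp.weight_apply, Finsupp.sum_fintype]
    · simp
    · intro i; simp
  calc ∑ i, (f i ^ m i).natDegree ≤ ∑ i, m i * E := Finset.sum_le_sum fun i _ =>
        (Polynomial.natDegree_pow_le).trans (Nat.mul_le_mul_left _ (hf i))
    _ = e * E := by rw [← Finset.sum_mul, h1]

/-- The polynomial with given coefficients. -/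
noncomputable def U {E : ℕ} (w : Fin E → M) : Polynomial M :=
  ∑ j : Fin E, Polynomial.C (w j) * Polynomial.X ^ (j : ℕ)

theorem U_degree {E : ℕ} (w : Fin E → M) : (U w).degree < (E : WithBot ℕ) :=
  Polynomial.degree_sum_fin_lt w

theorem U_coeff {E : ℕ} (w : Fin E → M) (n : ℕ) (hn : n < E) : (U w).coeff n = w ⟨n, hn⟩ := by
  unfold U
  rw [Polynomial.finsetSum_coeff, Finset.sum_eq_single ⟨n, hn⟩]
  · rw [Polynomial.coeff_C_mul_X_pow, if_pos rfl]
  · intro k _ hk
    rw [Polynomial.coeff_C_mul_X_pow, if_neg fun h => hk (Fin.ext h.symm)]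
  · intro h; exact absurd (Finset.mem_univ _) h

theorem U_eq {E : ℕ} (u : Polynomial M) (hu : u.degree < (E : WithBot ℕ)) :
    U (fun j : Fin E => u.coeff j) = u := by
  ext n
  rcases Nat.lt_or_ge n E with hn | hn
  · rw [U_coeff _ n hn]
  · rw [Polynomial.coeff_eq_zero_of_degree_lt (lt_of_lt_of_le (U_degree _) (by exact_mod_cast hn)),
      Polynomial.coeff_eq_zero_of_degree_lt (lt_of_lt_of_le hu (by exact_mod_cast hn))]

theorem coeff_usum [Fintype σ] {E : ℕ} (P : σ → Polynomial M) (w : Fin E × σ → M) (l : ℕ) :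
    (∑ i, U (fun j => w (j, i)) * P i).coeff l =
      ∑ p : Fin E × σ, (P p.2 * Polynomial.X ^ (p.1 : ℕ)).coeff l * w p := by
  rw [Polynomial.finsetSum_coeff, Fintype.sum_prod_type, Finset.sum_comm]
  refine Finset.sum_congr rfl fun i _ => ?_
  unfold U
  rw [Finset.sum_mul, Polynomial.finsetSum_coeff]
  refine Finset.sum_congr rfl fun j _ => ?_
  have : Polynomial.C (w (j, i)) * Polynomial.X ^ (j : ℕ) * P i =
      Polynomial.C (w (j, i)) * (P i * Polynomial.X ^ (j : ℕ)) := by ring
  rw [this, Polynomial.coeff_C_mul, mul_comm]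

theorem degree_lt [Fintype σ] {E d : ℕ} (hd : 1 ≤ d) (P : σ → Polynomial M)
    (hP : ∀ i, (P i).natDegree ≤ (d - 1) * E) (u : σ → Polynomial M)
    (hu : ∀ i, (u i).degree < (E : WithBot ℕ)) (n : ℕ) (hn : d * E ≤ n) :
    (∑ i, u i * P i).coeff n = 0 := by
  rw [Polynomial.finsetSum_coeff]
  refine Finset.sum_eq_zero fun i _ => ?_
  rcases Nat.eq_zero_or_pos E with h0 | h0
  · have : u i = 0 := by
      rw [← Polynomial.degree_eq_bot]
      have := hu i
      rw [h0] at this
      exact Nat.WithBot.lt_zero_iff.mp this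
    rw [this, zero_mul, Polynomial.coeff_zero]
  · apply Polynomial.coeff_eq_zero_of_natDegree_lt
    refine lt_of_le_of_lt Polynomial.natDegree_mul_le ?_
    have h1 : (u i).natDegree < E := by
      rcases eq_or_ne (u i) 0 with h | h
      · rw [h, Polynomial.natDegree_zero]; exact h0
      · rw [Polynomial.natDegree_lt_iff_degree_lt h]; exact hu i
    have h2 := hP i
    have h3 : (d - 1) * E + E = d * E := by
      obtain ⟨k, rfl⟩ := Nat.exists_eq_add_of_le hd
      rw [Nat.add_sub_cancel_left]; ring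
    omega

end RANKC_

open RANKC_ in
/-- target RANKC -/
theorem p_RANKC : T_RANKC := by
  classical
  intro σ M _ _ F d E hF hd f hf
  have hP : ∀ i, (onC (pderiv i F) f).natDegree ≤ (d - 1) * E := fun i =>
    degree_onC _ _ _ hF.pderiv f hf
  have key : ∀ (w : Fin E × σ → M) (H : Polynomial M), H.degree < ((d * E : ℕ) : WithBot ℕ) →
      (∑ i, U (fun j => w (j, i)) * onC (pderiv i F) f = H ↔
        (cmat F d E f).mulVec w = fun l : Fin (d * E) => H.coeff l) := by
    intro w H hH
    constructor
    · intro h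
      funext l
      rw [← h, coeff_usum]
      rfl
    · intro h
      ext n
      rcases Nat.lt_or_ge n (d * E) with hn | hn
      · have := congrFun h ⟨n, hn⟩
        rw [coeff_usum]
        exact this
      · rw [degree_lt hd _ hP _ (fun i => U_degree _) n hn,
          Polynomial.coeff_eq_zero_of_degree_lt (lt_of_lt_of_le hH (by exact_mod_cast hn))]
  have hmin := WL.RANK_.minors (d * E) (cmat F d E f)
  change (∃ S : Fin (d * E) → Fin E × σ, ((cmat F d E f).submatrix id S).det ≠ 0) ↔ _
  rw [hmin]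
  constructor
  · intro h H hH
    obtain ⟨w, hw⟩ := h fun l => H.coeff l
    exact ⟨fun i => U fun j => w (j, i), fun i => U_degree _, (key w H hH).mpr hw⟩
  · intro h v
    obtain ⟨u, hu, hs⟩ := h (U v) (U_degree v)
    refine ⟨fun p => (u p.2).coeff p.1, ?_⟩
    have e : ∀ i, U (fun j : Fin E => (u i).coeff j) = u i := fun i => U_eq (u i) (hu i)
    have h2 := (key (fun p => (u p.2).coeff p.1) (U v) (U_degree v)).mp (by simpa only [e] using hs)
    rw [h2]
    funext l
    exact U_coeff v l l.2

end Pool.Agent.FCV
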