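import Pool.Agent.FCV.TargetsL
import Pool.Agent.WA.Local

/-!
# Free curves on hypersurfaces: surjectivity on lines
-/

set_option autoImplicit false

open MvPolynomial
open Pool.Agent.WA Pool.Agent.WL

namespace Pool.Agent.FCV

namespace REG_

/-- A functional on polynomials has annihilators of degree at most `a` if `k ≤ a`. -/
theorem exists_ann {L : Type} [Field L] (lam : Polynomial L →ₗ[L] L) (a k : ℕ) (hk : k ≤ a) :
    ∃ G : Polynomial L, G ≠ 0 ∧ G.natDegree ≤ a ∧
      ∀ h : Polynomial L, h.degree < (k : WithBot ℕ) → lam (G * h) = 0 := by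
  let P : (Fin (a + 1) → L) →ₗ[L] Polynomial L :=
    { toFun := fun c => ∑ j : Fin (a + 1), Polynomial.monomial (j : ℕ) (c j)
      map_add' := fun c c' => by
        simp only [Pi.add_apply, map_add, Finset.sum_add_distrib]
      map_smul' := fun r c => by
        simp only [Pi.smul_apply, RingHom.id_apply, Finset.smul_sum, Polynomial.smul_monomial] }
  have hP : ∀ c, P c = ∑ j : Fin (a + 1), Polynomial.monomial (j : ℕ) (c j) := fun c => rfl
  have hPc : ∀ c (j : Fin (a + 1)), (P c).coeff j = c j := by
    intro c j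
    rw [hP, Polynomial.finsetSum_coeff, Finset.sum_eq_single j]
    · simp
    · intro i _ hij
      rw [Polynomial.coeff_monomial, if_neg]
      exact fun h => hij (Fin.ext h)
    · simp
  have hPd : ∀ c, (P c).natDegree ≤ a := by
    intro c
    rw [hP]
    refine Polynomial.natDegree_sum_le_of_forall_le _ _ fun j _ => ?_
    exact (Polynomial.natDegree_monomial_le _).trans (by have := j.2; omega)
  let T : (Fin (a + 1) → L) →ₗ[L] (Fin k → L) :=
    LinearMap.pi fun l => lam ∘ₗ (LinearMap.mulRight L (Polynomial.X ^ (l : ℕ))) ∘ₗ P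
  have hT : ∀ c l, T c l = lam (P c * Polynomial.X ^ (l : ℕ)) := fun c l => rfl
  have hker : LinearMap.ker T ≠ ⊥ := by
    apply LinearMap.ker_ne_bot_of_finrank_lt
    rw [Module.finrank_fin_fun, Module.finrank_fin_fun]
    omega
  obtain ⟨c, hc, hc0⟩ := Submodule.exists_mem_ne_zero_of_ne_bot hker
  refine ⟨P c, ?_, hPd c, ?_⟩
  · intro h0
    apply hc0
    ext j
    rw [← hPc c j, h0]
    simp
  · intro h hh
    by_cases h0 : h = 0
    · rw [h0, mul_zero, map_zero]
    have hd : h.natDegree < k := (Polynomial.natDegree_lt_iff_degree_lt h0).2 hh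
    rw [Polynomial.as_sum_range_C_mul_X_pow' h hd, Finset.mul_sum, map_sum]
    refine Finset.sum_eq_zero fun l hl => ?_
    have hl' : l < k := Finset.mem_range.1 hl
    have h1 : P c * (Polynomial.C (h.coeff l) * Polynomial.X ^ l) =
        (h.coeff l) • (P c * Polynomial.X ^ l) := by
      rw [Polynomial.smul_eq_C_mul]
      ring
    have h2 := congrFun (LinearMap.mem_ker.1 hc) ⟨l, hl'⟩
    rw [hT] at h2
    rw [h1, map_smul]
    change lam (P c * Polynomial.X ^ l) = 0 at h2
    rw [h2, smul_zero]

end REG_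

theorem p_REG (h1 : T_NFR) (h2 : T_SBC) : T_REG := by
  intro E _ n d F hd hF hsm x y hxy hline a ha
  set L := AlgebraicClosure E
  rw [← h2 (Fin (n + 1)) E L F _ a (a + (d - 1))]
  by_contra hns
  let z : Fin 2 × Fin (n + 1) → L := fun p =>
    if p.1 = 0 then algebraMap E L (x p.2) else algebraMap E L (y p.2)
  have hz : (fun i => (Polynomial.C (x i) + Polynomial.X * Polynomial.C (y i)).map
      (algebraMap E L)) = cv z := by
    funext i
    unfold cv
    rw [Fin.sum_univ_two]
    simp only [z, Polynomial.map_add, Polynomial.map_mul, Polynomial.map_C, Polynomial.map_X]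
    simp
  rw [hz] at hns
  -- a nonzero minor
  have hx : ∃ i, x i ≠ 0 := by
    by_contra hc
    push Not at hc
    have := hxy 1 0 (fun i => by rw [hc i]; ring)
    exact one_ne_zero this.1
  obtain ⟨i, hi⟩ := hx
  have hm : ∃ j, x i * y j - x j * y i ≠ 0 := by
    by_contra hc
    push Not at hc
    have := hxy (-(y i)) (x i) (fun j => by have := hc j; linear_combination this)
    exact hi this.2
  obtain ⟨j, hj⟩ := hm
  have hy : ∃ i, y i ≠ 0 := by
    by_contra hc
    push Not at hc
    apply hj
    rw [hc i, hc j]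
    ring
  obtain ⟨l, hl⟩ := hy
  have hcv : ∀ i, cv z i = Polynomial.C (algebraMap E L (x i)) +
      Polynomial.X * Polynomial.C (algebraMap E L (y i)) := by
    intro i
    rw [← congrFun hz i]
    simp
  have hinj : Function.Injective (algebraMap E L) := (algebraMap E L).injective
  have c1 : onC (F.map (algebraMap E L)) (cv z) = 0 := by
    rw [← hz, onC_map]
    have h4 : onC F (fun i => Polynomial.C (x i) + Polynomial.X * Polynomial.C (y i)) = 0 := by
      rw [← onLine_eq_onC]
      exact hline
    rw [h4, Polynomial.map_zero]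
  have c2 : ∀ α : L, ∃ i, (cv z i).eval α ≠ 0 := by
    intro α
    by_contra hc
    push Not at hc
    have e1 := hc i
    have e2 := hc j
    rw [hcv] at e1 e2
    simp only [Polynomial.eval_add, Polynomial.eval_mul, Polynomial.eval_C,
      Polynomial.eval_X] at e1 e2
    apply hj
    apply hinj
    rw [map_sub, map_mul, map_mul, map_zero]
    linear_combination (algebraMap E L (y j)) * e1 - (algebraMap E L (y i)) * e2
  have c3 : ∃ i, (cv z i).coeff (2 - 1) ≠ 0 := by
    refine ⟨l, ?_⟩
    rw [hcv]
    simpa [Polynomial.coeff_C] using hl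
  have c4 : ¬ Sur (F.map (algebraMap E L)) (cv z) a ((d - 1) * (2 - 1) + a) := by
    have h5 : (d - 1) * (2 - 1) + a = a + (d - 1) := by omega
    rw [h5]
    exact hns
  obtain ⟨lam, -, hnd, -⟩ := h1 L n d 2 a (F.map (algebraMap E L)) z hd
    (hF.map _) hsm.map c1 c2 c3 c4
  obtain ⟨G, hG0, hGd, hG⟩ := REG_.exists_ann lam a (d - 1) ha
  refine hG0 (hnd G hGd fun h hh => hG h ?_)
  have h3 : (d - 1) * (2 - 1) + a - a = d - 1 := by omega
  rw [h3] at hh
  exact hh

end Pool.Agent.FCV
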