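import Pool.Agent.FCV.TargetsG

/-!
# Free curves on hypersurfaces: reversal of a curve
-/

set_option autoImplicit false
set_option maxHeartbeats 4000000

open MvPolynomial

namespace Pool.Agent.FCV

namespace REV_

open Polynomial (reflect natDegree)

variable {A : Type} [CommRing A]

theorem pow_reflect (f : Polynomial A) (e : ℕ) (hf : f.natDegree ≤ e) (k : ℕ) :
    (f ^ k).natDegree ≤ k * e ∧ reflect (k * e) (f ^ k) = reflect e f ^ k := by
  induction k with
  | zero =>
    refine ⟨by simp, ?_⟩
    rw [pow_zero, pow_zero, Nat.zero_mul, Polynomial.reflect_one, pow_zero]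
  | succ k ih =>
    refine ⟨?_, ?_⟩
    · rw [pow_succ]
      refine Polynomial.natDegree_mul_le.trans ?_
      have := ih.1
      rw [Nat.succ_mul]
      omega
    · rw [pow_succ, Nat.succ_mul, Polynomial.reflect_mul _ _ ih.1 hf, ih.2, pow_succ]

theorem prod_reflect {ι : Type} (s : Finset ι) (f : ι → Polynomial A) (N : ι → ℕ)
    (hf : ∀ i ∈ s, (f i).natDegree ≤ N i) :
    (∏ i ∈ s, f i).natDegree ≤ ∑ i ∈ s, N i ∧
      reflect (∑ i ∈ s, N i) (∏ i ∈ s, f i) = ∏ i ∈ s, reflect (N i) (f i) := by
  classical
  induction s using Finset.induction_on with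
  | empty =>
    refine ⟨by simp, ?_⟩
    rw [Finset.prod_empty, Finset.prod_empty, Finset.sum_empty, Polynomial.reflect_one, pow_zero]
  | insert a s ha ih =>
    have h1 := ih fun i hi => hf i (Finset.mem_insert_of_mem hi)
    have h2 := hf a (Finset.mem_insert_self a s)
    rw [Finset.prod_insert ha, Finset.sum_insert ha, Finset.prod_insert ha]
    refine ⟨?_, ?_⟩
    · refine Polynomial.natDegree_mul_le.trans ?_
      have := h1.1
      omega
    · rw [Polynomial.reflect_mul _ _ h2 h1.1, h1.2]

theorem sum_reflect {ι : Type} (s : Finset ι) (f : ι → Polynomial A) (N : ℕ) :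
    reflect N (∑ i ∈ s, f i) = ∑ i ∈ s, reflect N (f i) := by
  classical
  induction s using Finset.induction_on with
  | empty => simp
  | insert a s ha ih =>
    rw [Finset.sum_insert ha, Finset.sum_insert ha, Polynomial.reflect_add, ih]

theorem monomial_reflect {σ : Type} [Fintype σ] (m e : ℕ) (s : σ →₀ ℕ) (hs : ∑ i, s i = m)
    (c : A) (f : σ → Polynomial A) (hf : ∀ i, (f i).natDegree ≤ e) :
    (Polynomial.C c * ∏ i, f i ^ s i).natDegree ≤ m * e ∧
      reflect (m * e) (Polynomial.C c * ∏ i, f i ^ s i) =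
        Polynomial.C c * ∏ i, reflect e (f i) ^ s i := by
  have h1 := prod_reflect (Finset.univ : Finset σ) (fun i => f i ^ s i) (fun i => s i * e)
    fun i _ => (pow_reflect (f i) e (hf i) (s i)).1
  have h2 : ∑ i, s i * e = m * e := by rw [← Finset.sum_mul, hs]
  rw [h2] at h1
  refine ⟨?_, ?_⟩
  · refine Polynomial.natDegree_mul_le.trans ?_
    rw [Polynomial.natDegree_C, Nat.zero_add]
    exact h1.1
  · rw [Polynomial.reflect_C_mul, h1.2]
    congr 1
    exact Finset.prod_congr rfl fun i _ => (pow_reflect (f i) e (hf i) (s i)).2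

theorem onC_reflect {σ : Type} [Fintype σ] (m e : ℕ) (G : MvPolynomial σ A)
    (hG : G.IsHomogeneous m) (f : σ → Polynomial A) (hf : ∀ i, (f i).natDegree ≤ e) :
    (onC G f).natDegree ≤ m * e ∧
      reflect (m * e) (onC G f) = onC G (fun i => reflect e (f i)) := by
  have hs : ∀ s ∈ G.support, ∑ i, s i = m := by
    intro s hs
    have h1 := hG (MvPolynomial.mem_support_iff.1 hs)
    have h2 : s.degree = (Finsupp.weight 1) s :=
      DFunLike.congr_fun (Finsupp.degree_eq_weight_one (R := ℕ)) s
    rw [← h1, ← h2, Finsupp.degree_apply]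
    exact (Finset.sum_subset (Finset.subset_univ _) fun i _ hi =>
      Finsupp.notMem_support_iff.1 hi).symm
  unfold onC
  rw [eval₂_eq', eval₂_eq']
  refine ⟨?_, ?_⟩
  · refine Polynomial.natDegree_sum_le_of_forall_le _ _ fun s hs' => ?_
    exact (monomial_reflect m e s (hs s hs') _ f hf).1
  · rw [sum_reflect]
    exact Finset.sum_congr rfl fun s hs' => (monomial_reflect m e s (hs s hs') _ f hf).2

end REV_

theorem p_REV : T_REV := by
  intro k _ n d e F x f hd hF he hf hz hx hsur
  have hdeg : ∀ i, ((f i).reflect e).natDegree ≤ e := fun i =>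
    Polynomial.natDegree_reflect_le.trans (max_le le_rfl (hf i))
  refine ⟨he, hdeg, ?_, ?_, ?_⟩
  · rw [← (REV_.onC_reflect d e F hF f hf).2, hz, Polynomial.reflect_zero]
  · intro i
    rw [Polynomial.coeff_reflect, Polynomial.revAt_zero]
    exact hx i
  · intro H hH
    have hde : (e - 2) + (d - 1) * e = d * e - 2 := by
      obtain ⟨d, rfl⟩ : ∃ d', d = d' + 1 := ⟨d - 1, by omega⟩
      rw [Nat.add_sub_cancel, Nat.succ_mul]
      omega
    have hde2 : 2 ≤ d * e := by nlinarith
    have hnd : H.natDegree ≤ d * e - 2 := by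
      by_cases h0 : H = 0
      · simp [h0]
      · have := (Polynomial.natDegree_lt_iff_degree_lt h0).2 hH
        omega
    have hnd' : (H.reflect (d * e - 2)).natDegree ≤ d * e - 2 :=
      Polynomial.natDegree_reflect_le.trans (max_le le_rfl hnd)
    have hlt : (H.reflect (d * e - 2)).degree < ((d * e - 1 : ℕ) : WithBot ℕ) := by
      refine lt_of_le_of_lt Polynomial.degree_le_natDegree ?_
      exact_mod_cast (by omega : (H.reflect (d * e - 2)).natDegree < d * e - 1)
    obtain ⟨u, hu, hsum⟩ := hsur _ hlt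
    have hu' : ∀ i, (u i).natDegree ≤ e - 2 := by
      intro i
      by_cases h0 : u i = 0
      · simp [h0]
      · have := (Polynomial.natDegree_lt_iff_degree_lt h0).2 (hu i)
        omega
    refine ⟨fun i => (u i).reflect (e - 2), fun i => ?_, ?_⟩
    · refine lt_of_le_of_lt Polynomial.degree_le_natDegree ?_
      have h1 : ((u i).reflect (e - 2)).natDegree ≤ e - 2 :=
        Polynomial.natDegree_reflect_le.trans (max_le le_rfl (hu' i))
      exact_mod_cast (by omega : ((u i).reflect (e - 2)).natDegree < e - 1)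
    · have h2 := congrArg (Polynomial.reflect (d * e - 2)) hsum
      rw [Polynomial.reflect_reflect, REV_.sum_reflect] at h2
      rw [← h2]
      refine Finset.sum_congr rfl fun i _ => ?_
      have h3 := REV_.onC_reflect (d - 1) e (pderiv i F) hF.pderiv f hf
      rw [← hde, Polynomial.reflect_mul _ _ (hu' i) h3.1, h3.2]

end Pool.Agent.FCV
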