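import Pool.Agent.FCV.TargetsL

/-!
# FCV, target SBC: descent of surjectivity (helper5)
-/

set_option autoImplicit false

open MvPolynomial

namespace Pool.Agent.FCV

namespace SBC_

variable {E L : Type} [Field E] [Field L] [Algebra E L]

/-- coefficientwise application of a linear map -/
noncomputable def S (s : L →ₗ[E] E) (v : Polynomial L) : Polynomial E :=
  ∑ n ∈ Finset.range (v.natDegree + 1), Polynomial.monomial n (s (v.coeff n))

theorem S_coeff (s : L →ₗ[E] E) (v : Polynomial L) (k : ℕ) :
    (S s v).coeff k = s (v.coeff k) := by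
  unfold S
  rw [Polynomial.finsetSum_coeff]
  simp only [Polynomial.coeff_monomial]
  rw [Finset.sum_ite_eq']
  split_ifs with h
  · rfl
  · rw [Finset.mem_range, not_lt] at h
    rw [Polynomial.coeff_eq_zero_of_natDegree_lt (by omega), map_zero]

theorem S_mul (s : L →ₗ[E] E) (v : Polynomial L) (G : Polynomial E) (k : ℕ) :
    (S s v * G).coeff k = s ((v * G.map (algebraMap E L)).coeff k) := by
  rw [Polynomial.coeff_mul, Polynomial.coeff_mul, map_sum]
  refine Finset.sum_congr rfl fun p _ => ?_
  rw [S_coeff, Polynomial.coeff_map, mul_comm (v.coeff _), ← Algebra.smul_def, map_smul,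
    smul_eq_mul, mul_comm]

theorem S_deg (s : L →ₗ[E] E) (v : Polynomial L) (a : ℕ) (h : v.degree < a) :
    (S s v).degree < a := by
  rw [Polynomial.degree_lt_iff_coeff_zero] at h ⊢
  intro m hm
  rw [S_coeff, h m hm, map_zero]

theorem grad {σ : Type} (F : MvPolynomial σ E) (f : σ → Polynomial E) (i : σ) :
    onC (pderiv i (F.map (algebraMap E L))) (fun i => (f i).map (algebraMap E L)) =
      (onC (pderiv i F) f).map (algebraMap E L) := by
  rw [pderiv_map, onC_map]

end SBC_

open SBC_ in
/-- Descent of surjectivity. -/
theorem p_SBC : T_SBC := by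
  intro σ E L _ _ _ _ F f a b
  constructor
  · intro h H hH
    have hinj : LinearMap.ker (Algebra.linearMap E L) = ⊥ :=
      LinearMap.ker_eq_bot.2 (algebraMap E L).injective
    obtain ⟨s, hs⟩ := (Algebra.linearMap E L).exists_leftInverse_of_injective hinj
    have hs1 : ∀ c : E, s (algebraMap E L c) = c := fun c => LinearMap.congr_fun hs c
    obtain ⟨v, hv, hsum⟩ := h (H.map (algebraMap E L)) (by rwa [Polynomial.degree_map])
    refine ⟨fun i => S s (v i), fun i => S_deg s (v i) a (hv i), ?_⟩
    ext k
    rw [Polynomial.finsetSum_coeff]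
    have h1 : ∀ i ∈ Finset.univ, (S s (v i) * onC (pderiv i F) f).coeff k =
        s ((v i * onC (pderiv i (F.map (algebraMap E L)))
          (fun i => (f i).map (algebraMap E L))).coeff k) := by
      intro i _
      rw [S_mul, grad]
    rw [Finset.sum_congr rfl h1, ← map_sum, ← Polynomial.finsetSum_coeff, hsum,
      Polynomial.coeff_map, hs1]
  · intro h H hH
    have h1 : ∀ l : ℕ, l < b → ∃ u : σ → Polynomial E, (∀ i, (u i).degree < a) ∧
        ∑ i, u i * onC (pderiv i F) f = Polynomial.X ^ l := by
      intro l hl
      refine h _ ?_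
      rw [Polynomial.degree_X_pow]
      exact_mod_cast hl
    choose! u hu hsum using h1
    refine ⟨fun i => ∑ l ∈ Finset.range b,
      Polynomial.C (H.coeff l) * (u l i).map (algebraMap E L), fun i => ?_, ?_⟩
    · rw [Polynomial.degree_lt_iff_coeff_zero]
      intro m hm
      rw [Polynomial.finsetSum_coeff]
      refine Finset.sum_eq_zero fun l hl => ?_
      have h2 := (Polynomial.degree_lt_iff_coeff_zero _ _).1
        (hu l (Finset.mem_range.1 hl) i) m hm
      rw [Polynomial.coeff_C_mul, Polynomial.coeff_map, h2, map_zero, mul_zero]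
    · have h2 : ∀ i ∈ Finset.univ, (∑ l ∈ Finset.range b,
          Polynomial.C (H.coeff l) * (u l i).map (algebraMap E L)) *
          onC (pderiv i (F.map (algebraMap E L))) (fun i => (f i).map (algebraMap E L)) =
          ∑ l ∈ Finset.range b, Polynomial.C (H.coeff l) *
            ((u l i) * onC (pderiv i F) f).map (algebraMap E L) := by
        intro i _
        rw [grad, Finset.sum_mul]
        refine Finset.sum_congr rfl fun l _ => ?_
        rw [Polynomial.map_mul, mul_assoc]
      rw [Finset.sum_congr rfl h2, Finset.sum_comm]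
      have h3 : ∀ l ∈ Finset.range b, ∑ i, Polynomial.C (H.coeff l) *
          ((u l i) * onC (pderiv i F) f).map (algebraMap E L) =
          Polynomial.C (H.coeff l) * Polynomial.X ^ l := by
        intro l hl
        rw [← Finset.mul_sum, ← Polynomial.map_sum, hsum l (Finset.mem_range.1 hl),
          Polynomial.map_pow, Polynomial.map_X]
      rw [Finset.sum_congr rfl h3]
      by_cases hb : b = 0
      · subst hb
        have h4 : H = 0 := by
          rw [← Polynomial.degree_eq_bot]
          exact Nat.WithBot.lt_zero_iff.1 (by exact_mod_cast hH)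
        rw [h4, Finset.range_zero, Finset.sum_empty]
      · have h4 : H.natDegree < b := by
          by_cases hH0 : H = 0
          · rw [hH0, Polynomial.natDegree_zero]
            omega
          · exact (Polynomial.natDegree_lt_iff_degree_lt hH0).2 hH
        exact (Polynomial.as_sum_range_C_mul_X_pow' H h4).symm

end Pool.Agent.FCV
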