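import Pool.Agent.FCV.TargetsL

/-!
# FCV, target SCL: scaling of the parameter
-/

set_option autoImplicit false

namespace Pool.Agent.FCV

open MvPolynomial

namespace SCL_

theorem comp_onC {A : Type} [CommRing A] {σ : Type} (F : MvPolynomial σ A)
    (f : σ → Polynomial A) (p : Polynomial A) :
    onC F (fun i => (f i).comp p) = (onC F f).comp p := by
  unfold onC
  have h := MvPolynomial.eval₂_comp_left (Polynomial.compRingHom p) (Polynomial.C : A →+* _)
    f F
  rw [Polynomial.coe_compRingHom_apply] at h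
  rw [h]
  congr 1
  ext a
  simp

theorem deg_le {A : Type} [CommRing A] (c : A) (p : Polynomial A) :
    (p.comp (Polynomial.C c * Polynomial.X)).degree ≤ p.degree := by
  rw [Polynomial.degree_le_iff_coeff_zero]
  intro m hm
  rw [Polynomial.comp_C_mul_X_coeff, Polynomial.coeff_eq_zero_of_degree_lt hm, zero_mul]

theorem inv_comp {A : Type} [Field A] (c : A) (hc : c ≠ 0) (H : Polynomial A) :
    (H.comp (Polynomial.C c⁻¹ * Polynomial.X)).comp (Polynomial.C c * Polynomial.X) = H := by
  rw [Polynomial.comp_assoc, Polynomial.mul_comp, Polynomial.C_comp, Polynomial.X_comp,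
    ← mul_assoc, ← Polynomial.C_mul, inv_mul_cancel₀ hc, Polynomial.C_1, one_mul,
    Polynomial.comp_X]

end SCL_

theorem p_SCL : T_SCL := by
  intro E _ n d F x e f c hc hf
  refine ⟨hf.two, fun i => ?_, ?_, fun i => ?_, ?_⟩
  · exact (Polynomial.natDegree_le_natDegree (SCL_.deg_le c (f i))).trans (hf.deg i)
  · rw [SCL_.comp_onC, hf.zero, Polynomial.zero_comp]
  · rw [Polynomial.comp_C_mul_X_coeff, pow_zero, mul_one, hf.pt]
  · intro H hH
    obtain ⟨u, hu1, hu2⟩ := hf.sur (H.comp (Polynomial.C c⁻¹ * Polynomial.X))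
      ((SCL_.deg_le _ H).trans_lt hH)
    refine ⟨fun i => (u i).comp (Polynomial.C c * Polynomial.X),
      fun i => (SCL_.deg_le c (u i)).trans_lt (hu1 i), ?_⟩
    have h1 := congrArg (fun p => p.comp (Polynomial.C c * Polynomial.X)) hu2
    simp only [SCL_.inv_comp c hc, Polynomial.sum_comp, Polynomial.mul_comp] at h1
    rw [← h1]
    refine Finset.sum_congr rfl fun i _ => ?_
    rw [SCL_.comp_onC]

end Pool.Agent.FCV
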