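import Pool.Agent.FCV.TargetsL

/-!
# Free curves on hypersurfaces: lines with very free teeth
-/

set_option autoImplicit false

open MvPolynomial WithZero
open Pool.Agent.WA Pool.Agent.WL

namespace Pool.Agent.FCV

namespace ST2_

section General

variable {σ A : Type} [CommRing A]

theorem onC_eval (F : MvPolynomial σ A) (f : σ → Polynomial A) (t : A) :
    (onC F f).eval t = eval (fun i => (f i).eval t) F := by
  have h := MvPolynomial.eval₂_comp_left (Polynomial.evalRingHom t) (Polynomial.C : A →+* _) f F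
  unfold onC
  rw [← Polynomial.coe_evalRingHom, h]
  have h2 : ((Polynomial.evalRingHom t).comp (Polynomial.C : A →+* _)) = RingHom.id A := by
    ext a
    simp
  rw [h2, eval₂_id]
  rfl

theorem onC_coeff_zero (F : MvPolynomial σ A) (f : σ → Polynomial A) :
    (onC F f).coeff 0 = eval (fun i => (f i).coeff 0) F := by
  rw [Polynomial.coeff_zero_eq_eval_zero, onC_eval]
  simp only [Polynomial.coeff_zero_eq_eval_zero]

theorem onC_coeff_one [Fintype σ] (F : MvPolynomial σ A) (f : σ → Polynomial A) :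
    (onC F f).coeff 1 =
      ∑ i, (f i).coeff 1 * eval (fun i => (f i).coeff 0) (pderiv i F) := by
  classical
  induction F using MvPolynomial.induction_on with
  | C a => simp [onC]
  | add p q hp hq =>
    have : onC (p + q) f = onC p f + onC q f := by simp [onC]
    rw [this, Polynomial.coeff_add, hp, hq, ← Finset.sum_add_distrib]
    refine Finset.sum_congr rfl fun i _ => ?_
    rw [map_add, map_add, mul_add]
  | mul_X p j hp =>
    have h1 : onC (p * X j) f = onC p f * f j := by simp [onC]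
    rw [h1, Polynomial.mul_coeff_one, hp, onC_coeff_zero]
    have h2 : ∀ i, (f i).coeff 1 * eval (fun i => (f i).coeff 0) (pderiv i (p * X j)) =
        (f i).coeff 1 * eval (fun i => (f i).coeff 0) (pderiv i p) * (f j).coeff 0 +
          eval (fun i => (f i).coeff 0) p * (if i = j then (f j).coeff 1 else 0) := by
      intro i
      rw [pderiv_mul, map_add, map_mul, map_mul, eval_X, pderiv_X]
      by_cases hij : i = j
      · subst hij
        simp
        ring
      · have : (Pi.single i 1 : σ → MvPolynomial σ A) j = 0 := by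
          rw [Pi.single_apply, if_neg (fun h => hij h.symm)]
        rw [this, if_neg hij]
        simp
        ring
    rw [Finset.sum_congr rfl fun i _ => h2 i, Finset.sum_add_distrib, ← Finset.sum_mul,
      ← Finset.mul_sum]
    simp
    ring

theorem eval_map_C (F : MvPolynomial σ A) (f : σ → Polynomial A) :
    eval f (F.map Polynomial.C) = onC F f := by
  rw [eval_map]
  rfl

theorem onC_map_C_coeff_one [Fintype σ] (F : MvPolynomial σ A)
    (g : σ → Polynomial (Polynomial A)) :
    (onC (F.map Polynomial.C) g).coeff 1 =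
      ∑ i, (g i).coeff 1 * onC (pderiv i F) (fun i => (g i).coeff 0) := by
  rw [onC_coeff_one]
  refine Finset.sum_congr rfl fun i _ => ?_
  rw [pderiv_map, eval_map_C]

theorem onC_map_eval (F : MvPolynomial σ A) (g : σ → Polynomial (Polynomial A)) (t : A) :
    onC F (fun i => (g i).map (Polynomial.evalRingHom t)) =
      (onC (F.map Polynomial.C) g).map (Polynomial.evalRingHom t) := by
  rw [← onC_map, MvPolynomial.map_map]
  have : (Polynomial.evalRingHom t).comp (Polynomial.C : A →+* _) = RingHom.id A := by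
    ext a
    simp
  rw [this, MvPolynomial.map_id]

theorem natDegree_onC_le {F : MvPolynomial σ A} {d e : ℕ} (hF : F.IsHomogeneous d)
    (f : σ → Polynomial A) (hf : ∀ i, (f i).natDegree ≤ e) : (onC F f).natDegree ≤ d * e := by
  classical
  unfold onC
  rw [eval₂_eq]
  refine Polynomial.natDegree_sum_le_of_forall_le _ _ fun μ hμ => ?_
  refine (Polynomial.natDegree_C_mul_le _ _).trans ?_
  refine (Polynomial.natDegree_prod_le _ _).trans ?_
  have hd : μ.degree = d := by
    have := hF (MvPolynomial.mem_support_iff.mp hμ)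
    rw [Finsupp.degree_eq_weight_one]
    exact this
  rw [← hd, Finsupp.degree_apply, Finset.sum_mul]
  refine Finset.sum_le_sum fun i _ => ?_
  refine Polynomial.natDegree_pow_le.trans ?_
  exact Nat.mul_le_mul_left _ (hf i)

theorem cg_coeff_zero (c e : ℕ) (f₀ : σ → Polynomial A) (N : Fin e → σ → Polynomial A) (i : σ) :
    (cg c e f₀ N i).coeff 0 = f₀ i := by
  unfold cg
  rw [Polynomial.coeff_add, Polynomial.coeff_C_zero, Polynomial.finsetSum_coeff]
  rw [Finset.sum_eq_zero, add_zero]
  intro j _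
  rw [Polynomial.coeff_C_mul, Polynomial.coeff_X_pow, if_neg (by omega), mul_zero]

theorem cg_coeff_succ (c e : ℕ) (f₀ : σ → Polynomial A) (N : Fin e → σ → Polynomial A) (i : σ)
    (j : Fin e) : (cg c e f₀ N i).coeff ((j : ℕ) + 1) = Polynomial.X ^ c * N j i := by
  unfold cg
  rw [Polynomial.coeff_add, Polynomial.coeff_C_succ, zero_add, Polynomial.finsetSum_coeff]
  rw [Finset.sum_eq_single j]
  · rw [Polynomial.coeff_C_mul, Polynomial.coeff_X_pow, if_pos rfl, mul_one]
  · intro b _ hb
    rw [Polynomial.coeff_C_mul, Polynomial.coeff_X_pow, if_neg, mul_zero]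
    intro h
    apply hb
    ext
    omega
  · intro h
    exact absurd (Finset.mem_univ _) h

theorem cg_natDegree (c e : ℕ) (f₀ : σ → Polynomial A) (N : Fin e → σ → Polynomial A) (i : σ) :
    (cg c e f₀ N i).natDegree ≤ e := by
  unfold cg
  refine (Polynomial.natDegree_add_le _ _).trans ?_
  rw [Polynomial.natDegree_C]
  refine max_le (Nat.zero_le _) ?_
  refine Polynomial.natDegree_sum_le_of_forall_le _ _ fun j _ => ?_
  refine (Polynomial.natDegree_C_mul_le _ _).trans ?_
  refine (Polynomial.natDegree_X_pow_le _).trans ?_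
  exact j.2

theorem cg_coeff_natDegree {c e ρ : ℕ} (f₀ : σ → Polynomial A) (N : Fin e → σ → Polynomial A)
    (hN : ∀ j i, (N j i).degree < ((ρ + 1 : ℕ) : WithBot ℕ)) (i : σ) (j : ℕ) (hj : 1 ≤ j) :
    ((cg c e f₀ N i).coeff j).natDegree ≤ c + ρ := by
  by_cases hje : j ≤ e
  · obtain ⟨j', rfl⟩ : ∃ j', j = j' + 1 := ⟨j - 1, by omega⟩
    have h := cg_coeff_succ c e f₀ N i ⟨j', by omega⟩
    simp only at h
    rw [h]
    refine Polynomial.natDegree_mul_le.trans ?_
    have h1 : (Polynomial.X ^ c : Polynomial A).natDegree ≤ c := Polynomial.natDegree_X_pow_le _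
    have h2 : (N ⟨j', by omega⟩ i).natDegree ≤ ρ := by
      by_cases h0 : N ⟨j', by omega⟩ i = 0
      · rw [h0]
        simp
      · have := (Polynomial.natDegree_lt_iff_degree_lt h0).mpr (hN ⟨j', by omega⟩ i)
        omega
    omega
  · rw [Polynomial.coeff_eq_zero_of_natDegree_lt (lt_of_le_of_lt (cg_natDegree c e f₀ N i)
      (by omega))]
    simp

end General

section Field

variable {E : Type} [Field E]

/-- Very free curves of a common degree. -/
theorem common (hPOW : T_POW) {n d : ℕ} (F : MvPolynomial (Fin (n + 1)) E) (hd : 2 ≤ d)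
    (hF : F.IsHomogeneous d) {s : ℕ} (p : Fin s → Fin (n + 1) → E)
    (h : ∀ i, ∃ e f, VF F d (p i) e f) :
    ∃ e : ℕ, 1 ≤ e ∧ ∀ i, ∃ f, VF F d (p i) e f := by
  classical
  choose e f hf using h
  have hpos : ∀ i, e i ≠ 0 := fun i => by
    have := (hf i).two
    omega
  refine ⟨∏ i, e i, ?_, fun i => ?_⟩
  · exact Nat.one_le_iff_ne_zero.mpr (Finset.prod_ne_zero_iff.mpr fun i _ => hpos i)
  · have h1 := hPOW E n d F (p i) (e i) (∏ j ∈ Finset.univ.erase i, e j) (f i) hd hF
      (Nat.one_le_iff_ne_zero.mpr (Finset.prod_ne_zero_iff.mpr fun i _ => hpos i)) (hf i)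
    rw [Finset.prod_erase_mul _ _ (Finset.mem_univ i)] at h1
    exact ⟨_, h1⟩

theorem exists_pts [Infinite E] (s : ℕ) :
    ∃ a : Fin s → E, Function.Injective a ∧ ∀ i, a i ≠ 0 := by
  have h : (({0} : Set E)ᶜ).Infinite := (Set.finite_singleton 0).infinite_compl
  have := h.to_subtype
  let ι := Infinite.natEmbedding (({0} : Set E)ᶜ : Set E)
  refine ⟨fun i => (ι (i : ℕ) : E), ?_, ?_⟩
  · intro i j hij
    have := ι.injective (Subtype.ext hij)
    exact Fin.ext this
  · intro i
    exact (ι (i : ℕ)).2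

/-- The quotients. -/
theorem exists_quot {n d : ℕ} (F : MvPolynomial (Fin (n + 1)) E)
    (hF : F.IsHomogeneous d) (x y : Fin (n + 1) → E) (t : E) (e : ℕ)
    (f : Fin (n + 1) → Polynomial E) (hf : VF F d (fun i => x i + t * y i) e f) :
    ∃ r : Polynomial E, r.degree < ((d - 1 : ℕ) : WithBot ℕ) ∧
      ∑ l, onC (pderiv l F) (fun i => Polynomial.C (x i) + Polynomial.X * Polynomial.C (y i)) *
        Polynomial.C ((f l).coeff 1) = (Polynomial.X - Polynomial.C t) * r := by
  set G := ∑ l, onC (pderiv l F)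
    (fun i => Polynomial.C (x i) + Polynomial.X * Polynomial.C (y i)) *
        Polynomial.C ((f l).coeff 1) with hG
  have hdeg : G.natDegree ≤ d - 1 := by
    refine Polynomial.natDegree_sum_le_of_forall_le _ _ fun l _ => ?_
    refine (Polynomial.natDegree_mul_C_le _ _).trans ?_
    have h1 := natDegree_onC_le (hF.pderiv (i := l)) (e := 1)
      (fun i => Polynomial.C (x i) + Polynomial.X * Polynomial.C (y i)) (fun i => by
        refine (Polynomial.natDegree_add_le _ _).trans ?_
        rw [Polynomial.natDegree_C]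
        refine max_le (Nat.zero_le _) ?_
        refine (Polynomial.natDegree_mul_C_le _ _).trans ?_
        exact Polynomial.natDegree_X_le)
    rwa [mul_one] at h1
  have hroot : G.IsRoot t := by
    rw [Polynomial.IsRoot, hG, Polynomial.eval_finsetSum]
    have h1 := onC_coeff_one F f
    rw [hf.zero, Polynomial.coeff_zero] at h1
    rw [h1]
    refine Finset.sum_congr rfl fun l _ => ?_
    rw [Polynomial.eval_mul, Polynomial.eval_C, onC_eval, mul_comm]
    have h2 : (fun i => Polynomial.eval t (Polynomial.C (x i) + Polynomial.X *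
        Polynomial.C (y i))) = fun i => (f i).coeff 0 := by
      funext i
      rw [hf.pt i]
      simp
      ring
    rw [h2]
  obtain ⟨r, hr⟩ := Polynomial.dvd_iff_isRoot.mpr hroot
  refine ⟨r, ?_, hr⟩
  by_cases h0 : r = 0
  · rw [h0, Polynomial.degree_zero]
    exact WithBot.bot_lt_coe _
  · rw [← Polynomial.natDegree_lt_iff_degree_lt h0]
    have h1 : G.natDegree = 1 + r.natDegree := by
      rw [hr, Polynomial.natDegree_mul (Polynomial.X_sub_C_ne_zero t) h0,
        Polynomial.natDegree_X_sub_C]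
    omega

/-- The relation. -/
theorem exists_rel [Infinite E] (hCOL : T_COL) (D s : ℕ) (r : Fin s → Polynomial E)
    (hr : ∀ i, (r i).degree < ((D : ℕ) : WithBot ℕ)) :
    ∃ (R : Finset (Fin s)) (γ : Fin s → E), s ≤ R.card + D ∧ (∀ i ∈ R, γ i ≠ 0) ∧
      ∑ i ∈ R, Polynomial.C (γ i) * r i = 0 := by
  obtain ⟨R, γ, h1, h2, h3⟩ := hCOL E (Fin D → E) s (fun i j => (r i).coeff j)
  rw [Module.finrank_fin_fun] at h1
  refine ⟨R, γ, h1, h2, ?_⟩
  ext j
  rw [Polynomial.finsetSum_coeff, Polynomial.coeff_zero]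
  by_cases hj : j < D
  · have := congrFun h3 ⟨j, hj⟩
    rw [Finset.sum_apply] at this
    rw [Pi.zero_apply] at this
    rw [← this]
    refine Finset.sum_congr rfl fun i _ => ?_
    rw [Polynomial.coeff_C_mul]
    rfl
  · refine Finset.sum_eq_zero fun i _ => ?_
    rw [Polynomial.coeff_C_mul, Polynomial.coeff_eq_zero_of_degree_lt, mul_zero]
    refine (hr i).trans_le ?_
    exact_mod_cast not_lt.mp hj

end Field

end ST2_

open ST2_ in
theorem p_ST2 (hREG : T_REG) (hPOW : T_POW) (hSCL : T_SCL) (hCOL : T_COL) (hTP : T_TP)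
    (hLS : T_LS) (hCMB : T_CMB) (hVFG : T_VFG) (hGVAL : T_GVAL) (hSUP : T_SUP) : T_ST2 := by
  classical
  intro E _ _ hNP n d F hd hF hsm hV x y hind hline
  set f₀ : Fin (n + 1) → Polynomial E :=
    fun i => Polynomial.C (x i) + Polynomial.X * Polynomial.C (y i) with hf₀
  have hF0 : onC F f₀ = 0 := by
    rw [hf₀, ← onLine_eq_onC]
    exact hline
  have hf₀deg : ∀ i, (f₀ i).natDegree ≤ 1 := fun i => by
    refine (Polynomial.natDegree_add_le _ _).trans ?_
    rw [Polynomial.natDegree_C]
    refine max_le (Nat.zero_le _) ?_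
    refine (Polynomial.natDegree_mul_C_le _ _).trans ?_
    exact Polynomial.natDegree_X_le
  -- the points
  obtain ⟨a, hainj, ha0⟩ := exists_pts (E := E) (2 * (d - 1))
  have hp : ∀ i, ∃ e f, VF F d (fun l => x l + a i * y l) e f := by
    intro i
    apply hV
    · intro h0
      have := (hind 1 (a i) (fun l => by
        have := congrFun h0 l
        simpa using this)).1
      exact one_ne_zero this
    · have h1 := onC_eval F f₀ (a i)
      rw [hF0, Polynomial.eval_zero] at h1
      rw [h1]
      have h2 : (fun l => x l + a i * y l) = fun l => (f₀ l).eval (a i) := by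
        funext l
        simp [hf₀]
        ring
      rw [h2]
  obtain ⟨e, he1, hf⟩ := common hPOW F hd hF _ hp
  choose f hf using hf
  have hq := fun i => exists_quot F hF x y (a i) e (f i) (hf i)
  choose r hrdeg hr using hq
  obtain ⟨R, γ, hR, hγ, hrel⟩ := exists_rel hCOL (d - 1) (2 * (d - 1)) r hrdeg
  obtain ⟨ρ, hρ⟩ : ∃ ρ, R.card = ρ + 1 := ⟨R.card - 1, by omega⟩
  have hdR : d - 1 ≤ ρ + 1 := by omega
  -- the products
  set P : Fin (2 * (d - 1)) → Polynomial E :=
    fun i => ∏ j ∈ R.erase i, (Polynomial.X - Polynomial.C (a j)) with hP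
  set m : Polynomial E := ∏ i ∈ R, (Polynomial.X - Polynomial.C (a i)) with hm
  have hmP : ∀ i ∈ R, m = (Polynomial.X - Polynomial.C (a i)) * P i := fun i hi => by
    rw [hm, hP]
    exact (Finset.mul_prod_erase _ _ hi).symm
  have hmmonic : m.Monic := Polynomial.monic_prod_of_monic _ _ fun i _ =>
    Polynomial.monic_X_sub_C _
  have hmdeg : m.natDegree = ρ + 1 := by
    rw [hm, Polynomial.natDegree_prod_of_monic _ _ fun i _ => Polynomial.monic_X_sub_C _]
    simp [hρ]
  have hm0 : m.coeff 0 ≠ 0 := by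
    rw [Polynomial.coeff_zero_eq_eval_zero, hm, Polynomial.eval_prod]
    refine Finset.prod_ne_zero_iff.mpr fun i _ => ?_
    simp [ha0 i]
  have hPself : ∀ i, (P i).eval (a i) ≠ 0 := fun i => by
    rw [hP]
    simp only
    rw [Polynomial.eval_prod]
    refine Finset.prod_ne_zero_iff.mpr fun j hj => ?_
    rw [Polynomial.eval_sub, Polynomial.eval_X, Polynomial.eval_C, sub_ne_zero]
    intro h
    exact (Finset.mem_erase.mp hj).1 (hainj h).symm
  have hPother : ∀ i, ∀ k ∈ R, k ≠ i → (P i).eval (a k) = 0 := fun i k hk hki => by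
    rw [hP]
    simp only
    rw [Polynomial.eval_prod]
    refine Finset.prod_eq_zero (Finset.mem_erase.mpr ⟨hki, hk⟩) ?_
    simp
  have hPdeg : ∀ i ∈ R, (P i).degree < ((ρ + 1 : ℕ) : WithBot ℕ) := fun i hi => by
    have h0 : P i ≠ 0 := fun h => hPself i (by rw [h, Polynomial.eval_zero])
    rw [← Polynomial.natDegree_lt_iff_degree_lt h0, hP]
    simp only
    rw [Polynomial.natDegree_prod_of_monic _ _ fun i _ => Polynomial.monic_X_sub_C _]
    simp [Finset.card_erase_of_mem hi, hρ]
  -- the teeth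
  set c : Fin (2 * (d - 1)) → E := fun i => a i * (P i).eval (a i) * γ i with hc
  have hc0 : ∀ i ∈ R, c i ≠ 0 := fun i hi => by
    rw [hc]
    exact mul_ne_zero (mul_ne_zero (ha0 i) (hPself i)) (hγ i hi)
  set g : Fin (2 * (d - 1)) → Fin (n + 1) → Polynomial E :=
    fun i l => (f i l).comp (Polynomial.C (c i) * Polynomial.X) with hg
  have hgVF : ∀ i ∈ R, VF F d (fun l => x l + a i * y l) e (g i) := fun i hi =>
    hSCL E n d F _ e (f i) (c i) (hc0 i hi) (hf i)
  set N : Fin e → Fin (n + 1) → Polynomial E := fun j l =>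
    ∑ i ∈ R, Polynomial.C ((a i * (P i).eval (a i))⁻¹ * (g i l).coeff ((j : ℕ) + 1)) * P i with hN
  have hNdeg : ∀ j l, (N j l).degree < ((ρ + 1 : ℕ) : WithBot ℕ) := by
    intro j l
    rw [hN]
    refine (Polynomial.degree_sum_le _ _).trans_lt ?_
    refine (Finset.sup_lt_iff (WithBot.bot_lt_coe _)).mpr fun i hi => ?_
    rw [← Polynomial.smul_eq_C_mul]
    exact (Polynomial.degree_smul_le _ _).trans_lt (hPdeg i hi)
  have hNeval : ∀ j l, ∀ k ∈ R, (N j l).eval (a k) = (a k)⁻¹ * (g k l).coeff ((j : ℕ) + 1) := by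
    intro j l k hk
    rw [hN]
    simp only
    rw [Polynomial.eval_finsetSum, Finset.sum_eq_single k]
    · rw [Polynomial.eval_mul, Polynomial.eval_C]
      have h1 := hPself k
      have h2 := ha0 k
      field_simp
    · intro i hi hik
      rw [Polynomial.eval_mul, hPother i k hk hik.symm, mul_zero]
    · intro h
      exact absurd hk h
  set G : Fin (n + 1) → Polynomial (Polynomial E) := cg 1 e f₀ N with hG
  have htooth : ∀ k ∈ R, (fun l => (G l).map (Polynomial.evalRingHom (a k))) = g k := by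
    intro k hk
    funext l
    ext j
    rw [Polynomial.coeff_map]
    rcases Nat.eq_zero_or_pos j with rfl | hj
    · rw [hG, cg_coeff_zero, (hgVF k hk).pt l]
      simp [hf₀]
      ring
    · obtain ⟨j', rfl⟩ : ∃ j', j = j' + 1 := ⟨j - 1, by omega⟩
      by_cases hje : j' < e
      · have h1 := cg_coeff_succ 1 e f₀ N l ⟨j', hje⟩
        simp only at h1
        rw [hG, h1]
        simp only [pow_one, Polynomial.coe_evalRingHom, Polynomial.eval_mul, Polynomial.eval_X]
        rw [hNeval _ _ k hk, mul_inv_cancel_left₀ (ha0 k)]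
      · rw [Polynomial.coeff_eq_zero_of_natDegree_lt (lt_of_le_of_lt (cg_natDegree 1 e f₀ N l)
          (by omega)), Polynomial.coeff_eq_zero_of_natDegree_lt
          (lt_of_le_of_lt ((hgVF k hk).deg l) (by omega)), map_zero]
  have hprod : ∏ b ∈ R.image a, (Polynomial.X - Polynomial.C b) = m := by
    rw [Finset.prod_image (fun i _ j _ h => hainj h)]
  have hdvd : Polynomial.C m ∣ onC (F.map Polynomial.C) G := by
    rw [← hprod]
    refine (hTP E n (e - 1) (d * e - 1) F (R.image a) G).1 fun b hb => ?_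
    obtain ⟨k, hk, rfl⟩ := Finset.mem_image.mp hb
    rw [htooth k hk]
    exact (hgVF k hk).zero
  have hteeth : ∀ H : Polynomial (Polynomial E), H.degree < ((d * e - 1 : ℕ) : WithBot ℕ) →
      ∃ u : Fin (n + 1) → Polynomial (Polynomial E),
        (∀ i, (u i).degree < ((e - 1 : ℕ) : WithBot ℕ)) ∧
        Polynomial.C m ∣ ∑ i, u i * onC (pderiv i (F.map Polynomial.C)) G - H := by
    rw [← hprod]
    refine (hTP E n (e - 1) (d * e - 1) F (R.image a) G).2 fun b hb => ?_
    obtain ⟨k, hk, rfl⟩ := Finset.mem_image.mp hb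
    rw [htooth k hk]
    exact (hgVF k hk).sur
  have hcoef1 : (onC (F.map Polynomial.C) G).coeff 1 = 0 := by
    rw [onC_map_C_coeff_one]
    have h0 : (fun i => (G i).coeff 0) = f₀ := by
      funext i
      rw [hG, cg_coeff_zero]
    rw [h0]
    have h1 : ∀ l, (G l).coeff 1 = ∑ i ∈ R, Polynomial.X *
        (Polynomial.C (γ i) * Polynomial.C ((f i l).coeff 1) * P i) := by
      intro l
      have h1 := cg_coeff_succ 1 e f₀ N l ⟨0, by omega⟩
      simp only [zero_add] at h1
      rw [hG, h1, pow_one, hN, ← Finset.mul_sum]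
      congr 1
      refine Finset.sum_congr rfl fun i hi => ?_
      rw [← Polynomial.C_mul]
      congr 2
      simp only [zero_add]
      rw [hg]
      simp only
      rw [Polynomial.comp_C_mul_X_coeff, pow_one]
      simp only [hc]
      have h2 := hPself i
      have h3 := ha0 i
      field_simp
    calc ∑ l, (G l).coeff 1 * onC (pderiv l F) f₀
        = ∑ l, ∑ i ∈ R, Polynomial.X * (Polynomial.C (γ i) * P i *
            (onC (pderiv l F) f₀ * Polynomial.C ((f i l).coeff 1))) := by
          refine Finset.sum_congr rfl fun l _ => ?_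
          rw [h1 l, Finset.sum_mul]
          refine Finset.sum_congr rfl fun i _ => ?_
          ring
      _ = ∑ i ∈ R, ∑ l, Polynomial.X * (Polynomial.C (γ i) * P i *
            (onC (pderiv l F) f₀ * Polynomial.C ((f i l).coeff 1))) := Finset.sum_comm
      _ = ∑ i ∈ R, Polynomial.X * m * (Polynomial.C (γ i) * r i) := by
          refine Finset.sum_congr rfl fun i hi => ?_
          rw [← Finset.mul_sum, ← Finset.mul_sum, hr i, hmP i hi]
          ring
      _ = 0 := by rw [← Finset.mul_sum, hrel, mul_zero]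
  have hd1 : 1 ≤ d := by omega
  have hhandle : Sur F (fun i => (G i).coeff 0) (ρ + 1) ((d - 1) * 1 + ρ + 1) := by
    have h0 : (fun i => (G i).coeff 0) = f₀ := by
      funext i
      rw [hG, cg_coeff_zero]
    rw [h0]
    have h1 := hREG E n d F hd hF hsm x y hind hline (ρ + 1) hdR
    have h2 : (d - 1) * 1 + ρ + 1 = ρ + 1 + (d - 1) := by ring
    rw [h2]
    exact h1
  have hLSur : LSur F d 1 ρ e 1 m 0 G := by
    refine hLS E n d 1 ρ e 1 F m G hd1 he1 hF hmmonic hmdeg (Or.inl rfl)
      (fun i => cg_natDegree 1 e f₀ N i) (fun i => ?_)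
      (fun i j hj => cg_coeff_natDegree f₀ N hNdeg i j hj) hhandle hteeth
    rw [hG, cg_coeff_zero]
    exact hf₀deg i
  obtain ⟨θ, N', Q, hθ, hN'deg, hQ, hLS', -⟩ := hCMB E hNP n d 1 ρ e F m f₀ N hd1 he1 hF hmmonic
    hmdeg (Or.inr hm0) hf₀deg hNdeg hF0 hdvd hcoef1 hLSur
  obtain ⟨hz, hsur⟩ := hVFG E n d 1 ρ e 1 F m θ (cg 1 e f₀ N') Q hd1 he1 hF hmmonic hmdeg
    (Or.inl rfl) hθ (fun i => cg_natDegree 1 e f₀ N' i) hQ
  have hsur' := hsur hLS'
  have hval := hGVAL E n 1 ρ e m θ f₀ N' hmmonic hmdeg hf₀deg hN'deg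
  have hre : 1 ≤ (ρ + 1) * e := Nat.mul_pos (by omega) (by omega)
  refine ⟨m.coeff 0 ^ e, 1 + (ρ + 1) * e, cG m θ e (cg 1 e f₀ N'), pow_ne_zero _ hm0, ?_⟩
  refine ⟨by omega, fun i => (hval i).1, hz, fun i => ?_, fun i => ?_, ?_⟩
  · rw [(hval i).2.2 le_rfl]
    simp [hf₀]
  · rw [(hval i).2.1]
    simp [hf₀]
  · refine (hSUP E n d (1 + (ρ + 1) * e) F (cG m θ e (cg 1 e f₀ N')) hd1 hF
      (fun i => (hval i).1)).1 (by omega) hd ?_
    have h1 : (ρ + 1) * e - 1 + 1 = 1 + (ρ + 1) * e - 1 := by omega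
    have h2 : (d - 1) * 1 + d * ((ρ + 1) * e) - 1 + 1 = d * (1 + (ρ + 1) * e) - 1 := by
      have h3 : 1 ≤ d * ((ρ + 1) * e) := Nat.mul_pos (by omega) (by omega)
      have h4 : d * (1 + (ρ + 1) * e) = d + d * ((ρ + 1) * e) := by ring
      rw [h4]
      omega
    rw [h1, h2] at hsur'
    exact hsur'

end Pool.Agent.FCV
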