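import Pool.Agent.FCV.TargetsM

/-!
# Free curves and weak approximation: one more place
-/

set_option autoImplicit false

open MvPolynomial WithZero Topology
open Pool.Agent.WA Pool.Agent.WL

namespace Pool.Agent.FCV

namespace STEPC_

section lines

variable {σ M : Type} [Field M] {F : MvPolynomial σ M} {d : ℕ}

lemma line_smul (h5 : T_TRI) (hF : F.IsHomogeneous d) {x w z : σ → M} {c : M} (hc : c ≠ 0)
    (hz : z = fun i => c * w i) (h : onLine F x z = 0) : onLine F x w = 0 := by
  have h1 := (h5 σ M F d hF x w 0 c).1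
  have e0 : (fun i => 0 * x i + c * w i) = z := by
    rw [hz]
    funext i
    ring
  rw [e0] at h1
  ext j
  have h2 := h1 j
  rw [h, Polynomial.coeff_zero, Finset.sum_range_succ, Nat.sub_self, pow_zero,
    Finset.sum_eq_zero, zero_add] at h2
  · rw [Polynomial.coeff_zero]
    have h3 : c ^ j * (onLine F x w).coeff j = 0 := by
      rw [h2]
      simp
    rcases mul_eq_zero.mp h3 with h4 | h4
    · exact absurd h4 (pow_ne_zero _ hc)
    · exact h4
  · intro i hi
    rw [Finset.mem_range] at hi
    rw [zero_pow (by omega)]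
    ring

lemma line_symm (h6 : T_SYM) (h7 : T_DEG) (hF : F.IsHomogeneous d) {x w : σ → M}
    (h : onLine F x w = 0) : onLine F w x = 0 := by
  ext j
  rw [Polynomial.coeff_zero]
  by_cases hj : j ≤ d
  · rw [(h6 σ M F d hF x w).1 j hj, h, Polynomial.coeff_zero]
  · exact Polynomial.coeff_eq_zero_of_natDegree_lt
      (lt_of_le_of_lt (h7 σ M F d hF w x).1 (not_le.mp hj))

lemma indep {x y : σ → M} (hy : y ≠ 0) (h : ¬ ∃ c : M, x = fun i => c * y i) (a b : M)
    (hab : ∀ i, a * x i + b * y i = 0) : a = 0 ∧ b = 0 := by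
  have ha : a = 0 := by
    by_contra ha
    apply h
    refine ⟨-(b / a), funext fun i => ?_⟩
    have h1 := hab i
    field_simp
    linear_combination h1
  refine ⟨ha, ?_⟩
  by_contra hb
  apply hy
  funext i
  have h1 := hab i
  rw [ha, zero_mul, zero_add] at h1
  exact (mul_eq_zero.mp h1).resolve_left hb

end lines

end STEPC_

open STEPC_ in
theorem p_STEPC (h1 : T_DENS) (h2 : T_CHAIN) (h8 : T_LOC) (h3 : T_MOVEC) (h4 : T_NEARC)
    (h6 : T_SYM) (h5 : T_TRI) (h7 : T_DEG) (h9 : T_IRR) : T_STEPC := by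
  intro k K _ _ _ _ hfun hC1 n d r F hd2 hdn hFhom hFsm v w hv hw hind x y hx hFx hy hFy θ η hθ hη
  obtain ⟨π, hπ⟩ := exists_isUnif v hv.1
  have : Infinite K := Infinite.of_injective (algebraMap k K) (algebraMap k K).injective
  let _ : Algebra K (Compl v) := (emb v).toAlgebra
  have halg : ∀ (z : Fin (n + 1) → Compl v) (G : MvPolynomial (Fin (n + 1)) K),
      aeval z G = eval z (FE v G) := by
    intro z G
    rw [aeval_def, eval_map]
    rfl
  have hd1 : 1 ≤ d := by omega
  have hn2 : 2 ≤ n := by nlinarith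
  have hFh : (FE v F).IsHomogeneous d := hFhom.map _
  have hFs : SmoothForm (FE v F) := hFsm.map (L := Compl v)
  have hndvd : ¬ F ∣ 1 := by
    intro h
    exact (h9 K n d F hd1 (Or.inr hn2) hFhom hFsm).not_isUnit (isUnit_of_dvd_one h)
  -- small radii
  have hrad : ∀ (p : Fin (n + 1) → Compl v), p ≠ 0 → ∀ ρ : ℤᵐ⁰, ρ ≠ 0 →
      ∃ ρ' : ℤᵐ⁰, ρ' ≠ 0 ∧ ρ' ≤ ρ ∧ ∀ q : Fin (n + 1) → Compl v,
        (∀ i, vE v (q i - p i) ≤ ρ') → q ≠ 0 := by
    intro p hp ρ hρ
    obtain ⟨l, hl⟩ : ∃ l, p l ≠ 0 := by
      by_contra h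
      simp only [not_exists, not_not] at h
      exact hp (funext h)
    have hpl : vE v (p l) ≠ 0 := (Valuation.ne_zero_iff _).mpr hl
    have hlt : vE v (emb v π) * vE v (p l) < vE v (p l) := by
      calc vE v (emb v π) * vE v (p l) < 1 * vE v (p l) := by
            rw [mul_lt_mul_iff_left₀ (zero_lt_iff.mpr hpl)]
            exact (isUnif_emb hπ).lt_one
        _ = vE v (p l) := one_mul _
    refine ⟨min ρ (vE v (emb v π) * vE v (p l)), ?_, min_le_left _ _, ?_⟩
    · rcases min_choice ρ (vE v (emb v π) * vE v (p l)) with h | h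
      · rw [h]
        exact hρ
      · rw [h]
        exact mul_ne_zero (isUnif_emb hπ).ne_zero hpl
    · rintro q hq rfl
      have h4 := hq l
      rw [Pi.zero_apply, zero_sub, Valuation.map_neg] at h4
      exact absurd (h4.trans (min_le_right _ _)) (not_le.mpr hlt)
  obtain ⟨θ', hθ'0, hθ'θ, hθ'⟩ := hrad x hx θ hθ
  obtain ⟨x', hx'x, hFx', -, hx'alg⟩ := h1 K (Compl v) (emb v π) (isUnif_emb hπ)
    (fun e c hc => dense_emb hπ e c hc) n d F 1 hd1 (Or.inr hn2) hFhom hFsm hndvd x hx
    (by rw [halg]; exact hFx) θ' hθ'0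
  obtain ⟨z, hz0, hYz, hx'z⟩ := h2 K (Compl v) hC1 n d F hd1 hdn hFhom y x' hFy hFx'
    hx'alg
  rw [halg] at hFx'
  have hx'0 : x' ≠ 0 := hθ' x' hx'x
  set Y : Fin (n + 1) → Compl v := fun i => emb v (y i) with hY
  have hYz' : onLine (FE v F) Y z = 0 := hYz
  have hx'z' : onLine (FE v F) x' z = 0 := hx'z
  have hY0 : Y ≠ 0 := by
    intro h
    apply hy
    funext i
    have h10 := congrFun h i
    rw [hY] at h10
    exact (map_eq_zero_iff _ (emb v).injective).mp h10
  have hFY : ∀ (y' : Fin (n + 1) → K) (G : MvPolynomial (Fin (n + 1)) K),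
      eval (fun i => emb v (y' i)) (FE v G) = emb v (eval y' G) := by
    intro y' G
    exact (MvPolynomial.map_eval (emb v) y' G).symm
  obtain ⟨ρ, hρ, hρθ, hρ'⟩ := hrad x' hx'0 θ hθ
  -- the main step
  have key : ∃ y' : Fin (n + 1) → K, eval y' F = 0 ∧
      (∀ i, vE v (emb v (y' i) - x' i) ≤ ρ) ∧
      ∀ l, ∃ c : K, c ≠ 0 ∧ ∀ i, w l (c * y' i - y i) ≤ η l := by
    by_cases hxY : ∃ c' : Compl v, x' = fun i => c' * Y i
    · obtain ⟨c', hc'⟩ := hxY
      have hc'0 : c' ≠ 0 := by
        rintro rfl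
        apply hx'0
        rw [hc']
        funext i
        simp
      obtain ⟨B, hB1, hB⟩ := exists_common_bound (vE v) Y
      have hB0 : B ≠ 0 := fun h => by
        rw [h] at hB1
        exact absurd hB1 (not_le.mpr zero_lt_one)
      have hvc' : vE v c' ≠ 0 := (Valuation.ne_zero_iff _).mpr hc'0
      set ρ2 : ℤᵐ⁰ := min (ρ * B⁻¹) (vE v (emb v π) * vE v c') with hρ2
      have hρ20 : ρ2 ≠ 0 := by
        rcases min_choice (ρ * B⁻¹) (vE v (emb v π) * vE v c') with h | h
        · rw [hρ2, h]
          exact mul_ne_zero hρ (inv_ne_zero hB0)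
        · rw [hρ2, h]
          exact mul_ne_zero (isUnif_emb hπ).ne_zero hvc'
      obtain ⟨e, he⟩ := dense_emb hπ c' ρ2 hρ20
      have he0 : e ≠ 0 := by
        rintro rfl
        rw [map_zero, zero_sub, Valuation.map_neg] at he
        have hlt : vE v (emb v π) * vE v c' < vE v c' := by
          calc vE v (emb v π) * vE v c' < 1 * vE v c' := by
                rw [mul_lt_mul_iff_left₀ (zero_lt_iff.mpr hvc')]
                exact (isUnif_emb hπ).lt_one
            _ = vE v c' := one_mul _
        exact absurd (he.trans (min_le_right _ _)) (not_le.mpr hlt)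
      refine ⟨fun i => e * y i, ?_, ?_, ?_⟩
      · have e1 := eval_map_smul (RingHom.id K) hFhom y e
        rw [MvPolynomial.map_id] at e1
        simp only [RingHom.id_apply] at e1
        rw [e1, hFy, mul_zero]
      · intro i
        have e1 : emb v (e * y i) - x' i = (emb v e - c') * Y i := by
          rw [hc', map_mul, hY]
          ring
        rw [e1, map_mul]
        calc vE v (emb v e - c') * vE v (Y i) ≤ (ρ * B⁻¹) * B :=
              mul_le_mul' (he.trans (min_le_left _ _)) (hB i)
          _ = ρ := inv_mul_cancel_right₀ hB0 ρ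
      · intro l
        refine ⟨e⁻¹, inv_ne_zero he0, fun i => ?_⟩
        rw [inv_mul_cancel_left₀ he0, sub_self, map_zero]
        exact bot_le
    · -- the line joins `x'` and `Y`
      have hjoin : onLine (FE v F) x' Y = 0 → ∃ y' : Fin (n + 1) → K, eval y' F = 0 ∧
          (∀ i, vE v (emb v (y' i) - x' i) ≤ ρ) ∧
          ∀ l, ∃ c : K, c ≠ 0 ∧ ∀ i, w l (c * y' i - y i) ≤ η l := by
        intro hline
        obtain ⟨α, e, f, hα, hf⟩ := h8 k K hfun v hv n d (FE v F) hd2 hdn hFh hFs x' Y
          (indep hY0 hxY) hline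
        exact h3 k K hfun n d r F v w hv hw hind hd1 hFhom x' y α e f hx'0 hα hf ρ η hρ hη
      by_cases hzY : ∃ c : Compl v, z = fun i => c * Y i
      · obtain ⟨c, hc⟩ := hzY
        have hc0 : c ≠ 0 := by
          rintro rfl
          apply hz0
          rw [hc]
          funext i
          simp
        exact hjoin (line_smul h5 hFh hc0 hc hx'z')
      · by_cases hzx : ∃ c : Compl v, z = fun i => c * x' i
        · obtain ⟨c, hc⟩ := hzx
          have hc0 : c ≠ 0 := by
            rintro rfl
            apply hz0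
            rw [hc]
            funext i
            simp
          exact hjoin (line_symm h6 h7 hFh (line_smul h5 hFh hc0 hc hYz'))
        · have hx'z0 : ¬ ∃ c : Compl v, x' = fun i => c * z i := by
            rintro ⟨c, hc⟩
            have hc0 : c ≠ 0 := by
              rintro rfl
              apply hx'0
              rw [hc]
              funext i
              simp
            apply hzx
            refine ⟨c⁻¹, funext fun i => ?_⟩
            rw [hc, inv_mul_cancel_left₀ hc0]
          obtain ⟨α1, e1, f1, hα1, hf1⟩ := h8 k K hfun v hv n d (FE v F) hd2 hdn hFh hFs z Y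
            (indep hY0 hzY) (line_symm h6 h7 hFh hYz')
          obtain ⟨α, e, f, hα, hf⟩ := h8 k K hfun v hv n d (FE v F) hd2 hdn hFh hFs x' z
            (indep hz0 hx'z0) hx'z'
          have hvα : vE v α ≠ 0 := (Valuation.ne_zero_iff _).mpr hα
          obtain ⟨ρ1, hρ1, hnear⟩ := h4 k K hfun n d F v hv hd1 hFhom _ z e f hf (vE v α * ρ)
            (mul_ne_zero hvα hρ)
          obtain ⟨y1, hFy1, hy1z, hy1w⟩ := h3 k K hfun n d r F v w hv hw hind hd1 hFhom z y α1 e1
            f1 hz0 hα1 hf1 ρ1 η hρ1 hη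
          obtain ⟨x3, f', hx3, hf'⟩ := hnear (fun i => emb v (y1 i)) hy1z (by
            rw [hFY, hFy1, map_zero])
          choose c hc0 hc using hy1w
          have hx3' : ∀ i, vE v (α⁻¹ * x3 i - x' i) ≤ ρ := by
            intro i
            have e2 : α⁻¹ * x3 i - x' i = α⁻¹ * (x3 i - α * x' i) := by
              field_simp
            rw [e2, map_mul, map_inv₀]
            calc (vE v α)⁻¹ * vE v (x3 i - α * x' i) ≤ (vE v α)⁻¹ * (vE v α * ρ) :=
                  mul_le_mul' le_rfl (hx3 i)
              _ = ρ := inv_mul_cancel_left₀ hvα ρ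
          have hx30 : (fun i => α⁻¹ * x3 i) ≠ 0 := hρ' _ hx3'
          have hf'' : FC (FE v F) d (fun i => α * (fun i => α⁻¹ * x3 i) i)
              (fun i => emb v (y1 i)) e f' := by
            have e2 : (fun i => α * (fun i => α⁻¹ * x3 i) i) = x3 := by
              funext i
              exact mul_inv_cancel_left₀ hα (x3 i)
            rw [e2]
            exact hf'
          obtain ⟨y2, hFy2, hy2x, hy2w⟩ := h3 k K hfun n d r F v w hv hw hind hd1 hFhom
            (fun i => α⁻¹ * x3 i) y1 α e f' hx30 hα hf'' ρ (fun l => η l * (w l (c l))⁻¹) hρ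
            (fun l => mul_ne_zero (hη l) (inv_ne_zero ((Valuation.ne_zero_iff _).mpr (hc0 l))))
          refine ⟨y2, hFy2, ?_, ?_⟩
          · intro i
            have e2 : emb v (y2 i) - x' i = (emb v (y2 i) - α⁻¹ * x3 i) + (α⁻¹ * x3 i - x' i) := by
              ring
            rw [e2]
            exact (vE v).map_add_le (hy2x i) (hx3' i)
          · intro l
            obtain ⟨c', hc'0, hc'⟩ := hy2w l
            refine ⟨c l * c', mul_ne_zero (hc0 l) hc'0, fun i => ?_⟩
            have e2 : c l * c' * y2 i - y i = c l * (c' * y2 i - y1 i) + (c l * y1 i - y i) := by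
              ring
            rw [e2]
            apply (w l).map_add_le _ (hc l i)
            rw [map_mul]
            have hwc : w l (c l) ≠ 0 := (Valuation.ne_zero_iff _).mpr (hc0 l)
            calc w l (c l) * w l (c' * y2 i - y1 i) ≤ w l (c l) * (η l * (w l (c l))⁻¹) :=
                  mul_le_mul' le_rfl (hc' i)
              _ = η l := by
                  rw [mul_comm, inv_mul_cancel_right₀ hwc]
  obtain ⟨y', hFy', hy'x', hy'w⟩ := key
  have hy'0 : y' ≠ 0 := by
    rintro rfl
    apply hρ' (fun i => emb v ((0 : Fin (n + 1) → K) i)) hy'x'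
    funext i
    simp
  refine ⟨y', hy'0, hFy', ?_, hy'w⟩
  intro i
  have e : emb v (y' i) - x i = (emb v (y' i) - x' i) + (x' i - x i) := by ring
  rw [e]
  exact (vE v).map_add_le ((hy'x' i).trans hρθ) ((hx'x i).trans hθ'θ)

end Pool.Agent.FCV
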