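import Pool.Agent.FCV.TargetsM

/-!
# The value of the form at a solution of the refined system for curves
-/

set_option autoImplicit false

open MvPolynomial

namespace Pool.Agent.FCV

theorem p_STRC (h1 : T_BINC) : T_STRC := by
  intro σ A _ F d E N ψ q φ hd hE hF hS
  obtain ⟨η, B, hφ, h0, hj⟩ := hS
  have hb := (h1 σ (PowerSeries A) F d E hE hF ψ η).2.2.2 q (PowerSeries.X ^ N)
  have e : φ = fun i => ∑ j : Fin E, q ^ (E - (j : ℕ)) *
      ((PowerSeries.X : PowerSeries A) ^ N) ^ (j : ℕ) * ψ j i +
        (PowerSeries.X ^ N) ^ E * η i := by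
    funext i
    rw [hφ i]
    congr 1
    · refine Finset.sum_congr rfl fun j _ => ?_
      rw [← pow_mul, mul_comm N (j : ℕ)]
    · rw [← pow_mul, mul_comm N E]
  rw [e, hb, Finset.sum_range_succ]
  have key : ∀ m : ℕ, m + 1 ≤ d * E → ∑ j ∈ Finset.range (m + 1),
      q ^ (d * E - j) * ((PowerSeries.X : PowerSeries A) ^ N) ^ j *
        (onC F (crv ψ η)).coeff j =
      q ^ (d * E - m) * (PowerSeries.X ^ N) ^ (m + 1) * B m := by
    intro m
    induction m with
    | zero =>
      intro _
      rw [Finset.sum_range_one, h0]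
      ring
    | succ m ih =>
      intro hm
      rw [Finset.sum_range_succ, ih (by omega), hj m (by omega)]
      have e1 : d * E - m = d * E - (m + 1) + 1 := by omega
      rw [e1]
      ring
  have hdE : 1 ≤ d * E := Nat.one_le_iff_ne_zero.2 (by positivity)
  obtain ⟨m, hm⟩ : ∃ m, d * E = m + 1 := ⟨d * E - 1, by omega⟩
  have e2 : (PowerSeries.X : PowerSeries A) ^ (d * E * N) = (PowerSeries.X ^ N) ^ (d * E) := by
    rw [← pow_mul, mul_comm]
  have hk := key m (by omega)
  rw [hm] at hk
  rw [e2, hm, hk]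
  refine dvd_add ?_ ?_
  · rw [mul_right_comm]
    exact dvd_mul_left _ _
  · rw [mul_right_comm]
    exact dvd_mul_left _ _

end Pool.Agent.FCV
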