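import Pool.Agent.FCV.TargetsG

/-!
# Free curves on hypersurfaces: subadditivity (`T_SUB`)
-/

set_option autoImplicit false

open MvPolynomial

namespace Pool.Agent.FCV

namespace SUB_

section Cones

variable {κ τ τ' : Type} [Field κ]

theorem acone_inter {N N' : Set (τ → κ)} (h : ACone N) (h' : ACone N') : ACone (N ∩ N') := by
  obtain ⟨m, g, e, hg, hN⟩ := h
  obtain ⟨m', g', e', hg', hN'⟩ := h'
  refine ⟨m + m', Fin.append g g', Fin.append e e', ?_, ?_⟩
  · intro i
    refine Fin.addCases (fun j => ?_) (fun j => ?_) i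
    · rw [Fin.append_left, Fin.append_left]
      exact hg j
    · rw [Fin.append_right, Fin.append_right]
      exact hg' j
  · intro z
    rw [Set.mem_inter_iff, hN, hN']
    constructor
    · rintro ⟨h1, h2⟩ i
      refine Fin.addCases (fun j => ?_) (fun j => ?_) i
      · rw [Fin.append_left]
        exact h1 j
      · rw [Fin.append_right]
        exact h2 j
    · intro h
      refine ⟨fun j => ?_, fun j => ?_⟩
      · have := h (Fin.castAdd m' j)
        rwa [Fin.append_left] at this
      · have := h (Fin.natAdd m j)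
        rwa [Fin.append_right] at this

theorem acone_pre [Fintype τ'] {N : Set (τ → κ)} (h : ACone N)
    (T : (τ' → κ) →ₗ[κ] (τ → κ)) : ACone {z : τ' → κ | T z ∈ N} := by
  classical
  obtain ⟨m, g, e, hg, hN⟩ := h
  let q : τ → MvPolynomial τ' κ := fun t =>
    ∑ u : τ', C (T (fun j => if u = j then 1 else 0) t) * X u
  have hq : ∀ t, (q t).IsHomogeneous 1 := by
    intro t
    refine IsHomogeneous.sum _ _ _ fun u _ => ?_
    have := (isHomogeneous_C τ' (T (fun j => if u = j then 1 else 0) t)).mul
      (isHomogeneous_X κ u)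
    rwa [zero_add] at this
  have he : ∀ z t, eval z (q t) = T z t := by
    intro z t
    have h1 := LinearMap.pi_apply_eq_sum_univ T z
    have h2 := congrFun h1 t
    rw [h2, Finset.sum_apply]
    simp only [q, map_sum, map_mul, eval_C, eval_X, Pi.smul_apply, smul_eq_mul]
    exact Finset.sum_congr rfl fun u _ => mul_comm _ _
  refine ⟨m, fun i => aeval q (g i), fun i => 1 * e i, fun i => (hg i).aeval q hq, ?_⟩
  intro z
  refine Iff.trans (hN (T z)) ?_
  have h3 : ∀ i, eval z (aeval q (g i)) = eval (T z) (g i) := by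
    intro i
    have h4 : eval z (aeval q (g i)) = aeval (fun t => eval z (q t)) (g i) := by
      have := MvPolynomial.comp_aeval_apply (R := κ) q (MvPolynomial.aeval z) (g i)
      simpa [MvPolynomial.aeval_eq_eval] using this
    rw [h4, MvPolynomial.aeval_eq_eval]
    congr 2
    exact funext fun t => he z t
  simp only [h3]

theorem acone_lin [Fintype τ] {m : ℕ} (l : Fin m → τ → κ) :
    ACone {z : τ → κ | ∀ s, ∑ t, l s t * z t = 0} := by
  refine ⟨m, fun s => ∑ t, C (l s t) * X t, fun _ => 1, fun s => ?_, fun z => ?_⟩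
  · refine IsHomogeneous.sum _ _ _ fun u _ => ?_
    have := (isHomogeneous_C τ (l s u)).mul (isHomogeneous_X κ u)
    rwa [zero_add] at this
  · simp

end Cones

section Curves

variable {κ : Type} [Field κ] {n a : ℕ}

theorem coeff_cv (z : Fin a × Fin (n + 1) → κ) (i : Fin (n + 1)) (k : ℕ) :
    (cv z i).coeff k = if h : k < a then z (⟨k, h⟩, i) else 0 := by
  unfold cv
  rw [Polynomial.finsetSum_coeff]
  simp only [Polynomial.coeff_C_mul, Polynomial.coeff_X_pow]
  split_ifs with h
  · rw [Finset.sum_eq_single ⟨k, h⟩]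
    · simp
    · intro j _ hj
      have : k ≠ (j : ℕ) := fun e => hj (Fin.ext e.symm)
      simp [this]
    · simp
  · apply Finset.sum_eq_zero
    intro j _
    have : k ≠ (j : ℕ) := by
      have := j.2
      omega
    simp [this]

theorem degree_cv (z : Fin a × Fin (n + 1) → κ) (i : Fin (n + 1)) :
    (cv z i).degree < (a : WithBot ℕ) := by
  rw [Polynomial.degree_lt_iff_coeff_zero]
  intro k hk
  rw [coeff_cv, dif_neg (by omega)]

/-- translation of the variable -/
noncomputable def tr (α : κ) : (Fin a × Fin (n + 1) → κ) →ₗ[κ] (Fin a × Fin (n + 1) → κ) where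
  toFun z p := (Polynomial.taylor α (cv z p.2)).coeff p.1
  map_add' z w := by
    funext p
    have : cv (z + w) p.2 = cv z p.2 + cv w p.2 := by
      ext k
      rw [Polynomial.coeff_add, coeff_cv, coeff_cv, coeff_cv]
      split_ifs <;> simp
    simp [this]
  map_smul' c z := by
    funext p
    have : cv (c • z) p.2 = c • cv z p.2 := by
      ext k
      rw [Polynomial.coeff_smul, coeff_cv, coeff_cv]
      split_ifs <;> simp
    simp [this]

theorem cv_tr (α : κ) (z : Fin a × Fin (n + 1) → κ) (i : Fin (n + 1)) :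
    cv (tr α z) i = Polynomial.taylor α (cv z i) := by
  ext k
  rw [coeff_cv]
  split_ifs with h
  · rfl
  · have h1 : (Polynomial.taylor α (cv z i)).degree < (a : WithBot ℕ) := by
      rw [Polynomial.degree_taylor]
      exact degree_cv z i
    rw [Polynomial.degree_lt_iff_coeff_zero] at h1
    exact (h1 k (by omega)).symm

theorem cv_inj {z w : Fin a × Fin (n + 1) → κ} (h : ∀ i, cv z i = cv w i) : z = w := by
  funext p
  obtain ⟨k, i⟩ := p
  have := congrArg (fun f => Polynomial.coeff f k) (h i)
  simpa [coeff_cv] using this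

theorem tr_neg_tr (α : κ) (z : Fin a × Fin (n + 1) → κ) : tr (-α) (tr α z) = z := by
  apply cv_inj
  intro i
  rw [cv_tr, cv_tr, Polynomial.taylor_taylor, neg_add_cancel, Polynomial.taylor_zero]

theorem tr_tr_neg (α : κ) (z : Fin a × Fin (n + 1) → κ) : tr α (tr (-α) z) = z := by
  apply cv_inj
  intro i
  rw [cv_tr, cv_tr, Polynomial.taylor_taylor, add_neg_cancel, Polynomial.taylor_zero]

theorem onC_taylor (α : κ) (F : MvPolynomial (Fin (n + 1)) κ)
    (f : Fin (n + 1) → Polynomial κ) :
    onC F (fun i => Polynomial.taylor α (f i)) = Polynomial.taylor α (onC F f) := by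
  unfold onC
  have h := MvPolynomial.eval₂_comp_left ((Polynomial.taylorAlgHom α).toRingHom)
    (Polynomial.C : κ →+* Polynomial κ) f F
  have h1 : ∀ g : Polynomial κ, (Polynomial.taylorAlgHom α).toRingHom g =
      Polynomial.taylor α g := fun g => rfl
  rw [h1] at h
  rw [h]
  congr 1
  ext b
  simp

end Curves

end SUB_

open SUB_

theorem p_SUB (hDEGE : T_DEGE) : T_SUB := by
  intro κ _ _ n d a μ m m' α F N hF hN hNQ hμ hc
  obtain ⟨l', hl'⟩ := hc
  let N1 : Set (Fin a × Fin (n + 1) → κ) :=
    {w | tr (-α) w ∈ N ∩ {z | ∀ s, ∑ t, l' s t * z t = 0}}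
  have hN1 : ACone N1 := acone_pre (acone_inter hN (acone_lin l')) (tr (-α))
  have hN1Q : N1 ⊆ Qset F a := by
    intro w hw
    have h1 : tr (-α) w ∈ Qset F a := hNQ hw.1
    have h2 : onC F (cv (tr (-α) w)) = 0 := h1
    have h3 : onC F (cv (tr (-α) w)) = Polynomial.taylor (-α) (onC F (cv w)) := by
      rw [← onC_taylor]
      congr 1
      exact funext fun i => cv_tr (-α) w i
    rw [h3, Polynomial.taylor_eq_zero] at h2
    exact h2
  have hcut : Cut N1 m := by
    refine hDEGE κ n d a μ m F N1 hF hN1 hN1Q ?_ hμ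
    intro w hw h0
    have h1 : ∀ i, (Polynomial.X - Polynomial.C α) ^ μ ∣ cv (tr (-α) w) i := by
      intro i
      have h2 : Polynomial.X ^ μ ∣ cv w i := by
        rw [Polynomial.X_pow_dvd_iff]
        intro k hk
        rw [coeff_cv]
        split_ifs with h3
        · exact h0 ⟨k, h3⟩ i hk
        · rfl
      obtain ⟨q, hq⟩ := h2
      refine ⟨Polynomial.taylor (-α) q, ?_⟩
      rw [cv_tr, hq, Polynomial.taylor_mul, Polynomial.taylor_X_pow, map_neg, sub_eq_add_neg]
    have h4 : tr (-α) w = 0 := hl' _ ⟨hw.1, h1⟩ hw.2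
    have h5 := tr_tr_neg α w
    rw [h4, map_zero] at h5
    exact h5.symm
  obtain ⟨l, hl⟩ := hcut
  classical
  let L : Fin m → (Fin a × Fin (n + 1) → κ) →ₗ[κ] κ := fun s =>
    ∑ t, l s t • (LinearMap.proj t ∘ₗ tr α)
  have hL : ∀ s z, L s z = ∑ t, l s t * tr α z t := by
    intro s z
    simp [L, LinearMap.sum_apply]
  refine ⟨Fin.append (fun s t => L s (fun j => if t = j then 1 else 0)) l', ?_⟩
  intro z hz h0
  have h1 : ∀ s, ∑ t, l' s t * z t = 0 := by
    intro s
    have := h0 (Fin.natAdd m s)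
    rwa [Fin.append_right] at this
  have h2 : ∀ s, L s z = 0 := by
    intro s
    have h3 := h0 (Fin.castAdd m' s)
    rw [Fin.append_left] at h3
    rw [LinearMap.pi_apply_eq_sum_univ (L s) z]
    refine Eq.trans (Finset.sum_congr rfl fun t _ => ?_) h3
    rw [smul_eq_mul, mul_comm]
  have h3 : tr α z ∈ N1 := by
    show tr (-α) (tr α z) ∈ N ∩ {z | ∀ s, ∑ t, l' s t * z t = 0}
    rw [tr_neg_tr]
    exact ⟨hz, h1⟩
  have h4 : tr α z = 0 := by
    refine hl _ h3 fun s => ?_
    rw [← hL]
    exact h2 s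
  have h5 := tr_neg_tr α z
  rw [h4, map_zero] at h5
  exact h5.symm

end Pool.Agent.FCV
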