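import Pool.Agent.FCV.TargetsG

/-!
# More sections
-/

set_option autoImplicit false

open MvPolynomial

namespace Pool.Agent.FCV

namespace SUP_

variable {k : Type} [Field k] {n : ℕ}

/-- From degree less than `b + 1` to degree less than `b + 2`. -/
theorem step (F : MvPolynomial (Fin (n + 1)) k) (f : Fin (n + 1) → Polynomial k) (a b : ℕ)
    (h : Sur F f a (b + 1)) : Sur F f (a + 1) (b + 1 + 1) := by
  intro H hH
  obtain ⟨u, hu, hu'⟩ := h (Polynomial.X ^ b) (by
    rw [Polynomial.degree_X_pow]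
    exact_mod_cast Nat.lt_succ_self b)
  obtain ⟨w, hw, hw'⟩ := h (H - Polynomial.C (H.coeff (b + 1)) * Polynomial.X ^ (b + 1)) (by
    rw [Polynomial.degree_lt_iff_coeff_zero]
    intro m hm
    rw [Polynomial.coeff_sub, Polynomial.coeff_C_mul, Polynomial.coeff_X_pow]
    by_cases hmb : m = b + 1
    · subst hmb
      simp
    · rw [if_neg hmb, mul_zero, sub_zero]
      refine (Polynomial.degree_lt_iff_coeff_zero _ _).1 hH m ?_
      omega)
  refine ⟨fun i => Polynomial.C (H.coeff (b + 1)) * (Polynomial.X * u i) + w i, fun i => ?_, ?_⟩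
  · rw [Polynomial.degree_lt_iff_coeff_zero]
    intro m hm
    have h1 := (Polynomial.degree_lt_iff_coeff_zero _ _).1 (hw i) m (by omega)
    obtain ⟨m, rfl⟩ : ∃ m', m = m' + 1 := ⟨m - 1, by omega⟩
    have h2 := (Polynomial.degree_lt_iff_coeff_zero _ _).1 (hu i) m (by omega)
    rw [Polynomial.coeff_add, Polynomial.coeff_C_mul, Polynomial.coeff_X_mul, h1, h2]
    simp
  · have h3 : ∑ i, (Polynomial.C (H.coeff (b + 1)) * (Polynomial.X * u i) + w i) *
        onC (pderiv i F) f = Polynomial.C (H.coeff (b + 1)) * (Polynomial.X *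
          ∑ i, u i * onC (pderiv i F) f) + ∑ i, w i * onC (pderiv i F) f := by
      rw [Finset.mul_sum, Finset.mul_sum, ← Finset.sum_add_distrib]
      refine Finset.sum_congr rfl fun i _ => ?_
      ring
    rw [h3, hu', hw', pow_succ']
    ring

end SUP_

open SUP_ in
theorem p_SUP : T_SUP := by
  intro k _ n d e F f hd _ _
  refine ⟨fun he hd2 h => ?_, fun he h => ?_⟩
  · have h1 : 2 ≤ d * e := le_trans hd2 (Nat.le_mul_of_pos_right d (by omega))
    obtain ⟨b, hb⟩ : ∃ b, d * e - 1 = b + 1 := ⟨d * e - 2, by omega⟩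
    obtain ⟨a, ha⟩ : ∃ a, e - 1 = a := ⟨e - 1, rfl⟩
    have h2 : d * e = b + 1 + 1 := by omega
    have h3 : e = a + 1 := by omega
    rw [ha, hb] at h
    have h4 := step F f a b h
    rw [← h2, ← h3] at h4
    exact h4
  · have h1 : 1 ≤ d * e := Nat.one_le_iff_ne_zero.2 (by positivity)
    obtain ⟨b, hb⟩ : ∃ b, d * e = b + 1 := ⟨d * e - 1, by omega⟩
    rw [hb] at h ⊢
    exact step F f e b h

end Pool.Agent.FCV
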