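import Pool.Agent.FCV.TargetsM
import Pool.Agent.WL.SYSF

/-!
# The refined system for curves is given by polynomial equations in the unknowns
-/

set_option autoImplicit false

open MvPolynomial
open Pool.Agent.WL
open Pool.Agent.WL.SYSF_

namespace Pool.Agent.FCV

namespace SYSFC_

section general

variable {A B σ : Type} [CommRing A] [CommRing B]

/-- The difference of the section and the first terms. -/
noncomputable def rem (E N : ℕ) (ψ : Fin E → σ → PowerSeries A) (q : PowerSeries A)
    (φ : σ → PowerSeries A) (i : σ) : PowerSeries A :=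
  φ i - ∑ j : Fin E, q ^ (E - (j : ℕ)) * PowerSeries.X ^ ((j : ℕ) * N) * ψ j i

/-- The partial remainders. -/
noncomputable def AC (F : MvPolynomial σ (PowerSeries A)) {E : ℕ} (N : ℕ)
    (ψ : Fin E → σ → PowerSeries A) (η : σ → PowerSeries A) (q : PowerSeries A) :
    ℕ → PowerSeries A
  | 0 => (onC F (crv ψ η)).coeff 0
  | (j + 1) => q * sh N (AC F N ψ η q j) + (onC F (crv ψ η)).coeff (j + 1)

lemma map_rem (ρ : A →+* B) (E N : ℕ) (ψ : Fin E → σ → PowerSeries A) (q : PowerSeries A)
    (φ : σ → PowerSeries A) (i : σ) :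
    PowerSeries.map ρ (rem E N ψ q φ i) =
      rem E N (fun j i => PowerSeries.map ρ (ψ j i)) (PowerSeries.map ρ q)
        (fun i => PowerSeries.map ρ (φ i)) i := by
  simp only [rem, map_sub, map_sum, map_mul, map_pow, PowerSeries.map_X]

lemma onC_crv_map (ρ : A →+* B) (F : MvPolynomial σ (PowerSeries A)) {E : ℕ}
    (ψ : Fin E → σ → PowerSeries A) (η : σ → PowerSeries A) :
    onC (F.map (PowerSeries.map ρ)) (crv (fun j i => PowerSeries.map ρ (ψ j i))
      (fun i => PowerSeries.map ρ (η i))) = (onC F (crv ψ η)).map (PowerSeries.map ρ) := by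
  rw [← onC_map]
  congr 1
  funext i
  exact crv_map (PowerSeries.map ρ) ψ η i

lemma map_AC (ρ : A →+* B) (F : MvPolynomial σ (PowerSeries A)) {E : ℕ} (N : ℕ)
    (ψ : Fin E → σ → PowerSeries A) (η : σ → PowerSeries A) (q : PowerSeries A) (j : ℕ) :
    PowerSeries.map ρ (AC F N ψ η q j) =
      AC (F.map (PowerSeries.map ρ)) N (fun j i => PowerSeries.map ρ (ψ j i))
        (fun i => PowerSeries.map ρ (η i)) (PowerSeries.map ρ q) j := by
  induction j with
  | zero =>
    simp only [AC]
    rw [onC_crv_map, Polynomial.coeff_map]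
  | succ j ih =>
    simp only [AC]
    rw [map_add, map_mul, map_sh, ih, onC_crv_map, Polynomial.coeff_map]

/-- The refined system in terms of the partial remainders. -/
lemma sys_iff (F : MvPolynomial σ (PowerSeries A)) (d E N : ℕ) (hd : 1 ≤ d * E)
    (ψ : Fin E → σ → PowerSeries A) (q : PowerSeries A) (φ : σ → PowerSeries A) :
    SysC F d E N ψ q φ ↔ (∀ i, ∀ a < E * N, PowerSeries.coeff a (rem E N ψ q φ i) = 0) ∧
      ∀ j < d * E, ∀ a < N, PowerSeries.coeff a
        (AC F N ψ (fun i => sh (E * N) (rem E N ψ q φ i)) q j) = 0 := by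
  constructor
  · rintro ⟨η, B, h1, h2, h3⟩
    have e1 : ∀ i, rem E N ψ q φ i = PowerSeries.X ^ (E * N) * η i := by
      intro i
      rw [rem, h1 i]
      ring
    have e2 : (fun i => sh (E * N) (rem E N ψ q φ i)) = η := by
      funext i
      rw [e1 i, sh_X_pow_mul]
    rw [e2]
    have e3 : ∀ j < d * E, AC F N ψ η q j = PowerSeries.X ^ N * B j := by
      intro j
      induction j with
      | zero =>
        intro _
        simp only [AC]
        exact h2
      | succ j ih =>
        intro hj
        simp only [AC]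
        rw [ih (by omega), sh_X_pow_mul, h3 j hj]
        ring
    refine ⟨?_, ?_⟩
    · intro i a ha
      rw [e1 i]
      exact coeff_X_pow_mul_zero _ _ a ha
    · intro j hj a ha
      rw [e3 j hj]
      exact coeff_X_pow_mul_zero N _ a ha
  · rintro ⟨h1, h2⟩
    set η : σ → PowerSeries A := fun i => sh (E * N) (rem E N ψ q φ i) with hη
    refine ⟨η, fun j => sh N (AC F N ψ η q j), ?_, ?_, ?_⟩
    · intro i
      have e1 := eq_of_coeff (h1 i)
      rw [hη]
      simp only
      rw [← e1, rem]
      ring
    · have e1 := eq_of_coeff (h2 0 (by omega))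
      simp only [AC] at e1 ⊢
      exact e1
    · intro j hj
      have e1 := eq_of_coeff (h2 (j + 1) hj)
      have e2 : AC F N ψ η q (j + 1) =
        q * sh N (AC F N ψ η q j) + (onC F (crv ψ η)).coeff (j + 1) := rfl
      simp only
      rw [← e1, e2]
      ring

end general

section nat

variable {n E N M : ℕ} {k : Type} [Field k] {A B : Type} [CommRing A] [CommRing B] [Algebra k A]
  [Algebra k B] (ρ : A →ₐ[k] B)

lemma map_psC (z : IdxC n E N M → A) (j : Fin E) (i : Fin (n + 1)) :
    PowerSeries.map (ρ : A →+* B) (psC z j i) = psC (fun j => ρ (z j)) j i := by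
  ext a
  simp only [psC, PowerSeries.coeff_map, PowerSeries.coeff_mk]
  split_ifs
  · rfl
  · exact map_zero _

lemma map_qC (z : IdxC n E N M → A) :
    PowerSeries.map (ρ : A →+* B) (qC z) = qC (fun j => ρ (z j)) := by
  ext a
  simp only [qC, PowerSeries.coeff_map, PowerSeries.coeff_mk]
  split_ifs
  · rfl
  · exact map_zero _

lemma map_phiC (e : Fin M → PowerSeries k) (z : IdxC n E N M → A) (i : Fin (n + 1)) :
    PowerSeries.map (ρ : A →+* B) (phiC e z i) = phiC e (fun j => ρ (z j)) i := by
  simp only [phiC, map_sum, map_mul, PowerSeries.map_C]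
  refine Finset.sum_congr rfl fun b _ => ?_
  congr 1
  ext a
  simp only [PowerSeries.coeff_map]
  exact ρ.commutes _

end nat

end SYSFC_

open SYSFC_ in
theorem p_SYSFC : T_SYSFC := by
  classical
  intro k _ n d E N M F e O hd hE
  have hdE : 1 ≤ d * E := Nat.mul_pos hd hE
  set U : Type := MvPolynomial (IdxC n E N M) k with hU
  set zU : IdxC n E N M → U := fun j => X j with hzU
  set FU : MvPolynomial (Fin (n + 1)) (PowerSeries U) :=
    F.map (PowerSeries.map (algebraMap k U)) with hFU
  set rU : Fin (n + 1) → PowerSeries U := rem E N (psC zU) (qC zU) (phiC e zU) with hrU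
  set f1 : Finset U := (Finset.univ : Finset (Fin (n + 1) × Fin (E * N))).image
    fun p => PowerSeries.coeff (p.2 : ℕ) (rU p.1) with hf1
  set f2 : Finset U := (Finset.univ : Finset (Fin (d * E) × Fin N)).image
    fun p => PowerSeries.coeff (p.2 : ℕ)
      (AC FU N (psC zU) (fun i => sh (E * N) (rU i)) (qC zU) (p.1 : ℕ)) with hf2
  set f3 : Finset U := O.image fun o => PowerSeries.coeff o (eval (phiC e zU) FU) with hf3
  refine ⟨f1 ∪ f2 ∪ f3, ?_, ?_⟩
  · refine (Finset.card_union_le _ _).trans ?_
    refine add_le_add ((Finset.card_union_le _ _).trans (add_le_add ?_ ?_)) ?_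
    · refine Finset.card_image_le.trans ?_
      simp
    · refine Finset.card_image_le.trans ?_
      simp
    · exact Finset.card_image_le
  · intro L _ _ z
    set ρ : U →ₐ[k] L := aeval z with hρ
    have hz : (fun j => ρ (zU j)) = z := by
      funext j
      exact MvPolynomial.aeval_X z j
    have hFL : FU.map (PowerSeries.map (ρ : U →+* L)) = upF L F := by
      have hcomp : (PowerSeries.map (ρ : U →+* L)).comp (PowerSeries.map (algebraMap k U)) =
          PowerSeries.map (algebraMap k L) := by
        ext f a
        simp only [RingHom.comp_apply, PowerSeries.coeff_map]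
        exact ρ.commutes _
      rw [hFU, upF, up, MvPolynomial.map_map, hcomp]
    have hx : ∀ j i, PowerSeries.map (ρ : U →+* L) (psC zU j i) = psC z j i := by
      intro j i
      rw [map_psC, hz]
    have hq : PowerSeries.map (ρ : U →+* L) (qC zU) = qC z := by rw [map_qC, hz]
    have hphi : ∀ i, PowerSeries.map (ρ : U →+* L) (phiC e zU i) = phiC e z i := by
      intro i
      rw [map_phiC, hz]
    have hx' : (fun j i => PowerSeries.map (ρ : U →+* L) (psC zU j i)) = psC z :=
      funext fun j => funext fun i => hx j i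
    have hphi' : (fun i => PowerSeries.map (ρ : U →+* L) (phiC e zU i)) = phiC e z :=
      funext hphi
    have hr : ∀ i, PowerSeries.map (ρ : U →+* L) (rU i) =
        rem E N (psC z) (qC z) (phiC e z) i := by
      intro i
      rw [hrU, map_rem, hx', hq, hphi']
    have hc1 : ∀ i a, ρ (PowerSeries.coeff a (rU i)) =
        PowerSeries.coeff a (rem E N (psC z) (qC z) (phiC e z) i) := by
      intro i a
      rw [← hr, PowerSeries.coeff_map]
      rfl
    have hc2 : ∀ j a, ρ (PowerSeries.coeff a
        (AC FU N (psC zU) (fun i => sh (E * N) (rU i)) (qC zU) j)) =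
        PowerSeries.coeff a (AC (upF L F) N (psC z)
          (fun i => sh (E * N) (rem E N (psC z) (qC z) (phiC e z) i)) (qC z) j) := by
      intro j a
      have e1 := map_AC (ρ : U →+* L) FU N (psC zU) (fun i => sh (E * N) (rU i)) (qC zU) j
      have e2 : (fun i => PowerSeries.map (ρ : U →+* L) (sh (E * N) (rU i))) =
          fun i => sh (E * N) (rem E N (psC z) (qC z) (phiC e z) i) := by
        funext i
        rw [map_sh, hr]
      rw [hFL, hq, e2, hx'] at e1
      rw [← e1, PowerSeries.coeff_map]
      rfl
    have hc3 : ∀ o, ρ (PowerSeries.coeff o (eval (phiC e zU) FU)) =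
        PowerSeries.coeff o (eval (phiC e z) (upF L F)) := by
      intro o
      have e1 : PowerSeries.map (ρ : U →+* L) (eval (phiC e zU) FU) =
          eval (phiC e z) (upF L F) := by
        rw [← hFL, MvPolynomial.eval_map (PowerSeries.map (ρ : U →+* L)) (phiC e z) FU]
        have e2 := MvPolynomial.eval₂_comp_left (PowerSeries.map (ρ : U →+* L))
          (RingHom.id (PowerSeries U)) (phiC e zU) FU
        rw [RingHom.comp_id] at e2
        have e3 : (⇑(PowerSeries.map (ρ : U →+* L)) ∘ phiC e zU) = phiC e z := funext hphi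
        rw [e3] at e2
        exact e2
      rw [← e1, PowerSeries.coeff_map]
      rfl
    rw [sys_iff (upF L F) d E N hdE]
    constructor
    · intro h
      refine ⟨⟨?_, ?_⟩, ?_⟩
      · intro i a ha
        rw [← hc1]
        apply h
        rw [Finset.mem_union, Finset.mem_union]
        left
        left
        rw [hf1, Finset.mem_image]
        exact ⟨(i, ⟨a, ha⟩), Finset.mem_univ _, rfl⟩
      · intro j hj a ha
        rw [← hc2]
        apply h
        rw [Finset.mem_union, Finset.mem_union]
        left
        right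
        rw [hf2, Finset.mem_image]
        exact ⟨(⟨j, hj⟩, ⟨a, ha⟩), Finset.mem_univ _, rfl⟩
      · intro o ho
        rw [← hc3]
        apply h
        rw [Finset.mem_union]
        right
        rw [hf3, Finset.mem_image]
        exact ⟨o, ho, rfl⟩
    · rintro ⟨⟨h1, h2⟩, h3⟩ g hg
      rw [Finset.mem_union, Finset.mem_union] at hg
      rcases hg with (hg | hg) | hg
      · rw [hf1, Finset.mem_image] at hg
        obtain ⟨⟨i, a⟩, -, rfl⟩ := hg
        rw [hc1]
        exact h1 i a a.2
      · rw [hf2, Finset.mem_image] at hg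
        obtain ⟨⟨j, a⟩, -, rfl⟩ := hg
        rw [hc2]
        exact h2 j j.2 a a.2
      · rw [hf3, Finset.mem_image] at hg
        obtain ⟨o, ho, rfl⟩ := hg
        rw [hc3]
        exact h3 o ho

end Pool.Agent.FCV
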