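import Pool.Agent.FCV.TargetsL

/-!
# Teeth at a closed point
-/

set_option autoImplicit false

open MvPolynomial

namespace Pool.Agent.FCV

theorem TI_map {E σ : Type} [Field E] (F : MvPolynomial σ E) (m : Polynomial E) :
    (F.map (Polynomial.C : E →+* Polynomial E)).map (AdjoinRoot.mk m) =
      F.map (algebraMap E (AdjoinRoot m)) := by
  rw [MvPolynomial.map_map]
  rfl

theorem TI_dvd {E : Type} [Field E] (m : Polynomial E) (P : Polynomial (Polynomial E)) :
    Polynomial.C m ∣ P ↔ P.map (AdjoinRoot.mk m) = 0 := by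
  rw [Polynomial.C_dvd_iff_dvd_coeff]
  constructor
  · intro h
    ext i
    rw [Polynomial.coeff_map, Polynomial.coeff_zero, AdjoinRoot.mk_eq_zero]
    exact h i
  · intro h i
    rw [← AdjoinRoot.mk_eq_zero, ← Polynomial.coeff_map, h, Polynomial.coeff_zero]

theorem TI_lift {E : Type} [Field E] (m : Polynomial E) (p : Polynomial (AdjoinRoot m)) :
    ∃ q : Polynomial (Polynomial E), q.map (AdjoinRoot.mk m) = p ∧ q.degree = p.degree := by
  apply Polynomial.exists_degree_eq_of_mem_lifts
  rw [Polynomial.mem_lifts]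
  exact Polynomial.map_surjective _ AdjoinRoot.mk_surjective p

theorem p_TI : T_TI := by
  intro E _ n A B F m g _
  refine ⟨fun h => ?_, fun h H hH => ?_⟩
  · rw [TI_dvd, ← onC_map, TI_map]
    exact h
  · obtain ⟨u', hu', hs⟩ := h (H.map (AdjoinRoot.mk m))
      (lt_of_le_of_lt Polynomial.degree_map_le hH)
    choose u hu hd using fun i => TI_lift m (u' i)
    refine ⟨u, fun i => ?_, ?_⟩
    · rw [hd]; exact hu' i
    · rw [TI_dvd, Polynomial.map_sub, Polynomial.map_sum, ← hs, sub_eq_zero]
      refine Finset.sum_congr rfl fun i _ => ?_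
      rw [Polynomial.map_mul, hu, ← onC_map, ← MvPolynomial.pderiv_map, TI_map]

end Pool.Agent.FCV
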