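import Pool.Agent.FCV.TargetsL

/-!
# FCV, TP: teeth at several rational points
-/

set_option autoImplicit false

open MvPolynomial

namespace Pool.Agent.FCV

namespace TP_

/-- A polynomial which vanishes at all `a ∈ R` is divisible by the product. -/
lemma dvd_of_map {E : Type} [Field E] (R : Finset E) (P : Polynomial (Polynomial E))
    (h : ∀ a ∈ R, P.map (Polynomial.evalRingHom a) = 0) :
    Polynomial.C (∏ a ∈ R, (Polynomial.X - Polynomial.C a)) ∣ P := by
  rw [Polynomial.C_dvd_iff_dvd_coeff]
  intro k
  refine Finset.prod_dvd_of_coprime ?_ fun a ha => ?_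
  · intro a _ b _ hab
    exact Polynomial.pairwise_coprime_X_sub_C Function.injective_id hab
  · rw [Polynomial.dvd_iff_isRoot, Polynomial.IsRoot.def]
    have h1 := congrArg (fun q => Polynomial.coeff q k) (h a ha)
    simpa [Polynomial.coeff_map] using h1

lemma comp_id {E : Type} [Field E] (a : E) :
    (Polynomial.evalRingHom a).comp (Polynomial.C : E →+* Polynomial E) = RingHom.id E := by
  ext x
  simp

/-- Evaluation at `τ = a` of the value of a polynomial along a curve. -/
lemma onC_ev {E : Type} [Field E] {n : ℕ} (F : MvPolynomial (Fin (n + 1)) E)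
    (g : Fin (n + 1) → Polynomial (Polynomial E)) (a : E) :
    (onC (F.map Polynomial.C) g).map (Polynomial.evalRingHom a) =
      onC F (fun i => (g i).map (Polynomial.evalRingHom a)) := by
  rw [← onC_map, MvPolynomial.map_map, comp_id, MvPolynomial.map_id]

lemma map_map_C {E : Type} [Field E] (a : E) (q : Polynomial E) :
    (q.map (Polynomial.C : E →+* Polynomial E)).map (Polynomial.evalRingHom a) = q := by
  rw [Polynomial.map_map, comp_id, Polynomial.map_id]

end TP_

open TP_ in
theorem p_TP : T_TP := by
  classical
  intro E _ n A B F R g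
  refine ⟨fun h => ?_, fun hS H hH => ?_⟩
  · refine dvd_of_map R _ fun a ha => ?_
    rw [onC_ev]
    exact h a ha
  · have hdeg : ∀ a : E, (H.map (Polynomial.evalRingHom a)).degree < (B : WithBot ℕ) := fun a =>
      (Polynomial.degree_map_le).trans_lt hH
    have hex : ∀ a : E, ∃ u : Fin (n + 1) → Polynomial E, (∀ i, (u i).degree < (A : WithBot ℕ)) ∧
        (a ∈ R → ∑ i, u i * onC (pderiv i F) (fun i => (g i).map (Polynomial.evalRingHom a)) =
          H.map (Polynomial.evalRingHom a)) := by
      intro a
      by_cases ha : a ∈ R
      · obtain ⟨u, hu, h1⟩ := hS a ha _ (hdeg a)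
        exact ⟨u, hu, fun _ => h1⟩
      · exact ⟨fun _ => 0, fun i => by
          rw [Polynomial.degree_zero]; exact WithBot.bot_lt_coe _, fun h => absurd h ha⟩
    choose u hu hus using hex
    refine ⟨fun i => ∑ a ∈ R, Polynomial.C (Lagrange.basis R id a) * (u a i).map Polynomial.C,
      fun i => ?_, ?_⟩
    · refine (Polynomial.degree_sum_le _ _).trans_lt ?_
      rw [Finset.sup_lt_iff (WithBot.bot_lt_coe _)]
      intro a _
      rw [← Polynomial.smul_eq_C_mul]
      refine (Polynomial.degree_smul_le _ _).trans_lt ?_
      exact (Polynomial.degree_map_le).trans_lt (hu a i)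
    · refine dvd_of_map R _ fun a ha => ?_
      have hui : ∀ i, (∑ b ∈ R, Polynomial.C (Lagrange.basis R id b) *
          (u b i).map Polynomial.C).map (Polynomial.evalRingHom a) = u a i := by
        intro i
        rw [Polynomial.map_sum]
        rw [Finset.sum_eq_single a]
        · rw [Polynomial.map_mul, Polynomial.map_C, map_map_C, Polynomial.coe_evalRingHom]
          have h1 := Lagrange.eval_basis_self (v := id) (Function.injective_id.injOn) ha
          rw [id] at h1
          rw [h1, Polynomial.C_1, one_mul]
        · intro b hb hba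
          rw [Polynomial.map_mul, Polynomial.map_C, map_map_C, Polynomial.coe_evalRingHom]
          have h1 := Lagrange.eval_basis_of_ne (v := id) hba ha
          rw [id] at h1
          rw [h1, Polynomial.C_0, zero_mul]
        · intro h; exact absurd ha h
      rw [Polynomial.map_sub, Polynomial.map_sum, sub_eq_zero, ← hus a ha]
      refine Finset.sum_congr rfl fun i _ => ?_
      rw [Polynomial.map_mul, hui i, MvPolynomial.pderiv_map, onC_ev]

end Pool.Agent.FCV
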