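import Pool.Agent.FCV.TargetsG

/-!
# Very free curves through every point
-/

set_option autoImplicit false

open MvPolynomial

namespace Pool.Agent.FCV

open Pool.Agent.WA (SmoothForm)

theorem p_VFA (hVFO : T_VFO) (hDSC : T_DSC) (hREV : T_REV) : T_VFA := by
  intro κ _ _ n d F hd hn hF hS x hx hx0
  obtain ⟨Ω, i1, i2, e, f, he, hf, hf0, hfx, hsur⟩ := hVFO κ n d F hd hn hF hS x hx hx0
  obtain ⟨f', h1, h2, h3, h4⟩ :=
    hDSC κ n d e (e - 1) (d * e - 1) F x Ω f hf hf0 hfx hsur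
  exact ⟨e, fun i => (f' i).reflect e,
    hREV κ n d e F x f' (le_trans (by norm_num) hd) hF he h1 h2 h3 h4⟩

end Pool.Agent.FCV
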