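import Pool.Agent.FCV.TargetsL
import Pool.Agent.WA.Local

/-!
# Free curves on hypersurfaces: target T_VFE (very free curves over large fields)
-/

set_option autoImplicit false

open MvPolynomial WithZero
open Pool.Agent.WA Pool.Agent.WL

namespace Pool.Agent.FCV

theorem VFE_.ev {E κ σ : Type} [Field E] [Field κ] [Algebra E κ] (F : MvPolynomial σ E)
    (x : σ → E) : eval (fun i => algebraMap E κ (x i)) (F.map (algebraMap E κ)) =
      algebraMap E κ (eval x F) :=
  (map_eval (algebraMap E κ) x F).symm

theorem p_VFE (hVFA : T_VFA) (hDESC : T_DESC) : T_VFE := by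
  intro E _ hNP n d F hd hdn hF hS x hx0 hx
  refine hDESC E hNP n d F hd hF x (hVFA (AlgebraicClosure E) n d _ hd hdn (hF.map _) hS.map
    (fun i => algebraMap E (AlgebraicClosure E) (x i)) ?_ ?_)
  · intro h
    apply hx0
    funext i
    have h1 := congrFun h i
    exact (map_eq_zero (algebraMap E (AlgebraicClosure E))).1 h1
  · rw [VFE_.ev, hx, map_zero]

end Pool.Agent.FCV
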