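import Pool.Agent.FCV.TargetsL

/-!
# From combs to curves
-/

set_option autoImplicit false

open MvPolynomial

namespace Pool.Agent.FCV

namespace VFG_

/-- homogeneous polynomials at proportional points -/
theorem homog {σ A B : Type} [CommRing A] [CommRing B] (φ : A →+* B)
    {F : MvPolynomial σ A} {d : ℕ} (hF : F.IsHomogeneous d) (c : B) (x : σ → B) :
    eval₂ φ (fun i => c * x i) F = c ^ d * eval₂ φ x F := by
  classical
  rw [MvPolynomial.eval₂_eq, MvPolynomial.eval₂_eq, Finset.mul_sum]
  refine Finset.sum_congr rfl fun μ hμ => ?_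
  have h1 : μ.degree = d := by
    by_contra h
    exact MvPolynomial.mem_support_iff.1 hμ (hF.coeff_eq_zero h)
  have h0 : μ.degree = ∑ i ∈ μ.support, μ i := rfl
  have h2 : ∏ i ∈ μ.support, (c * x i) ^ μ i = c ^ d * ∏ i ∈ μ.support, x i ^ μ i := by
    rw [← h1, h0, ← Finset.prod_pow_eq_pow_sum, ← Finset.prod_mul_distrib]
    exact Finset.prod_congr rfl fun i _ => mul_pow _ _ _
  rw [h2]
  ring

section frac

variable {E K : Type} [Field E] [Field K] [Algebra (Polynomial E) K]

/-- evaluation of the second variable at `θ / m` -/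
noncomputable def ev (m : Polynomial E) (θ : E) : Polynomial (Polynomial E) →+* K :=
  Polynomial.eval₂RingHom (algebraMap (Polynomial E) K)
    (algebraMap (Polynomial E) K (Polynomial.C θ) / algebraMap (Polynomial E) K m)

theorem ev_C (m : Polynomial E) (θ : E) (P : Polynomial E) :
    (ev m θ (Polynomial.C P) : K) = algebraMap (Polynomial E) K P := by
  simp [ev]

theorem ev_X (m : Polynomial E) (θ : E) :
    (ev m θ Polynomial.X : K) =
      algebraMap (Polynomial E) K (Polynomial.C θ) / algebraMap (Polynomial E) K m := by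
  simp [ev]

/-- homogenisation of a polynomial in the second variable -/
theorem ev_hom (m : Polynomial E) (θ : E) (hm : algebraMap (Polynomial E) K m ≠ 0) (k : ℕ)
    (P : Polynomial (Polynomial E)) (hP : P.natDegree ≤ k) :
    algebraMap (Polynomial E) K
      (∑ j ∈ Finset.range (k + 1), Polynomial.C (θ ^ j) * P.coeff j * m ^ (k - j)) =
      algebraMap (Polynomial E) K m ^ k * ev m θ P := by
  have h1 : (ev m θ P : K) = ∑ j ∈ Finset.range (k + 1), algebraMap (Polynomial E) K (P.coeff j) *
      (algebraMap (Polynomial E) K (Polynomial.C θ) / algebraMap (Polynomial E) K m) ^ j := by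
    unfold ev
    rw [Polynomial.coe_eval₂RingHom]
    exact Polynomial.eval₂_eq_sum_range' _ (by omega) _
  rw [h1, map_sum, Finset.mul_sum]
  refine Finset.sum_congr rfl fun j hj => ?_
  have hj' : j ≤ k := by
    have := Finset.mem_range.1 hj
    omega
  obtain ⟨l, rfl⟩ := Nat.exists_eq_add_of_le hj'
  simp only [Nat.add_sub_cancel_left, map_mul, map_pow, pow_add, div_pow]
  field_simp

theorem deg_aux (c : E) (p m : Polynomial E) (k B : ℕ)
    (h : p ≠ 0 → p.natDegree + k * m.natDegree < B) :
    (Polynomial.C c * p * m ^ k).degree < (B : WithBot ℕ) := by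
  by_cases hp : p = 0
  · rw [hp, mul_zero, zero_mul, Polynomial.degree_zero]
    exact WithBot.bot_lt_coe _
  · refine lt_of_le_of_lt Polynomial.degree_le_natDegree (Nat.cast_lt.2 (lt_of_le_of_lt ?_ (h hp)))
    refine Polynomial.natDegree_mul_le.trans (add_le_add ?_ Polynomial.natDegree_pow_le)
    exact Polynomial.natDegree_C_mul_le _ _

theorem ev_onC {n : ℕ} (m : Polynomial E) (θ : E) (F : MvPolynomial (Fin (n + 1)) E)
    (g : Fin (n + 1) → Polynomial (Polynomial E)) :
    (ev m θ (onC (F.map Polynomial.C) g) : K) =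
      eval₂ ((algebraMap (Polynomial E) K).comp Polynomial.C) (fun i => (ev m θ (g i) : K)) F := by
  unfold onC
  rw [MvPolynomial.eval₂_comp_left, MvPolynomial.eval₂_map]
  congr 1
  ext x
  simp [ev]

theorem alg_onC {n : ℕ} (F : MvPolynomial (Fin (n + 1)) E) (f : Fin (n + 1) → Polynomial E) :
    algebraMap (Polynomial E) K (onC F f) =
      eval₂ ((algebraMap (Polynomial E) K).comp Polynomial.C)
        (fun i => algebraMap (Polynomial E) K (f i)) F := by
  unfold onC
  rw [MvPolynomial.eval₂_comp_left]
  rfl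

/-- a homogeneous polynomial on the curve `cG` -/
theorem onC_cG {n : ℕ} (m : Polynomial E) (θ : E) (hm : algebraMap (Polynomial E) K m ≠ 0)
    {d : ℕ} (e : ℕ) {F : MvPolynomial (Fin (n + 1)) E} (hF : F.IsHomogeneous d)
    (g : Fin (n + 1) → Polynomial (Polynomial E)) (hg : ∀ i, (g i).natDegree ≤ e) :
    algebraMap (Polynomial E) K (onC F (cG m θ e g)) =
      algebraMap (Polynomial E) K m ^ (e * d) * ev m θ (onC (F.map Polynomial.C) g) := by
  have h1 : ∀ i, algebraMap (Polynomial E) K (cG m θ e g i) =
      algebraMap (Polynomial E) K m ^ e * ev m θ (g i) := fun i => ev_hom m θ hm e (g i) (hg i)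
  rw [alg_onC, ev_onC]
  simp only [h1]
  rw [homog _ hF, pow_mul]

end frac

/-- expansion in powers of a monic polynomial -/
theorem expand {E : Type} [Field E] (m : Polynomial E) (hm : m.Monic) (r D0 : ℕ)
    (hr : m.natDegree = r) (k : ℕ) : ∀ H : Polynomial E, H.degree < ((D0 + r * k : ℕ) : WithBot ℕ) →
    ∃ h : ℕ → Polynomial E, (h 0).degree < (D0 : WithBot ℕ) ∧
      (∀ i, 1 ≤ i → (h i).degree < (r : WithBot ℕ)) ∧
      H = ∑ i ∈ Finset.range (k + 1), h i * m ^ (k - i) := by
  induction k with
  | zero =>
    intro H hH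
    refine ⟨fun i => if i = 0 then H else 0, ?_, ?_, ?_⟩
    · simpa using hH
    · intro i hi
      dsimp only
      rw [if_neg (by omega), Polynomial.degree_zero]
      exact WithBot.bot_lt_coe _
    · simp
  | succ k ih =>
    intro H hH
    have hq : (H /ₘ m).degree < ((D0 + r * k : ℕ) : WithBot ℕ) := by
      by_cases h0 : H /ₘ m = 0
      · rw [h0, Polynomial.degree_zero]
        exact WithBot.bot_lt_coe _
      · have h1 : ¬ H.degree < m.degree := by
          intro h
          exact h0 ((Polynomial.divByMonic_eq_zero_iff hm).2 h)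
        have hH0 : H ≠ 0 := by
          rintro rfl
          exact h0 (Polynomial.zero_divByMonic m)
        have h2 := Polynomial.natDegree_divByMonic H hm
        rw [Polynomial.degree_eq_natDegree hH0, Nat.cast_lt] at hH
        rw [Polynomial.degree_eq_natDegree h0, Nat.cast_lt]
        rw [Polynomial.degree_eq_natDegree hH0, Polynomial.degree_eq_natDegree hm.ne_zero,
          Nat.cast_lt] at h1
        rw [h2]
        have h3 : r * (k + 1) = r * k + r := by ring
        omega
    obtain ⟨h, h1, h2, h3⟩ := ih _ hq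
    refine ⟨fun i => if i = k + 1 then H %ₘ m else h i, ?_, ?_, ?_⟩
    · dsimp only
      rw [if_neg (by omega)]
      exact h1
    · intro i hi
      dsimp only
      split_ifs
      · have := Polynomial.degree_modByMonic_lt H hm
        rw [Polynomial.degree_eq_natDegree hm.ne_zero, hr] at this
        exact this
      · exact h2 i hi
    · rw [Finset.sum_range_succ]
      dsimp only
      rw [if_pos rfl, Nat.sub_self, pow_zero, mul_one]
      have h4 : ∑ i ∈ Finset.range (k + 1), (if i = k + 1 then H %ₘ m else h i) * m ^ (k + 1 - i) =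
          m * (H /ₘ m) := by
        conv_rhs => rw [h3, Finset.mul_sum]
        refine Finset.sum_congr rfl fun i hi => ?_
        have := Finset.mem_range.1 hi
        rw [if_neg (by omega), show k + 1 - i = (k - i) + 1 by omega, pow_succ]
        ring
      rw [h4, add_comm]
      exact (Polynomial.modByMonic_add_div H m).symm

end VFG_

open VFG_ in
theorem p_VFG : T_VFG := by
  intro E _ n d c ρ e s1 F m θ g P hd he hF hm hdeg hs1 hθ hg hFg
  let K := FractionRing (Polynomial E)
  let a : Polynomial E →+* K := algebraMap (Polynomial E) K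
  have hinj : Function.Injective a := IsFractionRing.injective (Polynomial E) K
  have hm0 : a m ≠ 0 := by
    intro h
    exact hm.ne_zero (hinj (h.trans (map_zero a).symm))
  have hzero : (ev m θ (Polynomial.C m * Polynomial.X - Polynomial.C (Polynomial.C θ)) : K) = 0 := by
    rw [map_sub, map_mul, ev_C, ev_C, ev_X, mul_div_cancel₀ _ hm0, sub_self]
  refine ⟨?_, ?_⟩
  · apply hinj
    rw [map_zero]
    have h1 := onC_cG (K := K) m θ hm0 e hF g hg
    rw [hFg, map_mul, hzero, zero_mul, mul_zero] at h1
    exact h1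
  · intro hL H hH
    have hde : 1 ≤ d * e := Nat.one_le_iff_ne_zero.2 (by positivity)
    have hH' : H.degree < (((d - 1) * c + ρ + s1 + (ρ + 1) * (d * e - 1) : ℕ) : WithBot ℕ) := by
      refine hH.trans_le ?_
      rw [Nat.cast_le]
      obtain ⟨t, ht⟩ := Nat.exists_eq_add_of_le hde
      have h2 : d * ((ρ + 1) * e) = (ρ + 1) * (d * e) := by ring
      rw [h2, ht]
      have h3 : (ρ + 1) * (1 + t) = ρ + 1 + (ρ + 1) * t := by ring
      have h4 : 1 + t - 1 = t := by omega
      rw [h3, h4]
      omega
    obtain ⟨h, h0, h1, hsum⟩ := expand m hm (ρ + 1) ((d - 1) * c + ρ + s1) hdeg (d * e - 1) H hH'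
    rw [show d * e - 1 + 1 = d * e by omega] at hsum
    have hcoef : ∀ i, (∑ j ∈ Finset.range (d * e),
        Polynomial.C (Polynomial.C (θ⁻¹ ^ j) * h j) * Polynomial.X ^ j).coeff i =
        if i < d * e then Polynomial.C (θ⁻¹ ^ i) * h i else 0 := by
      intro i
      rw [Polynomial.finset_sum_coeff]
      simp only [Polynomial.coeff_C_mul_X_pow]
      rw [Finset.sum_ite_eq]
      simp only [Finset.mem_range]
    obtain ⟨u, Q, hu, hu0, hu1, hQ, hQ', heq⟩ := hL (∑ j ∈ Finset.range (d * e),
        Polynomial.C (Polynomial.C (θ⁻¹ ^ j) * h j) * Polynomial.X ^ j) (by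
      rw [Polynomial.degree_lt_iff_coeff_zero]
      intro i hi
      rw [hcoef, if_neg (by omega)]) (by
      intro i
      rw [hcoef]
      split_ifs with hi
      · rw [Polynomial.degree_C_mul (pow_ne_zero _ (inv_ne_zero hθ))]
        by_cases hi0 : i = 0
        · subst hi0
          refine h0.trans_le ?_
          rw [Nat.cast_le, Ds]
          omega
        · refine (h1 i (by omega)).trans_le ?_
          rw [Nat.cast_le, Ds]
          obtain ⟨t, rfl⟩ : ∃ t, i = t + 1 := ⟨i - 1, by omega⟩
          have : (t + 1 + 1) * ρ = t * ρ + 2 * ρ := by ring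
          rw [this]
          rcases hs1 with h5 | ⟨h5, h6⟩
          · omega
          · omega
      · rw [Polynomial.degree_zero]
        exact WithBot.bot_lt_coe _)
    have hun : ∀ i, (u i).natDegree ≤ e - 1 := fun i => by
      have := hu i
      by_cases h5 : u i = 0
      · rw [h5, Polynomial.natDegree_zero]
        omega
      · rw [Polynomial.degree_eq_natDegree h5, Nat.cast_lt] at this
        omega
    refine ⟨fun i => ∑ j ∈ Finset.range (e - 1 + 1),
      Polynomial.C (θ ^ j) * (u i).coeff j * m ^ (e - 1 - j), ?_, ?_⟩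
    · intro i
      dsimp only
      refine (Polynomial.degree_sum_le _ _).trans_lt ?_
      rw [Finset.sup_lt_iff (WithBot.bot_lt_coe _)]
      intro j hj
      have hj' := Finset.mem_range.1 hj
      refine deg_aux _ _ _ _ _ fun h5 => ?_
      rw [hdeg]
      by_cases hj0 : j = 0
      · subst hj0
        have h6 := hu0 i
        rw [Polynomial.degree_eq_natDegree h5, Nat.cast_lt] at h6
        obtain ⟨t, rfl⟩ := Nat.exists_eq_add_of_le he
        have h7 : (ρ + 1) * (1 + t) = ρ + 1 + (ρ + 1) * t := by ring
        have h8 : (1 + t - 1 - 0) * (ρ + 1) = (ρ + 1) * t := by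
          rw [show 1 + t - 1 - 0 = t by omega]
          ring
        rw [h7, h8]
        omega
      · have h6 := hu1 i j (by omega)
        rw [Polynomial.degree_eq_natDegree h5, Nat.cast_lt] at h6
        obtain ⟨t, ht⟩ : ∃ t, e = j + 1 + t := ⟨e - j - 1, by omega⟩
        obtain ⟨l, hl⟩ : ∃ l, j = l + 1 := ⟨j - 1, by omega⟩
        have h7 : (ρ + 1) * e = (ρ + 1) * t + (ρ + 1) * l + 2 * (ρ + 1) := by
          rw [ht, hl]
          ring
        have h8 : (e - 1 - j) * (ρ + 1) = (ρ + 1) * t := by
          rw [show e - 1 - j = t by omega]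
          ring
        rw [h7, h8]
        omega
    · apply hinj
      have h5 : ∀ i, a (∑ j ∈ Finset.range (e - 1 + 1),
          Polynomial.C (θ ^ j) * (u i).coeff j * m ^ (e - 1 - j)) = a m ^ (e - 1) * ev m θ (u i) :=
        fun i => ev_hom m θ hm0 (e - 1) (u i) (hun i)
      have h6 : ∀ i, a (onC (pderiv i F) (cG m θ e g)) =
          a m ^ (e * (d - 1)) * ev m θ (onC (pderiv i (F.map Polynomial.C)) g) := fun i => by
        rw [MvPolynomial.pderiv_map]
        exact onC_cG (K := K) m θ hm0 e hF.pderiv g hg
      have h7 : (ev m θ (∑ i, u i * onC (pderiv i (F.map Polynomial.C)) g) : K) =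
          ∑ j ∈ Finset.range (d * e), a (h j) * (a m)⁻¹ ^ j := by
        have h8 : ∑ i, u i * onC (pderiv i (F.map Polynomial.C)) g =
            (Polynomial.C m * Polynomial.X - Polynomial.C (Polynomial.C θ)) * Q +
            ∑ j ∈ Finset.range (d * e),
              Polynomial.C (Polynomial.C (θ⁻¹ ^ j) * h j) * Polynomial.X ^ j := by
          rw [← heq]
          ring
        rw [h8, map_add, map_mul, hzero, zero_mul, zero_add, map_sum]
        refine Finset.sum_congr rfl fun j _ => ?_
        have h11 : (ev m θ (Polynomial.C (Polynomial.C (θ⁻¹ ^ j) * h j) * Polynomial.X ^ j) : K) =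
            a (Polynomial.C θ⁻¹) ^ j * a (h j) * (a (Polynomial.C θ) / a m) ^ j := by
          rw [map_mul (ev m θ), map_pow (ev m θ), ev_C, ev_X, Polynomial.C_pow]
          change a _ * _ = _
          rw [map_mul, map_pow]
        rw [h11, div_pow, inv_pow]
        have h9 : a (Polynomial.C θ⁻¹) * a (Polynomial.C θ) = 1 := by
          rw [← map_mul, ← Polynomial.C_mul, inv_mul_cancel₀ hθ, Polynomial.C_1, map_one]
        have h10 : a (Polynomial.C θ⁻¹) ^ j * a (Polynomial.C θ) ^ j = 1 := by
          rw [← mul_pow, h9, one_pow]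
        rw [div_eq_mul_inv]
        calc a (Polynomial.C θ⁻¹) ^ j * a (h j) * (a (Polynomial.C θ) ^ j * (a m ^ j)⁻¹) =
            (a (Polynomial.C θ⁻¹) ^ j * a (Polynomial.C θ) ^ j) * (a (h j) * (a m ^ j)⁻¹) := by
              ring
          _ = a (h j) * (a m ^ j)⁻¹ := by rw [h10, one_mul]
      have h8 : e - 1 + e * (d - 1) = d * e - 1 := by
        obtain ⟨t, rfl⟩ := Nat.exists_eq_add_of_le hd
        have : (1 + t) * e = e + e * t := by ring
        rw [this, show 1 + t - 1 = t by omega]
        omega
      have h9 : a H = a m ^ (d * e - 1) * ∑ j ∈ Finset.range (d * e), a (h j) * (a m)⁻¹ ^ j := by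
        conv_lhs => rw [hsum]
        rw [map_sum, Finset.mul_sum]
        refine Finset.sum_congr rfl fun j hj => ?_
        have hj' := Finset.mem_range.1 hj
        obtain ⟨t, ht⟩ : ∃ t, d * e - 1 = j + t := ⟨d * e - 1 - j, by omega⟩
        rw [ht, Nat.add_sub_cancel_left, map_mul, map_pow, pow_add, inv_pow]
        have h12 : a m ^ j * (a m ^ j)⁻¹ = 1 := mul_inv_cancel₀ (pow_ne_zero j hm0)
        calc a (h j) * a m ^ t = (a m ^ j * (a m ^ j)⁻¹) * (a (h j) * a m ^ t) := by
              rw [h12, one_mul]
          _ = a m ^ j * a m ^ t * (a (h j) * (a m ^ j)⁻¹) := by ring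
      change a _ = a H
      rw [h9, ← h7, map_sum, map_sum, Finset.mul_sum]
      refine Finset.sum_congr rfl fun i _ => ?_
      rw [map_mul, map_mul, h5, h6, ← h8, pow_add]
      ring

end Pool.Agent.FCV
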