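import Pool.Agent.FCV.TargetsG

/-!
# Very free curves through every point, over some extension (VFO)
-/

set_option autoImplicit false

open MvPolynomial

namespace Pool.Agent.FCV

open Pool.Agent.WA (SmoothForm)

namespace VFO_

section Coeff

variable {A : Type} [CommRing A] {σ : Type}

theorem prod_top (e : ℕ) (f : σ → Polynomial A) (hf : ∀ i, (f i).natDegree ≤ e) (s : σ → ℕ)
    (S : Finset σ) :
    (∏ i ∈ S, f i ^ s i).natDegree ≤ (∑ i ∈ S, s i) * e ∧
      (∏ i ∈ S, f i ^ s i).coeff ((∑ i ∈ S, s i) * e) = ∏ i ∈ S, (f i).coeff e ^ s i := by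
  classical
  induction S using Finset.induction_on with
  | empty => simp
  | insert a S ha ih =>
    have h1 : (f a ^ s a).natDegree ≤ s a * e :=
      (Polynomial.natDegree_pow_le).trans (Nat.mul_le_mul_left _ (hf a))
    have h2 : (f a ^ s a).coeff (s a * e) = (f a).coeff e ^ s a :=
      Polynomial.coeff_pow_of_natDegree_le (hf a)
    rw [Finset.prod_insert ha, Finset.prod_insert ha, Finset.sum_insert ha, add_mul]
    refine ⟨(Polynomial.natDegree_mul_le).trans (Nat.add_le_add h1 ih.1), ?_⟩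
    rw [Polynomial.coeff_mul_add_eq_of_natDegree_le h1 ih.1, h2, ih.2]

theorem onC_eq (F : MvPolynomial σ A) (f : σ → Polynomial A) :
    onC F f = ∑ s ∈ F.support, Polynomial.C (coeff s F) * ∏ i ∈ s.support, f i ^ s i := by
  unfold onC
  exact eval₂_eq _ _ _

theorem onC_top (F : MvPolynomial σ A) (d e : ℕ) (hF : F.IsHomogeneous d)
    (f : σ → Polynomial A) (hf : ∀ i, (f i).natDegree ≤ e) :
    (onC F f).natDegree ≤ d * e ∧
      (onC F f).coeff (d * e) = eval (fun i => (f i).coeff e) F := by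
  have hdeg : ∀ s ∈ F.support, ∑ i ∈ s.support, s i = d := by
    intro s hs
    have h1 := hF (mem_support_iff.1 hs)
    rw [Finsupp.weight_apply, Finsupp.sum] at h1
    simpa using h1
  rw [onC_eq]
  refine ⟨Polynomial.natDegree_sum_le_of_forall_le _ _ fun s hs => ?_, ?_⟩
  · have h2 := (prod_top e f hf s s.support).1
    rw [hdeg s hs] at h2
    exact (Polynomial.natDegree_C_mul_le _ _).trans h2
  · rw [Polynomial.finsetSum_coeff, eval_eq]
    refine Finset.sum_congr rfl fun s hs => ?_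
    have h2 := (prod_top e f hf s s.support).2
    rw [hdeg s hs] at h2
    rw [Polynomial.coeff_C_mul, h2]

theorem onC_smul (F : MvPolynomial σ A) (d : ℕ) (hF : F.IsHomogeneous d)
    (f : σ → Polynomial A) (p : Polynomial A) :
    onC F (fun i => p * f i) = p ^ d * onC F f := by
  have hdeg : ∀ s ∈ F.support, ∑ i ∈ s.support, s i = d := by
    intro s hs
    have h1 := hF (mem_support_iff.1 hs)
    rw [Finsupp.weight_apply, Finsupp.sum] at h1
    simpa using h1
  rw [onC_eq, onC_eq, Finset.mul_sum]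
  refine Finset.sum_congr rfl fun s hs => ?_
  have h1 : ∏ i ∈ s.support, (p * f i) ^ s i = p ^ d * ∏ i ∈ s.support, f i ^ s i := by
    simp only [mul_pow]
    rw [Finset.prod_mul_distrib, Finset.prod_pow_eq_pow_sum, hdeg s hs]
  rw [h1]
  ring

theorem onC_C (F : MvPolynomial σ A) (x : σ → A) :
    onC F (fun i => Polynomial.C (x i)) = Polynomial.C (eval x F) := by
  have h := MvPolynomial.eval₂_comp_left (Polynomial.C : A →+* Polynomial A) (RingHom.id A) x F
  unfold onC
  rw [RingHom.comp_id] at h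
  exact h.symm

end Coeff

section Alg

variable {k Ω : Type} [Field k] [Field Ω] [Algebra k Ω]

theorem alg_mono {T T' : Set Ω} (h : T ⊆ T') {x : Ω}
    (hx : IsAlgebraic (IntermediateField.adjoin k T) x) :
    IsAlgebraic (IntermediateField.adjoin k T') x := by
  have hsub : IntermediateField.adjoin k T ≤ IntermediateField.adjoin k T' :=
    IntermediateField.adjoin.mono k T T' h
  obtain ⟨p, hp, hpx⟩ := hx
  refine ⟨p.map (IntermediateField.inclusion hsub).toRingHom, ?_, ?_⟩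
  · exact (Polynomial.map_ne_zero_iff
      (IntermediateField.inclusion hsub).toRingHom.injective).mpr hp
  · rw [Polynomial.aeval_def, Polynomial.eval₂_map]
    rw [Polynomial.aeval_def] at hpx
    exact hpx

theorem alg_mem {T : Set Ω} {x : Ω} (hx : x ∈ T) :
    IsAlgebraic (IntermediateField.adjoin k T) x :=
  isAlgebraic_algebraMap
    (⟨x, IntermediateField.subset_adjoin k T hx⟩ : IntermediateField.adjoin k T)

theorem algLe_card {τ : Type} [Fintype τ] (z : τ → Ω) : AlgLe k z (Fintype.card τ) := by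
  classical
  refine ⟨Finset.univ.image z, Finset.card_image_le, fun t => alg_mem ?_⟩
  simp

end Alg

section Fam

variable {A : Type} [CommRing A]

theorem cv_coeff {n a : ℕ} (z : Fin a × Fin (n + 1) → A) (i : Fin (n + 1)) (j : ℕ) :
    (cv z i).coeff j = if h : j < a then z (⟨j, h⟩, i) else 0 := by
  unfold cv
  rw [Polynomial.finsetSum_coeff]
  simp only [Polynomial.coeff_C_mul, Polynomial.coeff_X_pow, mul_ite, mul_one, mul_zero]
  by_cases h : j < a
  · rw [dif_pos h, Finset.sum_eq_single (⟨j, h⟩ : Fin a)]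
    · simp
    · intro b _ hb
      rw [if_neg]
      intro hjb
      exact hb (Fin.ext hjb.symm)
    · simp
  · rw [dif_neg h]
    refine Finset.sum_eq_zero fun b _ => ?_
    rw [if_neg]
    intro hjb
    exact h (hjb ▸ b.2)

theorem cv_natDegree {n a : ℕ} (z : Fin a × Fin (n + 1) → A) (i : Fin (n + 1)) :
    (cv z i).natDegree ≤ a - 1 := by
  rw [Polynomial.natDegree_le_iff_coeff_eq_zero]
  intro N hN
  rw [cv_coeff, dif_neg (by omega)]

/-- the family of curves -/
noncomputable def fam {n e : ℕ} (w : (Fin e × Fin (n + 1)) ⊕ Unit → A) (y : Fin (n + 1) → A)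
    (i : Fin (n + 1)) : Polynomial A :=
  ∑ j : Fin e, Polynomial.C (w (Sum.inl (j, i))) * Polynomial.X ^ (j : ℕ) +
    Polynomial.C (w (Sum.inr ()) * y i) * Polynomial.X ^ e

theorem fam_map {B : Type} [CommRing B] (φ : A →+* B) {n e : ℕ}
    (w : (Fin e × Fin (n + 1)) ⊕ Unit → A) (y : Fin (n + 1) → A) (i : Fin (n + 1)) :
    (fam w y i).map φ = fam (fun t => φ (w t)) (fun i => φ (y i)) i := by
  simp [fam, Polynomial.map_sum]

theorem fam_coeff {n e : ℕ} (w : (Fin e × Fin (n + 1)) ⊕ Unit → A) (y : Fin (n + 1) → A)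
    (i : Fin (n + 1)) (j : ℕ) :
    (fam w y i).coeff j = (if h : j < e then w (Sum.inl (⟨j, h⟩, i)) else 0) +
      if j = e then w (Sum.inr ()) * y i else 0 := by
  have h1 : fam w y i = cv (fun p => w (Sum.inl p)) i +
      Polynomial.C (w (Sum.inr ()) * y i) * Polynomial.X ^ e := rfl
  rw [h1, Polynomial.coeff_add, cv_coeff, Polynomial.coeff_C_mul, Polynomial.coeff_X_pow]
  congr 1
  simp

/-- the equations -/
noncomputable def equ {n : ℕ} (e : ℕ) (F : MvPolynomial (Fin (n + 1)) A) (x : Fin (n + 1) → A)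
    (l : ℕ) : MvPolynomial ((Fin e × Fin (n + 1)) ⊕ Unit) A :=
  (onC (F.map C) (fam X fun i => C (x i))).coeff l

theorem equ_map {B : Type} [CommRing B] {n e : ℕ} (F : MvPolynomial (Fin (n + 1)) A)
    (x : Fin (n + 1) → A) (l : ℕ) (φ : MvPolynomial ((Fin e × Fin (n + 1)) ⊕ Unit) A →+* B) :
    φ (equ e F x l) = (onC (F.map (φ.comp C)) (fam (fun t => φ (X t))
      fun i => φ (C (x i)))).coeff l := by
  unfold equ
  rw [← Polynomial.coeff_map, ← onC_map, map_map]
  simp only [fam_map]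

end Fam

theorem generic (hHT : T_HT2) (κ : Type) [Field κ] (n d e : ℕ)
    (F : MvPolynomial (Fin (n + 1)) κ) (hF : F.IsHomogeneous d)
    (x : Fin (n + 1) → κ) (hFx : eval x F = 0) :
    ∃ (L : Type) (_ : Field L) (_ : IsAlgClosed L) (_ : Algebra κ L)
      (z : Fin (e + 1) × Fin (n + 1) → L), onC (F.map (algebraMap κ L)) (cv z) = 0 ∧
      (∀ i, (cv z i).coeff e = algebraMap κ L (x i)) ∧
      ∀ m, AlgLe κ z m → (n + 1) * e ≤ m + d * e := by
  classical
  set P : (Fin e × Fin (n + 1)) ⊕ Unit → κ := Sum.elim (fun _ => 0) (fun _ => 1) with hP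
  have hfamP : fam P x = fun i => Polynomial.X ^ e * Polynomial.C (x i) := by
    funext i
    have h0 : ∑ j : Fin e, Polynomial.C (P (Sum.inl (j, i))) * Polynomial.X ^ (j : ℕ) = 0 := by
      refine Finset.sum_eq_zero fun j _ => ?_
      rw [hP, Sum.elim_inl, map_zero, zero_mul]
    unfold fam
    rw [h0, zero_add, hP, Sum.elim_inr, one_mul, mul_comm]
  have hPeq : ∀ l, eval P (equ e F x l) = 0 := by
    intro l
    have h1 := equ_map (e := e) F x l (eval P)
    have h2 : (eval P).comp (C : κ →+* MvPolynomial ((Fin e × Fin (n + 1)) ⊕ Unit) κ) =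
        RingHom.id κ := by
      ext a
      simp
    rw [h1, h2, map_id]
    simp only [eval_X, eval_C]
    rw [hfamP, onC_smul F d hF, onC_C, hFx]
    simp
  obtain ⟨L, i1, i2, i3, z, hz, hzP, hzc⟩ := hHT κ ((Fin e × Fin (n + 1)) ⊕ Unit) P
    ((Finset.range (d * e)).image (equ e F x)) (by
      intro g hg
      obtain ⟨l, -, rfl⟩ := Finset.mem_image.1 hg
      exact hPeq l)
  refine ⟨L, i1, i2, i3, ?_⟩
  set c : L := z (Sum.inr ()) with hc
  have hc0 : c ≠ 0 := by
    intro h0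
    have h1 := hzP (X (Sum.inr ())) (by rw [aeval_X]; exact h0)
    rw [eval_X] at h1
    simp [hP] at h1
  set F' := F.map (algebraMap κ L) with hF'
  have hF'h : F'.IsHomogeneous d := hF.map _
  set x' : Fin (n + 1) → L := fun i => algebraMap κ L (x i) with hx'
  have hF'x : eval x' F' = 0 := by
    rw [hF', hx', eval_map]
    have h1 := MvPolynomial.eval₂_comp_left (algebraMap κ L) (RingHom.id κ) x F
    rw [RingHom.comp_id] at h1
    have h2 : eval₂ (RingHom.id κ) x F = 0 := hFx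
    rw [h2, map_zero] at h1
    exact h1.symm
  have hfdeg : ∀ i, (fam z x' i).natDegree ≤ e := by
    intro i
    rw [Polynomial.natDegree_le_iff_coeff_eq_zero]
    intro N hN
    rw [fam_coeff, dif_neg (by omega), if_neg (by omega), add_zero]
  have hftop : (fun i => (fam z x' i).coeff e) = fun i => c * x' i := by
    funext i
    rw [fam_coeff, dif_neg (lt_irrefl _), if_pos rfl, zero_add]
  have hevc : eval (fun i => c * x' i) F' = 0 := by
    have h1 := onC_C F' (fun i => c * x' i)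
    have h2 := onC_smul F' d hF'h (fun i => Polynomial.C (x' i)) (Polynomial.C c)
    rw [onC_C, hF'x, map_zero, mul_zero] at h2
    simp only [map_mul] at h1
    rw [h2] at h1
    exact (Polynomial.C_eq_zero.1 h1.symm)
  have hfam0 : onC F' (fam z x') = 0 := by
    obtain ⟨h1, h2⟩ := onC_top F' d e hF'h (fam z x') hfdeg
    rw [hftop, hevc] at h2
    ext l
    rw [Polynomial.coeff_zero]
    rcases lt_trichotomy l (d * e) with hl | hl | hl
    · have h3 := hz (equ e F x l) (Finset.mem_image_of_mem _ (Finset.mem_range.2 hl))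
      have h4 := equ_map (e := e) F x l (aeval z : _ →ₐ[κ] L).toRingHom
      have h5 : (aeval z : MvPolynomial ((Fin e × Fin (n + 1)) ⊕ Unit) κ →ₐ[κ] L).toRingHom.comp
          (C : κ →+* MvPolynomial ((Fin e × Fin (n + 1)) ⊕ Unit) κ) = algebraMap κ L := by
        ext a
        simp
      rw [h5] at h4
      have h6 : (fun t => (aeval z : MvPolynomial ((Fin e × Fin (n + 1)) ⊕ Unit) κ →ₐ[κ]
          L).toRingHom (X t)) = z := by
        funext t
        simp
      have h7 : (fun i => (aeval z : MvPolynomial ((Fin e × Fin (n + 1)) ⊕ Unit) κ →ₐ[κ]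
          L).toRingHom (C (x i))) = x' := by
        funext i
        simp [hx']
      rw [h6, h7] at h4
      rw [← h4]
      exact h3
    · rw [hl, h2]
    · exact Polynomial.coeff_eq_zero_of_natDegree_lt (lt_of_le_of_lt h1 hl)
  set z1 : Fin (e + 1) × Fin (n + 1) → L := fun p =>
    if h : (p.1 : ℕ) < e then c⁻¹ * z (Sum.inl (⟨p.1, h⟩, p.2)) else x' p.2 with hz1
  have hcv : cv z1 = fun i => Polynomial.C c⁻¹ * fam z x' i := by
    funext i
    ext j
    rw [cv_coeff, Polynomial.coeff_C_mul, fam_coeff]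
    by_cases h1 : j < e
    · rw [dif_pos (by omega), dif_pos h1, if_neg (by omega), add_zero, hz1]
      simp only
      rw [dif_pos h1]
    · rw [dif_neg h1, zero_add]
      by_cases h2 : j = e
      · rw [dif_pos (by omega), if_pos h2, hz1]
        simp only
        rw [dif_neg h1, ← mul_assoc, inv_mul_cancel₀ hc0, one_mul]
      · rw [dif_neg (by omega), if_neg h2, mul_zero]
  refine ⟨z1, ?_, ?_, ?_⟩
  · rw [hcv, onC_smul F' d hF'h, hfam0, mul_zero]
  · intro i
    rw [cv_coeff, dif_pos (by omega), hz1]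
    simp only
    rw [dif_neg (lt_irrefl _)]
  · intro m hm
    have h1 : AlgLe κ z (m + 1) := by
      obtain ⟨T, hT, hTa⟩ := hm
      refine ⟨insert c T, (Finset.card_insert_le _ _).trans (by omega), ?_⟩
      have hcT : IsAlgebraic (IntermediateField.adjoin κ ((insert c T : Finset L) : Set L)) c :=
        alg_mem (by simp)
      rintro (⟨j, i⟩ | u)
      · have h2 := alg_mono (k := κ) (T' := ((insert c T : Finset L) : Set L))
          (by intro y hy; simp at hy ⊢; exact Or.inr hy)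
          (hTa (⟨j, by have := j.2; omega⟩, i))
        have h3 : z (Sum.inl (j, i)) = c * z1 (⟨j, by have := j.2; omega⟩, i) := by
          rw [hz1]
          simp only
          rw [dif_pos j.2, ← mul_assoc, mul_inv_cancel₀ hc0, one_mul]
        rw [h3]
        exact hcT.mul h2
      · exact hcT
    have h2 := hzc (m + 1) h1
    have h3 : ((Finset.range (d * e)).image (equ e F x)).card ≤ d * e :=
      Finset.card_image_le.trans (by simp)
    have h4 : Fintype.card ((Fin e × Fin (n + 1)) ⊕ Unit) = e * (n + 1) + 1 := by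
      simp
    rw [h4] at h2
    have h5 : e * (n + 1) = (n + 1) * e := mul_comm _ _
    omega

theorem arith_main (d0 θ μ m k e' D : ℤ) (h0 : 0 ≤ d0) (hk : 0 ≤ k)
    (he0 : 0 ≤ e') (hD0 : 0 ≤ D) (hθ : d0 ^ 2 + 3 * d0 + 3 ≤ θ)
    (h1 : θ * (e' + D) + 2 ≤ (d0 + 2) * e' + k * m + D)
    (h2 : (d0 + 2) * m ≤ ((d0 + 2) * θ + 1) * μ)
    (h3 : (d0 + 1) * (k * μ) ≤ d0 * e' + 2 * ((d0 + 1) * μ))
    (he : ((d0 + 2) * θ + 1) * ((d0 + 1) * μ) < e' + D) : False := by
  have hθ0 : 3 ≤ θ := by nlinarith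
  have a1 : (d0 + 2) * (d0 + 1) * (θ * (e' + D) + 2) ≤
      (d0 + 2) * (d0 + 1) * ((d0 + 2) * e' + k * m + D) :=
    mul_le_mul_of_nonneg_left h1 (by positivity)
  have a2 : (d0 + 1) * k * ((d0 + 2) * m) ≤ (d0 + 1) * k * (((d0 + 2) * θ + 1) * μ) :=
    mul_le_mul_of_nonneg_left h2 (by positivity)
  have a3 : ((d0 + 2) * θ + 1) * ((d0 + 1) * (k * μ)) ≤
      ((d0 + 2) * θ + 1) * (d0 * e' + 2 * ((d0 + 1) * μ)) :=
    mul_le_mul_of_nonneg_left h3 (by nlinarith)
  have hc : (d0 + 2) ^ 2 * (d0 + 1) + d0 + 2 ≤ (d0 + 2) * θ := by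
    have := mul_le_mul_of_nonneg_left hθ (show (0 : ℤ) ≤ d0 + 2 by linarith)
    nlinarith
  have a4 := mul_le_mul_of_nonneg_right hc he0
  have hD : 2 ≤ (d0 + 2) * (d0 + 1) * (θ - 1) := by
    have h5 : (2 : ℤ) ≤ (d0 + 2) * (d0 + 1) := by nlinarith
    nlinarith
  have a5 := mul_le_mul_of_nonneg_right hD hD0
  nlinarith

end VFO_

open VFO_ in
theorem p_VFO (hHT : T_HT2) (hGCD : T_GCD) (hNFD : T_NFD) (hDIM : T_DIM) : T_VFO := by
  intro κ _ _ n d F hd2 hdn hF hS x hx hFx
  classical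
  obtain ⟨μ, m, hμ, hcut, hdm⟩ := hDIM κ n d F hd2 hdn hF hS
  obtain ⟨d0, rfl⟩ : ∃ d0, d = d0 + 2 := ⟨d - 2, by omega⟩
  obtain ⟨θ, hθ⟩ : ∃ θ, n + 1 = θ + (d0 + 2) := by
    refine ⟨n + 1 - (d0 + 2), ?_⟩
    have h1 : d0 + 2 ≤ (d0 + 2) ^ 2 := by nlinarith
    omega
  have hθ2 : d0 ^ 2 + 3 * d0 + 3 ≤ θ := by nlinarith
  have hθ3 : 3 ≤ θ := by nlinarith
  have hsub : n + 1 - (d0 + 2) = θ := by omega
  rw [hsub] at hdm
  obtain ⟨Q, hQ⟩ : ∃ Q, Q = (d0 + 1) * μ := ⟨_, rfl⟩
  have hQ1 : 1 ≤ Q := by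
    rw [hQ]
    exact Nat.mul_pos (by omega) (by omega)
  obtain ⟨e, he⟩ : ∃ e, e = (((d0 + 2) * θ + 1) + (n + 1)) * Q + 2 := ⟨_, rfl⟩
  obtain ⟨L, i1, i2, i3, z, hz0, hztop, hzc⟩ := generic hHT κ n (d0 + 2) e F hF x hFx
  have hx' : (fun i => algebraMap κ L (x i)) ≠ 0 := by
    intro h
    refine hx (funext fun i => ?_)
    have h1 := congrFun h i
    simpa using h1
  have hz : z ≠ 0 := by
    intro h
    apply hx'
    funext i
    have h1 := hztop i
    rw [cv_coeff, dif_pos (by omega), h] at h1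
    exact h1.symm
  obtain ⟨a', z', ha1, ha2, hF0, hbp, htop, halg, hval⟩ :=
    hGCD κ L n (d0 + 2) (e + 1) F z hF hz hz0
  have hval' := hval (fun i => algebraMap κ L (x i)) hx' (by
    intro i
    rw [Nat.add_sub_cancel]
    exact hztop i)
  obtain ⟨e', rfl⟩ : ∃ e', a' = e' + 1 := ⟨a' - 1, by omega⟩
  obtain ⟨D, hD⟩ : ∃ D, e = e' + D := ⟨e - e', by omega⟩
  have hsub2 : e + 1 - (e' + 1) = D := by omega
  rw [hsub2] at halg
  have key : ∀ M, AlgLe κ z' M → θ * e ≤ M + D := by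
    intro M hM
    have h1 := hzc _ (halg M hM)
    rw [hθ, add_mul] at h1
    omega
  have hbig : 2 * Q ≤ e' := by
    by_contra hcon
    push Not at hcon
    have h1 := key _ (algLe_card (k := κ) z')
    rw [Fintype.card_prod, Fintype.card_fin, Fintype.card_fin] at h1
    have h2 : (e' + 1) * (n + 1) ≤ 2 * Q * (n + 1) := Nat.mul_le_mul_right _ (by omega)
    have h3 : 3 * e ≤ θ * e := Nat.mul_le_mul_right _ hθ3
    have h4 : (n + 1) * Q ≤ (((d0 + 2) * θ + 1) + (n + 1)) * Q :=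
      Nat.mul_le_mul_right _ (by omega)
    have h5 : 2 * Q * (n + 1) = 2 * ((n + 1) * Q) := by ring
    omega
  rw [Nat.add_sub_cancel] at htop
  simp only [Nat.add_sub_cancel] at hval'
  refine ⟨L, i1, i3, e', cv z', by omega, fun i => ?_, hF0, hval', ?_⟩
  · have h1 := cv_natDegree z' i
    rwa [Nat.add_sub_cancel] at h1
  by_contra hcon
  -- the number `k`
  obtain ⟨K, hK⟩ : ∃ K, K = d0 * e' / Q := ⟨_, rfl⟩
  have hK1 : K * Q ≤ d0 * e' := by
    rw [hK]
    exact Nat.div_mul_le_self _ _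
  have hK2 : d0 * e' < (K + 1) * Q := by
    rw [hK, add_mul, one_mul]
    have h2 := Nat.div_add_mod (d0 * e') Q
    have h3 := Nat.mod_lt (d0 * e') (show Q > 0 by omega)
    rw [mul_comm] at h2
    omega
  have hkQ : (d0 + 1) * ((K + 2) * μ) = (K + 2) * Q := by
    rw [hQ]
    ring
  have hkQ2 : (K + 2) * Q = K * Q + 2 * Q := by ring
  have hkQ3 : (K + 1) * Q = K * Q + Q := by ring
  have hd1 : (d0 + 1) * e' = d0 * e' + e' := by ring
  have hd2' : (d0 + 2) * e' = d0 * e' + 2 * e' := by ring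
  have hkμ : (K + 2) * μ ≤ e' := by
    refine Nat.le_of_mul_le_mul_left (c := d0 + 1) ?_ (by omega)
    omega
  have hd0 : d0 + 2 - 1 = d0 + 1 := by omega
  have hK0 : K + 2 - 1 = K + 1 := by omega
  have c3 : (d0 + 2 - 1) * (e' + 1 - 1 - (K + 2) * μ) ≤ e' - 1 := by
    rw [hd0, Nat.add_sub_cancel]
    obtain ⟨w, hw⟩ : ∃ w, e' = (K + 2) * μ + w := ⟨e' - (K + 2) * μ, by omega⟩
    have h1 : e' - (K + 2) * μ = w := by omega
    have h2 : (d0 + 1) * e' = (d0 + 1) * ((K + 2) * μ) + (d0 + 1) * w := by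
      rw [hw]
      ring
    rw [h1]
    omega
  have c4 : (d0 + 2 - 1) * (e' + 1 - 1) ≤ e' - 1 + (K + 2 - 1) * ((d0 + 2 - 1) * μ) := by
    rw [hd0, hK0, Nat.add_sub_cancel, ← hQ]
    omega
  have hb : (d0 + 2 - 1) * (e' + 1 - 1) + (e' - 1) = (d0 + 2) * e' - 1 := by
    rw [hd0, Nat.add_sub_cancel]
    omega
  have hfin := hNFD κ n (d0 + 2) F hd2 hF hS μ m (e' + 1) (e' - 1) (K + 2) hμ hcut (by omega)
    (by omega) c3 c4 L z' hF0 hbp (by rw [Nat.add_sub_cancel]; exact htop)
    (by rw [hb]; exact hcon)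
  rw [hb] at hfin
  have h1 := key _ hfin
  have h2 : θ * (e' + D) + 2 ≤ (d0 + 2) * e' + (K + 2) * m + D := by
    rw [← hD]
    have h5 : 2 ≤ (d0 + 2) * e' := by omega
    generalize (d0 + 2) * e' = X at h1 h5 ⊢
    generalize (K + 2) * m = Y at h1 ⊢
    generalize θ * e = Z at h1 ⊢
    clear * - h1 h5
    omega
  have h3 : (d0 + 1) * ((K + 2) * μ) ≤ d0 * e' + 2 * ((d0 + 1) * μ) := by
    rw [hkQ, ← hQ]
    omega
  have h4 : ((d0 + 2) * θ + 1) * ((d0 + 1) * μ) < e' + D := by
    rw [← hQ, ← hD, he]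
    have h5 : ((d0 + 2) * θ + 1) * Q ≤ (((d0 + 2) * θ + 1) + (n + 1)) * Q :=
      Nat.mul_le_mul_right _ (by omega)
    exact Nat.lt_of_le_of_lt h5 (Nat.lt_add_of_pos_right (by norm_num))
  refine arith_main d0 θ μ m (K + 2) e' D (by positivity) (by positivity) (by positivity)
    (by positivity) ?_ ?_ ?_ ?_ ?_
  · exact_mod_cast hθ2
  · exact_mod_cast h2
  · exact_mod_cast hdm
  · exact_mod_cast h3
  · exact_mod_cast h4

end Pool.Agent.FCV
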