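import Pool.Agent.FCV.TargetsM

/-!
# Weak approximation for smooth forms of degree at least two from the steps
-/

set_option autoImplicit false

open MvPolynomial WithZero Topology
open Pool.Agent.WA Pool.Agent.WL

namespace Pool.Agent.FCV

namespace WAC_

/-- A nonzero point over the function field. -/
theorem exists_point (K : Type) [Field K] (hC1 : C1 K) (n d : ℕ)
    (F : MvPolynomial (Fin (n + 1)) K) (hd : 2 ≤ d) (hn : d ^ 2 ≤ n) (hF : F.IsHomogeneous d) :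
    ∃ y : Fin (n + 1) → K, y ≠ 0 ∧ eval y F = 0 := by
  have hdn : d < n + 1 := by nlinarith
  obtain ⟨y, hy0, hy⟩ := hC1 (Fin (n + 1)) Unit (fun _ y => eval y F) (fun _ => d)
    (fun _ => by omega) (fun _ => IsForm.of_mvPolynomial hF) (by simpa using hdn)
  exact ⟨y, hy0, hy ()⟩

/-- Induction over the places. -/
theorem induct (hST : T_STEPC) (k K : Type) [Field k] [IsAlgClosed k] [Field K]
    [Algebra k K] (hfun : FunField k K) (hC1 : C1 K) (n d : ℕ)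
    (F : MvPolynomial (Fin (n + 1)) K) (hd : 2 ≤ d) (hn : d ^ 2 ≤ n) (hF : F.IsHomogeneous d)
    (hs : SmoothForm F) (m : ℕ)
    (v : Fin m → Valuation K ℤᵐ⁰) (hv : ∀ j, PlaceOf k (v j))
    (hne : ∀ i j, i ≠ j → ¬ (v i).IsEquiv (v j)) (x : ∀ j, Fin (n + 1) → Compl (v j))
    (hx : ∀ j, x j ≠ 0 ∧ eval (x j) (FE (v j) F) = 0) (θ : Fin m → ℤᵐ⁰) (hθ : ∀ j, θ j ≠ 0) :
    ∀ t : ℕ, t ≤ m → ∃ y : Fin (n + 1) → K, y ≠ 0 ∧ eval y F = 0 ∧
      ∀ j : Fin m, (j : ℕ) < t → ∃ c : K, c ≠ 0 ∧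
        ∀ i, vE (v j) (emb (v j) (c * y i) - x j i) ≤ θ j := by
  intro t
  induction t with
  | zero =>
    intro _
    obtain ⟨y, hy0, hy⟩ := exists_point K hC1 n d F hd hn hF
    exact ⟨y, hy0, hy, fun j hj => absurd hj (Nat.not_lt_zero _)⟩
  | succ t ih =>
    intro htm
    set j₀ : Fin m := ⟨t, htm⟩ with hj₀
    obtain ⟨y, hy0, hy, hyx⟩ := ih (by omega)
    -- the other places
    let w : Fin t → Valuation K ℤᵐ⁰ := fun l => v ⟨l, by omega⟩
    choose c hc hcx using fun l : Fin t => hyx ⟨l, by omega⟩ l.2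
    have hw : ∀ l, PlaceOf k (w l) := fun l => hv _
    have hind : Indep (v j₀) w := by
      refine ⟨fun l => hne _ _ ?_, fun l l' hl => hne _ _ ?_⟩
      · intro h
        have := congrArg Fin.val h
        simp only [hj₀] at this
        omega
      · intro h
        exact hl (Fin.ext (by simpa using congrArg Fin.val h))
    let η : Fin t → ℤᵐ⁰ := fun l => θ ⟨l, by omega⟩ * (w l (c l))⁻¹
    have hη : ∀ l, η l ≠ 0 := fun l =>
      mul_ne_zero (hθ _) (inv_ne_zero ((Valuation.ne_zero_iff _).mpr (hc l)))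
    obtain ⟨y', hy'0, hy', hy'x, hy'w⟩ := hST k K hfun hC1 n d t F hd hn hF hs (v j₀) w (hv j₀)
      hw hind (x j₀) y (hx j₀).1 (hx j₀).2 hy0 hy (θ j₀) η (hθ j₀) hη
    refine ⟨y', hy'0, hy', fun j hj => ?_⟩
    rcases Nat.lt_succ_iff_lt_or_eq.mp hj with hlt | heq
    · obtain ⟨c', hc', hc'y⟩ := hy'w ⟨j, hlt⟩
      refine ⟨c ⟨j, hlt⟩ * c', mul_ne_zero (hc _) hc', fun i => ?_⟩
      have e : emb (v j) (c ⟨j, hlt⟩ * c' * y' i) - x j i =
          emb (v j) (c ⟨j, hlt⟩ * (c' * y' i - y i)) +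
            (emb (v j) (c ⟨j, hlt⟩ * y i) - x j i) := by
        rw [mul_sub, map_sub]; ring_nf
      rw [e]
      refine (vE (v j)).map_add_le ?_ (hcx ⟨j, hlt⟩ i)
      rw [val_emb, map_mul]
      have h1 : w ⟨j, hlt⟩ (c' * y' i - y i) ≤ θ j * (w ⟨j, hlt⟩ (c ⟨j, hlt⟩))⁻¹ := hc'y i
      have h2 : w ⟨j, hlt⟩ (c ⟨j, hlt⟩) ≠ 0 := (Valuation.ne_zero_iff _).mpr (hc _)
      calc v j (c ⟨j, hlt⟩) * v j (c' * y' i - y i)
          ≤ w ⟨j, hlt⟩ (c ⟨j, hlt⟩) * (θ j * (w ⟨j, hlt⟩ (c ⟨j, hlt⟩))⁻¹) :=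
            mul_le_mul' le_rfl h1
        _ = θ j := by
            rw [mul_comm, mul_assoc, inv_mul_cancel₀ h2, mul_one]
    · have : j = j₀ := Fin.ext heq
      subst this
      exact ⟨1, one_ne_zero, fun i => by rw [one_mul]; exact hy'x i⟩

end WAC_

open WAC_ in
theorem p_WAC (hST : T_STEPC) : T_WAC := by
  intro k K _ _ _ _ hfun hC1 n d F hd hn hF hs m v hv hne x hx U hU
  choose π hπ using fun j => exists_isUnif (v j) (hv j).1
  choose c hc0 hc using fun j => exists_ball_subset_pi (hπ j) ((hU j).1.mem_nhds (hU j).2)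
  obtain ⟨y, hy0, hy, hyx⟩ := induct hST k K hfun hC1 n d F hd hn hF hs m v hv hne x hx c hc0 m
    le_rfl
  choose b hb hbx using fun j : Fin m => hyx j j.2
  refine ⟨y, hy0, hy, fun j => ⟨emb (v j) (b j), (map_ne_zero _).mpr (hb j), ?_⟩⟩
  refine hc j _ fun i => ?_
  rw [← map_mul]
  exact hbx j i

end Pool.Agent.FCV
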