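import Pool.Agent.FCV.TargetsM
import Pool.Agent.WL.ZR

/-!
# Few further equations force the vanishing of the form (curves)
-/

set_option autoImplicit false

open MvPolynomial
open Pool.Agent.WA Pool.Agent.WL

namespace Pool.Agent.FCV

theorem p_ZRC (hORD : T_ORD) (hCOMB : T_COMB) (hSPAN : T_SPAN) (hSTRC : T_STRC) : T_ZRC := by
  intro k _ n d E F δ c V hd hE hF hV N m M e he
  have := hV.fin (d * m + (d + 1) * c)
  obtain ⟨M', e', o', hA⟩ := hORD k (V (d * m + (d + 1) * c))
  have ho : ∀ b, o' b < δ * (d * m + (d + 1) * c) + c + 1 := by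
    intro b
    by_contra hcon
    have h1 : (PowerSeries.X : PowerSeries k) ^ (δ * (d * m + (d + 1) * c) + c + 1) ∣ e' b := by
      rw [PowerSeries.X_pow_dvd_iff]
      intro a ha
      exact hA.low b a (by omega)
    have h2 := hV.ord _ _ (hA.mem b) h1
    have h3 := hA.lead b
    rw [h2] at h3
    simp at h3
  refine ⟨(Finset.univ.filter fun b => d * E * N ≤ o' b).image o', ?_, ?_⟩
  · have hsub : (Finset.univ.filter fun b => d * E * N ≤ o' b).image o' ⊆
        Finset.Ico (d * E * N) (δ * (d * m + (d + 1) * c) + c + 1) := by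
      intro a ha
      obtain ⟨b, hb, rfl⟩ := Finset.mem_image.1 ha
      exact Finset.mem_Ico.2 ⟨(Finset.mem_filter.1 hb).2, ho b⟩
    refine (Finset.card_le_card hsub).trans ?_
    rw [Nat.card_Ico]
  · intro L _ _ z hS hO
    have hdvd := hSTRC (Fin (n + 1)) L (upF L F) d E N (psC z) (qC z) (phiC e z) hd hE
      (hF.map _) hS
    have hmem := hSPAN k n d F δ c V hd hF hV m L (phiC e z) (by
      intro i
      unfold phiC
      refine Submodule.sum_mem _ fun b _ => ?_
      rw [WL.ZR_.C_mul_eq]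
      exact Submodule.smul_mem _ _ (Submodule.subset_span ⟨e b, he b, rfl⟩))
    obtain ⟨t, ht⟩ := WL.ZR_.mem_span hA _ hmem
    have h0 : ∀ b, t b = 0 := by
      refine (hCOMB k _ M' e' o' hA L t).2 fun b => ?_
      rw [← ht]
      by_cases hb : d * E * N ≤ o' b
      · exact hO _ (Finset.mem_image.2 ⟨b, Finset.mem_filter.2 ⟨Finset.mem_univ b, hb⟩, rfl⟩)
      · exact PowerSeries.X_pow_dvd_iff.1 hdvd _ (by omega)
    rw [ht]
    exact Finset.sum_eq_zero fun b _ => by rw [h0 b, map_zero, zero_mul]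

end Pool.Agent.FCV
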