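import Pool.Agent.FCV.QC
import Pool.Agent.FCV.NLC
import Pool.Agent.FCV.CBC
import Pool.Agent.FCV.CAL
import Pool.Agent.FCV.GNN
import Pool.Agent.FCV.HT2
import Pool.Agent.FCV.DEGE
import Pool.Agent.FCV.SUB
import Pool.Agent.FCV.ANN
import Pool.Agent.FCV.MUL
import Pool.Agent.FCV.NLB
import Pool.Agent.FCV.GCD
import Pool.Agent.FCV.NFR
import Pool.Agent.FCV.NFD
import Pool.Agent.FCV.FRD
import Pool.Agent.FCV.SUP
import Pool.Agent.FCV.DIM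
import Pool.Agent.FCV.VFO
import Pool.Agent.FCV.DSC
import Pool.Agent.FCV.REV
import Pool.Agent.FCV.VFA
import Pool.Agent.FCV.IFT
import Pool.Agent.FCV.NPV
import Pool.Agent.FCV.NPN
import Pool.Agent.FCV.NPF
import Pool.Agent.FCV.BDM
import Pool.Agent.FCV.LOP
import Pool.Agent.FCV.CMB
import Pool.Agent.FCV.LS
import Pool.Agent.FCV.VFG
import Pool.Agent.FCV.GVAL
import Pool.Agent.FCV.TI
import Pool.Agent.FCV.TP
import Pool.Agent.FCV.ST1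
import Pool.Agent.FCV.DESC
import Pool.Agent.FCV.VFE
import Pool.Agent.FCV.SBC
import Pool.Agent.FCV.REG
import Pool.Agent.FCV.POW
import Pool.Agent.FCV.SCL
import Pool.Agent.FCV.COL
import Pool.Agent.FCV.ST2
import Pool.Agent.FCV.LOC
import Pool.Agent.FCV.BINC
import Pool.Agent.FCV.GLC
import Pool.Agent.FCV.GLD
import Pool.Agent.FCV.RANKC
import Pool.Agent.FCV.HOMC
import Pool.Agent.FCV.SYSFC
import Pool.Agent.FCV.STRC
import Pool.Agent.FCV.MINC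
import Pool.Agent.FCV.ZRC
import Pool.Agent.FCV.CNTC
import Pool.Agent.FCV.BC
import Pool.Agent.FCV.MOVEC
import Pool.Agent.FCV.NEARC
import Pool.Agent.FCV.STEPC
import Pool.Agent.FCV.WAC
import Pool.Agent.FCV.FINAL
import Pool.Agent.WL.ALL2

/-!
# All targets
-/

set_option autoImplicit false

namespace Pool.Agent.FCV

theorem f_QC : T_QC := p_QC
theorem f_NLC : T_NLC := p_NLC f_QC
theorem f_CBC : T_CBC := p_CBC WL.p_NS
theorem f_CAL : T_CAL := p_CAL f_CBC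
theorem f_GNN : T_GNN := p_GNN WL.p_ELIM
theorem f_HT2 : T_HT2 := p_HT2
theorem f_DEGE : T_DEGE := p_DEGE WL.p_ELIM WL.p_NS f_CBC f_QC
theorem f_SUB : T_SUB := p_SUB f_DEGE
theorem f_ANN : T_ANN := p_ANN
theorem f_MUL : T_MUL := p_MUL f_ANN
theorem f_NLB : T_NLB := p_NLB f_NLC f_SUB f_MUL
theorem f_GCD : T_GCD := p_GCD
theorem f_NFR : T_NFR := p_NFR f_ANN
theorem f_NFD : T_NFD := p_NFD f_NFR f_NLC f_NLB f_CBC f_CAL f_QC
theorem f_SUP : T_SUP := p_SUP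
theorem f_DSC : T_DSC := p_DSC WL.p_NS
theorem f_REV : T_REV := p_REV
theorem f_IFT : T_IFT := p_IFT WL.p_PAR WL.p_RES WL.p_E WL.a_NEWT
theorem f_NPV : T_NPV := p_NPV f_IFT
theorem f_NPN : T_NPN := p_NPN
theorem f_NPF : T_NPF := p_NPF
theorem f_BDM : T_BDM := p_BDM
theorem f_LOP : T_LOP := p_LOP f_BDM
theorem f_CMB : T_CMB := p_CMB f_NPN f_BDM f_LOP
theorem f_LS : T_LS := p_LS f_BDM
theorem f_VFG : T_VFG := p_VFG
theorem f_GVAL : T_GVAL := p_GVAL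
theorem f_TI : T_TI := p_TI
theorem f_TP : T_TP := p_TP
theorem f_ST1 : T_ST1 := p_ST1 f_TI f_LS f_CMB f_VFG f_GVAL f_REV f_BDM
theorem f_DESC : T_DESC := p_DESC f_ST1
theorem f_SBC : T_SBC := p_SBC
theorem f_REG : T_REG := p_REG f_NFR f_SBC
theorem f_POW : T_POW := p_POW f_SUP
theorem f_SCL : T_SCL := p_SCL
theorem f_COL : T_COL := p_COL
theorem f_ST2 : T_ST2 := p_ST2 f_REG f_POW f_SCL f_COL f_TP f_LS f_CMB f_VFG f_GVAL f_SUP
theorem f_BINC : T_BINC := p_BINC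
theorem f_GLC : T_GLC := p_GLC
theorem f_GLD : T_GLD := p_GLD
theorem f_RANKC : T_RANKC := p_RANKC
theorem f_HOMC : T_HOMC := p_HOMC
theorem f_SYSFC : T_SYSFC := p_SYSFC
theorem f_STRC : T_STRC := p_STRC f_BINC
theorem f_MINC : T_MINC := p_MINC
theorem f_ZRC : T_ZRC := p_ZRC WL.p_ORD WL.p_COMB WL.p_SPAN f_STRC
theorem f_CNTC : T_CNTC := p_CNTC WL.a_NC f_GLC
theorem f_BC : T_BC := p_BC WL.p_HT WL.p_NS WL.p_ORD WL.p_COMB f_ZRC f_SYSFC f_MINC f_CNTC f_HOMC f_BINC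
theorem f_MOVEC : T_MOVEC := p_MOVEC WL.a_PKG f_BC WL.p_COD WL.p_RES f_RANKC f_HOMC
theorem f_NEARC : T_NEARC := p_NEARC f_IFT f_GLD f_RANKC f_BINC
theorem f_FRD : T_FRD := p_FRD f_GLC
theorem f_DIM : T_DIM := p_DIM f_QC f_GNN f_GCD f_FRD f_NFD f_SUP
theorem f_VFO : T_VFO := p_VFO f_HT2 f_GCD f_NFD f_DIM
theorem f_VFA : T_VFA := p_VFA f_VFO f_DSC f_REV
theorem f_VFE : T_VFE := p_VFE f_VFA f_DESC
theorem f_LOC : T_LOC := p_LOC f_NPV f_NPF f_VFE f_ST2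
theorem f_STEPC : T_STEPC := p_STEPC WL.a_DENS WL.a_CHAIN f_LOC f_MOVEC f_NEARC WL.a_SYM WL.a_TRI WL.p_DEG WL.p_IRR
theorem f_WAC : T_WAC := p_WAC f_STEPC

end Pool.Agent.FCV
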