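import Pool.Agent.FCV.TargetsG

/-!
# Free curves on hypersurfaces: target DIM (the dimension of the cone of curves)
-/

set_option autoImplicit false

open MvPolynomial

namespace Pool.Agent.FCV

open Pool.Agent.WA (SmoothForm)

namespace DIM_

section Alg

variable {k Ω τ : Type} [Field k] [Field Ω] [Algebra k Ω]

theorem algLe_mono {z : τ → Ω} {m m' : ℕ} (h : AlgLe k z m) (hm : m ≤ m') : AlgLe k z m' := by
  obtain ⟨T, h1, h2⟩ := h
  exact ⟨T, h1.trans hm, h2⟩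

theorem algLe_zero (m : ℕ) : AlgLe k (0 : τ → Ω) m :=
  ⟨∅, by simp, fun _ => isAlgebraic_zero⟩

theorem algLe_card [Fintype τ] (z : τ → Ω) : AlgLe k z (Fintype.card τ) := by
  classical
  refine ⟨Finset.univ.image z, Finset.card_image_le, fun t => ?_⟩
  have h : z t ∈ IntermediateField.adjoin k ((Finset.univ.image z : Finset Ω) : Set Ω) :=
    IntermediateField.subset_adjoin _ _ (by simp)
  exact isAlgebraic_algebraMap (⟨z t, h⟩ : IntermediateField.adjoin k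
    ((Finset.univ.image z : Finset Ω) : Set Ω))

end Alg

theorem cut_card {κ τ : Type} [Field κ] [Fintype τ] (N : Set (τ → κ)) :
    Cut N (Fintype.card τ) := by
  classical
  refine ⟨fun s t => if t = (Fintype.equivFin τ).symm s then 1 else 0, fun z _ h => ?_⟩
  funext t
  have := h (Fintype.equivFin τ t)
  simpa using this

theorem cv_deg {A : Type} [CommRing A] {n a : ℕ} (z : Fin a × Fin (n + 1) → A)
    (i : Fin (n + 1)) : (cv z i).natDegree ≤ a - 1 := by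
  unfold cv
  refine Polynomial.natDegree_sum_le_of_forall_le _ _ fun j _ => ?_
  refine (Polynomial.natDegree_C_mul_X_pow_le _ _).trans ?_
  have := j.2
  omega

/-- the choice of the number of steps -/
theorem steps (r e μ : ℕ) (hμ : 1 ≤ μ) (he : 2 * ((r + 1) * μ) ≤ e) :
    ∃ K : ℕ, (K + 1) * μ ≤ e ∧ r * e ≤ K * ((r + 1) * μ) ∧
      (K + 1) * ((r + 1) * μ) ≤ r * e + 2 * ((r + 1) * μ) := by
  have hP : 0 < (r + 1) * μ := by positivity
  generalize hPd : (r + 1) * μ = P at *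
  have h1 : r * e / P * P ≤ r * e := Nat.div_mul_le_self _ _
  have h2 : r * e < (r * e / P + 1) * P := by
    have := Nat.lt_mul_div_succ (r * e) hP
    linarith [mul_comm P (r * e / P + 1)]
  generalize r * e / P = K0 at *
  have h3 : (K0 + 1 + 1) * P ≤ r * e + 2 * P := by
    have : (K0 + 1 + 1) * P = K0 * P + 2 * P := by ring
    omega
  refine ⟨K0 + 1, ?_, h2.le, h3⟩
  have h4 : (r + 1) * ((K0 + 1 + 1) * μ) ≤ (r + 1) * e := by
    calc (r + 1) * ((K0 + 1 + 1) * μ) = (K0 + 1 + 1) * P := by rw [← hPd]; ring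
      _ ≤ r * e + 2 * P := h3
      _ ≤ r * e + e := by omega
      _ = (r + 1) * e := by ring
  exact Nat.le_of_mul_le_mul_left h4 (by omega)

/-- case (i) -/
theorem ar1 (r θ e c D : ℕ) (hθ : 1 ≤ θ) (h : D + ((r + 2) * e + 1) ≤ (θ + (r + 2)) * (e + 1) + c)
    (hD : ((r + 2) * θ + 1) * (e + 1 + c) < (r + 2) * D) : e + 1 + c < (r + 2) ^ 2 := by
  have h1 := Nat.mul_le_mul_left (r + 2) h
  have h2 : (r + 2) * 1 * c ≤ (r + 2) * θ * c :=
    Nat.mul_le_mul_right c (Nat.mul_le_mul_left (r + 2) hθ)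
  nlinarith

/-- case (ii) -/
theorem ar2 (r θ e c D : ℕ) (hθ : 1 ≤ θ) (h : D ≤ (e + 1) * (θ + (r + 2)) + c)
    (hD : ((r + 2) * θ + 1) * (e + 1 + c) < (r + 2) * D) :
    e + 1 + c < (r + 2) ^ 2 * (e + 1) := by
  have h1 := Nat.mul_le_mul_left (r + 2) h
  have h2 : (r + 2) * 1 * c ≤ (r + 2) * θ * c :=
    Nat.mul_le_mul_right c (Nat.mul_le_mul_left (r + 2) hθ)
  nlinarith

/-- case (iii) -/
theorem ar3 (r q e c D M K μ : ℕ) (hq : (r + 1) * (r + 2) ^ 2 + r + 3 ≤ q)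
    (hM : (r + 2) * M ≤ (q + 1) * μ)
    (hK : (K + 1) * ((r + 1) * μ) ≤ r * e + 2 * ((r + 1) * μ))
    (h : D ≤ (r + 2) * e + (K + 1) * M + c)
    (hD : q * (e + 1 + c) ≤ (r + 2) * D) : e + c ≤ 2 * (q + 1) * ((r + 1) * μ) := by
  have h1 : (r + 1) * (q * (e + 1 + c)) ≤
      (r + 1) * ((r + 2) * ((r + 2) * e + (K + 1) * M + c)) :=
    Nat.mul_le_mul_left _ (hD.trans (Nat.mul_le_mul_left _ h))
  have h2 : (r + 1) * (K + 1) * ((r + 2) * M) ≤ (r + 1) * (K + 1) * ((q + 1) * μ) :=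
    Nat.mul_le_mul_left _ hM
  have h3 : (q + 1) * ((K + 1) * ((r + 1) * μ)) ≤ (q + 1) * (r * e + 2 * ((r + 1) * μ)) :=
    Nat.mul_le_mul_left _ hK
  obtain ⟨q', rfl⟩ := Nat.exists_eq_add_of_le hq
  have h4 : (r + 1) * (((r + 1) * (r + 2) ^ 2 + r + 3 + q') * (e + 1 + c)) ≤
      (r + 1) * (r + 2) ^ 2 * e + (r + 1) * (r + 2) * c +
        ((r + 1) * (r + 2) ^ 2 + r + 3 + q' + 1) * (r * e) +
        2 * ((r + 1) * (r + 2) ^ 2 + r + 3 + q' + 1) * ((r + 1) * μ) := by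
    nlinarith
  have h5 : e + c + ((r + 1) * (r + 2) ^ 2 * e + (r + 1) * (r + 2) * c +
        ((r + 1) * (r + 2) ^ 2 + r + 3 + q' + 1) * (r * e)) ≤
      (r + 1) * (((r + 1) * (r + 2) ^ 2 + r + 3 + q') * (e + 1 + c)) := by
    have h6 : (r + 1) * (((r + 1) * (r + 2) ^ 2 + r + 3 + q') * (e + 1 + c)) =
        e + c + ((r + 1) * (r + 2) ^ 2 * e + (r + 1) * (r + 2) * c +
        ((r + 1) * (r + 2) ^ 2 + r + 3 + q' + 1) * (r * e)) +
        ((2 + q') * e + ((r + 1) ^ 2 * (r + 2) ^ 2 + r + (r + 1) * q') * c +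
          (r + 1) * ((r + 1) * (r + 2) ^ 2 + r + 3 + q')) := by
      ring
    rw [h6]
    exact Nat.le_add_right _ _
  have h7 := h5.trans h4
  linarith

end DIM_

/-- The dimension of the cone of curves. -/
theorem p_DIM (hQC : T_QC) (hGNN : T_GNN) (hGCD : T_GCD) (hFRD : T_FRD) (hNFD : T_NFD)
    (hSUP : T_SUP) : T_DIM := by
  intro κ _ _ n d F hd hdn hF hS
  by_contra hcon
  push Not at hcon
  classical
  have hex : ∀ a, ∃ m, Cut (Qset F a) m := fun a => ⟨_, DIM_.cut_card _⟩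
  obtain ⟨D, hD, hDmin⟩ : ∃ D : ℕ → ℕ, (∀ a, Cut (Qset F a) (D a)) ∧
      ∀ a m, m < D a → ¬ Cut (Qset F a) m :=
    ⟨fun a => Nat.find (hex a), fun a => Nat.find_spec (hex a),
      fun a m h => Nat.find_min (hex a) h⟩
  have hq : ∃ q, ∃ μ, 1 ≤ μ ∧ d * D μ < (q + 1) * μ := ⟨d * D 1, 1, le_rfl, by omega⟩
  obtain ⟨q, ⟨μ, hμ, hμq⟩, hqa⟩ : ∃ q, (∃ μ, 1 ≤ μ ∧ d * D μ < (q + 1) * μ) ∧
      ∀ a, 1 ≤ a → q * a ≤ d * D a := by
    refine ⟨Nat.find hq, Nat.find_spec hq, fun a ha => ?_⟩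
    rcases Nat.eq_zero_or_pos (Nat.find hq) with h | h
    · rw [h]
      simp
    · by_contra hlt
      push Not at hlt
      refine Nat.find_min hq (m := Nat.find hq - 1) (by omega) ⟨a, ha, ?_⟩
      rwa [Nat.sub_add_cancel h]
  obtain ⟨r, rfl⟩ : ∃ r, d = r + 2 := ⟨d - 2, by omega⟩
  obtain ⟨θ, hθ⟩ : ∃ θ, n + 1 = θ + (r + 2) := ⟨n + 1 - (r + 2), by nlinarith [Nat.sub_add_cancel (show r + 2 ≤ n + 1 by nlinarith)]⟩
  have hθ' : n + 1 - (r + 2) = θ := by omega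
  rw [hθ'] at hcon
  have hθ1 : (r + 2) * (r + 1) + 1 ≤ θ := by nlinarith
  have hθ2 : 1 ≤ θ := by nlinarith
  have hqθ : (r + 2) * θ + 1 ≤ q := by
    have h1 := (hcon μ (D μ) hμ (hD μ)).trans hμq
    have h2 := lt_of_mul_lt_mul_right h1 (Nat.zero_le μ)
    omega
  have hq' : (r + 1) * (r + 2) ^ 2 + r + 3 ≤ q := by
    have h1 := Nat.mul_le_mul_left (r + 2) hθ1
    nlinarith
  -- the step for one `a`
  have key : ∀ a, 1 ≤ a → ∃ e c : ℕ, a = e + 1 + c ∧
      (D a + ((r + 2) * e + 1) ≤ (θ + (r + 2)) * (e + 1) + c ∨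
        (e < 2 * ((r + 1) * μ) ∧ D a ≤ (e + 1) * (θ + (r + 2)) + c) ∨
        ∃ K, (K + 1) * ((r + 1) * μ) ≤ r * e + 2 * ((r + 1) * μ) ∧
          D a ≤ (r + 2) * e + (K + 1) * D μ + c) := by
    intro a ha
    have hDa : 1 ≤ D a := by
      have h1 := hcon a (D a) ha (hD a)
      by_contra h2
      have h3 : D a = 0 := by omega
      rw [h3] at h1
      omega
    obtain ⟨m, h, e, hh, hz⟩ := hQC κ n (r + 2) a F hF
    have hset : Qset F a = {z : Fin a × Fin (n + 1) → κ | ∀ i, eval z (h i) = 0} := by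
      ext z
      have h1 := hz κ z
      rw [Algebra.algebraMap_self, MvPolynomial.map_id] at h1
      exact h1.symm
    have hnc := hDmin a (D a - 1) (by omega)
    rw [hset] at hnc
    obtain ⟨Ω, _, _, _, z, hz0, hzA⟩ := hGNN κ _ (D a - 1) m h e hh hnc
    have hzne : z ≠ 0 := by
      rintro rfl
      exact hzA (DIM_.algLe_zero _)
    have hzF := (hz Ω z).1 hz0
    obtain ⟨a', z', ha1, haa, hz'F, hbp, htop, hAl, -⟩ := hGCD κ Ω n (r + 2) a F z hF hzne hzF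
    have hDle : ∀ m, AlgLe κ z' m → D a ≤ m + (a - a') := by
      intro m hm
      by_contra hlt
      push Not at hlt
      exact hzA (DIM_.algLe_mono (hAl m hm) (by omega))
    obtain ⟨e', rfl⟩ : ∃ e', a' = e' + 1 := ⟨a' - 1, by omega⟩
    refine ⟨e', a - (e' + 1), by omega, ?_⟩
    rw [Nat.add_sub_cancel] at htop
    by_cases hs1 : Sur (F.map (algebraMap κ Ω)) (cv z') (e' + 1) ((r + 2) * (e' + 1 - 1) + 1)
    · left
      obtain ⟨m', h1, h2⟩ := hFRD κ Ω n (r + 2) (e' + 1) F z' (by omega) hF hz'F hs1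
      have h3 := hDle m' h1
      rw [hθ, Nat.add_sub_cancel] at h2
      omega
    · right
      by_cases hlt : e' < 2 * ((r + 1) * μ)
      · left
        refine ⟨hlt, ?_⟩
        have h1 := hDle _ (DIM_.algLe_card z')
        rw [Fintype.card_prod, Fintype.card_fin, Fintype.card_fin, hθ] at h1
        exact h1
      · right
        push Not at hlt
        have hP : 1 ≤ (r + 1) * μ := Nat.mul_pos (by omega) hμ
        obtain ⟨K, hK1, hK2, hK3⟩ := DIM_.steps r e' μ hμ hlt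
        refine ⟨K, hK3, ?_⟩
        have hFm : (F.map (algebraMap κ Ω)).IsHomogeneous (r + 2) := hF.map _
        have hs2 : ¬ Sur (F.map (algebraMap κ Ω)) (cv z') e' ((r + 2) * e') := by
          intro h1
          have h2 := (hSUP Ω n (r + 2) e' (F.map (algebraMap κ Ω)) (cv z') (by omega) hFm
            (fun i => by simpa using DIM_.cv_deg z' i)).2 (by omega) h1
          exact hs1 h2
        have e1 : (r + 2 - 1) * (e' + 1 - 1) + e' = (r + 2) * e' := by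
          rw [Nat.add_sub_cancel, show r + 2 - 1 = r + 1 from rfl]
          ring
        have h1 := hNFD κ n (r + 2) F hd hF hS μ (D μ) (e' + 1) e' (K + 1) hμ (hD μ) (by omega)
          (by omega) ?_ ?_ Ω z' hz'F hbp (by rw [Nat.add_sub_cancel]; exact htop)
          (by rw [e1]; exact hs2)
        · rw [e1] at h1
          have h2 := hDle _ h1
          omega
        · rw [Nat.add_sub_cancel, show r + 2 - 1 = r + 1 from rfl, Nat.mul_sub]
          have h2 : r * e' ≤ (r + 1) * ((K + 1) * μ) := by nlinarith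
          have h3 : (r + 1) * e' = r * e' + e' := by ring
          omega
        · rw [Nat.add_sub_cancel, Nat.add_sub_cancel, show r + 2 - 1 = r + 1 from rfl]
          have h3 : (r + 1) * e' = r * e' + e' := by ring
          omega
  -- a large `a`
  obtain ⟨e, c, hac, hcase⟩ := key ((r + 2) ^ 2 * (2 * ((r + 1) * μ)) + (r + 2) ^ 2 +
    2 * (q + 1) * ((r + 1) * μ) + 2) (by omega)
  have hDb := hcon _ _ (show 1 ≤ (r + 2) ^ 2 * (2 * ((r + 1) * μ)) + (r + 2) ^ 2 +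
    2 * (q + 1) * ((r + 1) * μ) + 2 by omega) (hD ((r + 2) ^ 2 * (2 * ((r + 1) * μ)) +
      (r + 2) ^ 2 + 2 * (q + 1) * ((r + 1) * μ) + 2))
  have hDq := hqa _ (show 1 ≤ (r + 2) ^ 2 * (2 * ((r + 1) * μ)) + (r + 2) ^ 2 +
    2 * (q + 1) * ((r + 1) * μ) + 2 by omega)
  generalize D ((r + 2) ^ 2 * (2 * ((r + 1) * μ)) + (r + 2) ^ 2 +
    2 * (q + 1) * ((r + 1) * μ) + 2) = Da at *
  rw [hac] at hDb hDq
  rcases hcase with h1 | ⟨h1, h2⟩ | ⟨K, h1, h2⟩
  · have h3 := DIM_.ar1 r θ e c Da hθ2 h1 hDb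
    omega
  · have h3 := DIM_.ar2 r θ e c Da hθ2 h2 hDb
    have h4 : (r + 2) ^ 2 * (e + 1) ≤ (r + 2) ^ 2 * (2 * ((r + 1) * μ)) :=
      Nat.mul_le_mul_left _ (by omega)
    omega
  · have h3 := DIM_.ar3 r q e c Da (D μ) K μ hq' hμq.le h1 h2 hDq
    omega

end Pool.Agent.FCV
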