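import Pool.Agent.WL.Targets2

/-!
# Free curves on hypersurfaces and weak approximation: definitions
-/

set_option autoImplicit false

open MvPolynomial

namespace Pool.Agent.FCV

section Curves

variable {σ A B : Type} [CommRing A] [CommRing B]

/-- The polynomial `F (f)`, for a vector `f` of polynomials. -/
noncomputable def onC (F : MvPolynomial σ A) (f : σ → Polynomial A) : Polynomial A :=
  eval₂ Polynomial.C f F

theorem onC_map (φ : A →+* B) (F : MvPolynomial σ A) (f : σ → Polynomial A) :
    onC (F.map φ) (fun i => (f i).map φ) = (onC F f).map φ := by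
  unfold onC
  rw [eval₂_map]
  have h := MvPolynomial.eval₂_comp_left (Polynomial.mapRingHom φ) (Polynomial.C : A →+* _)
    f F
  rw [← Polynomial.coe_mapRingHom, h]
  congr 1
  ext a
  simp

theorem onLine_eq_onC (F : MvPolynomial σ A) (x w : σ → A) :
    WL.onLine F x w =
      onC F (fun i => Polynomial.C (x i) + Polynomial.X * Polynomial.C (w i)) := rfl

/-- Multiplication by the gradient of `F` along `f` maps the vectors of polynomials of degree
less than `a` onto the polynomials of degree less than `b`. -/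
def Sur [Fintype σ] (F : MvPolynomial σ A) (f : σ → Polynomial A) (a b : ℕ) : Prop :=
  ∀ H : Polynomial A, H.degree < b → ∃ u : σ → Polynomial A, (∀ i, (u i).degree < a) ∧
    ∑ i, u i * onC (pderiv i F) f = H

/-- A very free curve of degree `e` on the hypersurface `F = 0` with value `x` at `0`. -/
structure VF [Fintype σ] (F : MvPolynomial σ A) (d : ℕ) (x : σ → A) (e : ℕ)
    (f : σ → Polynomial A) : Prop where
  two : 2 ≤ e
  deg : ∀ i, (f i).natDegree ≤ e
  zero : onC F f = 0
  pt : ∀ i, (f i).coeff 0 = x i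
  sur : Sur F f (e - 1) (d * e - 1)

/-- A free curve of degree `e` on the hypersurface `F = 0` from `x` (at `0`) to `y` (at
infinity). -/
structure FC [Fintype σ] (F : MvPolynomial σ A) (d : ℕ) (x y : σ → A) (e : ℕ)
    (f : σ → Polynomial A) : Prop where
  one : 1 ≤ e
  deg : ∀ i, (f i).natDegree ≤ e
  zero : onC F f = 0
  pt : ∀ i, (f i).coeff 0 = x i
  top : ∀ i, (f i).coeff e = y i
  sur : Sur F f e (d * e)

/-- The vector of polynomials of degree less than `a` with given coefficients. -/
noncomputable def cv {n a : ℕ} (z : Fin a × Fin (n + 1) → A) (i : Fin (n + 1)) : Polynomial A :=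
  ∑ j : Fin a, Polynomial.C (z (j, i)) * Polynomial.X ^ (j : ℕ)

/-- The coefficient vectors of the curves of degree less than `a` in the cone `F = 0`. -/
def Qset {n : ℕ} (F : MvPolynomial (Fin (n + 1)) A) (a : ℕ) :
    Set (Fin a × Fin (n + 1) → A) :=
  {z | onC F (cv z) = 0}

/-- The Jacobian matrix of the first `d * E` coefficients of `F (f)` with respect to the first `E`
coefficients of `f`. -/
noncomputable def cmat (F : MvPolynomial σ A) (d E : ℕ) (f : σ → Polynomial A) :
    Matrix (Fin (d * E)) (Fin E × σ) A :=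
  fun l p => (onC (pderiv p.2 F) f * Polynomial.X ^ (p.1 : ℕ)).coeff l

/-- The minors of the matrix `cmat`. -/
noncomputable def cminor (F : MvPolynomial σ A) (d E : ℕ) (f : σ → Polynomial A)
    (S : Fin (d * E) → Fin E × σ) : A :=
  ((cmat F d E f).submatrix id S).det

end Curves

section Cones

/-- A closed cone. -/
def ACone {κ τ : Type} [Field κ] (N : Set (τ → κ)) : Prop :=
  ∃ (m : ℕ) (h : Fin m → MvPolynomial τ κ) (e : Fin m → ℕ), (∀ i, (h i).IsHomogeneous (e i)) ∧
    ∀ z, z ∈ N ↔ ∀ i, eval z (h i) = 0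

/-- The cone `N` meets some linear subspace of codimension `m` only in `0`. -/
def Cut {κ τ : Type} [Field κ] [Fintype τ] (N : Set (τ → κ)) (m : ℕ) : Prop :=
  ∃ l : Fin m → τ → κ, ∀ z ∈ N, (∀ s, ∑ t, l s t * z t = 0) → z = 0

/-- The coordinates of `z` are algebraic over a field generated by `m` elements. -/
def AlgLe (k : Type) {Ω τ : Type} [Field k] [Field Ω] [Algebra k Ω] (z : τ → Ω) (m : ℕ) : Prop :=
  ∃ T : Finset Ω, T.card ≤ m ∧
    ∀ t, IsAlgebraic (IntermediateField.adjoin k (T : Set Ω)) (z t)

variable {κ : Type} [Field κ]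

/-- No polynomial `G ≠ 0` of degree at most `c` satisfies `lam (G * h) = 0` for all `h` such that
`G * h` has degree less than `N`. -/
def Nondeg (lam : Polynomial κ →ₗ[κ] κ) (N c : ℕ) : Prop :=
  ∀ G : Polynomial κ, G.natDegree ≤ c →
    (∀ h : Polynomial κ, h.degree < ((N - c : ℕ) : WithBot ℕ) → lam (G * h) = 0) → G = 0

/-- The curves of degree less than `a` whose gradients are killed by the functional. -/
def NL {n : ℕ} (F : MvPolynomial (Fin (n + 1)) κ) (lam : Polynomial κ →ₗ[κ] κ) (a b : ℕ) :
    Set (Fin a × Fin (n + 1) → κ) :=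
  {z | onC F (cv z) = 0 ∧ ∀ i, ∀ h : Polynomial κ, h.degree < (b : WithBot ℕ) →
    lam (h * onC (pderiv i F) (cv z)) = 0}

end Cones

end Pool.Agent.FCV
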