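import Pool.Agent.FCV.Defs
import Pool.Agent.WL.Targets2

/-!
# Free curves on hypersurfaces and weak approximation: definitions, part 2
-/

set_option autoImplicit false

open MvPolynomial

namespace Pool.Agent.FCV

section Large

/-- Systems of polynomial equations with a smooth solution for the parameter `0` have solutions
for other parameters. -/
def NP (E : Type) [Field E] : Prop :=
  ∀ (ι J : Type) [Fintype ι] [Fintype J] (Φ : J → MvPolynomial (Option ι) E)
    (D : MvPolynomial (Option ι) E) (z₀ : ι → E),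
    (∀ j, eval (fun o : Option ι => o.elim 0 z₀) (Φ j) = 0) →
    eval (fun o : Option ι => o.elim 0 z₀) D ≠ 0 →
    (∀ w : J → E, ∃ u : ι → E, ∀ j,
      ∑ i, u i * eval (fun o : Option ι => o.elim 0 z₀) (pderiv (some i) (Φ j)) = w j) →
    ∃ (θ : E) (z : ι → E), θ ≠ 0 ∧ (∀ j, eval (fun o : Option ι => o.elim θ z) (Φ j) = 0) ∧
      eval (fun o : Option ι => o.elim θ z) D ≠ 0

/-- The same for systems that are given as natural functions. -/
def NPN (E : Type) [Field E] : Prop :=
  ∀ (ι J : Type) [Fintype ι] [Fintype J]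
    (Ψ : ∀ (B : Type) [CommRing B] [Algebra E B], B → (ι → B) → J → B)
    (D : ∀ (B : Type) [CommRing B] [Algebra E B], B → (ι → B) → B),
    (∀ (B B' : Type) [CommRing B] [CommRing B'] [Algebra E B] [Algebra E B'] (φ : B →ₐ[E] B')
      (θ : B) (z : ι → B) (j : J), Ψ B' (φ θ) (fun i => φ (z i)) j = φ (Ψ B θ z j)) →
    (∀ (B B' : Type) [CommRing B] [CommRing B'] [Algebra E B] [Algebra E B'] (φ : B →ₐ[E] B')
      (θ : B) (z : ι → B), D B' (φ θ) (fun i => φ (z i)) = φ (D B θ z)) →
    ∀ z₀ : ι → E, (∀ j, Ψ E 0 z₀ j = 0) → D E 0 z₀ ≠ 0 →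
    (∀ w : J → E, ∃ u : ι → E, ∀ j, Ψ (DualNumber E) 0
      (fun i => TrivSqZeroExt.inl (z₀ i) + TrivSqZeroExt.inr (u i)) j =
        TrivSqZeroExt.inr (w j)) →
    ∃ (θ : E) (z : ι → E), θ ≠ 0 ∧ (∀ j, Ψ E θ z j = 0) ∧ D E θ z ≠ 0

end Large

section Combs

variable {σ A B : Type} [CommRing A] [CommRing B]

/-- Bounds for the degrees of a polynomial in two variables. -/
def BD (P : Polynomial (Polynomial A)) (E s ρ : ℕ) : Prop :=
  P.natDegree ≤ E ∧ ∀ i, (P.coeff i).natDegree ≤ s + i * ρ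

/-- The bounds for the coefficients of the right hand sides. -/
def Ds (d c ρ s1 i : ℕ) : ℕ := (d - 1) * c + (i + 1) * ρ + s1

/-- Surjectivity of the linearisation of the system for combs. The first variable is the
coordinate of the handle, the second variable is the coordinate of the teeth. -/
def LSur [Fintype σ] (F : MvPolynomial σ A) (d c ρ e s1 : ℕ) (m : Polynomial A) (θ : A)
    (g : σ → Polynomial (Polynomial A)) : Prop :=
  ∀ H : Polynomial (Polynomial A), H.degree < ((d * e : ℕ) : WithBot ℕ) →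
    (∀ i, (H.coeff i).degree < ((Ds d c ρ s1 i : ℕ) : WithBot ℕ)) →
    ∃ (u : σ → Polynomial (Polynomial A)) (Q : Polynomial (Polynomial A)),
      (∀ i, (u i).degree < (e : WithBot ℕ)) ∧
      (∀ i, ((u i).coeff 0).degree < ((ρ + s1 : ℕ) : WithBot ℕ)) ∧
      (∀ i j, 1 ≤ j → ((u i).coeff j).degree < ((ρ + 1 : ℕ) : WithBot ℕ)) ∧
      Q.degree < ((d * e - 1 : ℕ) : WithBot ℕ) ∧
      (∀ i, (Q.coeff i).degree < ((Ds d c ρ s1 i - 1 : ℕ) : WithBot ℕ)) ∧
      ∑ i, u i * onC (pderiv i (F.map Polynomial.C)) g -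
        (Polynomial.C m * Polynomial.X - Polynomial.C (Polynomial.C θ)) * Q = H

/-- The family `f₀ + X ^ c * ∑ N j * Y ^ (j + 1)`. -/
noncomputable def cg (c e : ℕ) (f₀ : σ → Polynomial A) (N : Fin e → σ → Polynomial A) (i : σ) :
    Polynomial (Polynomial A) :=
  Polynomial.C (f₀ i) +
    ∑ j : Fin e, Polynomial.C (Polynomial.X ^ c * N j i) * Polynomial.X ^ ((j : ℕ) + 1)

/-- The curve `m ^ e * g (X, θ / m)`. -/
noncomputable def cG (m : Polynomial A) (θ : A) (e : ℕ) (g : σ → Polynomial (Polynomial A))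
    (i : σ) : Polynomial A :=
  ∑ j ∈ Finset.range (e + 1), Polynomial.C (θ ^ j) * (g i).coeff j * m ^ (e - j)

end Combs

section Moving

variable {σ : Type}

/-- The curve with given coefficients. -/
noncomputable def crv {A : Type} [CommRing A] {E : ℕ} (ψ : Fin E → σ → A) (η : σ → A) (i : σ) :
    Polynomial A :=
  ∑ j : Fin E, Polynomial.C (ψ j i) * Polynomial.X ^ (j : ℕ) +
    Polynomial.C (η i) * Polynomial.X ^ E

/-- The refined system for curves of degree `E`. -/
def SysC {A : Type} [CommRing A] (F : MvPolynomial σ (PowerSeries A)) (d E N : ℕ)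
    (ψ : Fin E → σ → PowerSeries A) (q : PowerSeries A) (φ : σ → PowerSeries A) : Prop :=
  ∃ (η : σ → PowerSeries A) (B : ℕ → PowerSeries A),
    (∀ i, φ i = ∑ j : Fin E, q ^ (E - (j : ℕ)) * PowerSeries.X ^ ((j : ℕ) * N) * ψ j i +
      PowerSeries.X ^ (E * N) * η i) ∧
    (onC F (crv ψ η)).coeff 0 = PowerSeries.X ^ N * B 0 ∧
    ∀ j, j + 1 < d * E → (onC F (crv ψ η)).coeff (j + 1) = PowerSeries.X ^ N * B (j + 1) - q * B j

/-- The unknowns of the refined system. -/
abbrev IdxC (n E N M : ℕ) : Type :=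
  (Fin E × Fin (n + 1) × Fin N) ⊕ (Fin N ⊕ (Fin (n + 1) × Fin M))

variable {n E N M : ℕ}

/-- The arcs. -/
noncomputable def psC {A : Type} [CommRing A] (z : IdxC n E N M → A) (j : Fin E)
    (i : Fin (n + 1)) : PowerSeries A :=
  PowerSeries.mk fun a => if h : a < N then z (Sum.inl (j, i, ⟨a, h⟩)) else 0

/-- The factor. -/
noncomputable def qC {A : Type} [CommRing A] (z : IdxC n E N M → A) : PowerSeries A :=
  PowerSeries.mk fun a => if h : a < N then z (Sum.inr (Sum.inl ⟨a, h⟩)) else 0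

/-- The section. -/
noncomputable def phiC {k A : Type} [CommRing k] [CommRing A] [Algebra k A]
    (e : Fin M → PowerSeries k) (z : IdxC n E N M → A) (i : Fin (n + 1)) : PowerSeries A :=
  ∑ b, PowerSeries.C (z (Sum.inr (Sum.inr (i, b)))) * PowerSeries.map (algebraMap k A) (e b)

/-- The last coefficient of the curve. -/
noncomputable def etaC {k A : Type} [CommRing k] [CommRing A] [Algebra k A]
    (e : Fin M → PowerSeries k) (z : IdxC n E N M → A) (i : Fin (n + 1)) : PowerSeries A :=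
  PowerSeries.mk fun a => PowerSeries.coeff (a + E * N) (phiC e z i -
    ∑ j : Fin E, qC z ^ (E - (j : ℕ)) * PowerSeries.X ^ ((j : ℕ) * N) * psC z j i)

end Moving

section Naturality

variable {σ A B : Type} [CommRing A] [CommRing B]

theorem crv_map (φ : A →+* B) {E : ℕ} (ψ : Fin E → σ → A) (η : σ → A) (i : σ) :
    crv (fun j i => φ (ψ j i)) (fun i => φ (η i)) i = (crv ψ η i).map φ := by
  simp [crv, Polynomial.map_sum]

theorem cmat_map (φ : A →+* B) (F : MvPolynomial σ A) (d E : ℕ) (f : σ → Polynomial A) :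
    cmat (F.map φ) d E (fun i => (f i).map φ) = (cmat F d E f).map φ := by
  ext l p
  simp only [cmat, Matrix.map_apply]
  rw [pderiv_map, onC_map, ← Polynomial.coeff_map, Polynomial.map_mul, Polynomial.map_pow,
    Polynomial.map_X]

theorem cminor_map (φ : A →+* B) (F : MvPolynomial σ A) (d E : ℕ) (f : σ → Polynomial A)
    (S : Fin (d * E) → Fin E × σ) :
    cminor (F.map φ) d E (fun i => (f i).map φ) S = φ (cminor F d E f S) := by
  unfold cminor
  rw [cmat_map, RingHom.map_det]
  rfl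

end Naturality

end Pool.Agent.FCV
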