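import Pool.Agent.FCV.TargetsM

/-!
# Coefficients of minors are polynomials in the unknowns
-/

set_option autoImplicit false

open MvPolynomial
open Pool.Agent.WL

namespace Pool.Agent.FCV

namespace MINC_

variable {n E N M : ℕ} {k A B : Type} [CommRing k] [CommRing A] [CommRing B] [Algebra k A]
  [Algebra k B]

theorem map_psC (φ : A →+* B) (z : IdxC n E N M → A) (j : Fin E) (i : Fin (n + 1)) :
    PowerSeries.map φ (psC z j i) = psC (fun x => φ (z x)) j i := by
  ext a
  rw [PowerSeries.coeff_map, psC, psC, PowerSeries.coeff_mk, PowerSeries.coeff_mk]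
  by_cases h : a < N
  · rw [dif_pos h, dif_pos h]
  · rw [dif_neg h, dif_neg h, map_zero]

theorem map_qC (φ : A →+* B) (z : IdxC n E N M → A) :
    PowerSeries.map φ (qC z) = qC (fun x => φ (z x)) := by
  ext a
  rw [PowerSeries.coeff_map, qC, qC, PowerSeries.coeff_mk, PowerSeries.coeff_mk]
  by_cases h : a < N
  · rw [dif_pos h, dif_pos h]
  · rw [dif_neg h, dif_neg h, map_zero]

theorem map_map_alg (φ : A →ₐ[k] B) (f : PowerSeries k) :
    PowerSeries.map (φ : A →+* B) (PowerSeries.map (algebraMap k A) f) =
      PowerSeries.map (algebraMap k B) f := by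
  ext a
  simp

theorem map_phiC (φ : A →ₐ[k] B) (e : Fin M → PowerSeries k) (z : IdxC n E N M → A)
    (i : Fin (n + 1)) :
    PowerSeries.map (φ : A →+* B) (phiC e z i) = phiC e (fun x => φ (z x)) i := by
  rw [phiC, phiC, map_sum]
  apply Finset.sum_congr rfl
  intro b _
  rw [map_mul, PowerSeries.map_C, map_map_alg]
  rfl

theorem map_etaC (φ : A →ₐ[k] B) (e : Fin M → PowerSeries k) (z : IdxC n E N M → A)
    (i : Fin (n + 1)) :
    PowerSeries.map (φ : A →+* B) (etaC e z i) = etaC e (fun x => φ (z x)) i := by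
  ext a
  rw [PowerSeries.coeff_map, etaC, etaC, PowerSeries.coeff_mk, PowerSeries.coeff_mk,
    ← PowerSeries.coeff_map, map_sub, map_phiC, map_sum]
  congr 2
  apply Finset.sum_congr rfl
  intro j _
  rw [map_mul, map_mul, map_pow, map_pow, map_psC, map_qC, PowerSeries.map_X]
  rfl

theorem map_minor (φ : A →ₐ[k] B) (d : ℕ) (F : MvPolynomial (Fin (n + 1)) (PowerSeries k))
    (e : Fin M → PowerSeries k) (S : Fin (d * E) → Fin E × Fin (n + 1))
    (z : IdxC n E N M → A) :
    PowerSeries.map (φ : A →+* B) (cminor (F.map (PowerSeries.map (algebraMap k A))) d E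
      (crv (psC z) (etaC e z)) S) = cminor (F.map (PowerSeries.map (algebraMap k B))) d E
      (crv (psC fun x => φ (z x)) (etaC e fun x => φ (z x))) S := by
  rw [← cminor_map, MvPolynomial.map_map]
  have h2 : (PowerSeries.map (φ : A →+* B)).comp (PowerSeries.map (algebraMap k A)) =
      PowerSeries.map (algebraMap k B) := by
    ext s : 1
    exact map_map_alg φ s
  have h3 : (fun j i => PowerSeries.map (φ : A →+* B) (psC z j i)) =
      psC (n := n) (E := E) fun x => φ (z x) := by
    funext j i
    exact map_psC (φ : A →+* B) z j i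
  have h4 : (fun i => PowerSeries.map (φ : A →+* B) (etaC e z i)) =
      etaC (n := n) (E := E) e fun x => φ (z x) := by
    funext i
    exact map_etaC φ e z i
  have h5 : (fun i => (crv (psC z) (etaC e z) i).map (PowerSeries.map (φ : A →+* B))) =
      crv (psC fun x => φ (z x)) (etaC e fun x => φ (z x)) := by
    funext i
    rw [← crv_map, h3, h4]
  rw [h2, h5]

theorem coeff_minor (φ : A →ₐ[k] B) (d c : ℕ) (F : MvPolynomial (Fin (n + 1)) (PowerSeries k))
    (e : Fin M → PowerSeries k) (S : Fin (d * E) → Fin E × Fin (n + 1))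
    (z : IdxC n E N M → A) (z' : IdxC n E N M → B) (hz : ∀ j, φ (z j) = z' j) :
    φ (PowerSeries.coeff c (cminor (F.map (PowerSeries.map (algebraMap k A))) d E
      (crv (psC z) (etaC e z)) S)) = PowerSeries.coeff c
      (cminor (F.map (PowerSeries.map (algebraMap k B))) d E
        (crv (psC z') (etaC e z')) S) := by
  have hz' : (fun j => φ (z j)) = z' := funext hz
  rw [← hz', ← map_minor, PowerSeries.coeff_map]
  rfl

end MINC_

open MINC_ in
theorem p_MINC : T_MINC := by
  intro k _ n d E N M c F e S
  refine ⟨PowerSeries.coeff c (cminor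
    (F.map (PowerSeries.map (algebraMap k (MvPolynomial (IdxC n E N M) k)))) d E
    (crv (psC fun j => (X j : MvPolynomial (IdxC n E N M) k))
      (etaC e fun j => (X j : MvPolynomial (IdxC n E N M) k))) S), fun L _ _ z => ?_⟩
  exact coeff_minor (aeval z) d c F e S (fun j => (X j : MvPolynomial (IdxC n E N M) k)) z
    (fun j => aeval_X z j)

end Pool.Agent.FCV
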