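import Pool.Agent.FCV.TargetsG

/-!
# The cone of curves is closed
-/

set_option autoImplicit false

open MvPolynomial

namespace Pool.Agent.FCV

namespace QC_

variable {τ A : Type} [CommRing A]

/-- All coefficients are forms of degree `e`. -/
def Hd (g : Polynomial (MvPolynomial τ A)) (e : ℕ) : Prop := ∀ l, (g.coeff l).IsHomogeneous e

lemma hd_sum {ι : Type} (s : Finset ι) (g : ι → Polynomial (MvPolynomial τ A)) (e : ℕ)
    (h : ∀ i ∈ s, Hd (g i) e) : Hd (∑ i ∈ s, g i) e := by
  intro l
  rw [Polynomial.finsetSum_coeff]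
  exact IsHomogeneous.sum _ _ _ fun i hi => h i hi l

lemma hd_mul {g h : Polynomial (MvPolynomial τ A)} {e e' : ℕ} (hg : Hd g e) (hh : Hd h e') :
    Hd (g * h) (e + e') := by
  intro l
  rw [Polynomial.coeff_mul]
  exact IsHomogeneous.sum _ _ _ fun p _ => (hg p.1).mul (hh p.2)

lemma hd_C (a : A) : Hd (Polynomial.C (C a : MvPolynomial τ A)) 0 := by
  intro l
  rw [Polynomial.coeff_C]
  split_ifs with hl
  · exact isHomogeneous_C τ a
  · exact isHomogeneous_zero τ A 0

lemma hd_one : Hd (1 : Polynomial (MvPolynomial τ A)) 0 := by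
  have h := hd_C (τ := τ) (1 : A)
  rwa [map_one, map_one] at h

lemma hd_pow {g : Polynomial (MvPolynomial τ A)} {e : ℕ} (hg : Hd g e) (m : ℕ) :
    Hd (g ^ m) (m * e) := by
  induction m with
  | zero =>
    rw [pow_zero, zero_mul]
    exact hd_one
  | succ m ih =>
    rw [pow_succ, Nat.succ_mul]
    exact hd_mul ih hg

lemma hd_prod {ι : Type} (s : Finset ι) (g : ι → Polynomial (MvPolynomial τ A)) (e : ι → ℕ)
    (h : ∀ i ∈ s, Hd (g i) (e i)) : Hd (∏ i ∈ s, g i) (∑ i ∈ s, e i) := by
  classical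
  induction s using Finset.induction_on with
  | empty =>
    rw [Finset.prod_empty, Finset.sum_empty]
    exact hd_one
  | insert a s ha ih =>
    rw [Finset.prod_insert ha, Finset.sum_insert ha]
    exact hd_mul (h a (Finset.mem_insert_self a s))
      (ih fun i hi => h i (Finset.mem_insert_of_mem hi))

lemma hd_cv {n a : ℕ} (i : Fin (n + 1)) :
    Hd (cv (fun p => (X p : MvPolynomial (Fin a × Fin (n + 1)) A)) i) 1 := by
  refine hd_sum _ _ _ fun j _ => ?_
  intro l
  rw [Polynomial.coeff_C_mul_X_pow]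
  split_ifs with hl
  · exact isHomogeneous_X A _
  · exact isHomogeneous_zero _ A 1

lemma hd_onC {σ : Type} {d : ℕ} (F : MvPolynomial σ A) (hF : F.IsHomogeneous d)
    (f : σ → Polynomial (MvPolynomial τ A)) (hf : ∀ i, Hd (f i) 1) :
    Hd (onC (F.map C) f) d := by
  unfold onC
  rw [eval₂_map, eval₂_eq]
  refine hd_sum _ _ _ fun m hm => ?_
  have h1 : Hd (∏ i ∈ m.support, f i ^ m i) (∑ i ∈ m.support, m i) :=
    hd_prod _ _ _ fun i _ => by
      have h := hd_pow (hf i) (m i)
      rwa [mul_one] at h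
  have h2 : ∑ i ∈ m.support, m i = d := by
    have h := hF (mem_support_iff.mp hm)
    rw [← h, Finsupp.weight_apply, Finsupp.sum]
    exact Finset.sum_congr rfl fun i _ => by simp
  rw [h2] at h1
  have h3 := hd_mul (hd_C (τ := τ) (coeff m F)) h1
  rw [zero_add] at h3
  exact h3

lemma map_cv {n a : ℕ} {B B' : Type} [CommRing B] [CommRing B'] (φ : B →+* B')
    (z : Fin a × Fin (n + 1) → B) (i : Fin (n + 1)) :
    (cv z i).map φ = cv (fun p => φ (z p)) i := by
  unfold cv
  rw [Polynomial.map_sum]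
  exact Finset.sum_congr rfl fun j _ => by
    rw [Polynomial.map_mul, Polynomial.map_pow, Polynomial.map_X, Polynomial.map_C]

end QC_

open QC_ in
/-- QC -/
theorem p_QC : T_QC := by
  intro κ _ n d a F hF
  refine ⟨(onC (F.map C) (cv (fun p => (X p : MvPolynomial (Fin a × Fin (n + 1)) κ)))).natDegree
    + 1, fun l => (onC (F.map C)
      (cv (fun p => (X p : MvPolynomial (Fin a × Fin (n + 1)) κ)))).coeff l, fun _ => d,
    fun l => hd_onC F hF _ (fun i => hd_cv i) l, ?_⟩
  intro L _ _ z
  have h1 : onC (F.map (algebraMap κ L)) (cv z) =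
      (onC (F.map C) (cv (fun p => (X p : MvPolynomial (Fin a × Fin (n + 1)) κ)))).map
        (aeval z : MvPolynomial (Fin a × Fin (n + 1)) κ →ₐ[κ] L).toRingHom := by
    rw [← onC_map, map_map]
    have e1 : ((aeval z : MvPolynomial (Fin a × Fin (n + 1)) κ →ₐ[κ] L).toRingHom).comp C =
        algebraMap κ L := by
      ext x
      simp
    have e2 : (fun i => (cv (fun p => (X p : MvPolynomial (Fin a × Fin (n + 1)) κ)) i).map
        (aeval z : MvPolynomial (Fin a × Fin (n + 1)) κ →ₐ[κ] L).toRingHom) = cv z := by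
      funext i
      rw [map_cv]
      congr 1
      funext p
      simp
    rw [e1, e2]
  rw [h1, Polynomial.ext_iff]
  constructor
  · intro h l
    rw [Polynomial.coeff_map, Polynomial.coeff_zero]
    by_cases hl : l < (onC (F.map C)
        (cv (fun p => (X p : MvPolynomial (Fin a × Fin (n + 1)) κ)))).natDegree + 1
    · exact h ⟨l, hl⟩
    · rw [Polynomial.coeff_eq_zero_of_natDegree_lt (by omega), map_zero]
  · intro h l
    have h2 := h l
    rw [Polynomial.coeff_map, Polynomial.coeff_zero] at h2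
    exact h2

end Pool.Agent.FCV
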