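import Pool.Agent.FCV.TargetsM

/-!
# FCV: descent of very free curves in a simple extension
-/

set_option autoImplicit false

open MvPolynomial

namespace Pool.Agent.FCV

namespace ST1_

section cg

variable {σ A : Type} [CommRing A] {c e : ℕ} {f₀ : σ → Polynomial A}
  {N : Fin e → σ → Polynomial A}

theorem cg_coeff_zero (i : σ) : (cg c e f₀ N i).coeff 0 = f₀ i := by
  simp [cg]

theorem cg_coeff_succ (i : σ) (j : Fin e) :
    (cg c e f₀ N i).coeff ((j : ℕ) + 1) = Polynomial.X ^ c * N j i := by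
  unfold cg
  rw [Polynomial.coeff_add, Polynomial.finsetSum_coeff, Polynomial.coeff_C_succ, zero_add,
    Finset.sum_eq_single j]
  · rw [Polynomial.coeff_C_mul_X_pow, if_pos rfl]
  · intro k _ hk
    rw [Polynomial.coeff_C_mul_X_pow, if_neg]
    intro h
    apply hk
    ext
    omega
  · intro h
    exact absurd (Finset.mem_univ j) h

theorem cg_coeff_big (i : σ) {k : ℕ} (hk : e < k) : (cg c e f₀ N i).coeff k = 0 := by
  unfold cg
  obtain ⟨k, rfl⟩ : ∃ l, k = l + 1 := ⟨k - 1, by omega⟩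
  rw [Polynomial.coeff_add, Polynomial.finsetSum_coeff, Polynomial.coeff_C_succ, zero_add]
  refine Finset.sum_eq_zero fun j _ => ?_
  rw [Polynomial.coeff_C_mul_X_pow, if_neg]
  have := j.2
  omega

theorem cg_natDegree (i : σ) : (cg c e f₀ N i).natDegree ≤ e :=
  Polynomial.natDegree_le_iff_coeff_eq_zero.2 fun _ hk => cg_coeff_big i hk

end cg

/-- constant curves -/
theorem onC_const {σ A : Type} [CommRing A] (F : MvPolynomial σ A) (x : σ → A) :
    onC F (fun i => Polynomial.C (x i)) = Polynomial.C (eval x F) := by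
  have h := MvPolynomial.eval₂_comp_left (Polynomial.C : A →+* Polynomial A)
    (RingHom.id A) x F
  rw [RingHom.comp_id] at h
  exact h.symm

/-- evaluation after a change of the coefficients -/
theorem eval_mp {σ A B : Type} [CommRing A] [CommRing B] (φ : A →+* B) (F : MvPolynomial σ A)
    (x : σ → A) : eval (fun i => φ (x i)) (F.map φ) = φ (eval x F) := by
  have h := MvPolynomial.eval₂_comp_left φ (RingHom.id A) x F
  rw [RingHom.comp_id] at h
  rw [MvPolynomial.eval_map]
  exact h.symm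

/-- the value at the origin -/
theorem onC_eval_zero {σ A : Type} [CommRing A] (F : MvPolynomial σ A)
    (f : σ → Polynomial A) : (onC F f).eval 0 = eval (fun i => (f i).coeff 0) F := by
  unfold onC
  have h := MvPolynomial.eval₂_comp_left (Polynomial.evalRingHom (0 : A))
    (Polynomial.C : A →+* Polynomial A) f F
  rw [Polynomial.coe_evalRingHom] at h
  rw [h]
  have h1 : (Polynomial.evalRingHom (0 : A)).comp Polynomial.C = RingHom.id A := by
    ext a; simp
  rw [h1]
  have h2 : (Polynomial.eval (0 : A) ∘ f) = fun i => (f i).coeff 0 := by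
    funext i
    simp [Polynomial.coeff_zero_eq_eval_zero]
  rw [h2]
  rfl

end ST1_

open ST1_ in
theorem p_ST1 (hTI : T_TI) (hLS : T_LS) (hCMB : T_CMB) (hVFG : T_VFG) (hGVAL : T_GVAL)
    (hREV : T_REV) (hBDM : T_BDM) : T_ST1 := by
  intro E _ hNP n d F hd hF m _ hm hm2 x hex
  obtain ⟨e, f, hf⟩ := hex
  have he := hf.two
  obtain ⟨ρ, hρ⟩ : ∃ ρ, m.natDegree = ρ + 1 := ⟨m.natDegree - 1, by omega⟩
  have hρ1 : 1 ≤ ρ := by omega
  -- lifts of the coefficients
  have hlift : ∀ a : AdjoinRoot m, ∃ q : Polynomial E, AdjoinRoot.mk m q = a ∧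
      q.degree < ((ρ + 1 : ℕ) : WithBot ℕ) := by
    intro a
    obtain ⟨q, rfl⟩ := AdjoinRoot.mk_surjective a
    refine ⟨q %ₘ m, ?_, ?_⟩
    · exact AdjoinRoot.mk_leftInverse hm (AdjoinRoot.mk m q) ▸ rfl
    · rw [← hρ, ← Polynomial.degree_eq_natDegree hm.ne_zero]
      exact Polynomial.degree_modByMonic_lt q hm
  choose lf hlf1 hlf2 using hlift
  set f₀ : Fin (n + 1) → Polynomial E := fun i => Polynomial.C (x i) with hf₀
  set N₀ : Fin e → Fin (n + 1) → Polynomial E := fun j i => lf ((f i).coeff ((j : ℕ) + 1))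
    with hN₀
  have hNdeg : ∀ j i, (N₀ j i).degree < ((ρ + 1 : ℕ) : WithBot ℕ) := fun j i => hlf2 _
  have hNnat : ∀ j i, (N₀ j i).natDegree ≤ ρ := fun j i => by
    have := hNdeg j i
    by_cases h0 : N₀ j i = 0
    · rw [h0]; simp
    · rw [Polynomial.degree_eq_natDegree h0] at this
      have h2 : (N₀ j i).natDegree < ρ + 1 := by exact_mod_cast this
      omega
  have hmap : ∀ i, (cg 0 e f₀ N₀ i).map (AdjoinRoot.mk m) = f i := by
    intro i
    ext k
    rw [Polynomial.coeff_map]
    rcases Nat.eq_zero_or_pos k with rfl | hk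
    · rw [cg_coeff_zero, hf.pt i]
      exact (AdjoinRoot.algebraMap_eq m ▸ rfl)
    · by_cases hke : k ≤ e
      · have h1 : k = ((⟨k - 1, by omega⟩ : Fin e) : ℕ) + 1 := by simp; omega
        rw [h1, cg_coeff_succ, pow_zero, one_mul]
        exact hlf1 _
      · rw [cg_coeff_big i (not_le.1 hke), map_zero,
          Polynomial.coeff_eq_zero_of_natDegree_lt ((hf.deg i).trans_lt (not_le.1 hke))]
  have hinj : Function.Injective (algebraMap E (AdjoinRoot m)) := (algebraMap E _).injective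
  have hxF : eval x F = 0 := by
    apply hinj
    have h1 := congrArg (Polynomial.eval 0) hf.zero
    rw [onC_eval_zero, Polynomial.eval_zero] at h1
    rw [map_zero, ← h1]
    have h2 : (fun i => (f i).coeff 0) = fun i => algebraMap E (AdjoinRoot m) (x i) :=
      funext hf.pt
    rw [h2, eval_mp]
  obtain ⟨i₀, hi₀⟩ : ∃ i, eval x (pderiv i F) ≠ 0 := by
    by_contra hcon
    push Not at hcon
    obtain ⟨u, -, hu⟩ := hf.sur 1 (by
      rw [Polynomial.degree_one]
      have : 0 < d * e - 1 := by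
        have : 2 * 2 ≤ d * e := Nat.mul_le_mul hd he
        omega
      exact_mod_cast this)
    have h1 := congrArg (Polynomial.eval 0) hu
    rw [Polynomial.eval_one, Polynomial.eval_finsetSum] at h1
    have h2 : ∀ i ∈ Finset.univ, Polynomial.eval 0 (u i * onC (pderiv i (F.map
        (algebraMap E (AdjoinRoot m)))) f) = 0 := by
      intro i _
      rw [Polynomial.eval_mul, onC_eval_zero, pderiv_map]
      have h3 : (fun i => (f i).coeff 0) = fun i => algebraMap E (AdjoinRoot m) (x i) :=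
        funext hf.pt
      have h4 : eval (fun i => algebraMap E (AdjoinRoot m) (x i))
          ((pderiv i F).map (algebraMap E (AdjoinRoot m))) =
          algebraMap E (AdjoinRoot m) (eval x (pderiv i F)) := eval_mp _ _ _
      rw [h3, h4, hcon i, map_zero, mul_zero]
    rw [Finset.sum_eq_zero h2] at h1
    exact zero_ne_one h1
  have hpd : ∀ i, onC (pderiv i F) f₀ = Polynomial.C (eval x (pderiv i F)) := fun i =>
    onC_const _ _
  have hhandle : ∀ b : ℕ, Sur F f₀ b b := by
    intro b H hH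
    refine ⟨fun i => if i = i₀ then Polynomial.C (eval x (pderiv i₀ F))⁻¹ * H else 0, ?_, ?_⟩
    · intro i
      by_cases h : i = i₀
      · simp only [h, if_true]
        refine lt_of_le_of_lt ?_ hH
        calc (Polynomial.C (eval x (pderiv i₀ F))⁻¹ * H).degree
            ≤ (Polynomial.C (eval x (pderiv i₀ F))⁻¹).degree + H.degree :=
              Polynomial.degree_mul_le _ _
          _ ≤ 0 + H.degree := by gcongr; exact Polynomial.degree_C_le
          _ = H.degree := zero_add _
      · simp only [h, if_false, Polynomial.degree_zero]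
        exact lt_of_le_of_ne bot_le (by simp)
    · rw [Finset.sum_eq_single i₀]
      · dsimp only
        rw [if_pos rfl, hpd, mul_right_comm, ← Polynomial.C_mul, inv_mul_cancel₀ hi₀,
          Polynomial.C_1, one_mul]
      · intro i _ h
        dsimp only
        rw [if_neg h, zero_mul]
      · intro h
        exact absurd (Finset.mem_univ _) h
  have hTI' := hTI E n (e - 1) (d * e - 1) F m (cg 0 e f₀ N₀) hm
  simp only [hmap] at hTI'
  have hdvd := hTI'.1 hf.zero
  have hBD : ∀ i, BD (cg 0 e f₀ N₀ i) e 0 ρ := by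
    intro i
    refine ⟨cg_natDegree i, fun k => ?_⟩
    rcases Nat.eq_zero_or_pos k with rfl | hk
    · rw [cg_coeff_zero, hf₀]; simp
    · by_cases hke : k ≤ e
      · have h1 : k = ((⟨k - 1, by omega⟩ : Fin e) : ℕ) + 1 := by simp; omega
        have h2 : ((cg 0 e f₀ N₀ i).coeff k).natDegree ≤ ρ := by
          rw [h1, cg_coeff_succ, pow_zero, one_mul]
          exact hNnat _ _
        nlinarith
      · rw [cg_coeff_big i (not_le.1 hke)]; simp
  have hc1 : (onC (F.map Polynomial.C) (cg 0 e f₀ N₀)).coeff 1 = 0 := by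
    have h1 := hBDM (Fin (n + 1)) E (F.map Polynomial.C) d
      (fun μ => by rw [coeff_map]; simp) (hF.map _) (cg 0 e f₀ N₀) e 0 ρ hBD
    have h2 := h1.2 1
    have h3 : m ∣ (onC (F.map Polynomial.C) (cg 0 e f₀ N₀)).coeff 1 :=
      (Polynomial.C_dvd_iff_dvd_coeff _ _).1 hdvd 1
    refine Polynomial.eq_zero_of_dvd_of_natDegree_lt h3 ?_
    rw [hρ]
    omega
  have hLS' : ∀ s1 : ℕ, (s1 = 1 ∨ (s1 = 0 ∧ 1 ≤ ρ)) →
      LSur F d 0 ρ e s1 m 0 (cg 0 e f₀ N₀) := by
    intro s1 hs1
    refine hLS E n d 0 ρ e s1 F m (cg 0 e f₀ N₀) (by omega) (by omega) hF hm hρ hs1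
      (fun i => cg_natDegree i) (fun i => ?_) (fun i j hj => ?_) ?_ (hTI'.2 hf.sur)
    · rw [cg_coeff_zero, hf₀]; simp
    · by_cases hke : j ≤ e
      · have h1 : j = ((⟨j - 1, by omega⟩ : Fin e) : ℕ) + 1 := by simp; omega
        rw [h1, cg_coeff_succ, pow_zero, one_mul, zero_add]
        exact hNnat _ _
      · rw [cg_coeff_big i (not_le.1 hke)]; simp
    · have h1 : (fun i => (cg 0 e f₀ N₀ i).coeff 0) = f₀ := funext fun i => cg_coeff_zero i
      rw [h1, mul_zero, zero_add]
      exact hhandle _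
  have hf₀d : ∀ i, (f₀ i).natDegree ≤ 0 := fun i => by rw [hf₀]; simp
  obtain ⟨θ, N, P, hθ, hN, hEq, -, hL⟩ := hCMB E hNP n d 0 ρ e F m f₀ N₀ (by omega) (by omega)
    hF hm hρ (Or.inl rfl) hf₀d hNdeg (by rw [hf₀, onC_const, hxF, Polynomial.C_0]) hdvd hc1
    (hLS' 1 (Or.inl rfl))
  have hL0 := hL hρ1 (hLS' 0 (Or.inr ⟨rfl, hρ1⟩))
  obtain ⟨hz, hS⟩ := hVFG E n d 0 ρ e 0 F m θ (cg 0 e f₀ N) P (by omega) (by omega) hF hm hρ
    (Or.inr ⟨rfl, hρ1⟩) hθ (fun i => cg_natDegree i) hEq
  have hS0 := hS hL0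
  have hG := hGVAL E n 0 ρ e m θ f₀ N hm hρ hf₀d hN
  simp only [zero_add, mul_zero, add_zero] at hG hS0
  refine ⟨(ρ + 1) * e, _, hREV E n d ((ρ + 1) * e) F x (cG m θ e (cg 0 e f₀ N)) (by omega) hF
    ?_ (fun i => (hG i).1) hz (fun i => ?_) hS0⟩
  · nlinarith
  · rw [(hG i).2.1, hf₀]; simp

end Pool.Agent.FCV
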