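import Pool.Agent.FCV.Defs

/-!
# Free curves on hypersurfaces: targets, part G (very free curves over algebraically closed fields)
-/

set_option autoImplicit false

open MvPolynomial

namespace Pool.Agent.FCV

open Pool.Agent.WA (SmoothForm)

/-! ## Cones -/

/-- The cone of curves is closed. -/
def T_QC : Prop := ∀ (κ : Type) [Field κ] (n d a : ℕ) (F : MvPolynomial (Fin (n + 1)) κ),
  F.IsHomogeneous d → ∃ (m : ℕ) (h : Fin m → MvPolynomial (Fin a × Fin (n + 1)) κ)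
    (e : Fin m → ℕ), (∀ i, (h i).IsHomogeneous (e i)) ∧
    ∀ (L : Type) [Field L] [Algebra κ L] (z : Fin a × Fin (n + 1) → L),
      (∀ i, aeval z (h i) = 0) ↔ onC (F.map (algebraMap κ L)) (cv z) = 0

/-- The cone `NL` is closed. -/
def T_NLC : Prop := ∀ (κ : Type) [Field κ] (n d a b : ℕ) (F : MvPolynomial (Fin (n + 1)) κ)
  (lam : Polynomial κ →ₗ[κ] κ), 1 ≤ d → 1 ≤ a → F.IsHomogeneous d →
  ∃ (m : ℕ) (h : Fin m → MvPolynomial (Fin a × Fin (n + 1)) κ) (e : Fin m → ℕ),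
    (∀ i, (h i).IsHomogeneous (e i)) ∧
    ∀ (L : Type) [Field L] [Algebra κ L] (lam' : Polynomial L →ₗ[L] L),
    (∀ j < (d - 1) * (a - 1) + b, lam' (Polynomial.X ^ j) =
      algebraMap κ L (lam (Polynomial.X ^ j))) → ∀ z : Fin a × Fin (n + 1) → L,
    (∀ i, aeval z (h i) = 0) ↔ z ∈ NL (F.map (algebraMap κ L)) lam' a b

/-- Base change for `Cut`. -/
def T_CBC : Prop := ∀ (κ τ : Type) [Field κ] [IsAlgClosed κ] [Fintype τ] (m r : ℕ)
  (h : Fin r → MvPolynomial τ κ) (e : Fin r → ℕ) (l : Fin m → τ → κ),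
  (∀ i, (h i).IsHomogeneous (e i)) →
  (∀ z : τ → κ, (∀ i, eval z (h i) = 0) → (∀ s, ∑ t, l s t * z t = 0) → z = 0) →
  ∀ (L : Type) [Field L] [Algebra κ L] (z : τ → L), (∀ i, aeval z (h i) = 0) →
    (∀ s, ∑ t, algebraMap κ L (l s t) * z t = 0) → z = 0

/-- Points of a cone that is cut by `m` linear forms have transcendence degree at most `m`. -/
def T_CAL : Prop := ∀ (κ τ : Type) [Field κ] [IsAlgClosed κ] [Fintype τ] (m r : ℕ)
  (h : Fin r → MvPolynomial τ κ) (e : Fin r → ℕ), (∀ i, (h i).IsHomogeneous (e i)) →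
  Cut {z : τ → κ | ∀ i, eval z (h i) = 0} m →
  ∀ (Ω : Type) [Field Ω] [Algebra κ Ω] (z : τ → Ω), (∀ i, aeval z (h i) = 0) → AlgLe κ z m

/-- If `m` linear forms are not enough there is a point of transcendence degree larger than `m`. -/
def T_GNN : Prop := ∀ (κ τ : Type) [Field κ] [IsAlgClosed κ] [Fintype τ] (m r : ℕ)
  (h : Fin r → MvPolynomial τ κ) (e : Fin r → ℕ), (∀ i, (h i).IsHomogeneous (e i)) →
  ¬ Cut {z : τ → κ | ∀ i, eval z (h i) = 0} m →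
  ∃ (Ω : Type) (_ : Field Ω) (_ : IsAlgClosed Ω) (_ : Algebra κ Ω) (z : τ → Ω),
    (∀ i, aeval z (h i) = 0) ∧ ¬ AlgLe κ z m

/-- Generic points with prescribed specialisation, algebraic version. -/
def T_HT2 : Prop := ∀ (k : Type) [Field k] (σ : Type) [Fintype σ] (P : σ → k)
  (f : Finset (MvPolynomial σ k)), (∀ g ∈ f, eval P g = 0) →
  ∃ (L : Type) (_ : Field L) (_ : IsAlgClosed L) (_ : Algebra k L) (z : σ → L),
    (∀ g ∈ f, aeval z g = 0) ∧ (∀ g : MvPolynomial σ k, aeval z g = 0 → eval P g = 0) ∧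
    ∀ m : ℕ, AlgLe k z m → Fintype.card σ ≤ m + f.card

/-- Torus degeneration: a closed cone of curves which contains no curve divisible by `τ ^ μ`
is not larger than the cone of curves of degree less than `μ`. -/
def T_DEGE : Prop := ∀ (κ : Type) [Field κ] [IsAlgClosed κ] (n d a μ m : ℕ)
  (F : MvPolynomial (Fin (n + 1)) κ) (N : Set (Fin a × Fin (n + 1) → κ)),
  F.IsHomogeneous d → ACone N → N ⊆ Qset F a →
  (∀ z ∈ N, (∀ (j : Fin a) (i : Fin (n + 1)), (j : ℕ) < μ → z (j, i) = 0) → z = 0) →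
  Cut (Qset F μ) m → Cut N m

/-- Subadditivity. -/
def T_SUB : Prop := ∀ (κ : Type) [Field κ] [IsAlgClosed κ] (n d a μ m m' : ℕ) (α : κ)
  (F : MvPolynomial (Fin (n + 1)) κ) (N : Set (Fin a × Fin (n + 1) → κ)),
  F.IsHomogeneous d → ACone N → N ⊆ Qset F a → Cut (Qset F μ) m →
  Cut {z | z ∈ N ∧ ∀ i, (Polynomial.X - Polynomial.C α) ^ μ ∣ cv z i} m' → Cut N (m + m')

/-! ## Functionals -/

/-- The annihilator of a functional. -/
def T_ANN : Prop := ∀ (κ : Type) [Field κ] [IsAlgClosed κ] (lam : Polynomial κ →ₗ[κ] κ)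
  (N c h : ℕ) (G H : Polynomial κ), G ≠ 0 → G.natDegree ≤ c →
  (∀ g : Polynomial κ, g.degree < ((N - c : ℕ) : WithBot ℕ) → lam (G * g) = 0) →
  (1 ≤ c → Nondeg lam N (c - 1)) → H.natDegree ≤ h →
  (∀ g : Polynomial κ, g.degree < ((N - h : ℕ) : WithBot ℕ) → lam (H * g) = 0) → c + h ≤ N →
  ∃ Q : Polynomial κ, H = Q * G ∧ (Q = 0 ∨ Q.natDegree + c ≤ h)

/-- The functional multiplied by a power of a general linear polynomial. -/
def T_MUL : Prop := ∀ (κ : Type) [Field κ] [IsAlgClosed κ] (lam : Polynomial κ →ₗ[κ] κ)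
  (N c c' M : ℕ), Nondeg lam N c → c' ≤ c → 2 * (c' + M) ≤ N →
  ∃ S : Finset κ, ∀ α, α ∉ S → Nondeg (lam ∘ₗ LinearMap.mulLeft κ
    ((Polynomial.X - Polynomial.C α) ^ M)) (N - M) c'

/-- Bound for the curves with gradients killed by a fixed functional. -/
def T_NLB : Prop := ∀ (κ : Type) [Field κ] [IsAlgClosed κ] (n d : ℕ)
  (F : MvPolynomial (Fin (n + 1)) κ), 2 ≤ d → F.IsHomogeneous d → SmoothForm F →
  ∀ (μ m a b c k : ℕ) (lam : Polynomial κ →ₗ[κ] κ), 1 ≤ μ → Cut (Qset F μ) m → 1 ≤ k →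
  k * μ + 1 ≤ a → Nondeg lam ((d - 1) * (a - 1) + b) c → (d - 1) * (a - 1 - k * μ) ≤ c →
  (d - 1) * (a - 1) ≤ b + (k - 1) * ((d - 1) * μ) → Cut (NL F lam a b) (k * m)

/-! ## Curves -/

/-- Removal of the base points of a curve. -/
def T_GCD : Prop := ∀ (κ Ω : Type) [Field κ] [Field Ω] [IsAlgClosed Ω] [Algebra κ Ω]
  (n d a : ℕ) (F : MvPolynomial (Fin (n + 1)) κ) (z : Fin a × Fin (n + 1) → Ω),
  F.IsHomogeneous d → z ≠ 0 → onC (F.map (algebraMap κ Ω)) (cv z) = 0 →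
  ∃ (a' : ℕ) (z' : Fin a' × Fin (n + 1) → Ω), 1 ≤ a' ∧ a' ≤ a ∧
    onC (F.map (algebraMap κ Ω)) (cv z') = 0 ∧ (∀ α : Ω, ∃ i, (cv z' i).eval α ≠ 0) ∧
    (∃ i, (cv z' i).coeff (a' - 1) ≠ 0) ∧
    (∀ m, AlgLe κ z' m → AlgLe κ z (m + (a - a'))) ∧
    ∀ x : Fin (n + 1) → Ω, x ≠ 0 → (∀ i, (cv z i).coeff (a - 1) = x i) →
      ∀ i, (cv z' i).coeff (a' - 1) = x i

/-- Curves without base points that are not free. -/
def T_NFR : Prop := ∀ (Ω : Type) [Field Ω] [IsAlgClosed Ω] (n d a b : ℕ)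
  (F : MvPolynomial (Fin (n + 1)) Ω) (z : Fin a × Fin (n + 1) → Ω), 2 ≤ d →
  F.IsHomogeneous d → SmoothForm F → onC F (cv z) = 0 → (∀ α : Ω, ∃ i, (cv z i).eval α ≠ 0) →
  (∃ i, (cv z i).coeff (a - 1) ≠ 0) → ¬ Sur F (cv z) b ((d - 1) * (a - 1) + b) →
  ∃ lam : Polynomial Ω →ₗ[Ω] Ω, z ∈ NL F lam a b ∧ Nondeg lam ((d - 1) * (a - 1) + b) b ∧
    ∃ j < (d - 1) * (a - 1) + b, lam (Polynomial.X ^ j) = 1

/-- The transcendence degree of curves that are not free. -/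
def T_NFD : Prop := ∀ (κ : Type) [Field κ] [IsAlgClosed κ] (n d : ℕ)
  (F : MvPolynomial (Fin (n + 1)) κ), 2 ≤ d → F.IsHomogeneous d → SmoothForm F →
  ∀ (μ m a b k : ℕ), 1 ≤ μ → Cut (Qset F μ) m → 1 ≤ k → k * μ + 1 ≤ a →
  (d - 1) * (a - 1 - k * μ) ≤ b → (d - 1) * (a - 1) ≤ b + (k - 1) * ((d - 1) * μ) →
  ∀ (Ω : Type) [Field Ω] [IsAlgClosed Ω] [Algebra κ Ω] (z : Fin a × Fin (n + 1) → Ω),
  onC (F.map (algebraMap κ Ω)) (cv z) = 0 → (∀ α : Ω, ∃ i, (cv z i).eval α ≠ 0) →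
  (∃ i, (cv z i).coeff (a - 1) ≠ 0) →
  ¬ Sur (F.map (algebraMap κ Ω)) (cv z) b ((d - 1) * (a - 1) + b) →
  AlgLe κ z ((d - 1) * (a - 1) + b - 1 + k * m)

/-- The transcendence degree of free curves. -/
def T_FRD : Prop := ∀ (κ Ω : Type) [Field κ] [Field Ω] [Algebra κ Ω] (n d a : ℕ)
  (F : MvPolynomial (Fin (n + 1)) κ) (z : Fin a × Fin (n + 1) → Ω), 1 ≤ a →
  F.IsHomogeneous d → onC (F.map (algebraMap κ Ω)) (cv z) = 0 →
  Sur (F.map (algebraMap κ Ω)) (cv z) a (d * (a - 1) + 1) →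
  ∃ m, AlgLe κ z m ∧ m + (d * (a - 1) + 1) ≤ (n + 1) * a

/-- More sections. -/
def T_SUP : Prop := ∀ (k : Type) [Field k] (n d e : ℕ) (F : MvPolynomial (Fin (n + 1)) k)
  (f : Fin (n + 1) → Polynomial k), 1 ≤ d → F.IsHomogeneous d → (∀ i, (f i).natDegree ≤ e) →
  (2 ≤ e → 2 ≤ d → Sur F f (e - 1) (d * e - 1) → Sur F f e (d * e)) ∧
  (1 ≤ e → Sur F f e (d * e) → Sur F f (e + 1) (d * e + 1))

/-- The dimension of the cone of curves. -/
def T_DIM : Prop := ∀ (κ : Type) [Field κ] [IsAlgClosed κ] (n d : ℕ)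
  (F : MvPolynomial (Fin (n + 1)) κ), 2 ≤ d → d ^ 2 ≤ n → F.IsHomogeneous d → SmoothForm F →
  ∃ μ m : ℕ, 1 ≤ μ ∧ Cut (Qset F μ) m ∧ d * m ≤ (d * (n + 1 - d) + 1) * μ

/-- Very free curves through every point, over some extension. -/
def T_VFO : Prop := ∀ (κ : Type) [Field κ] [IsAlgClosed κ] (n d : ℕ)
  (F : MvPolynomial (Fin (n + 1)) κ), 2 ≤ d → d ^ 2 ≤ n → F.IsHomogeneous d → SmoothForm F →
  ∀ x : Fin (n + 1) → κ, x ≠ 0 → eval x F = 0 →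
  ∃ (Ω : Type) (_ : Field Ω) (_ : Algebra κ Ω) (e : ℕ) (f : Fin (n + 1) → Polynomial Ω), 2 ≤ e ∧
    (∀ i, (f i).natDegree ≤ e) ∧ onC (F.map (algebraMap κ Ω)) f = 0 ∧
    (∀ i, (f i).coeff e = algebraMap κ Ω (x i)) ∧
    Sur (F.map (algebraMap κ Ω)) f (e - 1) (d * e - 1)

/-- Descent of curves with many sections to an algebraically closed field. -/
def T_DSC : Prop := ∀ (κ : Type) [Field κ] [IsAlgClosed κ] (n d e a b : ℕ)
  (F : MvPolynomial (Fin (n + 1)) κ) (x : Fin (n + 1) → κ) (Ω : Type) [Field Ω] [Algebra κ Ω]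
  (f : Fin (n + 1) → Polynomial Ω), (∀ i, (f i).natDegree ≤ e) →
  onC (F.map (algebraMap κ Ω)) f = 0 → (∀ i, (f i).coeff e = algebraMap κ Ω (x i)) →
  Sur (F.map (algebraMap κ Ω)) f a b →
  ∃ f' : Fin (n + 1) → Polynomial κ, (∀ i, (f' i).natDegree ≤ e) ∧ onC F f' = 0 ∧
    (∀ i, (f' i).coeff e = x i) ∧ Sur F f' a b

/-- Reversal of a curve. -/
def T_REV : Prop := ∀ (k : Type) [Field k] (n d e : ℕ) (F : MvPolynomial (Fin (n + 1)) k)
  (x : Fin (n + 1) → k) (f : Fin (n + 1) → Polynomial k), 1 ≤ d → F.IsHomogeneous d → 2 ≤ e →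
  (∀ i, (f i).natDegree ≤ e) → onC F f = 0 → (∀ i, (f i).coeff e = x i) →
  Sur F f (e - 1) (d * e - 1) → VF F d x e (fun i => (f i).reflect e)

/-- Very free curves through every point. -/
def T_VFA : Prop := ∀ (κ : Type) [Field κ] [IsAlgClosed κ] (n d : ℕ)
  (F : MvPolynomial (Fin (n + 1)) κ), 2 ≤ d → d ^ 2 ≤ n → F.IsHomogeneous d → SmoothForm F →
  ∀ x : Fin (n + 1) → κ, x ≠ 0 → eval x F = 0 →
  ∃ (e : ℕ) (f : Fin (n + 1) → Polynomial κ), VF F d x e f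

end Pool.Agent.FCV
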