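import Pool.Agent.FCV.Defs2
import Pool.Agent.FCV.TargetsG

/-!
# Free curves on hypersurfaces: targets, part L (smoothing of combs over large fields)
-/

set_option autoImplicit false

open MvPolynomial WithZero
open Pool.Agent.WA Pool.Agent.WL

namespace Pool.Agent.FCV

/-! ## Large fields -/

/-- The implicit function theorem over completions. -/
def T_IFT : Prop := ∀ (k K : Type) [Field k] [IsAlgClosed k] [Field K] [Algebra k K],
  FunField k K → ∀ v : Valuation K ℤᵐ⁰, PlaceOf k v →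
  ∀ (π ι J : Type) [Fintype π] [Fintype ι] [Fintype J] (Φ : J → MvPolynomial (π ⊕ ι) (Compl v))
    (y₀ : π → Compl v) (z₀ : ι → Compl v), (∀ j, eval (Sum.elim y₀ z₀) (Φ j) = 0) →
  (∀ w : J → Compl v, ∃ u : ι → Compl v, ∀ j,
    ∑ i, u i * eval (Sum.elim y₀ z₀) (pderiv (Sum.inr i) (Φ j)) = w j) →
  ∀ θ : ℤᵐ⁰, θ ≠ 0 → ∃ ρ : ℤᵐ⁰, ρ ≠ 0 ∧ ∀ y : π → Compl v, (∀ i, vE v (y i - y₀ i) ≤ ρ) →
    ∃ z : ι → Compl v, (∀ i, vE v (z i - z₀ i) ≤ θ) ∧ ∀ j, eval (Sum.elim y z) (Φ j) = 0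

/-- Completions are large. -/
def T_NPV : Prop := ∀ (k K : Type) [Field k] [IsAlgClosed k] [Field K] [Algebra k K],
  FunField k K → ∀ v : Valuation K ℤᵐ⁰, PlaceOf k v → NP (Compl v)

/-- Natural functions are polynomials. -/
def T_NPN : Prop := ∀ (E : Type) [Field E], NP E ↔ NPN E

/-- Finite extensions of large fields are large. -/
def T_NPF : Prop := ∀ (E E' : Type) [Field E] [Field E'] [Algebra E E'] [FiniteDimensional E E'],
  NP E → NP E'

/-! ## Algebra of combs -/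

/-- Bounds for degrees. -/
def T_BDM : Prop := ∀ (σ A : Type) [CommRing A] (F : MvPolynomial σ (Polynomial A)) (d : ℕ),
  (∀ μ, (F.coeff μ).natDegree ≤ 0) → F.IsHomogeneous d → ∀ (g : σ → Polynomial (Polynomial A))
  (e s ρ : ℕ), (∀ i, BD (g i) e s ρ) → BD (onC F g) (d * e) (d * s) ρ

/-- Surjectivity of the linearisation is an open condition. -/
def T_LOP : Prop := ∀ (E : Type) [Field E] (n d c ρ e s1 : ℕ) (F : MvPolynomial (Fin (n + 1)) E)
  (m : Polynomial E) (θ₀ : E) (g₀ : Fin (n + 1) → Polynomial (Polynomial E)), 1 ≤ d → 1 ≤ e →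
  F.IsHomogeneous d → m.natDegree ≤ ρ + 1 → (s1 = 1 ∨ (s1 = 0 ∧ 1 ≤ ρ)) →
  (∀ i, BD (g₀ i) e c ρ) → LSur F d c ρ e s1 m θ₀ g₀ →
  ∃ D : ∀ (B : Type) [CommRing B] [Algebra E B], B → (Fin (n + 1) → Polynomial (Polynomial B)) → B,
    (∀ (B B' : Type) [CommRing B] [CommRing B'] [Algebra E B] [Algebra E B'] (φ : B →ₐ[E] B')
      (θ : B) (g : Fin (n + 1) → Polynomial (Polynomial B)),
      D B' (φ θ) (fun i => (g i).map (Polynomial.mapRingHom φ.toRingHom)) = φ (D B θ g)) ∧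
    D E θ₀ g₀ ≠ 0 ∧ ∀ (θ : E) (g : Fin (n + 1) → Polynomial (Polynomial E)),
      (∀ i, BD (g i) e c ρ) → D E θ g ≠ 0 → LSur F d c ρ e s1 m θ g

/-- The main system for combs over large fields. -/
def T_CMB : Prop := ∀ (E : Type) [Field E], NP E → ∀ (n d c ρ e : ℕ)
  (F : MvPolynomial (Fin (n + 1)) E) (m : Polynomial E) (f₀ : Fin (n + 1) → Polynomial E)
  (N₀ : Fin e → Fin (n + 1) → Polynomial E), 1 ≤ d → 1 ≤ e → F.IsHomogeneous d → m.Monic →
  m.natDegree = ρ + 1 → (c = 0 ∨ m.coeff 0 ≠ 0) → (∀ i, (f₀ i).natDegree ≤ c) →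
  (∀ j i, (N₀ j i).degree < ((ρ + 1 : ℕ) : WithBot ℕ)) → onC F f₀ = 0 →
  Polynomial.C m ∣ onC (F.map Polynomial.C) (cg c e f₀ N₀) →
  (onC (F.map Polynomial.C) (cg c e f₀ N₀)).coeff 1 = 0 →
  LSur F d c ρ e 1 m 0 (cg c e f₀ N₀) →
  ∃ (θ : E) (N : Fin e → Fin (n + 1) → Polynomial E) (P : Polynomial (Polynomial E)), θ ≠ 0 ∧
    (∀ j i, (N j i).degree < ((ρ + 1 : ℕ) : WithBot ℕ)) ∧
    onC (F.map Polynomial.C) (cg c e f₀ N) =
      (Polynomial.C m * Polynomial.X - Polynomial.C (Polynomial.C θ)) * P ∧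
    LSur F d c ρ e 1 m θ (cg c e f₀ N) ∧
    (1 ≤ ρ → LSur F d c ρ e 0 m 0 (cg c e f₀ N₀) → LSur F d c ρ e 0 m θ (cg c e f₀ N))

/-- Surjectivity for combs. -/
def T_LS : Prop := ∀ (E : Type) [Field E] (n d c ρ e s1 : ℕ) (F : MvPolynomial (Fin (n + 1)) E)
  (m : Polynomial E) (g : Fin (n + 1) → Polynomial (Polynomial E)), 1 ≤ d → 1 ≤ e →
  F.IsHomogeneous d → m.Monic → m.natDegree = ρ + 1 → (s1 = 1 ∨ (s1 = 0 ∧ 1 ≤ ρ)) →
  (∀ i, (g i).natDegree ≤ e) → (∀ i, ((g i).coeff 0).natDegree ≤ c) →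
  (∀ i j, 1 ≤ j → ((g i).coeff j).natDegree ≤ c + ρ) →
  Sur F (fun i => (g i).coeff 0) (ρ + s1) ((d - 1) * c + ρ + s1) →
  (∀ H : Polynomial (Polynomial E), H.degree < ((d * e - 1 : ℕ) : WithBot ℕ) →
    ∃ u : Fin (n + 1) → Polynomial (Polynomial E),
      (∀ i, (u i).degree < ((e - 1 : ℕ) : WithBot ℕ)) ∧
      Polynomial.C m ∣ ∑ i, u i * onC (pderiv i (F.map Polynomial.C)) g - H) →
  LSur F d c ρ e s1 m 0 g

/-- From combs to curves. -/
def T_VFG : Prop := ∀ (E : Type) [Field E] (n d c ρ e s1 : ℕ) (F : MvPolynomial (Fin (n + 1)) E)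
  (m : Polynomial E) (θ : E) (g : Fin (n + 1) → Polynomial (Polynomial E))
  (P : Polynomial (Polynomial E)), 1 ≤ d → 1 ≤ e →
  F.IsHomogeneous d → m.Monic → m.natDegree = ρ + 1 → (s1 = 1 ∨ (s1 = 0 ∧ 1 ≤ ρ)) → θ ≠ 0 →
  (∀ i, (g i).natDegree ≤ e) →
  onC (F.map Polynomial.C) g =
    (Polynomial.C m * Polynomial.X - Polynomial.C (Polynomial.C θ)) * P →
  onC F (cG m θ e g) = 0 ∧ (LSur F d c ρ e s1 m θ g →
    Sur F (cG m θ e g) ((ρ + 1) * e - 1 + s1) ((d - 1) * c + d * ((ρ + 1) * e) - 1 + s1))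

/-- End points of the curves. -/
def T_GVAL : Prop := ∀ (E : Type) [Field E] (n c ρ e : ℕ) (m : Polynomial E) (θ : E)
  (f₀ : Fin (n + 1) → Polynomial E) (N : Fin e → Fin (n + 1) → Polynomial E), m.Monic →
  m.natDegree = ρ + 1 → (∀ i, (f₀ i).natDegree ≤ c) →
  (∀ j i, (N j i).degree < ((ρ + 1 : ℕ) : WithBot ℕ)) →
  ∀ i, (cG m θ e (cg c e f₀ N) i).natDegree ≤ c + (ρ + 1) * e ∧
    (cG m θ e (cg c e f₀ N) i).coeff (c + (ρ + 1) * e) = (f₀ i).coeff c ∧
    (1 ≤ c → (cG m θ e (cg c e f₀ N) i).coeff 0 = m.coeff 0 ^ e * (f₀ i).coeff 0)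

/-- Teeth at a closed point. -/
def T_TI : Prop := ∀ (E : Type) [Field E] (n A B : ℕ) (F : MvPolynomial (Fin (n + 1)) E)
  (m : Polynomial E) (g : Fin (n + 1) → Polynomial (Polynomial E)), m.Monic →
  (onC (F.map (algebraMap E (AdjoinRoot m))) (fun i => (g i).map (AdjoinRoot.mk m)) = 0 →
    Polynomial.C m ∣ onC (F.map Polynomial.C) g) ∧
  (Sur (F.map (algebraMap E (AdjoinRoot m))) (fun i => (g i).map (AdjoinRoot.mk m)) A B →
    ∀ H : Polynomial (Polynomial E), H.degree < (B : WithBot ℕ) →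
    ∃ u : Fin (n + 1) → Polynomial (Polynomial E), (∀ i, (u i).degree < (A : WithBot ℕ)) ∧
      Polynomial.C m ∣ ∑ i, u i * onC (pderiv i (F.map Polynomial.C)) g - H)

/-- Teeth at several rational points. -/
def T_TP : Prop := ∀ (E : Type) [Field E] (n A B : ℕ) (F : MvPolynomial (Fin (n + 1)) E)
  (R : Finset E) (g : Fin (n + 1) → Polynomial (Polynomial E)),
  ((∀ a ∈ R, onC F (fun i => (g i).map (Polynomial.evalRingHom a)) = 0) →
    Polynomial.C (∏ a ∈ R, (Polynomial.X - Polynomial.C a)) ∣ onC (F.map Polynomial.C) g) ∧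
  ((∀ a ∈ R, Sur F (fun i => (g i).map (Polynomial.evalRingHom a)) A B) →
    ∀ H : Polynomial (Polynomial E), H.degree < (B : WithBot ℕ) →
    ∃ u : Fin (n + 1) → Polynomial (Polynomial E), (∀ i, (u i).degree < (A : WithBot ℕ)) ∧
      Polynomial.C (∏ a ∈ R, (Polynomial.X - Polynomial.C a)) ∣
        ∑ i, u i * onC (pderiv i (F.map Polynomial.C)) g - H)

/-! ## Descent to large fields -/

/-- Descent of very free curves in a simple extension. -/
def T_ST1 : Prop := ∀ (E : Type) [Field E], NP E → ∀ (n d : ℕ) (F : MvPolynomial (Fin (n + 1)) E),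
  2 ≤ d → F.IsHomogeneous d → ∀ (m : Polynomial E) [Fact (Irreducible m)], m.Monic →
  2 ≤ m.natDegree → ∀ x : Fin (n + 1) → E,
  (∃ e f, VF (F.map (algebraMap E (AdjoinRoot m))) d
    (fun i => algebraMap E (AdjoinRoot m) (x i)) e f) → ∃ e f, VF F d x e f

/-- Descent of very free curves to large fields. -/
def T_DESC : Prop := ∀ (E : Type) [Field E],
  (∀ (E' : Type) [Field E'] [Algebra E E'] [FiniteDimensional E E'], NP E') →
  ∀ (n d : ℕ) (F : MvPolynomial (Fin (n + 1)) E), 2 ≤ d → F.IsHomogeneous d →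
  ∀ x : Fin (n + 1) → E,
  (∃ e f, VF (F.map (algebraMap E (AlgebraicClosure E))) d
    (fun i => algebraMap E (AlgebraicClosure E) (x i)) e f) → ∃ e f, VF F d x e f

/-- Very free curves over large fields. -/
def T_VFE : Prop := ∀ (E : Type) [Field E],
  (∀ (E' : Type) [Field E'] [Algebra E E'] [FiniteDimensional E E'], NP E') →
  ∀ (n d : ℕ) (F : MvPolynomial (Fin (n + 1)) E), 2 ≤ d → d ^ 2 ≤ n → F.IsHomogeneous d →
  SmoothForm F → ∀ x : Fin (n + 1) → E, x ≠ 0 → eval x F = 0 → ∃ e f, VF F d x e f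

/-! ## Lines with teeth -/

/-- Descent of surjectivity. -/
def T_SBC : Prop := ∀ (σ E L : Type) [Fintype σ] [Field E] [Field L] [Algebra E L]
  (F : MvPolynomial σ E) (f : σ → Polynomial E) (a b : ℕ),
  Sur (F.map (algebraMap E L)) (fun i => (f i).map (algebraMap E L)) a b ↔ Sur F f a b

/-- Surjectivity on lines. -/
def T_REG : Prop := ∀ (E : Type) [Field E] (n d : ℕ) (F : MvPolynomial (Fin (n + 1)) E), 2 ≤ d →
  F.IsHomogeneous d → SmoothForm F → ∀ x y : Fin (n + 1) → E,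
  (∀ a b : E, (∀ i, a * x i + b * y i = 0) → a = 0 ∧ b = 0) → onLine F x y = 0 →
  ∀ a : ℕ, d - 1 ≤ a →
  Sur F (fun i => Polynomial.C (x i) + Polynomial.X * Polynomial.C (y i)) a (a + (d - 1))

/-- Coverings of very free curves. -/
def T_POW : Prop := ∀ (E : Type) [Field E] (n d : ℕ) (F : MvPolynomial (Fin (n + 1)) E)
  (x : Fin (n + 1) → E) (e k : ℕ) (f : Fin (n + 1) → Polynomial E), 2 ≤ d →
  F.IsHomogeneous d → 1 ≤ k → VF F d x e f →
  VF F d x (k * e) (fun i => (f i).comp (Polynomial.X ^ k))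

/-- Scaling of the parameter. -/
def T_SCL : Prop := ∀ (E : Type) [Field E] (n d : ℕ) (F : MvPolynomial (Fin (n + 1)) E)
  (x : Fin (n + 1) → E) (e : ℕ) (f : Fin (n + 1) → Polynomial E) (c : E), c ≠ 0 →
  VF F d x e f → VF F d x e (fun i => (f i).comp (Polynomial.C c * Polynomial.X))

/-- Relations with large support. -/
def T_COL : Prop := ∀ (E V : Type) [Field E] [Infinite E] [AddCommGroup V] [Module E V]
  [FiniteDimensional E V] (s : ℕ) (ρ : Fin s → V), ∃ (R : Finset (Fin s)) (γ : Fin s → E),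
  s ≤ R.card + Module.finrank E V ∧ (∀ i ∈ R, γ i ≠ 0) ∧ ∑ i ∈ R, γ i • ρ i = 0

/-- Lines with sufficiently many very free teeth are deformed to very free curves. -/
def T_ST2 : Prop := ∀ (E : Type) [Field E] [Infinite E], NP E → ∀ (n d : ℕ)
  (F : MvPolynomial (Fin (n + 1)) E), 2 ≤ d → F.IsHomogeneous d → SmoothForm F →
  (∀ x : Fin (n + 1) → E, x ≠ 0 → eval x F = 0 → ∃ e f, VF F d x e f) →
  ∀ x y : Fin (n + 1) → E, (∀ a b : E, (∀ i, a * x i + b * y i = 0) → a = 0 ∧ b = 0) →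
  onLine F x y = 0 → ∃ (α : E) (e : ℕ) (f : Fin (n + 1) → Polynomial E), α ≠ 0 ∧
    FC F d (fun i => α * x i) y e f

/-- Free curves between the points of a line over a completion. -/
def T_LOC : Prop := ∀ (k K : Type) [Field k] [IsAlgClosed k] [Field K] [Algebra k K],
  FunField k K → ∀ v : Valuation K ℤᵐ⁰, PlaceOf k v → ∀ (n d : ℕ)
  (F : MvPolynomial (Fin (n + 1)) (Compl v)), 2 ≤ d → d ^ 2 ≤ n → F.IsHomogeneous d →
  SmoothForm F → ∀ x y : Fin (n + 1) → Compl v,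
  (∀ a b : Compl v, (∀ i, a * x i + b * y i = 0) → a = 0 ∧ b = 0) → onLine F x y = 0 →
  ∃ (α : Compl v) (e : ℕ) (f : Fin (n + 1) → Polynomial (Compl v)), α ≠ 0 ∧
    FC F d (fun i => α * x i) y e f

end Pool.Agent.FCV
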