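import Pool.Agent.FCV.TargetsL

/-!
# Free curves on hypersurfaces: targets, part M (moving along free curves) and part P (points)
-/

set_option autoImplicit false

open MvPolynomial WithZero
open Pool.Agent.WA Pool.Agent.WL

namespace Pool.Agent.FCV

/-! ## Forms on curves -/

/-- The expansion of a form on a curve. -/
def T_BINC : Prop := ∀ (σ A : Type) [CommRing A] (F : MvPolynomial σ A) (d E : ℕ), 1 ≤ E →
  F.IsHomogeneous d → ∀ (ψ : Fin E → σ → A) (η : σ → A),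
  (∀ i, (crv ψ η i).natDegree ≤ E) ∧ (onC F (crv ψ η)).natDegree ≤ d * E ∧
  (onC F (crv ψ η)).coeff (d * E) = eval η F ∧ ∀ α β : A,
  eval (fun i => ∑ j : Fin E, α ^ (E - (j : ℕ)) * β ^ (j : ℕ) * ψ j i + β ^ E * η i) F =
    ∑ j ∈ Finset.range (d * E + 1), α ^ (d * E - j) * β ^ j * (onC F (crv ψ η)).coeff j

/-- The coefficients of a form on a curve as polynomials. -/
def T_GLC : Prop := ∀ (σ A : Type) [Fintype σ] [CommRing A] (F : MvPolynomial σ A) (E l : ℕ)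
  (η : σ → A), ∃ G : MvPolynomial (Fin E × σ) A, ∀ (B : Type) [CommRing B] (φ : A →+* B)
  (u : Fin E × σ → B),
  eval u (G.map φ) =
    (onC (F.map φ) (crv (fun j i => u (j, i)) (fun i => φ (η i)))).coeff l ∧
  ∀ p, eval u (pderiv p (G.map φ)) =
    (onC (pderiv p.2 (F.map φ)) (crv (fun j i => u (j, i)) (fun i => φ (η i))) *
      Polynomial.X ^ (p.1 : ℕ)).coeff l

/-- The same for curves with variable end point. -/
def T_GLD : Prop := ∀ (σ A : Type) [Fintype σ] [CommRing A] (F : MvPolynomial σ A) (E l : ℕ),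
  ∃ G : MvPolynomial (σ ⊕ (Fin E × σ)) A, ∀ (B : Type) [CommRing B] (φ : A →+* B) (η : σ → B)
  (u : Fin E × σ → B),
  eval (Sum.elim η u) (G.map φ) = (onC (F.map φ) (crv (fun j i => u (j, i)) η)).coeff l ∧
  ∀ p, eval (Sum.elim η u) (pderiv (Sum.inr p) (G.map φ)) =
    (onC (pderiv p.2 (F.map φ)) (crv (fun j i => u (j, i)) η) * Polynomial.X ^ (p.1 : ℕ)).coeff l

/-- Free curves by minors. -/
def T_RANKC : Prop := ∀ (σ M : Type) [Fintype σ] [Field M] (F : MvPolynomial σ M) (d E : ℕ),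
  F.IsHomogeneous d → 1 ≤ d → ∀ f : σ → Polynomial M, (∀ i, (f i).natDegree ≤ E) →
  ((∃ S : Fin (d * E) → Fin E × σ, cminor F d E f S ≠ 0) ↔ Sur F f E (d * E))

/-- Scaling of curves. -/
def T_HOMC : Prop := ∀ (σ A : Type) [CommRing A] (F : MvPolynomial σ A) (d E : ℕ),
  F.IsHomogeneous d → ∀ (f : σ → Polynomial A) (α : A),
  onC F (fun i => Polynomial.C α * f i) = Polynomial.C (α ^ d) * onC F f ∧
  ∀ S : Fin (d * E) → Fin E × σ, cminor F d E (fun i => Polynomial.C α * f i) S =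
    α ^ ((d - 1) * (d * E)) * cminor F d E f S

/-! ## The refined system -/

/-- The refined system is given by polynomial equations in the unknowns. -/
def T_SYSFC : Prop := ∀ (k : Type) [Field k] (n d E N M : ℕ)
  (F : MvPolynomial (Fin (n + 1)) (PowerSeries k)) (e : Fin M → PowerSeries k) (O : Finset ℕ),
  1 ≤ d → 1 ≤ E → ∃ f : Finset (MvPolynomial (IdxC n E N M) k),
    f.card ≤ (n + 1) * (E * N) + d * E * N + O.card ∧
    ∀ (L : Type) [Field L] [Algebra k L] (z : IdxC n E N M → L), (∀ g ∈ f, aeval z g = 0) ↔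
      (SysC (upF L F) d E N (psC z) (qC z) (phiC e z) ∧
        ∀ o ∈ O, PowerSeries.coeff o (eval (phiC e z) (upF L F)) = 0)

/-- Solutions of the refined system: the value of the form. -/
def T_STRC : Prop := ∀ (σ A : Type) [CommRing A] (F : MvPolynomial σ (PowerSeries A))
  (d E N : ℕ) (ψ : Fin E → σ → PowerSeries A) (q : PowerSeries A) (φ : σ → PowerSeries A),
  1 ≤ d → 1 ≤ E → F.IsHomogeneous d → SysC F d E N ψ q φ →
  (PowerSeries.X : PowerSeries A) ^ (d * E * N) ∣ eval φ F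

/-- Coefficients of minors are polynomials in the unknowns. -/
def T_MINC : Prop := ∀ (k : Type) [Field k] (n d E N M c : ℕ)
  (F : MvPolynomial (Fin (n + 1)) (PowerSeries k)) (e : Fin M → PowerSeries k)
  (S : Fin (d * E) → Fin E × Fin (n + 1)), ∃ g : MvPolynomial (IdxC n E N M) k,
  ∀ (L : Type) [Field L] [Algebra k L] (z : IdxC n E N M → L), aeval z g =
    PowerSeries.coeff c (cminor (upF L F) d E (crv (psC z) (etaC e z)) S)

/-- Few further equations force the vanishing of the form. -/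
def T_ZRC : Prop := ∀ (k : Type) [Field k] (n d E : ℕ)
  (F : MvPolynomial (Fin (n + 1)) (PowerSeries k)) (δ c : ℕ)
  (V : ℕ → Submodule k (PowerSeries k)), 1 ≤ d → 1 ≤ E → F.IsHomogeneous d → Fam F δ c V →
  ∀ (N m M : ℕ) (e : Fin M → PowerSeries k), (∀ b, e b ∈ V m) →
  ∃ O : Finset ℕ, O.card ≤ δ * (d * m + (d + 1) * c) + c + 1 - d * E * N ∧
    ∀ (L : Type) [Field L] [Algebra k L] (z : IdxC n E N M → L),
    SysC (upF L F) d E N (psC z) (qC z) (phiC e z) →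
    (∀ o ∈ O, PowerSeries.coeff o (eval (phiC e z) (upF L F)) = 0) →
    eval (phiC e z) (upF L F) = 0

/-- The count of the arcs of curves near a free curve. -/
def T_CNTC : Prop := ∀ (k E₀ L : Type) [Field k] [Field E₀] [Field L] [Algebra k E₀]
  [Algebra k L] [Algebra E₀ L] [IsScalarTower k E₀ L] (n d E N c : ℕ)
  (F : MvPolynomial (Fin (n + 1)) (PowerSeries k)) (ψ : Fin E → Fin (n + 1) → PowerSeries L)
  (η : Fin (n + 1) → PowerSeries E₀) (S : Fin (d * E) → Fin E × Fin (n + 1)),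
  (∀ l < d * E, (PowerSeries.X : PowerSeries L) ^ N ∣
    (onC (upF L F) (crv ψ (fun i => up E₀ L (η i)))).coeff l) →
  ¬ (PowerSeries.X : PowerSeries L) ^ (c + 1) ∣
    cminor (upF L F) d E (crv ψ (fun i => up E₀ L (η i))) S →
  ∃ T : Finset L, T.card + d * E * N ≤ E * (n + 1) * N + d * E * (2 * c + 1) ∧
    ∀ j i, ∀ b < N, PowerSeries.coeff b (ψ j i) ∈ IntermediateField.adjoin E₀ (T : Set L)

/-- Moving along a free curve. -/
def T_BC : Prop := ∀ (k : Type) [Field k] [IsAlgClosed k] (n d E : ℕ)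
  (F : MvPolynomial (Fin (n + 1)) (PowerSeries k)) (δ c : ℕ)
  (V : ℕ → Submodule k (PowerSeries k)) (f : Fin (n + 1) → Polynomial (PowerSeries k)) (m₀ : ℕ)
  (S : Fin (d * E) → Fin E × Fin (n + 1)) (p : ℕ → PowerSeries k) (mp : ℕ → ℕ)
  (U : Submodule k (PowerSeries k)) (c' : ℕ),
  1 ≤ d → 1 ≤ E → F.IsHomogeneous d → Fam F δ c V → (∀ i, (f i).natDegree ≤ E) →
  (∀ i, (f i).coeff E ∈ V m₀) → onC F f = 0 → cminor F d E f S ≠ 0 →
  (∀ N, p N ∈ V (mp N) ∧ (PowerSeries.X : PowerSeries k) ^ N ∣ p N ∧ p N ≠ 0 ∧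
    δ * mp N ≤ N + c) →
  (∀ m, Module.finrank k (V m) ≤ Module.finrank k (V m ⊓ U : Submodule k (PowerSeries k)) + c') →
  ∀ e : ℕ, ∃ (N m : ℕ) (φ : Fin (n + 1) → PowerSeries k) (r : ℕ) (q : PowerSeries k),
    (∀ i, φ i ∈ V m) ∧ eval φ F = 0 ∧ PowerSeries.constantCoeff q ≠ 0 ∧
    (∀ i, (PowerSeries.X : PowerSeries k) ^ (r + e) ∣
      φ i - PowerSeries.X ^ r * q * (f i).coeff 0) ∧
    ∀ i, φ i - p N * (f i).coeff E ∈ U

/-! ## Points -/

/-- Moving along a free curve over a completion. -/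
def T_MOVEC : Prop := ∀ (k K : Type) [Field k] [IsAlgClosed k] [Field K] [Algebra k K],
  FunField k K → ∀ (n d r : ℕ) (F : MvPolynomial (Fin (n + 1)) K) (v : Valuation K ℤᵐ⁰)
  (w : Fin r → Valuation K ℤᵐ⁰), PlaceOf k v → (∀ l, PlaceOf k (w l)) → Indep v w → 1 ≤ d →
  F.IsHomogeneous d → ∀ (x : Fin (n + 1) → Compl v) (y : Fin (n + 1) → K) (α : Compl v) (E : ℕ)
  (f : Fin (n + 1) → Polynomial (Compl v)), x ≠ 0 → α ≠ 0 →
  FC (FE v F) d (fun i => α * x i) (fun i => emb v (y i)) E f →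
  ∀ (θ : ℤᵐ⁰) (η : Fin r → ℤᵐ⁰), θ ≠ 0 → (∀ l, η l ≠ 0) → ∃ y' : Fin (n + 1) → K,
    eval y' F = 0 ∧ (∀ i, vE v (emb v (y' i) - x i) ≤ θ) ∧
    ∀ l, ∃ c : K, c ≠ 0 ∧ ∀ i, w l (c * y' i - y i) ≤ η l

/-- Free curves near a free curve. -/
def T_NEARC : Prop := ∀ (k K : Type) [Field k] [IsAlgClosed k] [Field K] [Algebra k K],
  FunField k K → ∀ (n d : ℕ) (F : MvPolynomial (Fin (n + 1)) K) (v : Valuation K ℤᵐ⁰),
  PlaceOf k v → 1 ≤ d → F.IsHomogeneous d → ∀ (x z : Fin (n + 1) → Compl v) (E : ℕ)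
  (f : Fin (n + 1) → Polynomial (Compl v)), FC (FE v F) d x z E f →
  ∀ θ : ℤᵐ⁰, θ ≠ 0 → ∃ ρ : ℤᵐ⁰, ρ ≠ 0 ∧ ∀ y : Fin (n + 1) → Compl v,
    (∀ i, vE v (y i - z i) ≤ ρ) → eval y (FE v F) = 0 →
    ∃ (x' : Fin (n + 1) → Compl v) (f' : Fin (n + 1) → Polynomial (Compl v)),
      (∀ i, vE v (x' i - x i) ≤ θ) ∧ FC (FE v F) d x' y E f'

/-- One more place. -/
def T_STEPC : Prop := ∀ (k K : Type) [Field k] [IsAlgClosed k] [Field K] [Algebra k K],
  FunField k K → C1 K → ∀ (n d r : ℕ) (F : MvPolynomial (Fin (n + 1)) K), 2 ≤ d → d ^ 2 ≤ n →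
  F.IsHomogeneous d → SmoothForm F → ∀ (v : Valuation K ℤᵐ⁰) (w : Fin r → Valuation K ℤᵐ⁰),
  PlaceOf k v → (∀ l, PlaceOf k (w l)) → Indep v w →
  ∀ (x : Fin (n + 1) → Compl v) (y : Fin (n + 1) → K), x ≠ 0 → eval x (FE v F) = 0 →
  y ≠ 0 → eval y F = 0 → ∀ (θ : ℤᵐ⁰) (η : Fin r → ℤᵐ⁰), θ ≠ 0 → (∀ l, η l ≠ 0) →
  ∃ y' : Fin (n + 1) → K, y' ≠ 0 ∧ eval y' F = 0 ∧ (∀ i, vE v (emb v (y' i) - x i) ≤ θ) ∧
    ∀ l, ∃ c : K, c ≠ 0 ∧ ∀ i, w l (c * y' i - y i) ≤ η l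

/-- Weak approximation for smooth forms of degree at least two. -/
def T_WAC : Prop := ∀ (k K : Type) [Field k] [IsAlgClosed k] [Field K] [Algebra k K],
  FunField k K → C1 K → ∀ (n d : ℕ) (F : MvPolynomial (Fin (n + 1)) K), 2 ≤ d → d ^ 2 ≤ n →
  F.IsHomogeneous d → SmoothForm F → ∀ (m : ℕ) (v : Fin m → Valuation K ℤᵐ⁰),
  (∀ j, PlaceOf k (v j)) → (∀ i j, i ≠ j → ¬ (v i).IsEquiv (v j)) →
  ∀ (x : ∀ j, Fin (n + 1) → Compl (v j)), (∀ j, x j ≠ 0 ∧ eval (x j) (FE (v j) F) = 0) →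
  ∀ (U : ∀ j, Set (Fin (n + 1) → Compl (v j))), (∀ j, IsOpen (U j) ∧ x j ∈ U j) →
  ∃ y : Fin (n + 1) → K, y ≠ 0 ∧ eval y F = 0 ∧
    ∀ j, ∃ c : Compl (v j), c ≠ 0 ∧ (fun i => c * emb (v j) (y i)) ∈ U j

end Pool.Agent.FCV
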